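import Mathlib

set_option autoImplicit false
open Filter Topology

namespace Pool.Agent.V11108.AvgShadow

variable {X Y : Type} [MetricSpace X] [CompactSpace X] [MetricSpace Y] [CompactSpace Y]

/-- bound on distances -/
theorem exists_bound (Z : Type) [MetricSpace Z] [CompactSpace Z] :
    ∃ D : ℝ, 1 ≤ D ∧ ∀ x y : Z, dist x y ≤ D := by
  obtain ⟨C, hC⟩ := Metric.isBounded_iff.mp (isCompact_univ (X := Z)).isBounded
  exact ⟨max C 1, le_max_right _ _, fun x y =>
    (hC (Set.mem_univ x) (Set.mem_univ y)).trans (le_max_left _ _)⟩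

theorem count_mult (L k n : ℕ) :
    (∑ i ∈ Finset.range n, (if L ∣ i + k + 1 then 1 else 0 : ℕ)) = (k + n) / L - k / L := by
  induction n with
  | zero => simp
  | succ n ih =>
    rw [Finset.sum_range_succ, ih, ← add_assoc k n 1, Nat.succ_div]
    have h : k / L ≤ (k + n) / L := Nat.div_le_div_right (by omega)
    have e : n + k + 1 = k + n + 1 := by omega
    rw [e]
    split_ifs <;> omega

theorem count_mult_le (L k n : ℕ) (hL : 1 ≤ L) :
    (∑ i ∈ Finset.range n, (if L ∣ i + k + 1 then (1:ℝ) else 0)) ≤ n / L + 1 := by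
  have h1 : (∑ i ∈ Finset.range n, (if L ∣ i + k + 1 then (1:ℝ) else 0))
      = (((k + n) / L - k / L : ℕ) : ℝ) := by
    rw [← count_mult]
    push_cast
    rfl
  rw [h1]
  have h2 : (k + n) / L - k / L ≤ n / L + 1 := by
    have h3 : (k + n) / L ≤ k / L + n / L + 1 := by
      rw [Nat.add_div (by omega)]
      split_ifs
      · exact le_rfl
      · exact Nat.le_succ _
    generalize (k + n) / L = A at *
    generalize k / L = B at *
    generalize n / L = C at *
    omega
  have h4 : (((n / L : ℕ) : ℝ)) ≤ (n:ℝ) / L := Nat.cast_div_le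
  calc (((k + n) / L - k / L : ℕ) : ℝ) ≤ ((n / L + 1 : ℕ) : ℝ) := by exact_mod_cast h2
    _ ≤ _ := by push_cast; linarith

/-- the blockwise genuine orbit -/
def blk (f : X → X) (a : ℕ → X) (L i : ℕ) : X := f^[i % L] (a (i / L))

theorem blk_jump (f : X → X) (a : ℕ → X) (L i : ℕ) (D : ℝ) (hD : ∀ x y : X, dist x y ≤ D) :
    dist (f (blk f a L i)) (blk f a L (i + 1)) ≤ D * (if L ∣ i + 1 then (1:ℝ) else 0) := by
  split_ifs with h
  · rw [mul_one]; exact hD _ _
  · have h1 : (i + 1) / L = i / L := by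
      rw [Nat.succ_div, if_neg h, add_zero]
    have h2 : (i + 1) % L = i % L + 1 := by
      have e1 := Nat.div_add_mod (i + 1) L
      have e2 := Nat.div_add_mod i L
      rw [h1] at e1
      omega
    unfold blk
    rw [h1, h2, Function.iterate_succ_apply']
    simp

/-- small jumps along `r ≤ L` steps imply closeness to the true orbit -/
theorem small_jumps (g : Y → Y) (hg : Continuous g) (L : ℕ) : ∀ ε : ℝ, 0 < ε → ∃ η : ℝ, 0 < η ∧
    ∀ r ≤ L, ∀ (y : ℕ → Y) (s : ℕ), (∀ j < r, dist (g (y (s + j))) (y (s + j + 1)) < η) →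
      dist (y (s + r)) (g^[r] (y s)) < ε := by
  induction L with
  | zero =>
    intro ε hε
    refine ⟨1, one_pos, ?_⟩
    intro r hr y s _
    have : r = 0 := by omega
    subst this
    simpa using hε
  | succ L ih =>
    intro ε hε
    obtain ⟨δ, hδ, hgδ⟩ := Metric.uniformContinuous_iff.mp
      (CompactSpace.uniformContinuous_of_continuous hg) (ε / 2) (by positivity)
    obtain ⟨η, hη, h⟩ := ih (min δ ε) (lt_min hδ hε)
    refine ⟨min η (ε / 2), lt_min hη (by positivity), ?_⟩
    intro r hr y s hj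
    rcases Nat.lt_or_ge r (L + 1) with hlt | hge
    · exact (h r (by omega) y s (fun j hjr => (hj j hjr).trans_le (min_le_left _ _))).trans_le
        (min_le_right _ _)
    · have hrL : r = L + 1 := by omega
      subst hrL
      have h1 := h L le_rfl y s (fun j hjr => (hj j (by omega)).trans_le (min_le_left _ _))
      have h2 := hgδ (h1.trans_le (min_le_left _ _))
      have h3 := (hj L (by omega)).trans_le (min_le_right _ _)
      rw [Function.iterate_succ_apply']
      have h4 : dist (y (s + (L + 1))) (g (g^[L] (y s))) ≤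
          dist (g (y (s + L))) (y (s + L + 1)) + dist (g (y (s + L))) (g (g^[L] (y s))) := by
        rw [dist_comm (g (y (s + L))) (y (s + L + 1))]
        exact dist_triangle _ _ _
      linarith

/-- jumps of a sequence -/
noncomputable def jump (g : Y → Y) (y : ℕ → Y) (i : ℕ) : ℝ := dist (g (y i)) (y (i + 1))

theorem jump_nonneg (g : Y → Y) (y : ℕ → Y) (i : ℕ) : 0 ≤ jump g y i := dist_nonneg

/-- sum of the last `L` jumps -/
noncomputable def lastL (e : ℕ → ℝ) (L i : ℕ) : ℝ :=
  ∑ t ∈ Finset.range L, (if t < i then e (i - 1 - t) else 0)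

theorem sum_shift_le (e : ℕ → ℝ) (he : ∀ i, 0 ≤ e i) (t n : ℕ) :
    ∑ i ∈ Finset.range n, (if t < i then e (i - 1 - t) else 0) ≤ ∑ j ∈ Finset.range n, e j := by
  rw [← Finset.sum_filter]
  have h : ∑ i ∈ (Finset.range n).filter (fun i => t < i), e (i - 1 - t)
      = ∑ j ∈ ((Finset.range n).filter (fun i => t < i)).image (fun i => i - 1 - t), e j := by
    rw [Finset.sum_image]
    intro i hi j hj hij
    simp only [Finset.coe_filter, Finset.mem_range, Set.mem_ofPred_eq] at hi hj
    simp only at hij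
    omega
  rw [h]
  refine Finset.sum_le_sum_of_subset_of_nonneg ?_ (fun i _ _ => he i)
  intro j hj
  obtain ⟨i, hi, rfl⟩ := Finset.mem_image.mp hj
  rw [Finset.mem_filter, Finset.mem_range] at hi
  rw [Finset.mem_range]
  omega

theorem sum_lastL (e : ℕ → ℝ) (he : ∀ i, 0 ≤ e i) (L n : ℕ) :
    ∑ i ∈ Finset.range n, lastL e L i ≤ L * ∑ j ∈ Finset.range n, e j := by
  unfold lastL
  rw [Finset.sum_comm]
  calc _ ≤ ∑ t ∈ Finset.range L, ∑ j ∈ Finset.range n, e j :=
        Finset.sum_le_sum (fun t _ => sum_shift_le e he t n)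
    _ = _ := by simp

theorem le_lastL (e : ℕ → ℝ) (he : ∀ i, 0 ≤ e i) (L i s r j : ℕ) (hr : r ≤ L) (hi : s + r = i)
    (hj : j < r) : e (s + j) ≤ lastL e L i := by
  unfold lastL
  have hmem : (i - 1 - (s + j)) ∈ Finset.range L := by
    rw [Finset.mem_range]; omega
  have h := Finset.single_le_sum (f := fun t => if t < i then e (i - 1 - t) else 0)
    (fun t _ => by
      show (0:ℝ) ≤ if t < i then e (i - 1 - t) else 0
      split_ifs
      · exact he _
      · exact le_rfl) hmem
  have h2 : (if (i - 1 - (s + j)) < i then e (i - 1 - (i - 1 - (s + j))) else 0) = e (s + j) := by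
    rw [if_pos (by omega)]
    congr 1
    omega
  rw [← h2]
  exact h

theorem lastL_nonneg (e : ℕ → ℝ) (he : ∀ i, 0 ≤ e i) (L i : ℕ) : 0 ≤ lastL e L i := by
  unfold lastL
  refine Finset.sum_nonneg (fun t _ => ?_)
  split_ifs
  · exact he _
  · exact le_rfl

/-- comparison of a sequence with its blockwise true orbit -/
theorem err_bound (g : Y → Y) (hg : Continuous g) (L : ℕ) (hL : 1 ≤ L) (ε : ℝ) (hε : 0 < ε) :
    ∃ K : ℝ, 0 < K ∧ ∀ (y : ℕ → Y) (i : ℕ),
      dist (y i) (g^[i % L] (y (L * (i / L)))) ≤ ε + K * lastL (jump g y) L i := by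
  obtain ⟨D, hD1, hD⟩ := exists_bound Y
  obtain ⟨η, hη, h⟩ := small_jumps g hg L ε hε
  refine ⟨D / η, by positivity, ?_⟩
  intro y i
  have hnn := lastL_nonneg (jump g y) (jump_nonneg g y) L i
  have hr : i % L ≤ L := (Nat.mod_lt i (by omega)).le
  have hi : L * (i / L) + i % L = i := Nat.div_add_mod i L
  by_cases hsmall : ∀ j < i % L, jump g y (L * (i / L) + j) < η
  · have h1 := h (i % L) hr y (L * (i / L)) hsmall
    rw [hi] at h1
    have : 0 ≤ D / η * lastL (jump g y) L i := by positivity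
    linarith
  · push Not at hsmall
    obtain ⟨j, hj, hjη⟩ := hsmall
    have h1 := le_lastL (jump g y) (jump_nonneg g y) L i _ _ j hr hi hj
    have h2 : D ≤ D / η * lastL (jump g y) L i := by
      calc D = D / η * η := by field_simp
        _ ≤ _ := by gcongr; linarith
    have h3 := hD (y i) (g^[i % L] (y (L * (i / L))))
    linarith

theorem sum_err (g : Y → Y) (hg : Continuous g) (L : ℕ) (hL : 1 ≤ L) (ε : ℝ) (hε : 0 < ε) :
    ∃ K : ℝ, 0 < K ∧ ∀ (y : ℕ → Y) (n : ℕ),
      ∑ i ∈ Finset.range n, dist (y i) (g^[i % L] (y (L * (i / L)))) ≤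
        ε * n + K * ∑ j ∈ Finset.range n, jump g y j := by
  obtain ⟨K, hK, h⟩ := err_bound g hg L hL ε hε
  refine ⟨K * L, by positivity, ?_⟩
  intro y n
  calc _ ≤ ∑ i ∈ Finset.range n, (ε + K * lastL (jump g y) L i) :=
        Finset.sum_le_sum (fun i _ => h y i)
    _ = ε * n + K * ∑ i ∈ Finset.range n, lastL (jump g y) L i := by
        rw [Finset.sum_add_distrib, Finset.mul_sum]; simp [mul_comm]
    _ ≤ ε * n + K * (L * ∑ j ∈ Finset.range n, jump g y j) := by
        gcongr
        exact sum_lastL _ (jump_nonneg g y) L n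
    _ = _ := by ring

/-- projection of averages -/
theorem proj_bound (π : X → Y) (hπ : Continuous π) (ε : ℝ) (hε : 0 < ε) :
    ∃ K : ℝ, 0 < K ∧ ∀ x x' : X, dist (π x) (π x') ≤ ε + K * dist x x' := by
  obtain ⟨D, hD1, hD⟩ := exists_bound Y
  obtain ⟨η, hη, h⟩ := Metric.uniformContinuous_iff.mp
      (CompactSpace.uniformContinuous_of_continuous hπ) ε hε
  refine ⟨D / η, by positivity, ?_⟩
  intro x x'
  by_cases hx : dist x x' < η
  · have h1 := h hx
    have : 0 ≤ D / η * dist x x' := by positivity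
    linarith
  · push Not at hx
    have h2 : D ≤ D / η * dist x x' := by
      calc D = D / η * η := by field_simp
        _ ≤ _ := by gcongr
    have h3 := hD (π x) (π x')
    linarith

end Pool.Agent.V11108.AvgShadow
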