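import Mathlib
import Pool.Agent.V11108.AvgShadow

set_option autoImplicit false
open Filter Topology

namespace Pool.Agent.V11108.BlockShadow

open Pool.Agent.V11108.AvgShadow

theorem sum_blocks (n m : ℕ) (G : ℕ → ℝ) : ∑ i ∈ Finset.range (n * m), G i =
    ∑ j ∈ Finset.range m, ∑ r ∈ Finset.range n, G (n * j + r) := by
  induction m with
  | zero => simp
  | succ m ih => rw [Nat.mul_succ, Finset.sum_range_add, ih, Finset.sum_range_succ]

theorem ham_count (m k : ℕ) (v : Fin m → Bool) :
    (((Finset.univ.filter (fun w : Fin m → Bool =>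
      (Finset.univ.filter (fun i => v i ≠ w i)).card ≤ k)).card : ℕ) : ℝ) * (1 / 8) ^ k ≤
      (9 / 8) ^ m := by
  have h1 : ∀ w : Fin m → Bool, ((1:ℝ) / 8) ^ (Finset.univ.filter (fun i => v i ≠ w i)).card
      = ∏ i, (if v i ≠ w i then (1:ℝ) / 8 else 1) := by
    intro w
    rw [Finset.prod_ite]
    simp
  have h2 : ∑ w : Fin m → Bool, ∏ i, (if v i ≠ w i then (1:ℝ) / 8 else 1) = (9 / 8) ^ m := by
    have := Finset.prod_univ_sum (fun _ : Fin m => (Finset.univ : Finset Bool))
      (fun i b => if v i ≠ b then (1:ℝ) / 8 else 1)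
    rw [Fintype.piFinset_univ] at this
    rw [← this]
    have h3 : ∀ i : Fin m, ∑ b : Bool, (if v i ≠ b then (1:ℝ) / 8 else 1) = 9 / 8 := by
      intro i
      rw [Fintype.sum_bool]
      cases v i <;> norm_num
    simp only [h3]
    simp [div_pow]
  calc _ = ∑ w ∈ Finset.univ.filter (fun w : Fin m → Bool =>
      (Finset.univ.filter (fun i => v i ≠ w i)).card ≤ k), ((1:ℝ) / 8) ^ k := by simp
    _ ≤ ∑ w ∈ Finset.univ.filter (fun w : Fin m → Bool =>
      (Finset.univ.filter (fun i => v i ≠ w i)).card ≤ k),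
        ((1:ℝ) / 8) ^ (Finset.univ.filter (fun i => v i ≠ w i)).card := by
        apply Finset.sum_le_sum
        intro w hw
        exact pow_le_pow_of_le_one (by norm_num) (by norm_num) (Finset.mem_filter.mp hw).2
    _ ≤ ∑ w : Fin m → Bool, ((1:ℝ) / 8) ^ (Finset.univ.filter (fun i => v i ≠ w i)).card := by
        apply Finset.sum_le_sum_of_subset_of_nonneg (Finset.filter_subset _ _)
        intro _ _ _; positivity
    _ = (9 / 8) ^ m := by simp only [h1]; exact h2

theorem entropy_pos {X : Type} [UniformSpace X] (f : X → X) (U : SetRel X X) (hU : U ∈ uniformity X)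
    (p : ℕ) (hp : 1 ≤ p)
    (h : ∀ q : ℕ, ((2 ^ q : ℕ) : ℕ∞) ≤ Dynamics.coverMincard f Set.univ U (p * q)) :
    0 < Dynamics.coverEntropy f Set.univ := by
  refine lt_of_lt_of_le ?_ (Dynamics.coverEntropyEntourage_le_coverEntropy f Set.univ hU)
  have hb : (0:ℝ) < Real.log 2 / p := by
    have : (0:ℝ) < p := by exact_mod_cast hp
    have := Real.log_pos (by norm_num : (1:ℝ) < 2)
    positivity
  refine lt_of_lt_of_le (b := ((Real.log 2 / p : ℝ) : EReal)) (by exact_mod_cast hb) ?_
  unfold Dynamics.coverEntropyEntourage ExpGrowth.expGrowthSup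
  refine le_limsup_of_frequently_le' ?_
  rw [frequently_atTop]
  intro N
  refine ⟨p * (N + 1), by nlinarith, ?_⟩
  have hN0 : (0:ℝ) < ((p * (N + 1) : ℕ) : ℝ) := by
    have : 0 < p * (N + 1) := by positivity
    exact_mod_cast this
  have hN : (0 : EReal) < ((p * (N + 1) : ℕ) : EReal) := by exact_mod_cast hN0
  rw [EReal.le_div_iff_mul_le hN (by exact (EReal.coe_ne_top (((p * (N + 1) : ℕ) : ℝ))))]
  have h1 : ENNReal.ofReal (2 ^ (N + 1)) ≤
      ((Dynamics.coverMincard f Set.univ U (p * (N + 1)) : ℕ∞) : ENNReal) := by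
    have := h (N + 1)
    have h2 := ENat.toENNReal_mono this
    refine le_trans (le_of_eq ?_) h2
    rw [ENat.toENNReal_coe]
    rw [ENNReal.ofReal_pow (by norm_num)]
    push_cast
    simp
  refine le_trans (le_of_eq ?_) (ENNReal.log_monotone h1)
  rw [ENNReal.log_ofReal_of_pos (by positivity), Real.log_pow]
  have e : ((p * (N + 1) : ℕ) : EReal) = (((p * (N + 1) : ℕ) : ℝ) : EReal) := rfl
  rw [e, ← EReal.coe_mul]
  congr 1
  have : (0:ℝ) < p := by exact_mod_cast hp
  push_cast
  field_simp

/-- finite block shadowing in average -/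
def FBS {X : Type} [MetricSpace X] (f : X → X) : Prop :=
  ∀ ε : ℝ, 0 < ε → ∃ n : ℕ, 1 ≤ n ∧ ∀ (m : ℕ) (p : ℕ → X), ∃ y : X,
    ∑ i ∈ Finset.range (n * m), dist (f^[i] y) (blk f p n i) ≤ ε * (n * m : ℕ)

theorem blk_add {X : Type} (f : X → X) (p : ℕ → X) (n j r : ℕ) (hn : 1 ≤ n) (hr : r < n) :
    blk f p n (n * j + r) = f^[r] (p j) := by
  unfold blk
  rw [Nat.mul_add_mod, Nat.mod_eq_of_lt hr, Nat.mul_add_div (by omega), Nat.div_eq_of_lt hr,
    add_zero]

open Classical in
theorem entropy_of_FBS {X : Type} [MetricSpace X] (f : X → X) (hF : FBS f) (c : ℝ) (hc : 0 < c)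
    (hpair : ∀ n : ℕ, 1 ≤ n → ∃ x₁ x₂ : X, c * n ≤ ∑ i ∈ Finset.range n, dist (f^[i] x₁) (f^[i] x₂)) :
    0 < Dynamics.coverEntropy f Set.univ := by
  obtain ⟨n, hn, hsh⟩ := hF (c / 64) (by positivity)
  obtain ⟨x₁, x₂, hx⟩ := hpair n hn
  refine entropy_pos f {p : X × X | dist p.1 p.2 < c / 64}
    (Metric.dist_mem_uniformity (by positivity)) (n * 16) (by omega) ?_
  intro q
  set m := 16 * q with hm
  have hN : n * 16 * q = n * m := by rw [hm]; ring
  rw [hN]
  unfold Dynamics.coverMincard
  refine le_iInf₂ ?_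
  intro s hs
  -- the block sequences
  let P : (Fin m → Bool) → ℕ → X := fun v j =>
    if h : j < m then (if v ⟨j, h⟩ then x₁ else x₂) else x₂
  choose y hy using fun v : Fin m → Bool => hsh m (P v)
  have hcov : ∀ v : Fin m → Bool, ∃ x ∈ s, ∀ k < n * m, dist (f^[k] (y v)) (f^[k] x) < c / 64 := by
    intro v
    obtain ⟨x, hxs, hxU⟩ := hs (Set.mem_univ (y v))
    refine ⟨x, hxs, ?_⟩
    intro k hk
    have := (Dynamics.mem_dynEntourage.mp hxU) k hk
    exact this
  choose g hgs hg using hcov
  -- the fibres are small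
  have hfib : ∀ v w : Fin m → Bool, g v = g w →
      (Finset.univ.filter (fun i => v i ≠ w i)).card ≤ q := by
    intro v w hvw
    have h1 : ∑ i ∈ Finset.range (n * m), dist (blk f (P v) n i) (blk f (P w) n i) ≤
        c / 16 * (n * m : ℕ) := by
      calc _ ≤ ∑ i ∈ Finset.range (n * m), (dist (f^[i] (y v)) (blk f (P v) n i)
              + dist (f^[i] (y w)) (blk f (P w) n i) + c / 32) := by
            apply Finset.sum_le_sum
            intro i hi
            have a1 := hg v i (Finset.mem_range.mp hi)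
            have a2 := hg w i (Finset.mem_range.mp hi)
            rw [← hvw] at a2
            have a3 := dist_triangle (blk f (P v) n i) (f^[i] (y v)) (blk f (P w) n i)
            have a4 := dist_triangle (f^[i] (y v)) (f^[i] (g v)) (blk f (P w) n i)
            have a5 := dist_triangle (f^[i] (g v)) (f^[i] (y w)) (blk f (P w) n i)
            rw [dist_comm (blk f (P v) n i) (f^[i] (y v))] at a3
            rw [dist_comm (f^[i] (g v)) (f^[i] (y w))] at a5
            linarith
        _ = ∑ i ∈ Finset.range (n * m), dist (f^[i] (y v)) (blk f (P v) n i)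
              + ∑ i ∈ Finset.range (n * m), dist (f^[i] (y w)) (blk f (P w) n i)
              + c / 32 * (n * m : ℕ) := by
            rw [Finset.sum_add_distrib, Finset.sum_add_distrib]
            simp [mul_comm]
        _ ≤ _ := by
            have := hy v
            have := hy w
            linarith
    have h2 : ∑ i ∈ Finset.range (n * m), dist (blk f (P v) n i) (blk f (P w) n i) =
        ∑ j ∈ Finset.range m, ∑ r ∈ Finset.range n, dist (f^[r] (P v j)) (f^[r] (P w j)) := by
      rw [sum_blocks]
      apply Finset.sum_congr rfl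
      intro j _
      apply Finset.sum_congr rfl
      intro r hr
      rw [blk_add _ _ _ _ _ hn (Finset.mem_range.mp hr), blk_add _ _ _ _ _ hn (Finset.mem_range.mp hr)]
    have h3 : c * n * ((Finset.univ.filter (fun i => v i ≠ w i)).card : ℝ) ≤
        ∑ j ∈ Finset.range m, ∑ r ∈ Finset.range n, dist (f^[r] (P v j)) (f^[r] (P w j)) := by
      rw [Finset.sum_range]
      calc c * n * ((Finset.univ.filter (fun i => v i ≠ w i)).card : ℝ)
          = ∑ i ∈ Finset.univ.filter (fun i => v i ≠ w i), c * n := by simp [mul_comm]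
        _ ≤ ∑ i ∈ Finset.univ.filter (fun i => v i ≠ w i),
            ∑ r ∈ Finset.range n, dist (f^[r] (P v i)) (f^[r] (P w i)) := by
            apply Finset.sum_le_sum
            intro i hi
            have hne := (Finset.mem_filter.mp hi).2
            have e1 : P v (i:ℕ) = if v i then x₁ else x₂ := by
              simp only [P, i.2, dif_pos]
            have e2 : P w (i:ℕ) = if w i then x₁ else x₂ := by
              simp only [P, i.2, dif_pos]
            rw [e1, e2]
            cases hv : v i <;> cases hw : w i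
            · rw [hv, hw] at hne; exact absurd rfl hne
            · simp only [Bool.false_eq_true, if_false, if_true]
              simp only [dist_comm (f^[_] x₂)]
              exact hx
            · simp only [Bool.false_eq_true, if_false, if_true]
              exact hx
            · rw [hv, hw] at hne; exact absurd rfl hne
        _ ≤ _ := Finset.sum_le_sum_of_subset_of_nonneg (Finset.filter_subset _ _)
            (fun _ _ _ => Finset.sum_nonneg (fun _ _ => dist_nonneg))
    have hn0 : (0:ℝ) < n := by exact_mod_cast hn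
    have h4 : c * n * ((Finset.univ.filter (fun i => v i ≠ w i)).card : ℝ) ≤ c * n * q := by
      refine h3.trans (h2 ▸ h1 |>.trans (le_of_eq ?_))
      rw [hm]; push_cast; ring
    have h5 : ((Finset.univ.filter (fun i => v i ≠ w i)).card : ℝ) ≤ q :=
      le_of_mul_le_mul_left h4 (by positivity)
    exact_mod_cast h5
  -- counting
  have hcount : (2:ℝ) ^ m ≤ s.card * ((9 / 8) ^ m * 8 ^ q) := by
    have h1 : (Finset.univ : Finset (Fin m → Bool)).card =
        ∑ x ∈ s, (Finset.univ.filter (fun v => g v = x)).card :=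
      Finset.card_eq_sum_card_fiberwise (fun v _ => hgs v)
    have h2 : ∀ x ∈ s, (((Finset.univ.filter (fun v => g v = x)).card : ℕ) : ℝ) ≤
        (9 / 8) ^ m * 8 ^ q := by
      intro x _
      rcases (Finset.univ.filter (fun v => g v = x)).eq_empty_or_nonempty with h0 | ⟨v, hv⟩
      · rw [h0]; simp; positivity
      · have h3 : (Finset.univ.filter (fun w => g w = x)) ⊆
            Finset.univ.filter (fun w : Fin m → Bool =>
              (Finset.univ.filter (fun i => v i ≠ w i)).card ≤ q) := by
          intro w hw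
          rw [Finset.mem_filter] at hw hv ⊢
          exact ⟨Finset.mem_univ _, hfib v w (hv.2.trans hw.2.symm)⟩
        have h4 := ham_count m q v
        have h5 : (((Finset.univ.filter (fun w => g w = x)).card : ℕ) : ℝ) ≤
            (((Finset.univ.filter (fun w : Fin m → Bool =>
              (Finset.univ.filter (fun i => v i ≠ w i)).card ≤ q)).card : ℕ) : ℝ) := by
          exact_mod_cast Finset.card_le_card h3
        refine h5.trans ?_
        have h6 : ((1:ℝ) / 8) ^ q * 8 ^ q = 1 := by rw [← mul_pow]; norm_num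
        have h7 : (0:ℝ) < 8 ^ q := by positivity
        calc _ = (((Finset.univ.filter (fun w : Fin m → Bool =>
              (Finset.univ.filter (fun i => v i ≠ w i)).card ≤ q)).card : ℕ) : ℝ)
                * (1 / 8) ^ q * 8 ^ q := by rw [mul_assoc, h6, mul_one]
          _ ≤ _ := mul_le_mul_of_nonneg_right h4 h7.le
    have h3 : (((Finset.univ : Finset (Fin m → Bool)).card : ℕ) : ℝ) = 2 ^ m := by
      rw [Finset.card_univ]; simp
    rw [← h3, h1]
    push_cast
    calc _ ≤ ∑ x ∈ s, ((9:ℝ) / 8) ^ m * 8 ^ q := Finset.sum_le_sum h2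
      _ = _ := by simp
  have hfin : (2:ℝ) ^ q ≤ s.card := by
    have e1 : (9 / 8 : ℝ) ^ m * 8 ^ q = ((9 / 8) ^ 16 * 8) ^ q := by
      rw [hm, pow_mul, mul_pow]
    have e2 : (2:ℝ) ^ m = (2 ^ 16) ^ q := by rw [hm, pow_mul]
    rw [e1, e2] at hcount
    have e3 : (2:ℝ) ^ q * ((9 / 8) ^ 16 * 8) ^ q ≤ (2 ^ 16) ^ q := by
      rw [← mul_pow]
      exact pow_le_pow_left₀ (by positivity) (by norm_num) q
    exact le_of_mul_le_mul_right (e3.trans hcount) (by positivity)
  exact_mod_cast hfin

end Pool.Agent.V11108.BlockShadow
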