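import Mathlib

/-!
# Lifts of covering maps through covering maps

If `h ∘ p = q` where `h : X → Y` and `q : Z → Y` are covering maps, `p` is continuous and `Y` is
locally connected, then `p` is a covering map.
-/

set_option autoImplicit false

open Topology Set

namespace Pool.Agent.V11108.CovLift

theorem covering_lift {Z X Y : Type*} [TopologicalSpace Z] [TopologicalSpace X]
    [TopologicalSpace Y] [LocallyConnectedSpace Y] {h : X → Y} {q : Z → Y} {p : Z → X}
    (hh : IsCoveringMap h) (hq : IsCoveringMap q) (hp : Continuous p)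
    (hpq : ∀ z, h (p z) = q z) : IsCoveringMap p := by
  intro x₀
  obtain ⟨dI, U, hyU, hU, hhU, H, hH⟩ := hh (h x₀)
  obtain ⟨dJ, V, hyV, hV, hqV, K, hK⟩ := hq (h x₀)
  obtain ⟨W, hWsub, hWo, hyW, hWc⟩ :=
    locallyConnectedSpace_iff_subsets_isOpen_isConnected.1 (inferInstance : LocallyConnectedSpace Y)
      (h x₀) (U ∩ V) ((hU.inter hV).mem_nhds ⟨hyU, hyV⟩)
  have hWU : ∀ y ∈ W, y ∈ U := fun y hy => (hWsub hy).1
  have hWV : ∀ y ∈ W, y ∈ V := fun y hy => (hWsub hy).2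
  -- the section over `W` number `j`
  let s : W → (q ⁻¹' {h x₀}) → Z := fun y j => (K.symm (⟨y.1, hWV y.1 y.2⟩, j)).1
  have hsq : ∀ y j, q (s y j) = y.1 := by
    intro y j
    have := hK (K.symm (⟨y.1, hWV y.1 y.2⟩, j))
    rw [Homeomorph.apply_symm_apply] at this
    exact this.symm
  have hsc : ∀ j, Continuous fun y => s y j := fun j => by
    have : Continuous fun y : W => K.symm (⟨y.1, hWV y.1 y.2⟩, j) := by fun_prop
    exact continuous_subtype_val.comp this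
  have hsU : ∀ y j, h (p (s y j)) ∈ U := fun y j => by
    rw [hpq, hsq]; exact hWU _ y.2
  have hWp : PreconnectedSpace W := isPreconnected_iff_preconnectedSpace.1 hWc.isPreconnected
  let c : (q ⁻¹' {h x₀}) → (h ⁻¹' {h x₀}) := fun j =>
    (H ⟨p (s ⟨h x₀, hyW⟩ j), hsU ⟨h x₀, hyW⟩ j⟩).2
  have hcc : ∀ (y : W) j, (H ⟨p (s y j), hsU y j⟩).2 = c j := by
    intro y j
    have hcont : Continuous fun y : W => (H ⟨p (s y j), hsU y j⟩).2 := by
      have h1 : Continuous fun y : W => (⟨p (s y j), hsU y j⟩ : h ⁻¹' U) :=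
        Continuous.subtype_mk (hp.comp (hsc j)) _
      exact continuous_snd.comp (H.continuous.comp h1)
    exact hWp.constant hcont
  set i₀ : h ⁻¹' {h x₀} := (H ⟨x₀, hyU⟩).2 with hi₀
  let S : Set X := Subtype.val '' {x : h ⁻¹' U | h x.1 ∈ W ∧ (H x).2 = i₀}
  have hmemS : ∀ x, x ∈ S ↔ h x ∈ W ∧ ∀ hx : h x ∈ U, (H ⟨x, hx⟩).2 = i₀ := by
    intro x
    constructor
    · rintro ⟨x', ⟨h1, h2⟩, rfl⟩
      exact ⟨h1, fun hx => h2⟩
    · rintro ⟨h1, h2⟩
      exact ⟨⟨x, hWU _ h1⟩, ⟨h1, h2 (hWU _ h1)⟩, rfl⟩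
  have hSo : IsOpen S := by
    refine hhU.isOpenMap_subtype_val _ ?_
    have h1 : IsOpen {x : h ⁻¹' U | h x.1 ∈ W} :=
      hWo.preimage (hh.continuous.comp continuous_subtype_val)
    have h2 : IsOpen {x : h ⁻¹' U | (H x).2 = i₀} :=
      (isOpen_discrete {i₀}).preimage (continuous_snd.comp H.continuous)
    exact h1.inter h2
  have hx₀S : x₀ ∈ S := (hmemS x₀).2 ⟨hyW, fun hx => rfl⟩
  -- inverse
  have hinv : ∀ (x : S) (j : {j // c j = i₀}),
      p (s ⟨h x.1, ((hmemS x.1).1 x.2).1⟩ j.1) = x.1 := by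
    intro x j
    have hxW := ((hmemS x.1).1 x.2).1
    have hxU : h x.1 ∈ U := hWU _ hxW
    have key : (⟨p (s ⟨h x.1, hxW⟩ j.1), hsU _ _⟩ : h ⁻¹' U) = ⟨x.1, hxU⟩ := by
      apply H.injective
      refine Prod.ext (Subtype.ext ?_) ?_
      · rw [hH, hH, hpq, hsq]
      · rw [hcc, j.2, ((hmemS x.1).1 x.2).2 hxU]
    exact congrArg Subtype.val key
  have hzW : ∀ z : p ⁻¹' S, q z.1 ∈ W := fun z => by
    rw [← hpq]; exact ((hmemS _).1 z.2).1
  have hzV : ∀ z : p ⁻¹' S, q z.1 ∈ V := fun z => hWV _ (hzW z)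
  have hzs : ∀ z : p ⁻¹' S, s ⟨q z.1, hzW z⟩ (K ⟨z.1, hzV z⟩).2 = z.1 := by
    intro z
    have h1 : ((⟨q z.1, hzV z⟩ : V), (K ⟨z.1, hzV z⟩).2) = K ⟨z.1, hzV z⟩ :=
      Prod.ext (Subtype.ext (hK ⟨z.1, hzV z⟩).symm) rfl
    show (K.symm ((⟨q z.1, hzV z⟩ : V), (K ⟨z.1, hzV z⟩).2)).1 = z.1
    rw [h1, Homeomorph.symm_apply_apply]
  have hzc : ∀ z : p ⁻¹' S, c (K ⟨z.1, hzV z⟩).2 = i₀ := by
    intro z
    have h1 := hcc ⟨q z.1, hzW z⟩ (K ⟨z.1, hzV z⟩).2
    have h2 : (⟨p (s ⟨q z.1, hzW z⟩ (K ⟨z.1, hzV z⟩).2), hsU _ _⟩ : h ⁻¹' U) =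
        ⟨p z.1, by rw [mem_preimage, hpq]; exact hWU _ (hzW z)⟩ :=
      Subtype.ext (congrArg p (hzs z))
    rw [← h1, h2]
    exact ((hmemS _).1 z.2).2 _
  let Φ : p ⁻¹' S ≃ₜ S × {j // c j = i₀} :=
    { toFun := fun z => (⟨p z.1, z.2⟩, ⟨(K ⟨z.1, hzV z⟩).2, hzc z⟩)
      invFun := fun xj => ⟨s ⟨h xj.1.1, ((hmemS xj.1.1).1 xj.1.2).1⟩ xj.2.1, by
        rw [mem_preimage, hinv xj.1 xj.2]; exact xj.1.2⟩
      left_inv := fun z => by
        refine Subtype.ext ?_
        have h1 := hzs z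
        have h2 : (⟨h (p z.1), ((hmemS (p z.1)).1 z.2).1⟩ : W) = ⟨q z.1, hzW z⟩ :=
          Subtype.ext (hpq z.1)
        show s ⟨h (p z.1), ((hmemS (p z.1)).1 z.2).1⟩ (K ⟨z.1, hzV z⟩).2 = z.1
        rw [h2]; exact h1
      right_inv := fun xj => by
        refine Prod.ext (Subtype.ext (hinv xj.1 xj.2)) (Subtype.ext ?_)
        show (K ⟨(K.symm (⟨h xj.1.1, _⟩, xj.2.1)).1, _⟩).2 = xj.2.1
        rw [Subtype.coe_eta, Homeomorph.apply_symm_apply]
      continuous_toFun := by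
        refine Continuous.prodMk (Continuous.subtype_mk (hp.comp continuous_subtype_val) _) ?_
        refine Continuous.subtype_mk ?_ _
        have h1 : Continuous fun z : p ⁻¹' S => (⟨z.1, hzV z⟩ : q ⁻¹' V) :=
          Continuous.subtype_mk continuous_subtype_val _
        exact continuous_snd.comp (K.continuous.comp h1)
      continuous_invFun := by
        refine Continuous.subtype_mk ?_ _
        have h1 : Continuous fun xj : S × {j // c j = i₀} =>
            ((⟨h xj.1.1, hWV _ ((hmemS xj.1.1).1 xj.1.2).1⟩ : V), xj.2.1) := by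
          refine Continuous.prodMk (Continuous.subtype_mk ?_ _) ?_
          · exact hh.continuous.comp (continuous_subtype_val.comp continuous_fst)
          · exact continuous_subtype_val.comp continuous_snd
        exact continuous_subtype_val.comp (K.symm.continuous.comp h1) }
  have hev : IsEvenlyCovered p x₀ {j // c j = i₀} :=
    ⟨inferInstance, S, hx₀S, hSo, hSo.preimage hp, Φ, fun z => rfl⟩
  exact hev.to_isEvenlyCovered_preimage

/-- A simply connected covering space of `Y` covers every covering space of `Y`. -/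
theorem exists_lift {Z X Y : Type*} [TopologicalSpace Z] [SimplyConnectedSpace Z]
    [LocallyPathConnectedSpace Z] [TopologicalSpace X] [TopologicalSpace Y] {h : X → Y} {q : Z → Y}
    (hh : IsCoveringMap h) (hs : Function.Surjective h) (hq : IsCoveringMap q)
    (hqs : Function.Surjective q) : ∃ p : Z → X, IsCoveringMap p ∧ ∀ z, h (p z) = q z := by
  have hne : Nonempty Z := inferInstance
  obtain ⟨z₀⟩ := hne
  obtain ⟨x₀, hx₀⟩ := hs (q z₀)
  obtain ⟨F, ⟨-, hF⟩, -⟩ := hh.existsUnique_continuousMap_lifts ⟨q, hq.continuous⟩ z₀ x₀ hx₀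
  have : LocallyPathConnectedSpace Y := (hq.isQuotientMap hqs).locallyPathConnectedSpace
  have hF' : ∀ z, h (F z) = q z := fun z => congrFun hF z
  exact ⟨F, covering_lift hh hq F.continuous hF', hF'⟩

end Pool.Agent.V11108.CovLift
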