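import Mathlib

set_option autoImplicit false
open Set

/-! The period doubling sequence and the number of its hyperspace patterns. -/

namespace Pool.Agent.V11108.PD

/-- the period doubling sequence (zero based) -/
def a (n : ℕ) : Bool := decide (Odd (padicValNat 2 (n + 1)))

theorem a_even (n : ℕ) : a (2 * n) = false := by
  have : padicValNat 2 (2 * n + 1) = 0 := by
    apply padicValNat.eq_zero_of_not_dvd
    omega
  simp [a, this]

theorem a_odd (n : ℕ) : a (2 * n + 1) = !(a n) := by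
  have : padicValNat 2 (2 * n + 1 + 1) = padicValNat 2 (n + 1) + 1 := by
    rw [show 2 * n + 1 + 1 = 2 * (n + 1) by ring, padicValNat.mul (by norm_num) (by omega)]
    simp [add_comm]
  simp only [a, this, Nat.odd_add_one]
  by_cases h : Odd (padicValNat 2 (n + 1)) <;> simp [h]

theorem nohole (k : ℕ) : ∀ y y' s : ℕ, (s + 1) % 2 ^ k ≠ 0 → a (2 ^ k * y + s) = a (2 ^ k * y' + s) := by
  induction k with
  | zero => intro y y' s h; simp [Nat.mod_one] at h
  | succ k ih =>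
    intro y y' s h
    rcases Nat.even_or_odd' s with ⟨s', rfl | rfl⟩
    · rw [show 2 ^ (k + 1) * y + 2 * s' = 2 * (2 ^ k * y + s') by ring,
        show 2 ^ (k + 1) * y' + 2 * s' = 2 * (2 ^ k * y' + s') by ring, a_even, a_even]
    · rw [show 2 ^ (k + 1) * y + (2 * s' + 1) = 2 * (2 ^ k * y + s') + 1 by ring,
        show 2 ^ (k + 1) * y' + (2 * s' + 1) = 2 * (2 ^ k * y' + s') + 1 by ring, a_odd, a_odd]
      rw [ih y y' s']
      intro h2
      apply h
      rw [show 2 * s' + 1 + 1 = 2 * (s' + 1) by ring, pow_succ, mul_comm (2 ^ k) 2,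
        Nat.mul_mod_mul_left, h2]

theorem hole (k : ℕ) : ∀ y y' : ℕ, a y = a y' →
    a (2 ^ k * y + (2 ^ k - 1)) = a (2 ^ k * y' + (2 ^ k - 1)) := by
  induction k with
  | zero => intro y y' h; simpa using h
  | succ k ih =>
    intro y y' h
    have e : 2 ^ (k + 1) - 1 = 2 * (2 ^ k - 1) + 1 := by
      have : 1 ≤ 2 ^ k := Nat.one_le_two_pow
      rw [pow_succ]; omega
    rw [e, show 2 ^ (k + 1) * y + (2 * (2 ^ k - 1) + 1) = 2 * (2 ^ k * y + (2 ^ k - 1)) + 1 by ring,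
      show 2 ^ (k + 1) * y' + (2 * (2 ^ k - 1) + 1) = 2 * (2 ^ k * y' + (2 ^ k - 1)) + 1 by ring,
      a_odd, a_odd, ih y y' h]

/-- sub set of one residue class -/
def sub (q ρ : ℕ) (S : Set ℕ) : Set ℕ := {z | q * z + ρ ∈ S}

def H (S : Set ℕ) (t : ℕ) : Prop := ∃ z ∈ S, a (z + t) = false
def K (S : Set ℕ) (t : ℕ) : Prop := ∃ z ∈ S, a (z + t) = true

theorem K_even (S : Set ℕ) (t : ℕ) : K S (2 * t) ↔ H (sub 2 1 S) t := by
  constructor
  · rintro ⟨z, hz, h⟩
    rcases Nat.even_or_odd' z with ⟨w, rfl | rfl⟩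
    · rw [← mul_add, a_even] at h; cases h
    · rw [show 2 * w + 1 + 2 * t = 2 * (w + t) + 1 by ring, a_odd] at h
      exact ⟨w, hz, by simpa using h⟩
  · rintro ⟨w, hw, h⟩
    refine ⟨2 * w + 1, hw, ?_⟩
    rw [show 2 * w + 1 + 2 * t = 2 * (w + t) + 1 by ring, a_odd, h]; rfl

theorem K_odd (S : Set ℕ) (t : ℕ) : K S (2 * t + 1) ↔ H (sub 2 0 S) t := by
  constructor
  · rintro ⟨z, hz, h⟩
    rcases Nat.even_or_odd' z with ⟨w, rfl | rfl⟩
    · rw [show 2 * w + (2 * t + 1) = 2 * (w + t) + 1 by ring, a_odd] at h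
      exact ⟨w, by simpa [sub] using hz, by simpa using h⟩
    · rw [show 2 * w + 1 + (2 * t + 1) = 2 * (w + t + 1) by ring, a_even] at h; cases h
  · rintro ⟨w, hw, h⟩
    refine ⟨2 * w, by simpa [sub] using hw, ?_⟩
    rw [show 2 * w + (2 * t + 1) = 2 * (w + t) + 1 by ring, a_odd, h]; rfl

theorem H_even (S : Set ℕ) (t : ℕ) : H S (2 * t) ↔ ((sub 2 0 S).Nonempty ∨ K (sub 2 1 S) t) := by
  constructor
  · rintro ⟨z, hz, h⟩
    rcases Nat.even_or_odd' z with ⟨w, rfl | rfl⟩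
    · exact .inl ⟨w, by simpa [sub] using hz⟩
    · rw [show 2 * w + 1 + 2 * t = 2 * (w + t) + 1 by ring, a_odd] at h
      exact .inr ⟨w, hz, by simpa using h⟩
  · rintro (⟨w, hw⟩ | ⟨w, hw, h⟩)
    · exact ⟨2 * w, by simpa [sub] using hw, by rw [← mul_add, a_even]⟩
    · refine ⟨2 * w + 1, hw, ?_⟩
      rw [show 2 * w + 1 + 2 * t = 2 * (w + t) + 1 by ring, a_odd, h]; rfl

theorem H_odd (S : Set ℕ) (t : ℕ) : H S (2 * t + 1) ↔ ((sub 2 1 S).Nonempty ∨ K (sub 2 0 S) t) := by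
  constructor
  · rintro ⟨z, hz, h⟩
    rcases Nat.even_or_odd' z with ⟨w, rfl | rfl⟩
    · rw [show 2 * w + (2 * t + 1) = 2 * (w + t) + 1 by ring, a_odd] at h
      exact .inr ⟨w, by simpa [sub] using hz, by simpa using h⟩
    · exact .inl ⟨w, hz⟩
  · rintro (⟨w, hw⟩ | ⟨w, hw, h⟩)
    · refine ⟨2 * w + 1, hw, ?_⟩
      rw [show 2 * w + 1 + (2 * t + 1) = 2 * (w + t + 1) by ring, a_even]
    · refine ⟨2 * w, by simpa [sub] using hw, ?_⟩
      rw [show 2 * w + (2 * t + 1) = 2 * (w + t) + 1 by ring, a_odd, h]; rfl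

theorem count {α β γ : Type*} [Finite γ] [Nonempty β] (f : α → β) (g : α → γ)
    (h : ∀ x y, g x = g y → f x = f y) : (range f).ncard ≤ Nat.card γ := by
  have hf : Function.FactorsThrough f g := fun x y e => h x y e
  have e : f = Function.extend g f (fun _ => Classical.arbitrary β) ∘ g :=
    funext fun x => (hf.extend_apply _ x).symm
  rw [e, range_comp]
  exact (ncard_image_le (toFinite _)).trans (ncard_le_card _)

/-- patterns of `H` -/
def Hp (N : ℕ) (S : Set ℕ) : Fin N → Prop := fun t => H S t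
def Kp (N : ℕ) (S : Set ℕ) : Fin N → Prop := fun t => K S t

noncomputable def hc (j : ℕ) : ℕ := Nat.card (range (Hp (4 ^ j)))

theorem hp_eq {N : ℕ} {S S' : Set ℕ} (h : Hp N S = Hp N S') (t : ℕ) (ht : t < N) : H S t ↔ H S' t := by
  have := congrFun h ⟨t, ht⟩
  simpa [Hp] using this

open Classical in
theorem hc_succ (j : ℕ) : hc (j + 1) ≤ 4 * hc j ^ 2 := by
  have := count (Hp (4 ^ (j + 1))) (γ := Bool × Bool × range (Hp (4 ^ j)) × range (Hp (4 ^ j)))
    (fun S => (decide ((sub 2 0 S).Nonempty), decide ((sub 2 1 S).Nonempty),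
      ⟨Hp (4 ^ j) (sub 2 0 (if (sub 2 0 S).Nonempty then sub 2 0 S else sub 2 1 S)), mem_range_self _⟩,
      ⟨Hp (4 ^ j) (sub 2 1 (if (sub 2 0 S).Nonempty then sub 2 0 S else sub 2 1 S)), mem_range_self _⟩))
    ?_
  · rw [← Nat.card_coe_set_eq] at this
    rw [Nat.card_prod, Nat.card_prod, Nat.card_prod] at this
    have hb : Nat.card Bool = 2 := by simp
    rw [hb] at this
    unfold hc
    refine this.trans (le_of_eq ?_)
    ring
  · intro S S' h
    simp only [Prod.mk.injEq, Subtype.mk.injEq, decide_eq_decide] at h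
    obtain ⟨h0, h1, h2, h3⟩ := h
    funext ⟨t, ht⟩
    show H S t = H S' t
    apply propext
    have ht' : t < 4 * 4 ^ j := by rw [pow_succ] at ht; linarith
    by_cases b0 : (sub 2 0 S).Nonempty
    · have b0' := h0.mp b0
      rw [if_pos b0, if_pos b0'] at h2 h3
      rcases Nat.even_or_odd' t with ⟨s, rfl | rfl⟩
      · rw [H_even, H_even]; simp [b0, b0']
      · rw [H_odd, H_odd]
        refine or_congr h1 ?_
        rcases Nat.even_or_odd' s with ⟨r, rfl | rfl⟩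
        · rw [K_even, K_even]; exact hp_eq h3 r (by omega)
        · rw [K_odd, K_odd]; exact hp_eq h2 r (by omega)
    · have b0' : ¬ (sub 2 0 S').Nonempty := fun h => b0 (h0.mpr h)
      rw [if_neg b0, if_neg b0'] at h2 h3
      rcases Nat.even_or_odd' t with ⟨s, rfl | rfl⟩
      · rw [H_even, H_even]
        refine or_congr h0 ?_
        rcases Nat.even_or_odd' s with ⟨r, rfl | rfl⟩
        · rw [K_even, K_even]; exact hp_eq h3 r (by omega)
        · rw [K_odd, K_odd]; exact hp_eq h2 r (by omega)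
      · rw [H_odd, H_odd]
        have e0 : sub 2 0 S = ∅ := not_nonempty_iff_eq_empty.mp b0
        have e0' : sub 2 0 S' = ∅ := not_nonempty_iff_eq_empty.mp b0'
        rw [e0, e0', h1]

theorem hc_bound (j : ℕ) : 4 * hc j ≤ 8 ^ (2 ^ j) := by
  induction j with
  | zero =>
    have : hc 0 ≤ 2 := by
      unfold hc
      rw [Nat.card_coe_set_eq]
      refine (ncard_le_card _).trans ?_
      simp [Nat.card_eq_fintype_card]
    simp; omega
  | succ j ih =>
    calc 4 * hc (j + 1) ≤ 4 * (4 * hc j ^ 2) := by have := hc_succ j; omega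
      _ = (4 * hc j) ^ 2 := by ring
      _ ≤ (8 ^ (2 ^ j)) ^ 2 := Nat.pow_le_pow_left ih 2
      _ = 8 ^ (2 ^ (j + 1)) := by rw [← pow_mul, pow_succ]

/-- words of the period doubling sequence -/
def wd (m z : ℕ) : Fin m → Bool := fun j => a (z + j)

/-- hyperspace pattern -/
def pat (n m : ℕ) (S : Set ℕ) : Fin n → Set (Fin m → Bool) := fun i => (fun z => wd m (z + i)) '' S

theorem pat_sub {n m k N : ℕ} (hk : m ≤ 2 ^ k) (hN : n + m ≤ N) {S S' : Set ℕ}
    (h0 : ∀ ρ < 2 ^ k, (sub (2 ^ k) ρ S).Nonempty → (sub (2 ^ k) ρ S').Nonempty)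
    (h1 : ∀ ρ < 2 ^ k, ∀ t < N, H (sub (2 ^ k) ρ S) t → H (sub (2 ^ k) ρ S') t)
    (h2 : ∀ ρ < 2 ^ k, ∀ t < N, K (sub (2 ^ k) ρ S) t → K (sub (2 ^ k) ρ S') t) (i : Fin n) :
    pat n m S i ⊆ pat n m S' i := by
  rintro _ ⟨z, hz, rfl⟩
  have hq : 0 < 2 ^ k := by positivity
  set ρ := z % 2 ^ k with hρ
  set y := z / 2 ^ k with hy
  have hzy : 2 ^ k * y + ρ = z := Nat.div_add_mod z (2 ^ k)
  have hρl : ρ < 2 ^ k := Nat.mod_lt _ hq
  have hyS : y ∈ sub (2 ^ k) ρ S := by show 2 ^ k * y + ρ ∈ S; rw [hzy]; exact hz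
  have key : ∀ y', y' ∈ sub (2 ^ k) ρ S' →
      (∀ j < m, (ρ + (i + j) + 1) % 2 ^ k = 0 → a (y + (i + j) / 2 ^ k) = a (y' + (i + j) / 2 ^ k)) →
      wd m (z + i) ∈ pat n m S' i := by
    intro y' hy' hj
    refine ⟨2 ^ k * y' + ρ, hy', ?_⟩
    funext j
    show a (2 ^ k * y' + ρ + i + j) = a (z + i + j)
    rw [← hzy]
    by_cases hh : (ρ + (i + j) + 1) % 2 ^ k = 0
    · have h3 := hj j j.2 hh
      set t' := ((i:ℕ) + j) / 2 ^ k
      set τ := ((i:ℕ) + j) % 2 ^ k with hτ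
      have e1 : 2 ^ k * t' + τ = (i:ℕ) + j := Nat.div_add_mod _ _
      have hτl : τ < 2 ^ k := Nat.mod_lt _ hq
      have e2 : ρ + τ = 2 ^ k - 1 := by
        rw [← e1, show ρ + (2 ^ k * t' + τ) + 1 = ρ + τ + 1 + 2 ^ k * t' by ring,
          Nat.add_mul_mod_self_left] at hh
        have h5 : 2 ^ k ∣ ρ + τ + 1 := Nat.dvd_of_mod_eq_zero hh
        obtain ⟨c, hc⟩ := h5
        have hc1 : c = 1 := by
          have h6 : c < 2 := by
            by_contra hcc
            push Not at hcc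
            have : 2 ^ k * 2 ≤ 2 ^ k * c := Nat.mul_le_mul_left _ hcc
            omega
          have h7 : 0 < c := by
            rcases Nat.eq_zero_or_pos c with h | h
            · rw [h] at hc; omega
            · exact h
          omega
        rw [hc1] at hc; omega
      rw [show 2 ^ k * y' + ρ + ↑i + ↑j = 2 ^ k * (y' + t') + (ρ + τ) by rw [mul_add]; omega,
        show 2 ^ k * y + ρ + ↑i + ↑j = 2 ^ k * (y + t') + (ρ + τ) by rw [mul_add]; omega, e2]
      exact hole k _ _ h3.symm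
    · rw [show 2 ^ k * y' + ρ + ↑i + ↑j = 2 ^ k * y' + (ρ + (↑i + ↑j)) by ring,
        show 2 ^ k * y + ρ + ↑i + ↑j = 2 ^ k * y + (ρ + (↑i + ↑j)) by ring]
      exact nohole k _ _ _ hh
  by_cases hex : ∃ j < m, (ρ + (i + j) + 1) % 2 ^ k = 0
  · obtain ⟨j, hjm, hj⟩ := hex
    have hlt : (i + j) / 2 ^ k < N := by
      have : ((i:ℕ) + j) / 2 ^ k ≤ i + j := Nat.div_le_self _ _
      have := i.2; omega
    have huniq : ∀ j' < m, (ρ + (i + j') + 1) % 2 ^ k = 0 → j' = j := by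
      intro j' hj'm hj'
      have h3 : (ρ + (i + j') + 1) ≡ (ρ + (i + j) + 1) [MOD 2 ^ k] := by
        unfold Nat.ModEq; rw [hj, hj']
      have h4 : j' ≡ j [MOD 2 ^ k] := by
        have h5 : (ρ + i + 1) + j' ≡ (ρ + i + 1) + j [MOD 2 ^ k] := by
          convert h3 using 1 <;> ring
        exact Nat.ModEq.add_left_cancel' _ h5
      exact Nat.ModEq.eq_of_lt_of_lt h4 (by omega) (by omega)
    cases hb : a (y + (i + j) / 2 ^ k) with
    | false =>
      obtain ⟨y', hy', h⟩ := h1 ρ hρl _ hlt ⟨y, hyS, hb⟩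
      refine key y' hy' fun j' hj'm hj' => ?_
      rw [huniq j' hj'm hj', hb, h]
    | true =>
      obtain ⟨y', hy', h⟩ := h2 ρ hρl _ hlt ⟨y, hyS, hb⟩
      refine key y' hy' fun j' hj'm hj' => ?_
      rw [huniq j' hj'm hj', hb, h]
  · push Not at hex
    obtain ⟨y', hy'⟩ := h0 ρ hρl ⟨y, hyS⟩
    exact key y' hy' fun j hjm hj => absurd hj (hex j hjm)

open Classical in
theorem pat_count {n m k j : ℕ} (hk : m ≤ 2 ^ k) (hN : n + m ≤ 4 ^ j) :
    (range (pat n m)).ncard ≤ (2 * hc j ^ 3) ^ (2 ^ k) := by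
  have := count (pat n m) (γ := Fin (2 ^ k) → Bool × range (Hp (4 ^ j)) × range (Hp (4 ^ j)) ×
      range (Hp (4 ^ j)))
    (fun S ρ => (decide ((sub (2 ^ k) ρ S).Nonempty), ⟨Hp (4 ^ j) (sub (2 ^ k) ρ S), mem_range_self _⟩,
      ⟨Hp (4 ^ j) (sub 2 0 (sub (2 ^ k) ρ S)), mem_range_self _⟩,
      ⟨Hp (4 ^ j) (sub 2 1 (sub (2 ^ k) ρ S)), mem_range_self _⟩))
    ?_
  · refine this.trans (le_of_eq ?_)
    rw [Nat.card_fun, Nat.card_prod, Nat.card_prod, Nat.card_prod]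
    simp only [Nat.card_eq_fintype_card (α := Bool), Fintype.card_bool,
      Nat.card_eq_fintype_card (α := Fin (2 ^ k)), Fintype.card_fin]
    unfold hc
    congr 1
    ring
  · intro S S' h
    have h' : ∀ ρ < 2 ^ k, ((sub (2 ^ k) ρ S).Nonempty ↔ (sub (2 ^ k) ρ S').Nonempty) ∧
        (∀ t < 4 ^ j, (H (sub (2 ^ k) ρ S) t ↔ H (sub (2 ^ k) ρ S') t)) ∧
        (∀ t < 4 ^ j, (K (sub (2 ^ k) ρ S) t ↔ K (sub (2 ^ k) ρ S') t)) := by
      intro ρ hρ
      have := congrFun h ⟨ρ, hρ⟩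
      simp only [Prod.mk.injEq, Subtype.mk.injEq, decide_eq_decide] at this
      obtain ⟨g0, g1, g2, g3⟩ := this
      refine ⟨g0, fun t ht => hp_eq g1 t ht, fun t ht => ?_⟩
      rcases Nat.even_or_odd' t with ⟨s, rfl | rfl⟩
      · rw [K_even, K_even]; exact hp_eq g3 s (by omega)
      · rw [K_odd, K_odd]; exact hp_eq g2 s (by omega)
    funext i
    apply Subset.antisymm
    · exact pat_sub hk hN (fun ρ hρ => (h' ρ hρ).1.mp) (fun ρ hρ t ht => ((h' ρ hρ).2.1 t ht).mp)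
        (fun ρ hρ t ht => ((h' ρ hρ).2.2 t ht).mp) i
    · exact pat_sub hk hN (fun ρ hρ => (h' ρ hρ).1.mpr) (fun ρ hρ t ht => ((h' ρ hρ).2.1 t ht).mpr)
        (fun ρ hρ t ht => ((h' ρ hρ).2.2 t ht).mpr) i

end Pool.Agent.V11108.PD
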