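import Mathlib

/-!
# Dendrites from compact ultrametric spaces

For a compact ultrametric space `X` of diameter at most one, the quotient of `X × [0,1]` by the
tree pseudometric `2 max(s,t,d(x,y)) - s - t` is a dendrite, and every `2`-Lipschitz self-map
of `X` extends to it in such a way that all the points outside `X` are eventually mapped to the
root.
-/

namespace Pool.Agent.V11108.Dendrite

open Set Topology

/-- A dendrite: a locally connected continuum containing no subset homeomorphic to a circle. -/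
def IsDendrite (D : Type*) [MetricSpace D] : Prop :=
  CompactSpace D ∧ ConnectedSpace D ∧ LocallyConnectedSpace D ∧
    ¬ ∃ C : Set D, Nonempty (C ≃ₜ Circle)

/-- separation by points excludes circles -/
lemma no_circle {D : Type*} [TopologicalSpace D]
    (h : ∀ a b : D, a ≠ b → ∃ p : D, p ≠ a ∧ p ≠ b ∧ ∃ U V : Set D, IsOpen U ∧ IsOpen V ∧
      Disjoint U V ∧ a ∈ U ∧ b ∈ V ∧ {p}ᶜ ⊆ U ∪ V) :
    ¬ ∃ C : Set D, Nonempty (C ≃ₜ Circle) := by
  rintro ⟨C, ⟨e⟩⟩
  have key : ∀ (S : Set D), IsPreconnected S → ∀ a ∈ S, ∀ b ∈ S, ∀ (U V : Set D), IsOpen U →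
      IsOpen V → Disjoint U V → a ∈ U → b ∈ V → S ⊆ U ∪ V → False := by
    intro S hS a ha b hb U V hU hV hUV haU hbV hSUV
    obtain ⟨x, _, hx⟩ := hS U V hU hV hSUV ⟨a, ha, haU⟩ ⟨b, hb, hbV⟩
    exact Set.disjoint_left.1 hUV hx.1 hx.2
  obtain ⟨z0, hz0⟩ : ∃ z : Circle, z ≠ 1 := by
    refine ⟨Circle.exp Real.pi, fun h => ?_⟩
    have := congrArg (fun z : Circle => (z : ℂ)) h
    simp at this
    norm_num at this
  let a : D := (e.symm 1 : C)
  let b : D := (e.symm z0 : C)
  have ha : a ∈ C := (e.symm 1).2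
  have hb : b ∈ C := (e.symm z0).2
  have hab : a ≠ b := fun h => hz0 (e.symm.injective (Subtype.ext h)).symm
  obtain ⟨p, hpa, hpb, U, V, hU, hV, hUV, haU, hbV, hcov⟩ := h a b hab
  by_cases hp : p ∈ C
  · -- C minus p is connected
    let w : Circle := e ⟨p, hp⟩
    have hw : IsPreconnected ({w}ᶜ : Set Circle) := by
      obtain ⟨θ, hθ⟩ : ∃ θ : ℝ, Circle.exp θ = w := ⟨Complex.arg w, Circle.exp_arg w⟩
      have hset : ({w}ᶜ : Set Circle) = Circle.exp '' (Ioo θ (θ + 2 * Real.pi)) := by
        ext z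
        constructor
        · intro hz
          have hpi : (0 : ℝ) < 2 * Real.pi := by positivity
          obtain ⟨t, ht, htz⟩ : ∃ t ∈ Ico θ (θ + 2 * Real.pi), Circle.exp t = z := by
            refine ⟨toIcoMod hpi θ (Complex.arg z), toIcoMod_mem_Ico hpi θ _, ?_⟩
            have h1 : toIcoMod hpi θ (Complex.arg z) = Complex.arg z -
                toIcoDiv hpi θ (Complex.arg z) • (2 * Real.pi) := rfl
            have h3 : Circle.exp ((toIcoDiv hpi θ (Complex.arg z) : ℝ) * (2 * Real.pi)) = 1 := by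
              rw [Circle.exp_int_mul_two_pi]
            rw [h1, zsmul_eq_mul, Circle.exp_sub, h3, div_one, Circle.exp_arg]
          rcases eq_or_lt_of_le ht.1 with h1 | h1
          · exfalso
            apply hz
            rw [mem_singleton_iff, ← htz, ← h1, hθ]
          · exact ⟨t, ⟨h1, ht.2⟩, htz⟩
        · rintro ⟨t, ht, rfl⟩ h1
          rw [mem_singleton_iff, ← hθ, Circle.exp_eq_exp] at h1
          obtain ⟨m, hm⟩ := h1
          have hpi := Real.pi_pos
          have h2 : (0 : ℝ) < m := by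
            by_contra hcon
            push Not at hcon
            have : (m : ℝ) * (2 * Real.pi) ≤ 0 := mul_nonpos_of_nonpos_of_nonneg hcon (by positivity)
            linarith [ht.1]
          have h3 : (m : ℝ) < 1 := by
            by_contra hcon
            push Not at hcon
            have : 1 * (2 * Real.pi) ≤ (m : ℝ) * (2 * Real.pi) :=
              mul_le_mul_of_nonneg_right hcon (by positivity)
            linarith [ht.2]
          have h4 : (0 : ℤ) < m := by exact_mod_cast h2
          have h5 : m < (1 : ℤ) := by exact_mod_cast h3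
          omega
      rw [hset]
      exact isPreconnected_Ioo.image _ Circle.exp.continuous.continuousOn
    have hS : IsPreconnected ((fun z : Circle => ((e.symm z : C) : D)) '' {w}ᶜ) :=
      hw.image _ (continuous_subtype_val.comp e.symm.continuous).continuousOn
    refine key _ hS a ⟨1, ?_, rfl⟩ b ⟨z0, ?_, rfl⟩ U V hU hV hUV haU hbV ?_
    · intro h1
      apply hpa
      have h2 : e.symm 1 = ⟨p, hp⟩ := by rw [mem_singleton_iff.1 h1]; exact e.symm_apply_apply _
      show p = ((e.symm 1 : C) : D)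
      rw [h2]
    · intro h1
      apply hpb
      have h2 : e.symm z0 = ⟨p, hp⟩ := by rw [mem_singleton_iff.1 h1]; exact e.symm_apply_apply _
      show p = ((e.symm z0 : C) : D)
      rw [h2]
    · rintro _ ⟨z, hz, rfl⟩
      apply hcov
      intro h1
      apply hz
      rw [mem_singleton_iff] at h1 ⊢
      have : e.symm z = ⟨p, hp⟩ := Subtype.ext h1
      calc z = e (e.symm z) := (e.apply_symm_apply z).symm
        _ = w := by rw [this]
  · have hS : IsPreconnected C := by
      have h1 : IsPreconnected ((fun z : Circle => ((e.symm z : C) : D)) '' univ) :=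
        isPreconnected_univ.image _
          (continuous_subtype_val.comp e.symm.continuous).continuousOn
      have h2 : (fun z : Circle => ((e.symm z : C) : D)) '' univ = C := by
        ext x
        constructor
        · rintro ⟨z, _, rfl⟩; exact (e.symm z).2
        · intro hx; exact ⟨e ⟨x, hx⟩, trivial, by simp⟩
      rwa [h2] at h1
    refine key C hS a ha b hb U V hU hV hUV haU hbV fun x hx => hcov ?_
    intro h1
    rw [mem_singleton_iff] at h1
    rw [h1] at hx; exact hp hx

/-! ### The tree over an ultrametric space -/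

/-- points of `X × [0,1]` -/
structure Pt (X : Type*) where
  x : X
  t : ℝ
  nn : 0 ≤ t
  le : t ≤ 1

variable {X : Type*} [MetricSpace X]

/-- merging height -/
noncomputable def mh (a b : Pt X) : ℝ := max (max a.t b.t) (dist a.x b.x)

lemma mh_comm (a b : Pt X) : mh a b = mh b a := by
  unfold mh; rw [max_comm a.t, dist_comm]

lemma le_mh_left (a b : Pt X) : a.t ≤ mh a b := le_max_of_le_left (le_max_left _ _)
lemma le_mh_right (a b : Pt X) : b.t ≤ mh a b := le_max_of_le_left (le_max_right _ _)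

lemma mh_self (a : Pt X) : mh a a = a.t := by
  unfold mh; rw [max_self, dist_self, max_eq_left a.nn]

variable [IsUltrametricDist X]

lemma mh_tri (a b c : Pt X) : mh a c ≤ max (mh a b) (mh b c) := by
  unfold mh
  refine max_le (max_le ?_ ?_) ?_
  · exact le_max_of_le_left (le_max_of_le_left (le_max_left _ _))
  · exact le_max_of_le_right (le_max_of_le_left (le_max_right _ _))
  · refine (dist_triangle_max a.x b.x c.x).trans (max_le ?_ ?_)
    · exact le_max_of_le_left (le_max_right _ _)
    · exact le_max_of_le_right (le_max_right _ _)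

/-- the tree pseudometric -/
noncomputable instance : PseudoMetricSpace (Pt X) where
  dist a b := 2 * mh a b - a.t - b.t
  dist_self a := by rw [mh_self]; ring
  dist_comm a b := by rw [mh_comm]; ring
  dist_triangle a b c := by
    have h1 := mh_tri a b c
    have h2 := le_mh_right a b
    have h3 := le_mh_left b c
    rcases le_total (mh a b) (mh b c) with h | h
    · rw [max_eq_right h] at h1; linarith
    · rw [max_eq_left h] at h1; linarith

lemma pt_dist (a b : Pt X) : dist a b = 2 * mh a b - a.t - b.t := rfl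

variable (X) in
/-- the dendrite -/
abbrev Dn : Type _ := SeparationQuotient (Pt X)

/-- the class of a point -/
noncomputable def mk (a : Pt X) : Dn X := SeparationQuotient.mk a

lemma mk_dist (a b : Pt X) : dist (mk a) (mk b) = 2 * mh a b - a.t - b.t := by
  rw [← pt_dist]; exact SeparationQuotient.dist_mk a b

lemma mk_surj (q : Dn X) : ∃ a : Pt X, mk a = q := SeparationQuotient.surjective_mk q

lemma t_lip (a b : Pt X) : |a.t - b.t| ≤ dist (mk a) (mk b) := by
  rw [mk_dist, abs_le]
  have h1 := le_mh_left a b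
  have h2 := le_mh_right a b
  constructor <;> linarith

lemma mk_eq_t {a b : Pt X} (h : mk a = mk b) : a.t = b.t := by
  have h1 := t_lip a b
  rw [h, dist_self] at h1
  have := abs_nonpos_iff.1 h1
  linarith

/-- the height -/
noncomputable def ht (q : Dn X) : ℝ := (Classical.choose (mk_surj q)).t

lemma ht_mk (a : Pt X) : ht (mk a) = a.t := mk_eq_t (Classical.choose_spec (mk_surj (mk a)))

lemma ht_cont : Continuous (ht (X := X)) := by
  refine continuous_iff_continuousAt.2 fun q => ?_
  rw [Metric.continuousAt_iff]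
  intro ε hε
  refine ⟨ε, hε, fun q' hq' => ?_⟩
  obtain ⟨a, rfl⟩ := mk_surj q
  obtain ⟨b, rfl⟩ := mk_surj q'
  rw [ht_mk, ht_mk, Real.dist_eq]
  exact lt_of_le_of_lt (t_lip b a) hq'

/-- merging height on the quotient -/
noncomputable def Mh (q q' : Dn X) : ℝ := (dist q q' + ht q + ht q') / 2

lemma Mh_mk (a b : Pt X) : Mh (mk a) (mk b) = mh a b := by
  unfold Mh; rw [mk_dist, ht_mk, ht_mk]; ring

lemma Mh_cont (q' : Dn X) : Continuous fun q => Mh q q' := by
  unfold Mh
  have := ht_cont (X := X)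
  fun_prop

lemma Mh_tri (p q r : Dn X) : Mh p r ≤ max (Mh p q) (Mh q r) := by
  obtain ⟨a, rfl⟩ := mk_surj p
  obtain ⟨b, rfl⟩ := mk_surj q
  obtain ⟨c, rfl⟩ := mk_surj r
  rw [Mh_mk, Mh_mk, Mh_mk]; exact mh_tri a b c

lemma ht_le_Mh (p q : Dn X) : ht p ≤ Mh p q := by
  obtain ⟨a, rfl⟩ := mk_surj p
  obtain ⟨b, rfl⟩ := mk_surj q
  rw [Mh_mk, ht_mk]; exact le_mh_left a b

lemma Mh_comm (p q : Dn X) : Mh p q = Mh q p := by
  unfold Mh; rw [dist_comm]; ring

lemma Mh_self (p : Dn X) : Mh p p = ht p := by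
  unfold Mh; rw [dist_self]; ring

lemma ht_nonneg (p : Dn X) : 0 ≤ ht p := by
  obtain ⟨a, rfl⟩ := mk_surj p
  rw [ht_mk]; exact a.nn

/-! ### Separation -/

omit [IsUltrametricDist X] in
lemma mh_le_one (hd : ∀ x y : X, dist x y ≤ 1) (a b : Pt X) : mh a b ≤ 1 :=
  max_le (max_le a.le b.le) (hd _ _)

/-- if the merging height of `a,b` exceeds the height of `a` then some point separates them -/
lemma sep_aux (hd : ∀ x y : X, dist x y ≤ 1) (a b : Dn X) (h : ht a < Mh a b) :
    ∃ p : Dn X, p ≠ a ∧ p ≠ b ∧ ∃ U V : Set (Dn X), IsOpen U ∧ IsOpen V ∧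
      Disjoint U V ∧ a ∈ U ∧ b ∈ V ∧ {p}ᶜ ⊆ U ∪ V := by
  obtain ⟨u, hu1, hu2, hu3⟩ : ∃ u, ht a < u ∧ u < Mh a b ∧ u ≠ ht b := by
    by_cases hc : (ht a + Mh a b) / 2 = ht b
    · refine ⟨(ht a + ht b) / 2, by linarith, by linarith, ?_⟩
      intro h1; linarith
    · exact ⟨(ht a + Mh a b) / 2, by linarith, by linarith, hc⟩
  obtain ⟨α, hα⟩ := mk_surj a
  obtain ⟨β, hβ⟩ := mk_surj b
  have hu_le : u ≤ 1 := by
    have := mh_le_one hd α β
    rw [← Mh_mk, hα, hβ] at this
    linarith
  have hu0 : 0 ≤ u := by have := ht_nonneg a; linarith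
  -- the point p
  obtain ⟨p, hp⟩ : ∃ p : Dn X, p = mk ⟨α.x, u, hu0, hu_le⟩ := ⟨_, rfl⟩
  have htp : ht p = u := by rw [hp, ht_mk]
  have hMpa : Mh p a = u := by
    rw [hp, ← hα, Mh_mk]
    unfold mh
    have h1 : α.t ≤ u := by rw [← ht_mk, hα]; exact hu1.le
    simp only [dist_self]
    rw [max_eq_left h1, max_eq_left hu0]
  have hpa : p ≠ a := by
    intro h1; rw [h1] at htp; linarith
  have hpb : p ≠ b := by
    intro h1; rw [h1] at htp; exact hu3 htp.symm
  have hMab : Mh b a = Mh a b := Mh_comm _ _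
  refine ⟨p, hpa, hpb, {q | Mh q a < u}, {q | u ≤ Mh q a ∧ q ≠ p}, ?_, ?_, ?_, ?_, ?_, ?_⟩
  · exact isOpen_lt (Mh_cont a) continuous_const
  · rw [isOpen_iff_mem_nhds]
    rintro q ⟨hq1, hq2⟩
    by_cases hq : ht q < u
    · have hopen : IsOpen {q' | Mh q' q < u} := isOpen_lt (Mh_cont q) continuous_const
      refine Filter.mem_of_superset (hopen.mem_nhds (by show Mh q q < u; rw [Mh_self]; exact hq))
        ?_
      intro q' hq'
      have hq'' : Mh q' q < u := hq'
      refine ⟨?_, ?_⟩
      · by_contra hcon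
        push Not at hcon
        have := Mh_tri q q' a
        rw [Mh_comm q q'] at this
        exact absurd (lt_of_le_of_lt this (max_lt hq'' hcon)) (not_lt.2 hq1)
      · rintro rfl
        have := ht_le_Mh q' q
        linarith
    · push Not at hq
      rcases eq_or_lt_of_le hq1 with h1 | h1
      · exfalso
        apply hq2
        have h2 : ht q = u := le_antisymm (by rw [h1]; exact ht_le_Mh q a) hq
        have h3 := Mh_tri q a p
        rw [← h1, Mh_comm a p, hMpa, max_self] at h3
        have h4 : dist q p ≤ 0 := by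
          unfold Mh at h3
          rw [h2, htp] at h3
          linarith
        exact dist_le_zero.1 h4
      · have hopen : IsOpen {q' | u < Mh q' a} := isOpen_lt continuous_const (Mh_cont a)
        refine Filter.mem_of_superset (hopen.mem_nhds h1) ?_
        intro q' hq'
        have hq'' : u < Mh q' a := hq'
        refine ⟨hq''.le, ?_⟩
        rintro rfl
        linarith
  · rw [Set.disjoint_left]
    rintro q h1 ⟨h2, _⟩
    exact absurd h1 (not_lt.2 h2)
  · show Mh a a < u
    rw [Mh_self]; exact hu1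
  · exact ⟨by rw [hMab]; exact hu2.le, fun h1 => hpb h1.symm⟩
  · intro q hq
    rcases lt_or_ge (Mh q a) u with h1 | h1
    · exact Or.inl h1
    · exact Or.inr ⟨h1, hq⟩

lemma dn_no_circle (hd : ∀ x y : X, dist x y ≤ 1) :
    ¬ ∃ C : Set (Dn X), Nonempty (C ≃ₜ Circle) := by
  refine no_circle fun a b hab => ?_
  have hpos := dist_pos.2 hab
  have h1 : ht a < Mh a b ∨ ht b < Mh a b := by
    by_contra hcon
    push Not at hcon
    unfold Mh at hcon
    linarith [hcon.1, hcon.2]
  rcases h1 with h1 | h1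
  · exact sep_aux hd a b h1
  · rw [Mh_comm] at h1
    obtain ⟨p, hp1, hp2, U, V, hU, hV, hUV, hb, ha, hcov⟩ := sep_aux hd b a h1
    exact ⟨p, hp2, hp1, V, U, hV, hU, hUV.symm, ha, hb, by rwa [Set.union_comm]⟩

/-! ### Connectedness -/

/-- vertical lines -/
noncomputable def ver (x : X) (u : ℝ) : Dn X :=
  mk ⟨x, max 0 (min u 1), le_max_left _ _, max_le zero_le_one (min_le_right _ _)⟩

lemma ver_eq {x : X} {u : ℝ} (h0 : 0 ≤ u) (h1 : u ≤ 1) : ver x u = mk ⟨x, u, h0, h1⟩ := by
  unfold ver
  congr 2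
  rw [min_eq_left h1, max_eq_right h0]

lemma ver_dist {x y : X} {u v : ℝ} (hu0 : 0 ≤ u) (hu1 : u ≤ 1) (hv0 : 0 ≤ v) (hv1 : v ≤ 1) :
    dist (ver x u) (ver y v) = 2 * max (max u v) (dist x y) - u - v := by
  rw [ver_eq hu0 hu1, ver_eq hv0 hv1, mk_dist]; rfl

lemma ver_cont (x : X) : Continuous (ver x) := by
  have hL : LipschitzWith 1 (ver x) := by
    refine LipschitzWith.of_dist_le_mul fun u v => ?_
    rw [NNReal.coe_one, one_mul]
    unfold ver
    rw [mk_dist]
    unfold mh
    simp only [dist_self]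
    rw [max_eq_left (le_max_of_le_left (le_max_left _ _)), Real.dist_eq]
    have h1 : |max 0 (min u 1) - max 0 (min v 1)| ≤ |u - v| := by
      have h2 := abs_max_sub_max_le_max 0 (min u 1) 0 (min v 1)
      have h3 := abs_min_sub_min_le_max u 1 v 1
      simp only [sub_self, abs_zero] at h2 h3
      exact h2.trans (max_le (abs_nonneg _) (h3.trans (max_le (le_refl _) (abs_nonneg _))))
    refine le_trans (le_of_eq ?_) h1
    rcases le_total (max 0 (min u 1)) (max 0 (min v 1)) with h | h
    · rw [max_eq_right h, abs_of_nonpos (by linarith)]; ring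
    · rw [max_eq_left h, abs_of_nonneg (by linarith)]; ring
  exact hL.continuous

lemma ball_preconn (hd : ∀ x y : X, dist x y ≤ 1) (q : Dn X) (r : ℝ) :
    IsPreconnected (Metric.ball q r) := by
  refine isPreconnected_of_forall q fun q' hq' => ?_
  obtain ⟨a, rfl⟩ := mk_surj q
  obtain ⟨b, rfl⟩ := mk_surj q'
  obtain ⟨m, hm⟩ : ∃ m, m = mh a b := ⟨_, rfl⟩
  have hma : a.t ≤ m := by rw [hm]; exact le_mh_left a b
  have hmb : b.t ≤ m := by rw [hm]; exact le_mh_right a b
  have hm1 : m ≤ 1 := by rw [hm]; exact mh_le_one hd a b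
  have hm0 : 0 ≤ m := a.nn.trans hma
  have hdist : dist a.x b.x ≤ m := by rw [hm]; exact le_max_right _ _
  have hr : 2 * m - a.t - b.t < r := by
    rw [hm, ← mk_dist, dist_comm]; exact hq'
  have eqa : mk a = ver a.x a.t := (ver_eq a.nn a.le).symm
  have eqb : mk b = ver b.x b.t := (ver_eq b.nn b.le).symm
  refine ⟨ver a.x '' Icc a.t m ∪ ver b.x '' Icc b.t m, ?_, ?_, ?_, ?_⟩
  · rintro _ (⟨u, hu, rfl⟩ | ⟨u, hu, rfl⟩)
    · rw [Metric.mem_ball, dist_comm, eqa,
        ver_dist a.nn a.le (a.nn.trans hu.1) (hu.2.trans hm1), dist_self,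
        max_eq_right hu.1, max_eq_left (a.nn.trans hu.1)]
      linarith [hu.2, hu.1]
    · rw [Metric.mem_ball, dist_comm, eqa,
        ver_dist a.nn a.le (b.nn.trans hu.1) (hu.2.trans hm1)]
      have : max (max a.t u) (dist a.x b.x) ≤ m := max_le (max_le hma hu.2) hdist
      linarith [hu.1]
  · left; exact ⟨a.t, ⟨le_refl _, hma⟩, eqa.symm⟩
  · right; exact ⟨b.t, ⟨le_refl _, hmb⟩, eqb.symm⟩
  · refine IsPreconnected.union (ver a.x m) ⟨m, ⟨hma, le_refl _⟩, rfl⟩ ?_
      (isPreconnected_Icc.image _ (ver_cont _).continuousOn)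
      (isPreconnected_Icc.image _ (ver_cont _).continuousOn)
    refine ⟨m, ⟨hmb, le_refl _⟩, ?_⟩
    refine dist_le_zero.1 ?_
    rw [ver_dist hm0 hm1 hm0 hm1, max_self, dist_comm, max_eq_left hdist]
    linarith

lemma dn_locConn (hd : ∀ x y : X, dist x y ≤ 1) : LocallyConnectedSpace (Dn X) :=
  locallyConnectedSpace_of_connected_bases (fun q r => Metric.ball q r) (fun _ r => 0 < r)
    (fun _ => Metric.nhds_basis_ball) (fun _ _ _ => ball_preconn hd _ _)

lemma dn_conn [Nonempty X] (hd : ∀ x y : X, dist x y ≤ 1) : ConnectedSpace (Dn X) := by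
  obtain ⟨x⟩ := ‹Nonempty X›
  have h1 : Metric.ball (mk (⟨x, 0, le_refl _, zero_le_one⟩ : Pt X)) 3 = univ := by
    refine eq_univ_of_forall fun q => ?_
    obtain ⟨b, rfl⟩ := mk_surj q
    rw [Metric.mem_ball, mk_dist]
    have := mh_le_one hd b ⟨x, 0, le_refl _, zero_le_one⟩
    have := b.nn
    simp only
    linarith
  have h2 : IsPreconnected (univ : Set (Dn X)) := by rw [← h1]; exact ball_preconn hd _ _
  exact { isPreconnected_univ := h2, toNonempty := ⟨mk ⟨x, 0, le_refl _, zero_le_one⟩⟩ }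

lemma dn_compact [CompactSpace X] : CompactSpace (Dn X) := by
  have hL : Continuous fun p : X × Icc (0 : ℝ) 1 => ver p.1 p.2.1 := by
    refine continuous_iff_continuousAt.2 fun p => ?_
    rw [Metric.continuousAt_iff]
    intro ε hε
    refine ⟨ε / 8, by positivity, fun p' hp' => ?_⟩
    rw [Prod.dist_eq, max_lt_iff] at hp'
    obtain ⟨h1, h2⟩ := hp'
    rw [ver_dist p'.2.2.1 p'.2.2.2 p.2.2.1 p.2.2.2]
    rw [Subtype.dist_eq, Real.dist_eq, abs_lt] at h2
    have h3 : max (max p'.2.1 p.2.1) (dist p'.1 p.1) ≤ max p'.2.1 p.2.1 + dist p'.1 p.1 :=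
      max_le (by linarith [dist_nonneg (x := p'.1) (y := p.1)])
        (by have := p.2.2.1; have : p.2.1 ≤ max p'.2.1 p.2.1 := le_max_right _ _; linarith)
    have h4 : max p'.2.1 p.2.1 ≤ p'.2.1 + ε / 8 := max_le (by linarith) (by linarith [h2.1])
    have h5 : p'.2.1 < p.2.1 + ε / 8 := by linarith [h2.2]
    linarith
  have hs : Function.Surjective fun p : X × Icc (0 : ℝ) 1 => ver p.1 p.2.1 := by
    intro q
    obtain ⟨b, rfl⟩ := mk_surj q
    exact ⟨(b.x, ⟨b.t, b.nn, b.le⟩), ver_eq b.nn b.le⟩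
  rw [← isCompact_univ_iff, ← hs.range_eq]
  exact isCompact_range hL

lemma dn_dendrite [CompactSpace X] [Nonempty X] (hd : ∀ x y : X, dist x y ≤ 1) :
    IsDendrite (Dn X) :=
  ⟨dn_compact, dn_conn hd, dn_locConn hd, dn_no_circle hd⟩

/-! ### The extension -/

/-- the map upstairs -/
noncomputable def F0 (T : X → X) (a : Pt X) : Pt X :=
  ⟨T a.x, min (2 * a.t) 1, le_min (by linarith [a.nn]) zero_le_one, min_le_right _ _⟩

lemma F0_dist (hd : ∀ x y : X, dist x y ≤ 1) {T : X → X}
    (hT : ∀ x y, dist (T x) (T y) ≤ 2 * dist x y) (a b : Pt X) :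
    dist (mk (F0 T a)) (mk (F0 T b)) ≤ 2 * dist (mk a) (mk b) := by
  rw [mk_dist, mk_dist]
  have h1 : mh (F0 T a) (F0 T b) ≤ min (2 * mh a b) 1 := by
    refine le_min ?_ (mh_le_one hd _ _)
    unfold mh F0
    simp only
    refine max_le (max_le ?_ ?_) ?_
    · exact (min_le_left _ _).trans (by linarith [le_mh_left a b, show mh a b = max (max a.t b.t) (dist a.x b.x) from rfl])
    · exact (min_le_left _ _).trans (by linarith [le_mh_right a b, show mh a b = max (max a.t b.t) (dist a.x b.x) from rfl])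
    · refine (hT _ _).trans ?_
      have : dist a.x b.x ≤ max (max a.t b.t) (dist a.x b.x) := le_max_right _ _
      linarith
  have h2 : (F0 T a).t = min (2 * a.t) 1 := rfl
  have h3 : (F0 T b).t = min (2 * b.t) 1 := rfl
  rw [h2, h3]
  have h4 := le_mh_left a b
  have h5 := le_mh_right a b
  have h6 : min (2 * mh a b) 1 - min (2 * a.t) 1 ≤ 2 * mh a b - 2 * a.t := by
    rcases le_total (2 * a.t) 1 with h | h
    · rw [min_eq_left h]; linarith [min_le_left (2 * mh a b) 1]
    · rw [min_eq_right h]; linarith [min_le_right (2 * mh a b) 1]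
  have h7 : min (2 * mh a b) 1 - min (2 * b.t) 1 ≤ 2 * mh a b - 2 * b.t := by
    rcases le_total (2 * b.t) 1 with h | h
    · rw [min_eq_left h]; linarith [min_le_left (2 * mh a b) 1]
    · rw [min_eq_right h]; linarith [min_le_right (2 * mh a b) 1]
  linarith

/-- the extension -/
noncomputable def Fm (T : X → X) (q : Dn X) : Dn X := mk (F0 T (Classical.choose (mk_surj q)))

lemma Fm_mk (hd : ∀ x y : X, dist x y ≤ 1) {T : X → X}
    (hT : ∀ x y, dist (T x) (T y) ≤ 2 * dist x y) (a : Pt X) : Fm T (mk a) = mk (F0 T a) := by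
  refine dist_le_zero.1 ((F0_dist hd hT _ _).trans ?_)
  rw [Classical.choose_spec (mk_surj (mk a)), dist_self, mul_zero]

lemma Fm_cont (hd : ∀ x y : X, dist x y ≤ 1) {T : X → X}
    (hT : ∀ x y, dist (T x) (T y) ≤ 2 * dist x y) : Continuous (Fm T) := by
  have : LipschitzWith 2 (Fm T) := by
    refine LipschitzWith.of_dist_le_mul fun p q => ?_
    obtain ⟨a, rfl⟩ := mk_surj p
    obtain ⟨b, rfl⟩ := mk_surj q
    rw [Fm_mk hd hT, Fm_mk hd hT]
    exact F0_dist hd hT a b
  exact this.continuous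

/-- **The dendrite lemma.** -/
theorem exists_dendrite {X : Type} [MetricSpace X] [IsUltrametricDist X] [CompactSpace X]
    [Nonempty X] (hd : ∀ x y : X, dist x y ≤ 1) (T : X → X)
    (hT : ∀ x y, dist (T x) (T y) ≤ 2 * dist x y) :
    ∃ (D : Type) (_ : MetricSpace D) (F : D → D) (e : X → D) (r : D), IsDendrite D ∧
      Continuous F ∧ (∀ x y, dist (e x) (e y) = 2 * dist x y) ∧ (∀ x, F (e x) = e (T x)) ∧
      (∀ x, dist (e x) r = 1) ∧ F r = r ∧
      ∀ q, (∃ x, q = e x) ∨ ∃ N : ℕ, ∀ n ≥ N, F^[n] q = r := by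
  obtain ⟨x₀⟩ := ‹Nonempty X›
  have hne : Nonempty X := ⟨x₀⟩
  have hroot : ∀ x : X, mk (⟨x, 1, zero_le_one, le_refl _⟩ : Pt X) =
      mk (⟨x₀, 1, zero_le_one, le_refl _⟩ : Pt X) := by
    intro x
    refine dist_le_zero.1 ?_
    rw [mk_dist]
    have := mh_le_one hd (⟨x, 1, zero_le_one, le_refl _⟩ : Pt X) ⟨x₀, 1, zero_le_one, le_refl _⟩
    simp only
    linarith
  refine ⟨Dn X, inferInstance, Fm T, fun x => mk ⟨x, 0, le_refl _, zero_le_one⟩,
    mk ⟨x₀, 1, zero_le_one, le_refl _⟩, dn_dendrite hd, Fm_cont hd hT, ?_, ?_, ?_, ?_, ?_⟩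
  · intro x y
    rw [mk_dist]
    unfold mh
    simp only [max_self]
    rw [max_eq_right dist_nonneg]
    ring
  · intro x
    rw [Fm_mk hd hT]
    unfold F0
    simp
  · intro x
    rw [mk_dist]
    unfold mh
    simp only
    rw [max_eq_right (zero_le_one : (0 : ℝ) ≤ 1), max_eq_left (hd _ _)]
    ring
  · rw [Fm_mk hd hT]
    unfold F0
    simp only [mul_one]
    have h1 : min (2 : ℝ) 1 = 1 := min_eq_right (by norm_num)
    have h2 : (⟨T x₀, min 2 1, le_min (by norm_num) zero_le_one, min_le_right _ _⟩ : Pt X) =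
        ⟨T x₀, 1, zero_le_one, le_refl _⟩ := by congr
    rw [h2]; exact hroot _
  · intro q
    obtain ⟨a, rfl⟩ := mk_surj q
    rcases eq_or_lt_of_le a.nn with h0 | h0
    · left
      refine ⟨a.x, ?_⟩
      congr 1
      cases a
      simp only at h0
      subst h0
      rfl
    · right
      have hit : ∀ n : ℕ, ∃ b : Pt X, (Fm T)^[n] (mk a) = mk b ∧ b.t = min (2 ^ n * a.t) 1 := by
        intro n
        induction n with
        | zero => exact ⟨a, rfl, by simp [a.le]⟩
        | succ n ih =>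
          obtain ⟨b, hb1, hb2⟩ := ih
          refine ⟨F0 T b, by rw [Function.iterate_succ_apply', hb1, Fm_mk hd hT], ?_⟩
          show min (2 * b.t) 1 = _
          rw [hb2, pow_succ]
          rcases le_total (2 ^ n * a.t) 1 with h | h
          · rw [min_eq_left h]; congr 1; ring
          · rw [min_eq_right h, min_eq_right (by norm_num), min_eq_right (by nlinarith)]
      obtain ⟨N, hN⟩ : ∃ N : ℕ, 1 / a.t < 2 ^ N := pow_unbounded_of_one_lt _ (by norm_num)
      refine ⟨N, fun n hn => ?_⟩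
      obtain ⟨b, hb1, hb2⟩ := hit n
      have h1 : 1 ≤ 2 ^ n * a.t := by
        rw [div_lt_iff₀ h0] at hN
        have : (2 : ℝ) ^ N ≤ 2 ^ n := pow_le_pow_right₀ (by norm_num) hn
        nlinarith
      rw [min_eq_right h1] at hb2
      rw [hb1, ← hroot b.x]
      congr 1
      cases b
      simp only at hb2
      subst hb2
      rfl

end Pool.Agent.V11108.Dendrite
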