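import Mathlib
import Pool.Agent.TH289.K.Def
import Pool.Agent.V11108.CovLift

/-!
# Finite extensions of toral automorphisms
-/

set_option autoImplicit false

open Topology Set Filter

namespace Pool.Agent.V11108.TorExt

open Pool.Agent.V11108.CovLift

/-- integer vectors as real vectors -/
def ι {m : ℕ} (z : Fin m → ℤ) : Fin m → ℝ := fun i => (z i : ℝ)

lemma ι_add {m : ℕ} (z w : Fin m → ℤ) : ι (z + w) = ι z + ι w := by
  funext i; simp [ι]

lemma ι_neg {m : ℕ} (z : Fin m → ℤ) : ι (-z) = -ι z := by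
  funext i; simp [ι]

lemma ι_zero {m : ℕ} : ι (0 : Fin m → ℤ) = 0 := by
  funext i; simp [ι]

/-- the real linear map of an integer matrix -/
def lin {m : ℕ} (A : Matrix (Fin m) (Fin m) ℤ) (x : Fin m → ℝ) : Fin m → ℝ :=
  (A.map (Int.cast : ℤ → ℝ)).mulVec x

lemma lin_add {m : ℕ} (A : Matrix (Fin m) (Fin m) ℤ) (x y : Fin m → ℝ) :
    lin A (x + y) = lin A x + lin A y := Matrix.mulVec_add _ _ _

lemma lin_smul {m : ℕ} (A : Matrix (Fin m) (Fin m) ℤ) (c : ℝ) (x : Fin m → ℝ) :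
    lin A (c • x) = c • lin A x := Matrix.mulVec_smul _ _ _

lemma lin_cont {m : ℕ} (A : Matrix (Fin m) (Fin m) ℤ) : Continuous (lin A) :=
  (Matrix.mulVecLin (A.map (Int.cast : ℤ → ℝ))).continuous_of_finiteDimensional

/-- no eigenvalue one, from expansivity -/
theorem no_fixed {m : ℕ} {A : Matrix (Fin m) (Fin m) ℤ} {Y : Type*} [TopologicalSpace Y]
    {g : Y ≃ₜ Y} (hg : Pool.Agent.TH289.K.Expansive g) {q : (Fin m → ℝ) → Y} (hq : Continuous q)
    (hqA : ∀ x, g (q x) = q (lin A x))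
    (hqZ : ∀ x y, q x = q y ↔ ∃ z : Fin m → ℤ, y = x + ι z) (v : Fin m → ℝ)
    (hv : lin A v = v) : v = 0 := by
  obtain ⟨𝒰, h𝒰, hexp⟩ := hg
  by_contra hv0
  have hfix : ∀ c : ℝ, g (q (c • v)) = q (c • v) := fun c => by
    rw [hqA, lin_smul, hv]
  have hfix' : ∀ c : ℝ, g.symm (q (c • v)) = q (c • v) := fun c => by
    rw [Homeomorph.symm_apply_eq, hfix]
  have hit : ∀ (c : ℝ) (n : ℕ), g^[n] (q (c • v)) = q (c • v) := fun c n =>
    Function.iterate_fixed (hfix c) n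
  have hit' : ∀ (c : ℝ) (n : ℕ), g.symm^[n] (q (c • v)) = q (c • v) := fun c n =>
    Function.iterate_fixed (hfix' c) n
  have h1 : ∀ᶠ c : ℝ in 𝓝 0, (q (c • v), q ((0 : ℝ) • v)) ∈ 𝒰 := by
    have hcont : Continuous fun c : ℝ => (q (c • v), q ((0 : ℝ) • v)) := by fun_prop
    have h2 : 𝒰 ∈ 𝓝 ((q ((0 : ℝ) • v), q ((0 : ℝ) • v)) : Y × Y) :=
      mem_nhdsSet_iff_forall.1 h𝒰 _ (mem_diagonal _)
    exact hcont.continuousAt.eventually h2
  have h3 : ∀ᶠ c : ℝ in 𝓝 0, ‖c • v‖ < 1 := by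
    have hcont : Continuous fun c : ℝ => ‖c • v‖ := by fun_prop
    have : (fun c : ℝ => ‖c • v‖) 0 < 1 := by simp
    exact hcont.continuousAt.eventually (gt_mem_nhds this)
  have h4 : ∃ᶠ c : ℝ in 𝓝 0, c ≠ 0 := by
    have : (𝓝[≠] (0 : ℝ)).NeBot := inferInstance
    intro hcon
    have := (hcon.filter_mono (nhdsWithin_le_nhds (s := ({0}ᶜ : Set ℝ)))).and
      (self_mem_nhdsWithin : ∀ᶠ c in 𝓝[≠] (0 : ℝ), c ∈ ({0}ᶜ : Set ℝ))
    obtain ⟨c, hc1, hc2⟩ := this.exists
    exact hc1 hc2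
  obtain ⟨c, hc0, hc1, hc3⟩ := (h4.and_eventually (h1.and h3)).exists
  have h5 : q (c • v) = q ((0 : ℝ) • v) := by
    apply hexp
    intro n
    rw [hit, hit, hit', hit']
    exact ⟨hc1, hc1⟩
  obtain ⟨z, hz⟩ := (hqZ _ _).1 h5.symm
  rw [zero_smul, zero_add] at hz
  have hz0 : z = 0 := by
    funext i
    have h6 : |(z i : ℝ)| < 1 := by
      have h7 : ‖(c • v) i‖ ≤ ‖c • v‖ := norm_le_pi_norm _ i
      rw [hz] at h7 hc3
      exact lt_of_le_of_lt h7 hc3
    have h8 : |z i| < 1 := by exact_mod_cast h6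
    exact Int.abs_lt_one_iff.1 h8
  rw [hz0, ι_zero] at hz
  rcases smul_eq_zero.1 hz with h | h
  · exact hc0 h
  · exact hv0 h

theorem surj_one_sub {m : ℕ} {A : Matrix (Fin m) (Fin m) ℤ}
    (hno : ∀ v : Fin m → ℝ, lin A v = v → v = 0) (c : Fin m → ℝ) :
    ∃ x, lin A x + c = x := by
  let L : (Fin m → ℝ) →ₗ[ℝ] (Fin m → ℝ) :=
    LinearMap.id - Matrix.mulVecLin (A.map (Int.cast : ℤ → ℝ))
  have hL : ∀ x, L x = x - lin A x := fun x => rfl
  have hinj : Function.Injective L := by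
    rw [← LinearMap.ker_eq_bot, LinearMap.ker_eq_bot']
    intro v hv
    rw [hL, sub_eq_zero] at hv
    exact hno v hv.symm
  obtain ⟨x, hx⟩ := (LinearMap.injective_iff_surjective.1 hinj) c
  refine ⟨x, ?_⟩
  rw [hL] at hx
  rw [← hx]; abel

/-- finite extensions of toral automorphisms are toral automorphisms -/
theorem tor_ext {m : ℕ} {A : Matrix (Fin m) (Fin m) ℤ} {X Y : Type*} [TopologicalSpace X]
    [TopologicalSpace Y] {f : X → X} {g : Y → Y} {q : (Fin m → ℝ) → Y} {h : X → Y}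
    (hf : Continuous f) (hh : IsCoveringMap h) (hs : Function.Surjective h)
    (hfin : ∀ y, (h ⁻¹' {y}).Finite) (hfg : ∀ x, h (f x) = g (h x)) (hq : IsCoveringMap q)
    (hqs : Function.Surjective q) (hqA : ∀ x, g (q x) = q (lin A x))
    (hqZ : ∀ x y, q x = q y ↔ ∃ z : Fin m → ℤ, y = x + ι z)
    (hno : ∀ v : Fin m → ℝ, lin A v = v → v = 0)
    (hsurj : ∀ P : (Fin m → ℝ) → X, IsCoveringMap P → Function.Surjective P) :
    ∃ (P : (Fin m → ℝ) → X) (Λ : AddSubgroup (Fin m → ℤ)), IsCoveringMap P ∧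
      Function.Surjective P ∧ (∀ x, f (P x) = P (lin A x)) ∧
      (∀ x y, P x = P y ↔ ∃ z ∈ Λ, y = x + ι z) ∧ Λ.FiniteIndex := by
  obtain ⟨P, hP, hPq⟩ := exists_lift hh hs hq hqs
  have hPs := hsurj P hP
  have hlift : ∀ F G : (Fin m → ℝ) → X, Continuous F → Continuous G → (∀ x, h (F x) = h (G x)) →
      ∀ a, F a = G a → ∀ x, F x = G x := fun F G hF hG hFG a ha x =>
    congrFun (hh.eq_of_comp_eq hF hG (funext hFG) a ha) x
  obtain ⟨c, hc⟩ := hPs (f (P 0))
  have hcz : ∃ z : Fin m → ℤ, c = ι z := by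
    have h1 : q 0 = q c := by
      have h2 : lin A (0 : Fin m → ℝ) = 0 := Matrix.mulVec_zero _
      rw [← hPq c, hc, hfg, hPq, hqA, h2]
    obtain ⟨z, hz⟩ := (hqZ _ _).1 h1
    exact ⟨z, by rw [hz, zero_add]⟩
  obtain ⟨z, hz⟩ := hcz
  have hfP : ∀ x, f (P x) = P (lin A x + c) := by
    refine hlift (fun x => f (P x)) (fun x => P (lin A x + c)) (hf.comp hP.continuous)
      (hP.continuous.comp ((lin_cont A).add continuous_const)) (fun x => ?_) 0 ?_
    · show h (f (P x)) = h (P (lin A x + c))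
      rw [hfg, hPq, hqA, hPq]
      exact (hqZ _ _).2 ⟨z, by rw [hz]⟩
    · show f (P 0) = P (lin A 0 + c)
      have h2 : lin A (0 : Fin m → ℝ) = 0 := Matrix.mulVec_zero _
      rw [h2, zero_add, hc]
  obtain ⟨a, ha⟩ := surj_one_sub hno c
  have hdeck : ∀ (w : Fin m → ℤ) (x : Fin m → ℝ), P (x + ι w) = P x → ∀ y, P (y + ι w) = P y := by
    intro w x hx
    refine hlift (fun y => P (y + ι w)) P (hP.continuous.comp (by fun_prop)) hP.continuous
      (fun y => ?_) x hx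
    show h (P (y + ι w)) = h (P y)
    rw [hPq, hPq]
    exact ((hqZ _ _).2 ⟨w, rfl⟩).symm
  let Λ : AddSubgroup (Fin m → ℤ) :=
    { carrier := {w | ∀ y, P (y + ι w) = P y}
      zero_mem' := fun y => by rw [ι_zero, add_zero]
      add_mem' := fun {w w'} hw hw' y => by
        rw [ι_add, ← add_assoc, hw', hw]
      neg_mem' := fun {w} hw y => by
        have := hw (y + ι (-w))
        rw [ι_neg, neg_add_cancel_right] at this
        rw [ι_neg]; exact this.symm }
  have hΛ : ∀ w, w ∈ Λ ↔ ∀ y, P (y + ι w) = P y := fun w => Iff.rfl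
  have hP2 : ∀ x y, P x = P y → ∃ w ∈ Λ, y = x + ι w := by
    intro x y hxy
    have h1 : q x = q y := by rw [← hPq, ← hPq, hxy]
    obtain ⟨w, hw⟩ := (hqZ _ _).1 h1
    refine ⟨w, (hΛ w).2 (hdeck w x ?_), hw⟩
    rw [← hw, hxy]
  refine ⟨fun x => P (x + a), Λ, ?_, ?_, ?_, ?_, ?_⟩
  · exact hP.comp_homeomorph (Homeomorph.addRight a)
  · intro y
    obtain ⟨x, hx⟩ := hPs y
    exact ⟨x - a, by show P (x - a + a) = y; rw [sub_add_cancel, hx]⟩
  · intro x
    show f (P (x + a)) = P (lin A x + a)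
    rw [hfP, lin_add, add_assoc, ha]
  · intro x y
    constructor
    · intro hxy
      obtain ⟨w, hw, hw2⟩ := hP2 _ _ hxy
      refine ⟨w, hw, ?_⟩
      have h1 : y + a = (x + ι w) + a := by rw [hw2]; abel
      exact add_right_cancel h1
    · rintro ⟨w, hw, rfl⟩
      show P (x + a) = P (x + ι w + a)
      have h1 : x + ι w + a = (x + a) + ι w := by abel
      rw [h1, (hΛ w).1 hw]
  · have hfi : Finite (h ⁻¹' {q 0}) := (hfin (q 0)).to_subtype
    have hmem : ∀ w : Fin m → ℤ, P (ι w) ∈ h ⁻¹' {q 0} := fun w => by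
      show h (P (ι w)) = q 0
      rw [hPq]
      exact ((hqZ _ _).2 ⟨w, by rw [zero_add]⟩).symm
    have hfq : Finite ((Fin m → ℤ) ⧸ Λ) := by
      refine Finite.of_injective (β := h ⁻¹' {q 0})
        (fun b => ⟨P (ι (Quotient.out b)), hmem _⟩) ?_
      intro b b' hbb
      have h1 : P (ι (Quotient.out b)) = P (ι (Quotient.out b')) := congrArg Subtype.val hbb
      obtain ⟨w, hw, hw2⟩ := hP2 _ _ h1
      have h2 : Quotient.out b' = Quotient.out b + w := by
        funext i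
        have h3 := congrFun hw2 i
        have h4 : ((Quotient.out b' i : ℤ) : ℝ) = ((Quotient.out b i + w i : ℤ) : ℝ) := by
          push_cast
          exact h3
        exact_mod_cast h4
      rw [← QuotientAddGroup.out_eq' b, ← QuotientAddGroup.out_eq' b', QuotientAddGroup.eq]
      have h5 : -(Quotient.out b) + Quotient.out b' = w := by rw [h2]; abel
      rw [h5]; exact hw
    exact AddSubgroup.finiteIndex_of_finite_quotient

end Pool.Agent.V11108.TorExt
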