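import Mathlib

/-!
# Krylov–Bogoliubov for a clopen set, and mixtures of invariant measures
-/

set_option autoImplicit false
open Filter Topology MeasureTheory
open scoped BoundedContinuousFunction

namespace Pool.Agent.V11108.KB

variable {X : Type*} [MetricSpace X] [CompactSpace X] [MeasurableSpace X] [BorelSpace X]

/-- the number of visits to `U` before time `n` -/
noncomputable def visits (f : X → X) (y : X) (U : Set X) (n : ℕ) : ℕ := by
  classical
  exact ((Finset.range n).filter fun i => f^[i] y ∈ U).card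

omit [CompactSpace X] [MetricSpace X] [BorelSpace X] [MeasurableSpace X] in
lemma sum_indicator (f : X → X) (y : X) (U : Set X) (n : ℕ) :
    ∑ i ∈ Finset.range n, U.indicator (fun _ => (1 : ℝ)) (f^[i] y) = visits f y U n := by
  classical
  unfold visits
  simp [Set.indicator_apply]

/-- the empirical measures -/
noncomputable def emp (f : X → X) (y : X) (n : ℕ) : Measure X :=
  ((n : ENNReal) + 1)⁻¹ • ∑ i ∈ Finset.range (n + 1), Measure.dirac (f^[i] y)

omit [CompactSpace X] [MetricSpace X] [BorelSpace X] in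
instance (f : X → X) (y : X) (n : ℕ) : IsProbabilityMeasure (emp f y n) := by
  refine ⟨?_⟩
  unfold emp
  rw [Measure.smul_apply, Measure.finsetSum_apply]
  simp only [measure_univ, Finset.sum_const, Finset.card_range, nsmul_eq_mul, mul_one,
    smul_eq_mul]
  push_cast
  exact ENNReal.inv_mul_cancel (by simp) (by finiteness)

omit [CompactSpace X] in
lemma integral_emp (f : X → X) (y : X) (n : ℕ) (g : X → ℝ) (_ : Continuous g) :
    ∫ x, g x ∂(emp f y n) = (∑ i ∈ Finset.range (n + 1), g (f^[i] y)) / (n + 1) := by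
  unfold emp
  rw [integral_smul_measure, integral_finsetSum_measure]
  · simp only [integral_dirac]
    rw [smul_eq_mul, ENNReal.toReal_inv, div_eq_inv_mul]
    congr 2
  · intro i _
    exact integrable_dirac (by simp [enorm_lt_top])

theorem krylov_bogoliubov (f : X → X) (hf : Continuous f) (y : X) (U : Set X) (hU : IsClopen U)
    (c : ℝ) (hc : ∀ᶠ n : ℕ in atTop, c * n ≤ visits f y U n) :
    ∃ μ : Measure X, IsProbabilityMeasure μ ∧ MeasurePreserving f μ μ ∧ c ≤ μ.real U := by
  let seq : ℕ → ProbabilityMeasure X := fun n => ⟨emp f y n, inferInstance⟩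
  let 𝒰 : Ultrafilter ℕ := hyperfilter ℕ
  obtain ⟨μ, hμ⟩ : ∃ μ : ProbabilityMeasure X, Tendsto seq (𝒰 : Filter ℕ) (𝓝 μ) := by
    have h : IsCompact (Set.univ : Set (ProbabilityMeasure X)) := isCompact_univ
    obtain ⟨μ, -, hμ⟩ := h.ultrafilter_le_nhds (𝒰.map seq) (by simp)
    exact ⟨μ, hμ⟩
  have hle : (𝒰 : Filter ℕ) ≤ atTop := by
    rw [← Nat.cofinite_eq_atTop]
    exact hyperfilter_le_cofinite
  rw [ProbabilityMeasure.tendsto_iff_forall_integral_tendsto] at hμ
  have hint : ∀ (g : X →ᵇ ℝ) (n : ℕ), ∫ x, g x ∂((seq n : ProbabilityMeasure X) : Measure X) =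
      (∑ i ∈ Finset.range (n + 1), g (f^[i] y)) / (n + 1) :=
    fun g n => integral_emp f y n g g.continuous
  refine ⟨μ, inferInstance, ⟨hf.measurable, ?_⟩, ?_⟩
  · -- invariance
    have : IsProbabilityMeasure ((μ : Measure X).map f) :=
      Measure.isProbabilityMeasure_map hf.measurable.aemeasurable
    refine ext_of_forall_integral_eq_of_IsFiniteMeasure fun g => ?_
    rw [integral_map hf.measurable.aemeasurable g.continuous.aestronglyMeasurable]
    let gf : X →ᵇ ℝ := g.compContinuous ⟨f, hf⟩
    have h1 := hμ gf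
    have h2 := hμ g
    have h3 : Tendsto (fun n : ℕ => (∫ x, gf x ∂((seq n : ProbabilityMeasure X) : Measure X)) -
        ∫ x, g x ∂((seq n : ProbabilityMeasure X) : Measure X)) atTop (𝓝 0) := by
      have h4 : ∀ n : ℕ, (∫ x, gf x ∂((seq n : ProbabilityMeasure X) : Measure X)) -
        ∫ x, g x ∂((seq n : ProbabilityMeasure X) : Measure X) =
        (g (f^[n + 1] y) - g y) / (n + 1) := by
        intro n
        rw [hint, hint, ← sub_div]
        congr 1
        have h5 : ∀ i, gf (f^[i] y) = g (f^[i + 1] y) := fun i => by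
          rw [Function.iterate_succ_apply']; rfl
        simp_rw [h5]
        rw [← Finset.sum_sub_distrib, Finset.sum_range_sub (fun i => g (f^[i] y))]
        simp
      simp_rw [h4]
      set C := ‖g‖
      have hC : ∀ x, ‖g x‖ ≤ C := g.norm_coe_le_norm
      refine squeeze_zero_norm (a := fun n : ℕ => 2 * C / ((n : ℝ) + 1)) (fun n => ?_) ?_
      · rw [norm_div]
        have h6 : ‖g (f^[n + 1] y) - g y‖ ≤ 2 * C := by
          calc _ ≤ ‖g (f^[n + 1] y)‖ + ‖g y‖ := norm_sub_le _ _
            _ ≤ C + C := add_le_add (hC _) (hC _)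
            _ = 2 * C := by ring
        have h7 : ‖(n : ℝ) + 1‖ = n + 1 := by
          rw [Real.norm_eq_abs, abs_of_pos (by positivity)]
        rw [h7]
        gcongr
      · exact (tendsto_const_div_atTop_nhds_zero_nat (2 * C)).comp (tendsto_add_atTop_nat 1) |>.congr
          fun n => by simp
    have h8 := (h1.sub h2)
    have h9 := tendsto_nhds_unique h8 (h3.mono_left hle)
    have h10 : ∫ x, g (f x) ∂(μ : Measure X) = ∫ x, gf x ∂(μ : Measure X) := rfl
    rw [h10]
    linarith
  · -- the clopen set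
    let g : X →ᵇ ℝ := BoundedContinuousFunction.mkOfCompact
      ⟨U.indicator (fun _ => (1 : ℝ)), (hU.continuous_indicator continuous_const)⟩
    have h1 := hμ g
    have h2 : ∫ x, g x ∂(μ : Measure X) = (μ : Measure X).real U := by
      change ∫ x, U.indicator (fun _ => (1 : ℝ)) x ∂(μ : Measure X) = _
      rw [integral_indicator hU.isOpen.measurableSet]
      simp
    rw [h2] at h1
    refine ge_of_tendsto h1 (hle ?_)
    have hc' := (tendsto_add_atTop_nat 1).eventually hc
    filter_upwards [hc'] with n hn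
    rw [hint]
    have h3 : ∑ i ∈ Finset.range (n + 1), g (f^[i] y) = visits f y U (n + 1) :=
      sum_indicator f y U (n + 1)
    rw [h3, le_div_iff₀ (by positivity)]
    push_cast at hn
    exact hn

omit [MetricSpace X] [CompactSpace X] [BorelSpace X] in
/-- Countable mixture. -/
theorem mixture (f : X → X) (hf : Measurable f) (μ : ℕ → Measure X)
    (hp : ∀ n, IsProbabilityMeasure (μ n)) (hμ : ∀ n, MeasurePreserving f (μ n) (μ n)) :
    ∃ ν : Measure X, IsProbabilityMeasure ν ∧ MeasurePreserving f ν ν ∧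
      ∀ n, ∀ U : Set X, MeasurableSet U → 0 < μ n U → 0 < ν U := by
  let w : ℕ → ENNReal := fun n => 2⁻¹ ^ (n + 1)
  have hw : ∑' n, w n = 1 := by
    have := ENNReal.tsum_geometric_add_one 2⁻¹
    change ∑' n : ℕ, (2⁻¹ : ENNReal) ^ (n + 1) = 1
    rw [this, ENNReal.one_sub_inv_two, inv_inv]
    exact ENNReal.inv_mul_cancel (by norm_num) (by norm_num)
  refine ⟨Measure.sum fun n => w n • μ n, ⟨?_⟩, ⟨hf, ?_⟩, ?_⟩
  · rw [Measure.sum_apply _ MeasurableSet.univ]
    simp only [Measure.smul_apply, measure_univ, smul_eq_mul, mul_one]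
    exact hw
  · ext s hs
    rw [Measure.map_apply hf hs, Measure.sum_apply _ hs, Measure.sum_apply _ (hf hs)]
    congr 1
    ext n
    rw [Measure.smul_apply, Measure.smul_apply, (hμ n).measure_preimage hs.nullMeasurableSet]
  · intro n U hU hpos
    rw [Measure.sum_apply _ hU]
    have h1 : (w n • μ n) U ≤ ∑' m, (w m • μ m) U := ENNReal.le_tsum n
    refine lt_of_lt_of_le ?_ h1
    rw [Measure.smul_apply, smul_eq_mul]
    refine ENNReal.mul_pos ?_ hpos.ne'
    change (2⁻¹ : ENNReal) ^ (n + 1) ≠ 0
    exact pow_ne_zero _ (by simp)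

end Pool.Agent.V11108.KB
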