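import Mathlib

set_option autoImplicit false
open Filter Topology

namespace Pool.Agent.V11108.Diag

/-- Diagonal choice of slowly increasing parameters. -/
theorem diag (a : ℕ → ℕ → ℝ) (C : ℝ) (hC : 0 < C) (ha0 : ∀ k i, 0 ≤ a k i) (haC : ∀ k i, a k i ≤ C)
    (e : ℕ → ℝ) (he : Tendsto e atTop (𝓝 0))
    (h : ∀ k, ∀ᶠ n : ℕ in atTop, ∑ i ∈ Finset.range n, a k i ≤ e k * n) :
    ∃ κ : ℕ → ℕ, Monotone κ ∧
      Tendsto (fun n : ℕ => (∑ i ∈ Finset.range n, a (κ i) i) / (n : ℝ)) atTop (𝓝 0) ∧
      Tendsto (fun n : ℕ => (κ n : ℝ) / (n : ℝ)) atTop (𝓝 0) := by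
  have h' : ∀ k, ∃ N : ℕ, ∀ n ≥ N, ∑ i ∈ Finset.range n, a k i ≤ e k * n :=
    fun k => eventually_atTop.mp (h k)
  choose N hN using h'
  -- the switching times
  obtain ⟨t, t0, tS⟩ : ∃ t : ℕ → ℕ, t 0 = 0 ∧
      ∀ j, t (j + 1) = max (N (j + 1)) ((j + 2) * t j + (j + 2) ^ 2) :=
    ⟨fun k => Nat.rec 0 (fun j tj => max (N (j + 1)) ((j + 2) * tj + (j + 2) ^ 2)) k, rfl,
      fun j => rfl⟩
  have t1 : ∀ j, (j + 2) * t j + (j + 2) ^ 2 ≤ t (j + 1) := fun j => by
    rw [tS]; exact le_max_right _ _
  have tN : ∀ j, N (j + 1) ≤ t (j + 1) := fun j => by rw [tS]; exact le_max_left _ _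
  have tlt : ∀ j, t j < t (j + 1) := fun j => by
    have := t1 j
    nlinarith
  have tmono : StrictMono t := strictMono_nat_of_lt_succ tlt
  have tsq : ∀ j, j ^ 2 ≤ t j := by
    intro j
    cases j with
    | zero => simp
    | succ j => have := t1 j; nlinarith
  let κ : ℕ → ℕ := fun i => Nat.findGreatest (fun k : ℕ => t k ≤ i) i
  have κ1 : ∀ i, t (κ i) ≤ i := by
    intro i
    have h0 : t 0 ≤ i := by rw [t0]; exact Nat.zero_le i
    exact Nat.findGreatest_spec (P := fun k : ℕ => t k ≤ i) (Nat.zero_le i) h0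
  have κ2 : ∀ i k, t k ≤ i → k ≤ κ i := by
    intro i k hk
    exact Nat.le_findGreatest (le_trans (tmono.id_le k) hk) hk
  have κ3 : ∀ i, i < t (κ i + 1) := by
    intro i
    by_contra hcon
    push Not at hcon
    have := κ2 i _ hcon
    omega
  have κmono : Monotone κ := fun i j hij => κ2 j _ ((κ1 i).trans hij)
  have κeq : ∀ i k, t k ≤ i → i < t (k + 1) → κ i = k := by
    intro i k h1 h2
    have h3 := κ2 i k h1
    have h4 : κ i < k + 1 := by
      by_contra hcon
      push Not at hcon
      have := tmono.monotone hcon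
      have := κ1 i
      omega
    omega
  have κtop : Tendsto κ atTop atTop := by
    rw [tendsto_atTop]
    intro b
    filter_upwards [eventually_ge_atTop (t b)] with i hi
    exact κ2 i b hi
  refine ⟨κ, κmono, ?_, ?_⟩
  · -- the main estimate
    have key : ∀ n : ℕ, 2 ≤ κ n → (∑ i ∈ Finset.range n, a (κ i) i) ≤
        (C / (κ n + 1) + |e (κ n - 1)| + |e (κ n)|) * n := by
      intro n hk
      obtain ⟨k, hk'⟩ : ∃ k, κ n = k + 2 := ⟨κ n - 2, by omega⟩
      have a1 : t (k + 2) ≤ n := by rw [← hk']; exact κ1 n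
      have a2 : n < t (k + 3) := by have := κ3 n; rw [hk'] at this; exact this
      have b1 : t (k + 1) ≤ t (k + 2) := (tlt _).le
      have split : ∑ i ∈ Finset.range n, a (κ i) i
          = ∑ i ∈ Finset.range (t (k + 1)), a (κ i) i
            + ∑ i ∈ Finset.Ico (t (k + 1)) (t (k + 2)), a (κ i) i
            + ∑ i ∈ Finset.Ico (t (k + 2)) n, a (κ i) i := by
        rw [Finset.sum_range_add_sum_Ico _ b1, Finset.sum_range_add_sum_Ico _ a1]
      rw [split]
      have s1 : ∑ i ∈ Finset.range (t (k + 1)), a (κ i) i ≤ C * t (k + 1) := by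
        calc _ ≤ ∑ i ∈ Finset.range (t (k + 1)), C := Finset.sum_le_sum (fun i _ => haC _ _)
          _ = _ := by simp [mul_comm]
      have s2 : ∑ i ∈ Finset.Ico (t (k + 1)) (t (k + 2)), a (κ i) i ≤ |e (k + 1)| * n := by
        calc _ = ∑ i ∈ Finset.Ico (t (k + 1)) (t (k + 2)), a (k + 1) i := by
              apply Finset.sum_congr rfl
              intro i hi
              rw [Finset.mem_Ico] at hi
              rw [κeq i (k + 1) hi.1 hi.2]
          _ ≤ ∑ i ∈ Finset.range (t (k + 2)), a (k + 1) i := by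
              apply Finset.sum_le_sum_of_subset_of_nonneg
              · intro i hi
                rw [Finset.mem_Ico] at hi
                exact Finset.mem_range.mpr hi.2
              · intro i _ _; exact ha0 _ _
          _ ≤ e (k + 1) * (t (k + 2) : ℕ) := hN (k + 1) _ ((tN k).trans b1)
          _ ≤ |e (k + 1)| * n := by
              have : ((t (k + 2) : ℕ) : ℝ) ≤ n := by exact_mod_cast a1
              gcongr
              exact le_abs_self _
      have s3 : ∑ i ∈ Finset.Ico (t (k + 2)) n, a (κ i) i ≤ |e (k + 2)| * n := by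
        calc _ = ∑ i ∈ Finset.Ico (t (k + 2)) n, a (k + 2) i := by
              apply Finset.sum_congr rfl
              intro i hi
              rw [Finset.mem_Ico] at hi
              rw [κeq i (k + 2) hi.1 (hi.2.trans a2)]
          _ ≤ ∑ i ∈ Finset.range n, a (k + 2) i := by
              apply Finset.sum_le_sum_of_subset_of_nonneg
              · intro i hi
                rw [Finset.mem_Ico] at hi
                exact Finset.mem_range.mpr hi.2
              · intro i _ _; exact ha0 _ _
          _ ≤ e (k + 2) * n := hN (k + 2) _ ((tN (k + 1)).trans a1)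
          _ ≤ |e (k + 2)| * n := by
              gcongr
              exact le_abs_self _
      have s4 : C * (t (k + 1) : ℕ) ≤ C / ((k + 2 : ℕ) + 1) * n := by
        have h1 := t1 (k + 1)
        have h2 : (k + 3) * t (k + 1) ≤ n := by
          have : (k + 1 + 2) * t (k + 1) ≤ t (k + 1 + 1) := by omega
          calc (k + 3) * t (k + 1) = (k + 1 + 2) * t (k + 1) := by ring
            _ ≤ _ := this
            _ ≤ n := a1
        have h3 : ((k:ℝ) + 3) * (t (k + 1) : ℕ) ≤ n := by exact_mod_cast h2
        rw [div_mul_eq_mul_div, le_div_iff₀ (by positivity)]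
        push_cast
        nlinarith
      have e1 : κ n - 1 = k + 1 := by omega
      rw [e1, hk']
      nlinarith
    have lim : Tendsto (fun n : ℕ => C / ((κ n : ℝ) + 1) + |e (κ n - 1)| + |e (κ n)|) atTop (𝓝 0) := by
      have l1 : Tendsto (fun n : ℕ => C / ((κ n : ℝ) + 1)) atTop (𝓝 0) := by
        have : Tendsto (fun n : ℕ => ((κ n : ℝ) + 1)) atTop atTop :=
          tendsto_atTop_add_const_right _ _ (tendsto_natCast_atTop_atTop.comp κtop)
        exact this.const_div_atTop C
      have l2 : Tendsto (fun n : ℕ => |e (κ n)|) atTop (𝓝 0) := by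
        have := (he.comp κtop).abs
        simpa using this
      have l3 : Tendsto (fun n : ℕ => |e (κ n - 1)|) atTop (𝓝 0) := by
        have h1 : Tendsto (fun n : ℕ => κ n - 1) atTop atTop := tendsto_sub_atTop_nat 1 |>.comp κtop
        have := (he.comp h1).abs
        simpa using this
      have := (l1.add l3).add l2
      simpa using this
    refine squeeze_zero' ?_ ?_ lim
    · filter_upwards with n
      exact div_nonneg (Finset.sum_nonneg (fun i _ => ha0 _ _)) (Nat.cast_nonneg n)
    · filter_upwards [κtop.eventually_ge_atTop 2, eventually_gt_atTop 0] with n h1 h2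
      have hn : (0:ℝ) < n := by exact_mod_cast h2
      rw [div_le_iff₀ hn]
      exact key n h1
  · -- the number of switches
    have hb : ∀ n : ℕ, (κ n : ℝ) / n ≤ 1 / (κ n : ℝ) := by
      intro n
      rcases Nat.eq_zero_or_pos (κ n) with h0 | h0
      · rw [h0]; simp
      · have h1 : (κ n) ^ 2 ≤ n := (tsq _).trans (κ1 n)
        have h2 : (0:ℝ) < κ n := by exact_mod_cast h0
        have h3 : ((κ n : ℝ)) ^ 2 ≤ n := by exact_mod_cast h1
        have h4 : (0:ℝ) < n := by nlinarith
        rw [div_le_div_iff₀ h4 h2]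
        nlinarith
    have lim : Tendsto (fun n : ℕ => 1 / (κ n : ℝ)) atTop (𝓝 0) :=
      (tendsto_natCast_atTop_atTop.comp κtop).const_div_atTop 1
    exact squeeze_zero (fun n => by positivity) hb lim

end Pool.Agent.V11108.Diag
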