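import Mathlib

/-!
# Generic choices of parents in a countable graded set

Sets defined by greatest fixed points of countable monotone operators have the Baire property;
a 0-1 law; and a generic choice of parents has as many infinite rays as the complementary one.
-/

set_option autoImplicit false
open Filter Topology Set

namespace Pool.Agent.V11108.GenTree

section hull
variable {Ω : Type} [TopologicalSpace Ω] [SecondCountableTopology Ω]

/-- the largest basic open set in which `X` is meager -/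
def thin (X : Set Ω) : Set Ω :=
  ⋃ U ∈ {U : Set Ω | U ∈ TopologicalSpace.countableBasis Ω ∧ IsMeagre (U ∩ X)}, U

/-- the closed hull of `X` modulo meager sets -/
def hull (X : Set Ω) : Set Ω := (thin X)ᶜ

lemma isOpen_thin (X : Set Ω) : IsOpen (thin X) :=
  isOpen_biUnion fun _ hU => TopologicalSpace.isOpen_of_mem_countableBasis hU.1

lemma hull_baire (X : Set Ω) : BaireMeasurableSet (hull X) :=
  (isOpen_thin X).baireMeasurableSet.compl

lemma diff_hull (X : Set Ω) : IsMeagre (X \ hull X) := by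
  have h1 : X \ hull X ⊆ ⋃ U ∈ {U : Set Ω | U ∈ TopologicalSpace.countableBasis Ω ∧
      IsMeagre (U ∩ X)}, (U ∩ X) := by
    rintro x ⟨hx, hx'⟩
    rw [hull, Set.mem_compl_iff, not_not] at hx'
    obtain ⟨U, hU, hxU⟩ := Set.mem_iUnion₂.1 hx'
    exact Set.mem_iUnion₂.2 ⟨U, hU, hxU, hx⟩
  refine IsMeagre.mono h1 (isMeagre_biUnion ?_ fun U hU => hU.2)
  exact (TopologicalSpace.countable_countableBasis Ω).mono fun U hU => hU.1

lemma hull_diff {X W : Set Ω} (hW : BaireMeasurableSet W) (h : IsMeagre (X \ W)) :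
    IsMeagre (hull X \ W) := by
  obtain ⟨O, hO, hQO⟩ := ((hull_baire X).diff hW).residualEq_isOpen
  have hsym : IsMeagre {z | ¬ (z ∈ hull X \ W ↔ z ∈ O)} := by
    have := Filter.eventuallyEq_set.1 hQO
    rw [IsMeagre]
    filter_upwards [this] with z hz
    simpa using hz
  have hXO : IsMeagre (O ∩ X) := by
    refine IsMeagre.mono ?_ (hsym.union h)
    rintro z ⟨hzO, hzX⟩
    by_cases hzW : z ∈ W
    · left
      intro hiff
      exact (hiff.2 hzO).2 hzW
    · right
      exact ⟨hzX, hzW⟩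
  have hOthin : O ⊆ thin X := by
    intro z hz
    obtain ⟨U, hU, hzU, hUO⟩ :=
      (TopologicalSpace.isBasis_countableBasis Ω).exists_subset_of_mem_open hz hO
    exact Set.mem_iUnion₂.2 ⟨U, ⟨hU, IsMeagre.mono (Set.inter_subset_inter_left _ hUO) hXO⟩, hzU⟩
  refine IsMeagre.mono ?_ hsym
  intro z hz hiff
  exact hz.1 (hOthin (hiff.1 hz))

/-- Greatest fixed points of countable monotone operators have the Baire property. -/
theorem gfp_baire {S J : Type} [Countable S] [Countable J] (X : S → Set Ω) (G : S → J → Set Ω)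
    (t₁ t₂ : S → J → S) (hG : ∀ u j, BaireMeasurableSet (G u j))
    (h1 : ∀ u, X u ⊆ ⋃ j, (G u j ∩ X (t₁ u j) ∩ X (t₂ u j)))
    (h2 : ∀ Z : S → Set Ω, (∀ u, Z u ⊆ ⋃ j, (G u j ∩ Z (t₁ u j) ∩ Z (t₂ u j))) →
      ∀ u, Z u ⊆ X u) (u : S) : BaireMeasurableSet (X u) := by
  let W : S → Set Ω := fun u => ⋃ j, (G u j ∩ hull (X (t₁ u j)) ∩ hull (X (t₂ u j)))
  have hW : ∀ u, BaireMeasurableSet (W u) := fun u =>
    BaireMeasurableSet.iUnion fun j => ((hG u j).inter (hull_baire _)).inter (hull_baire _)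
  have hbad : IsMeagre (⋃ v : S, (X v \ hull (X v))) := isMeagre_iUnion fun v => diff_hull _
  have hXW : ∀ u, IsMeagre (X u \ W u) := by
    intro u
    refine IsMeagre.mono ?_ hbad
    rintro z ⟨hz, hz'⟩
    obtain ⟨j, ⟨hzG, hz1⟩, hz2⟩ := Set.mem_iUnion.1 (h1 u hz)
    by_contra hcon
    apply hz'
    have hin : ∀ v, z ∈ X v → z ∈ hull (X v) := by
      intro v hv
      by_contra h
      exact hcon (Set.mem_iUnion.2 ⟨v, hv, h⟩)
    exact Set.mem_iUnion.2 ⟨j, ⟨hzG, hin _ hz1⟩, hin _ hz2⟩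
  have hQ : IsMeagre (⋃ v : S, (hull (X v) \ W v)) :=
    isMeagre_iUnion fun v => hull_diff (hW v) (hXW v)
  set N := ⋃ v : S, (hull (X v) \ W v) with hN
  have hsub : ∀ v, hull (X v) \ N ⊆ X v := by
    refine h2 (fun v => hull (X v) \ N) ?_
    rintro v z ⟨hz, hzN⟩
    have hzW : z ∈ W v := by
      by_contra h
      exact hzN (Set.mem_iUnion.2 ⟨v, hz, h⟩)
    obtain ⟨j, ⟨hzG, hz1⟩, hz2⟩ := Set.mem_iUnion.1 hzW
    exact Set.mem_iUnion.2 ⟨j, ⟨hzG, hz1, hzN⟩, hz2, hzN⟩
  refine (hull_baire (X u)).congr ?_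
  rw [Filter.eventuallyEq_set]
  have hm := (diff_hull (X u)).union hQ
  rw [IsMeagre] at hm
  filter_upwards [hm] with z hz
  simp only [Set.mem_compl_iff, Set.mem_union, not_or] at hz
  constructor
  · intro h
    exact hsub u ⟨h, hz.2⟩
  · intro h
    by_contra h'
    exact hz.1 ⟨h, h'⟩

end hull

/-! ## The 0-1 law -/

section zeroone
variable {K : Type} [Countable K]

/-- flip a finite set of coordinates -/
def flip [DecidableEq K] (F : Finset K) (ω : K → Bool) : K → Bool :=
  fun k => if k ∈ F then !(ω k) else ω k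

omit [Countable K] in
lemma flip_flip [DecidableEq K] (F : Finset K) (ω : K → Bool) : flip F (flip F ω) = ω := by
  funext k
  simp only [flip]
  split_ifs <;> simp

omit [Countable K] in
lemma continuous_flip [DecidableEq K] (F : Finset K) : Continuous (flip F) := by
  have h1 : Continuous (fun b : Bool => !b) := continuous_of_discreteTopology
  have h2 : ∀ k, Continuous (fun ω : K → Bool => ω k) := fun k => continuous_apply k
  refine continuous_pi fun k => ?_
  by_cases h : k ∈ F
  · simp only [flip, h, if_true]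
    exact h1.comp (h2 k)
  · simp only [flip, h, if_false]
    exact h2 k

/-- the flip as a homeomorphism -/
def flipHomeo [DecidableEq K] (F : Finset K) : (K → Bool) ≃ₜ (K → Bool) where
  toFun := flip F
  invFun := flip F
  left_inv := flip_flip F
  right_inv := flip_flip F
  continuous_toFun := continuous_flip F
  continuous_invFun := continuous_flip F

/-- a Baire measurable set that is invariant under finite changes is meager or residual -/
theorem zero_one {S : Set (K → Bool)} (hS : BaireMeasurableSet S)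
    (hinv : ∀ ω ω' : K → Bool, {k | ω k ≠ ω' k}.Finite → ω ∈ S → ω' ∈ S) :
    IsMeagre S ∨ IsMeagre Sᶜ := by
  classical
  obtain ⟨O, hO, hSO⟩ := hS.residualEq_isOpen
  have hsym : IsMeagre {z | ¬ (z ∈ S ↔ z ∈ O)} := by
    have := Filter.eventuallyEq_set.1 hSO
    rw [IsMeagre]
    filter_upwards [this] with z hz
    simpa using hz
  rcases O.eq_empty_or_nonempty with h0 | ⟨p, hp⟩
  · left
    refine IsMeagre.mono ?_ hsym
    intro z hz hiff
    have := hiff.1 hz
    rw [h0] at this
    exact this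
  · right
    obtain ⟨D, t, hDt, htO⟩ := isOpen_pi_iff.1 hO p hp
    have hcyl : ∀ ω : K → Bool, (∀ k ∈ D, ω k = p k) → ω ∈ O := by
      intro ω hω
      apply htO
      intro k hk
      rw [hω k hk]
      exact (hDt k hk).2
    have hall : IsMeagre (⋃ F : Finset K, (flipHomeo F) ⁻¹' {z | ¬ (z ∈ S ↔ z ∈ O)}) :=
      isMeagre_iUnion fun F =>
        hsym.preimage_of_isOpenMap (flipHomeo F).continuous (flipHomeo F).isOpenMap
    refine IsMeagre.mono ?_ hall
    intro ω hω
    refine Set.mem_iUnion.2 ⟨D.filter fun k => ω k ≠ p k, ?_⟩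
    set F := D.filter fun k => ω k ≠ p k with hF
    show ¬ (flip F ω ∈ S ↔ flip F ω ∈ O)
    have h1 : flip F ω ∈ O := by
      apply hcyl
      intro k hk
      simp only [flip, hF, Finset.mem_filter, hk, true_and]
      split_ifs with h
      · cases h3 : ω k <;> cases h4 : p k <;> simp_all
      · exact not_not.1 h
    have h2 : flip F ω ∉ S := by
      intro h
      refine hω (hinv _ _ ?_ h)
      refine F.finite_toSet.subset fun k hk => ?_
      by_contra hkF
      apply hk
      have hkF' : k ∉ F := fun h => hkF (Finset.mem_coe.2 h)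
      simp only [flip]
      rw [if_neg hkF']
    intro hiff
    exact h2 (hiff.2 h1)

end zeroone

/-! ## Rays -/

section rays
variable {N : Type} (lv : N → ℕ) (q : Bool → N → N)

/-- the parent -/
def par (ω : N → Bool) (v : N) : N := q (ω v) v

/-- rays -/
def IsRay (ω : N → Bool) (σ : ℕ → N) : Prop :=
  (∀ n, lv (σ n) = n) ∧ ∀ n, par q ω (σ (n + 1)) = σ n

variable {lv q}

lemma par_iter_lv (hq : ∀ b v, 0 < lv v → lv (q b v) + 1 = lv v) (ω : N → Bool) (k : ℕ) :
    ∀ v, k ≤ lv v → lv ((par q ω)^[k] v) + k = lv v := by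
  induction k with
  | zero => intro v _; rfl
  | succ k ih =>
    intro v hv
    rw [Function.iterate_succ_apply]
    have h1 : lv (par q ω v) + 1 = lv v := hq _ v (by omega)
    have h2 := ih (par q ω v) (by omega)
    omega

lemma ray_iter {ω : N → Bool} {σ : ℕ → N} (h : IsRay lv q ω σ) (n k : ℕ) :
    (par q ω)^[k] (σ (n + k)) = σ n := by
  induction k with
  | zero => rfl
  | succ k ih =>
    rw [Function.iterate_succ_apply, ← add_assoc, h.2 (n + k)]
    exact ih

lemma ray_eq {ω : N → Bool} {σ σ' : ℕ → N} (h : IsRay lv q ω σ) (h' : IsRay lv q ω σ') (m : ℕ)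
    (he : ∀ n, m ≤ n → σ n = σ' n) : σ = σ' := by
  funext n
  rw [← ray_iter h n m, ← ray_iter h' n m, he (n + m) (by omega)]

lemma ray_of_seq (hq : ∀ b v, 0 < lv v → lv (q b v) + 1 = lv v) {ω : N → Bool} (u : ℕ → N)
    (hlt : ∀ k, lv (u k) < lv (u (k + 1)))
    (hpar : ∀ k, (par q ω)^[lv (u (k + 1)) - lv (u k)] (u (k + 1)) = u k) :
    ∃ σ, IsRay lv q ω σ ∧ ∀ k, σ (lv (u k)) = u k := by
  have hge : ∀ k, k ≤ lv (u k) := by
    intro k
    induction k with
    | zero => exact Nat.zero_le _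
    | succ k ih => have := hlt k; omega
  have hmono : ∀ k j, lv (u k) ≤ lv (u (k + j)) := by
    intro k j
    induction j with
    | zero => exact le_rfl
    | succ j ih => exact ih.trans (hlt (k + j)).le
  have hback : ∀ k j, (par q ω)^[lv (u (k + j)) - lv (u k)] (u (k + j)) = u k := by
    intro k j
    induction j with
    | zero => simp
    | succ j ih =>
      have h1 := hmono k j
      have h2 := hlt (k + j)
      have h3 : lv (u (k + (j + 1))) - lv (u k) =
          (lv (u (k + j)) - lv (u k)) + (lv (u (k + j + 1)) - lv (u (k + j))) := by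
        rw [← add_assoc]; omega
      rw [h3, Function.iterate_add_apply, ← add_assoc, hpar (k + j)]
      exact ih
  refine ⟨fun m => (par q ω)^[lv (u m) - m] (u m), ⟨fun m => ?_, fun m => ?_⟩, fun k => ?_⟩
  · have h1 := par_iter_lv hq ω (lv (u m) - m) (u m) (by omega)
    have h2 := hge m
    simp only
    omega
  · have h1 := hge m
    have h2 := hge (m + 1)
    have h3 := hlt m
    simp only
    rw [← Function.iterate_succ_apply' (par q ω)]
    have h4 : (lv (u (m + 1)) - (m + 1)).succ = (lv (u m) - m) + (lv (u (m + 1)) - lv (u m)) := by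
      omega
    rw [h4, Function.iterate_add_apply, hpar m]
  · simp only
    obtain ⟨j, hj⟩ := Nat.exists_eq_add_of_le (hge k)
    have h1 := hback k j
    rw [← hj] at h1
    exact h1

/-- vertices on a ray -/
def AA (lv : N → ℕ) (q : Bool → N → N) (u : N) : Set (N → Bool) :=
  {ω | ∃ σ, IsRay lv q ω σ ∧ σ (lv u) = u}

/-- vertices on uncountably many rays -/
def UU (lv : N → ℕ) (q : Bool → N → N) (u : N) : Set (N → Bool) :=
  {ω | ¬ Set.Countable {σ | IsRay lv q ω σ ∧ σ (lv u) = u}}

lemma isOpen_iter (k : ℕ) : ∀ (v : N) (P : Set N), IsOpen {ω : N → Bool | (par q ω)^[k] v ∈ P} := by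
  induction k with
  | zero =>
    intro v P
    by_cases h : v ∈ P
    · simp only [Function.iterate_zero, id, h]
      exact isOpen_univ
    · simp only [Function.iterate_zero, id, h]
      exact isOpen_empty
  | succ k ih =>
    intro v P
    have : {ω : N → Bool | (par q ω)^[k + 1] v ∈ P} =
        ⋃ b : Bool, ((fun ω : N → Bool => ω v) ⁻¹' {b} ∩ {ω | (par q ω)^[k] (q b v) ∈ P}) := by
      ext ω
      simp only [Set.mem_iUnion]
      constructor
      · intro h
        exact ⟨ω v, rfl, h⟩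
      · rintro ⟨b, hb, h⟩
        have hb' : ω v = b := hb
        subst hb'
        exact h
    rw [this]
    exact isOpen_iUnion fun b =>
      ((isOpen_discrete ({b} : Set Bool)).preimage (continuous_apply v)).inter (ih (q b v) P)

lemma isOpen_const_and (p : Prop) {s : Set (N → Bool)} (hs : IsOpen s) : IsOpen {ω | p ∧ ω ∈ s} := by
  by_cases h : p
  · have : {ω | p ∧ ω ∈ s} = s := by ext ω; exact ⟨fun h' => h'.2, fun h' => ⟨h, h'⟩⟩
    rw [this]; exact hs
  · have : {ω | p ∧ ω ∈ s} = ∅ := by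
      ext ω; exact ⟨fun h' => absurd h'.1 h, fun h' => absurd h' (Set.notMem_empty ω)⟩
    rw [this]; exact isOpen_empty

variable [Countable N]

lemma AA_baire (hq : ∀ b v, 0 < lv v → lv (q b v) + 1 = lv v) (u : N) :
    BaireMeasurableSet (AA lv q u) := by
  refine gfp_baire (S := N) (J := N) (AA lv q)
    (fun u v => {ω | lv v = lv u + 1 ∧ ω ∈ {ω : N → Bool | (par q ω)^[1] v ∈ ({u} : Set N)}})
    (fun _ v => v) (fun _ v => v) (fun u v => (isOpen_const_and _ (isOpen_iter 1 v _)).baireMeasurableSet)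
    ?_ ?_ u
  · rintro u ω ⟨σ, hσ, hu⟩
    have hmem : ω ∈ AA lv q (σ (lv u + 1)) := ⟨σ, hσ, by rw [hσ.1]⟩
    refine Set.mem_iUnion.2 ⟨σ (lv u + 1), ⟨⟨hσ.1 _, ?_⟩, hmem⟩, hmem⟩
    show par q ω (σ (lv u + 1)) = u
    rw [hσ.2, hu]
  · intro Z hZ u ω hω
    have hstep : ∀ v : {v : N // ω ∈ Z v}, ∃ v' : {v : N // ω ∈ Z v},
        lv v'.1 = lv v.1 + 1 ∧ par q ω v'.1 = v.1 := by
      rintro ⟨v, hv⟩
      obtain ⟨v', ⟨⟨h1, h2⟩, h3⟩, _⟩ := Set.mem_iUnion.1 (hZ v hv)
      exact ⟨⟨v', h3⟩, h1, h2⟩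
    choose st hst1 hst2 using hstep
    obtain ⟨σ, hσ, hσ'⟩ := ray_of_seq hq (ω := ω) (fun k => (st^[k] ⟨u, hω⟩).1)
      (fun k => by
        rw [Function.iterate_succ_apply', hst1]
        omega)
      (fun k => by
        rw [Function.iterate_succ_apply', hst1]
        have : lv (st^[k] ⟨u, hω⟩).1 + 1 - lv (st^[k] ⟨u, hω⟩).1 = 1 := by omega
        rw [this]
        exact hst2 _)
    exact ⟨σ, hσ, hσ' 0⟩

lemma UU_baire (hq : ∀ b v, 0 < lv v → lv (q b v) + 1 = lv v) (u : N) :
    BaireMeasurableSet (UU lv q u) := by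
  refine gfp_baire (S := N) (J := N × N) (UU lv q)
    (fun u v => {ω | (lv u < lv v.1 ∧ lv v.1 = lv v.2 ∧ v.1 ≠ v.2) ∧
      ω ∈ {ω : N → Bool | (par q ω)^[lv v.1 - lv u] v.1 ∈ ({u} : Set N)} ∩
        {ω : N → Bool | (par q ω)^[lv v.2 - lv u] v.2 ∈ ({u} : Set N)}})
    (fun _ v => v.1) (fun _ v => v.2)
    (fun u v => (isOpen_const_and _
      ((isOpen_iter _ v.1 _).inter (isOpen_iter _ v.2 _))).baireMeasurableSet)
    ?_ ?_ u
  · intro u ω hω
    by_contra hcon
    apply hω
    have hsub : {σ | IsRay lv q ω σ ∧ σ (lv u) = u} ⊆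
        {σ | (IsRay lv q ω σ ∧ σ (lv u) = u) ∧ ∀ m, lv u < m → ω ∈ UU lv q (σ m)} ∪
          ⋃ v ∈ {v : N | ω ∉ UU lv q v}, {σ | IsRay lv q ω σ ∧ σ (lv v) = v} := by
      rintro σ ⟨hσ, hσu⟩
      by_cases h : ∀ m, lv u < m → ω ∈ UU lv q (σ m)
      · exact Or.inl ⟨⟨hσ, hσu⟩, h⟩
      · push Not at h
        obtain ⟨m, _, hm⟩ := h
        exact Or.inr (Set.mem_iUnion₂.2 ⟨σ m, hm, hσ, by rw [hσ.1]⟩)
    refine Set.Countable.mono hsub (Set.Countable.union ?_ ?_)
    · refine Set.Subsingleton.countable ?_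
      rintro σ ⟨⟨hσ, hσu⟩, h1⟩ σ' ⟨⟨hσ', hσu'⟩, h2⟩
      refine ray_eq hσ hσ' (lv u + 1) fun m hm => ?_
      by_contra hne
      apply hcon
      refine Set.mem_iUnion.2 ⟨(σ m, σ' m), ⟨⟨⟨?_, ?_, hne⟩, ?_, ?_⟩, h1 m (by omega)⟩, h2 m (by omega)⟩
      · show lv u < lv (σ m)
        rw [hσ.1]; omega
      · show lv (σ m) = lv (σ' m)
        rw [hσ.1, hσ'.1]
      · show (par q ω)^[lv (σ m) - lv u] (σ m) = u
        rw [hσ.1]
        have := ray_iter hσ (lv u) (m - lv u)
        rw [show lv u + (m - lv u) = m by omega] at this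
        rw [this, hσu]
      · show (par q ω)^[lv (σ' m) - lv u] (σ' m) = u
        rw [hσ'.1]
        have := ray_iter hσ' (lv u) (m - lv u)
        rw [show lv u + (m - lv u) = m by omega] at this
        rw [this, hσu']
    · refine Set.Countable.biUnion (Set.to_countable _) fun v hv => ?_
      by_contra h
      exact hv h
  · intro Z hZ u ω hω hcount
    have hstep : ∀ v : {v : N // ω ∈ Z v}, ∃ a b : {v : N // ω ∈ Z v},
        lv v.1 < lv a.1 ∧ lv a.1 = lv b.1 ∧ a.1 ≠ b.1 ∧
        (par q ω)^[lv a.1 - lv v.1] a.1 = v.1 ∧ (par q ω)^[lv b.1 - lv v.1] b.1 = v.1 := by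
      rintro ⟨v, hv⟩
      obtain ⟨⟨a, b⟩, ⟨⟨⟨h1, h2, h3⟩, h4, h5⟩, h6⟩, h7⟩ := Set.mem_iUnion.1 (hZ v hv)
      exact ⟨⟨a, h6⟩, ⟨b, h7⟩, h1, h2, h3, h4, h5⟩
    choose sa sb h1 h2 h3 h4 h5 using hstep
    let st : Bool → {v : N // ω ∈ Z v} → {v : N // ω ∈ Z v} := fun b v => if b then sa v else sb v
    have hst1 : ∀ b v, lv v.1 < lv (st b v).1 := by
      intro b v
      cases b
      · simpa [st, ← h2 v] using h1 v
      · simpa [st] using h1 v
    have hst2 : ∀ b v, (par q ω)^[lv (st b v).1 - lv v.1] (st b v).1 = v.1 := by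
      intro b v
      cases b
      · simpa [st] using h5 v
      · simpa [st] using h4 v
    have hst3 : ∀ v, lv (st true v).1 = lv (st false v).1 ∧ (st true v).1 ≠ (st false v).1 := by
      intro v
      exact ⟨by simpa [st] using h2 v, by simpa [st] using h3 v⟩
    let sq : (ℕ → Bool) → ℕ → {v : N // ω ∈ Z v} := fun f k =>
      Nat.rec ⟨u, hω⟩ (fun k v => st (f k) v) k
    have hsq : ∀ f k, sq f (k + 1) = st (f k) (sq f k) := fun f k => rfl
    have hray : ∀ f, ∃ σ, IsRay lv q ω σ ∧ ∀ k, σ (lv (sq f k).1) = (sq f k).1 := fun f =>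
      ray_of_seq hq (ω := ω) (fun k => (sq f k).1)
        (fun k => by rw [hsq]; exact hst1 _ _)
        (fun k => by rw [hsq]; exact hst2 _ _)
    choose σ hσ hσ' using hray
    have hinj : Function.Injective σ := by
      intro f g hfg
      by_contra hne
      obtain ⟨n, hn⟩ := Function.ne_iff.1 hne
      classical
      have hex : ∃ n, f n ≠ g n := ⟨n, hn⟩
      set m := Nat.find hex with hm
      have hmne : f m ≠ g m := Nat.find_spec hex
      have hmlt : ∀ k < m, f k = g k := fun k hk => not_not.1 (Nat.find_min hex hk)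
      have hsame : ∀ k ≤ m, sq f k = sq g k := by
        intro k hk
        induction k with
        | zero => rfl
        | succ k ih => rw [hsq, hsq, ih (by omega), hmlt k (by omega)]
      have e1 := hσ' f (m + 1)
      have e2 := hσ' g (m + 1)
      rw [hsq, hsame m le_rfl] at e1
      rw [hsq] at e2
      rw [hfg] at e1
      obtain ⟨hl, hne'⟩ := hst3 (sq g m)
      cases hf : f m <;> cases hg : g m <;> rw [hf] at e1 <;> rw [hg] at e2
      · exact hmne (by rw [hf, hg])
      · rw [← hl, e2] at e1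
        exact hne' e1
      · rw [hl, e2] at e1
        exact hne' e1.symm
      · exact hmne (by rw [hf, hg])
    have hc : Countable (ℕ → Bool) := by
      have hmem : ∀ f, σ f ∈ {σ | IsRay lv q ω σ ∧ σ (lv u) = u} := fun f => ⟨hσ f, hσ' f 0⟩
      have := hcount.to_subtype
      exact Function.Injective.countable (f := fun f => (⟨σ f, hmem f⟩ :
        {σ | IsRay lv q ω σ ∧ σ (lv u) = u})) fun f g h => hinj (congrArg Subtype.val h)
    obtain ⟨g, hg⟩ := exists_surjective_nat (ℕ → Bool)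
    obtain ⟨n, hn⟩ := hg fun n => !(g n n)
    have := congrFun hn n
    cases h : g n n <;> simp [h] at this

omit [Countable N] in
/-- transfer of rays -/
lemma transfer (hq : ∀ b v, 0 < lv v → lv (q b v) + 1 = lv v) (ω ω' : N → Bool)
    (hfin : {v | ω v ≠ ω' v}.Finite) :
    ∃ Θ : {σ // IsRay lv q ω σ} → {σ // IsRay lv q ω' σ}, Function.Injective Θ := by
  obtain ⟨m, hm⟩ := (hfin.image lv).bddAbove
  have hag : ∀ v, m < lv v → ω v = ω' v := by
    intro v hv
    by_contra h
    have := hm ⟨v, h, rfl⟩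
    omega
  have hex : ∀ σ : {σ // IsRay lv q ω σ}, ∃ σ' : {σ // IsRay lv q ω' σ},
      ∀ n, m ≤ n → σ'.1 n = σ.1 n := by
    rintro ⟨σ, hσ⟩
    obtain ⟨σ', h1, h2⟩ := ray_of_seq hq (ω := ω') (fun k => σ (m + k))
      (fun k => by rw [hσ.1, hσ.1]; omega)
      (fun k => by
        have e1 : lv (σ (m + (k + 1))) - lv (σ (m + k)) = 1 := by rw [hσ.1, hσ.1]; omega
        rw [e1]
        have e2 := hσ.2 (m + k)
        have e3 : ω (σ (m + (k + 1))) = ω' (σ (m + (k + 1))) := hag _ (by rw [hσ.1]; omega)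
        show q (ω' (σ (m + (k + 1)))) (σ (m + (k + 1))) = σ (m + k)
        rw [← e3]
        exact e2)
    refine ⟨⟨σ', h1⟩, fun n hn => ?_⟩
    have h3 := h2 (n - m)
    rw [hσ.1] at h3
    rw [show m + (n - m) = n by omega] at h3
    exact h3
  choose Θ hΘ using hex
  refine ⟨Θ, fun σ τ h => ?_⟩
  apply Subtype.ext
  refine ray_eq σ.2 τ.2 m fun n hn => ?_
  rw [← hΘ σ n hn, ← hΘ τ n hn, h]

/-- at least `k` rays -/
def KK (lv : N → ℕ) (q : Bool → N → N) (k : ℕ) : Set (N → Bool) :=
  {ω | Nonempty (Fin k ↪ {σ // IsRay lv q ω σ})}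

lemma KK_baire (hq : ∀ b v, 0 < lv v → lv (q b v) + 1 = lv v) (k : ℕ) :
    BaireMeasurableSet (KK lv q k) := by
  have heq : KK lv q k = ⋃ g : Fin k → N, {ω | (Function.Injective g ∧ ∀ i j, lv (g i) = lv (g j)) ∧
      ω ∈ ⋂ i, AA lv q (g i)} := by
    ext ω
    rw [Set.mem_iUnion]
    constructor
    · rintro ⟨f⟩
      have hpair : ∀ p : Fin k × Fin k, ∃ n : ℕ, p.1 ≠ p.2 → ∀ n' ≥ n,
          (f p.1).1 n' ≠ (f p.2).1 n' := by
        rintro ⟨i, j⟩
        by_cases hij : i = j
        · exact ⟨0, fun h => absurd hij h⟩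
        · have hne : (f i).1 ≠ (f j).1 := fun h => hij (f.injective (Subtype.ext h))
          obtain ⟨n, hn⟩ := Function.ne_iff.1 hne
          refine ⟨n, fun _ n' hn' h => hn ?_⟩
          obtain ⟨l, rfl⟩ := Nat.exists_eq_add_of_le hn'
          rw [← ray_iter (f i).2 n l, ← ray_iter (f j).2 n l, h]
      choose n hn using hpair
      set M := Finset.univ.sup n with hM
      have hMn : ∀ p, n p ≤ M := fun p => Finset.le_sup (Finset.mem_univ p)
      refine ⟨fun i => (f i).1 M, ⟨fun i j hij => ?_, fun i j => ?_⟩, ?_⟩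
      · by_contra h
        exact hn (i, j) h M (hMn _) hij
      · rw [(f i).2.1, (f j).2.1]
      · refine Set.mem_iInter.2 fun i => ⟨(f i).1, (f i).2, by rw [(f i).2.1]⟩
    · rintro ⟨g, ⟨hinj, hlv⟩, hmem⟩
      have h1 : ∀ i, ∃ σ, IsRay lv q ω σ ∧ σ (lv (g i)) = g i := fun i => Set.mem_iInter.1 hmem i
      choose σ hσ hσ' using h1
      refine ⟨⟨fun i => ⟨σ i, hσ i⟩, fun i j hij => hinj ?_⟩⟩
      have h2 : σ i = σ j := congrArg Subtype.val hij
      rw [← hσ' i, ← hσ' j, h2, hlv i j]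
  rw [heq]
  refine BaireMeasurableSet.iUnion fun g => ?_
  by_cases h : Function.Injective g ∧ ∀ i j, lv (g i) = lv (g j)
  · have : {ω | (Function.Injective g ∧ ∀ i j, lv (g i) = lv (g j)) ∧ ω ∈ ⋂ i, AA lv q (g i)} =
        ⋂ i, AA lv q (g i) := by ext ω; exact ⟨fun h' => h'.2, fun h' => ⟨h, h'⟩⟩
    rw [this]
    exact BaireMeasurableSet.iInter fun i => AA_baire hq _
  · have : {ω | (Function.Injective g ∧ ∀ i j, lv (g i) = lv (g j)) ∧ ω ∈ ⋂ i, AA lv q (g i)} =
        ∅ := by
      ext ω; exact ⟨fun h' => absurd h'.1 h, fun h' => absurd h' (Set.notMem_empty ω)⟩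
    rw [this]
    exact isOpen_empty.baireMeasurableSet

/-- uncountably many rays -/
def UA (lv : N → ℕ) (q : Bool → N → N) : Set (N → Bool) :=
  {ω | ¬ Countable {σ // IsRay lv q ω σ}}

lemma UA_baire (hq : ∀ b v, 0 < lv v → lv (q b v) + 1 = lv v) :
    BaireMeasurableSet (UA lv q) := by
  have heq : UA lv q = ⋃ u : N, UU lv q u := by
    ext ω
    rw [Set.mem_iUnion]
    constructor
    · intro h
      by_contra hcon
      push Not at hcon
      apply h
      have h1 : {σ | IsRay lv q ω σ} ⊆ ⋃ u : N, {σ | IsRay lv q ω σ ∧ σ (lv u) = u} := by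
        intro σ hσ
        refine Set.mem_iUnion.2 ⟨σ 0, hσ, by rw [hσ.1]⟩
      have h2 : Set.Countable (⋃ u : N, {σ | IsRay lv q ω σ ∧ σ (lv u) = u}) := by
        refine Set.countable_iUnion fun u => ?_
        by_contra h
        exact hcon u h
      exact (h2.mono h1).to_subtype
    · rintro ⟨u, hu⟩ h
      apply hu
      have h1 : Set.Countable {σ | IsRay lv q ω σ} := Set.countable_coe_iff.1 h
      exact h1.mono fun σ hσ => hσ.1
  rw [heq]
  exact BaireMeasurableSet.iUnion fun u => UU_baire hq u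

lemma equiv_of_fin {A B : Type} [Countable A] [Countable B]
    (h : ∀ k : ℕ, Nonempty (Fin k ↪ A) ↔ Nonempty (Fin k ↪ B)) : Nonempty (A ≃ B) := by
  classical
  have aux : ∀ {A B : Type}, Finite A → Infinite B →
      ¬ (∀ k : ℕ, Nonempty (Fin k ↪ A) ↔ Nonempty (Fin k ↪ B)) := by
    intro A B hA hB h
    have := Fintype.ofFinite A
    obtain ⟨f⟩ := (h (Fintype.card A + 1)).2
      ⟨(Fin.valEmbedding).trans (Infinite.natEmbedding B)⟩
    have := Fintype.card_le_of_embedding f
    rw [Fintype.card_fin] at this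
    omega
  rcases finite_or_infinite A with hA | hA <;> rcases finite_or_infinite B with hB | hB
  · have := Fintype.ofFinite A
    have := Fintype.ofFinite B
    have h1 : Fintype.card A ≤ Fintype.card B := by
      obtain ⟨f⟩ := (h (Fintype.card A)).1 ⟨(Fintype.equivFin A).symm.toEmbedding⟩
      have := Fintype.card_le_of_embedding f
      rwa [Fintype.card_fin] at this
    have h2 : Fintype.card B ≤ Fintype.card A := by
      obtain ⟨f⟩ := (h (Fintype.card B)).2 ⟨(Fintype.equivFin B).symm.toEmbedding⟩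
      have := Fintype.card_le_of_embedding f
      rwa [Fintype.card_fin] at this
    exact ⟨Fintype.equivOfCardEq (le_antisymm h1 h2)⟩
  · exact absurd h (aux hA hB)
  · exact absurd (fun k => (h k).symm) (aux hB hA)
  · exact nonempty_equiv_of_countable

/-- **Generic choice.** -/
theorem exists_balanced (hq : ∀ b v, 0 < lv v → lv (q b v) + 1 = lv v) :
    ∃ ω : N → Bool,
      (¬ Countable {σ // IsRay lv q ω σ} ∧ ¬ Countable {σ // IsRay lv q (fun v => !(ω v)) σ}) ∨
      (Countable {σ // IsRay lv q ω σ} ∧ Countable {σ // IsRay lv q (fun v => !(ω v)) σ} ∧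
        Nonempty ({σ // IsRay lv q ω σ} ≃ {σ // IsRay lv q (fun v => !(ω v)) σ})) := by
  let c : (N → Bool) ≃ₜ (N → Bool) :=
    { toFun := fun ω v => !(ω v)
      invFun := fun ω v => !(ω v)
      left_inv := fun ω => by funext v; simp
      right_inv := fun ω => by funext v; simp
      continuous_toFun := continuous_pi fun v =>
        (continuous_of_discreteTopology (f := fun b : Bool => !b)).comp
          (continuous_apply (A := fun _ : N => Bool) v)
      continuous_invFun := continuous_pi fun v =>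
        (continuous_of_discreteTopology (f := fun b : Bool => !b)).comp
          (continuous_apply (A := fun _ : N => Bool) v) }
  have key : ∀ S : Set (N → Bool), BaireMeasurableSet S →
      (∀ ω ω' : N → Bool, {k | ω k ≠ ω' k}.Finite → ω ∈ S → ω' ∈ S) →
      {ω | ω ∈ S ↔ c ω ∈ S} ∈ residual (N → Bool) := by
    intro S hS hinv
    rcases zero_one hS hinv with h | h
    · have h1 := h.preimage_of_isOpenMap c.continuous c.isOpenMap
      have h2 := h.union h1
      rw [IsMeagre] at h2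
      filter_upwards [h2] with ω hω
      simp only [Set.mem_compl_iff, Set.mem_union, not_or, Set.mem_preimage] at hω
      exact ⟨fun h' => absurd h' hω.1, fun h' => absurd h' hω.2⟩
    · have h1 := h.preimage_of_isOpenMap c.continuous c.isOpenMap
      have h2 := h.union h1
      rw [IsMeagre] at h2
      filter_upwards [h2] with ω hω
      simp only [Set.mem_compl_iff, Set.mem_union, not_or, Set.mem_preimage, not_not] at hω
      exact ⟨fun _ => hω.2, fun _ => hω.1⟩
  have k1 := key (UA lv q) (UA_baire hq) (by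
    intro ω ω' hfin hω hc
    have hfin' : {v | ω' v ≠ ω v}.Finite := by
      refine hfin.subset fun v hv => ?_
      exact Ne.symm hv
    obtain ⟨Θ, hΘ⟩ := transfer hq ω ω' hfin
    exact hω hΘ.countable)
  have k2 : ∀ k, {ω | ω ∈ KK lv q k ↔ c ω ∈ KK lv q k} ∈ residual (N → Bool) := by
    intro k
    refine key _ (KK_baire hq k) ?_
    rintro ω ω' hfin ⟨f⟩
    obtain ⟨Θ, hΘ⟩ := transfer hq ω ω' hfin
    exact ⟨f.trans ⟨Θ, hΘ⟩⟩
  have k3 : (⋂ k : ℕ, {ω | ω ∈ KK lv q k ↔ c ω ∈ KK lv q k}) ∩ {ω | ω ∈ UA lv q ↔ c ω ∈ UA lv q} ∈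
      residual (N → Bool) := Filter.inter_mem (countable_iInter_mem.2 k2) k1
  obtain ⟨ω, hω1', hω2⟩ := (dense_of_mem_residual k3).nonempty
  have hω1 : ∀ k, (ω ∈ KK lv q k ↔ c ω ∈ KK lv q k) := fun k => Set.mem_iInter.1 hω1' k
  refine ⟨ω, ?_⟩
  by_cases h : Countable {σ // IsRay lv q ω σ}
  · right
    have h' : Countable {σ // IsRay lv q (fun v => !(ω v)) σ} := by
      by_contra hcon
      exact (hω2.2 hcon) h
    exact ⟨h, h', equiv_of_fin fun k => hω1 k⟩
  · left
    exact ⟨h, hω2.1 h⟩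

end rays

end Pool.Agent.V11108.GenTree
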