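import Mathlib

set_option autoImplicit false
open Filter Topology

namespace Pool.Agent.V11108.NullCover

variable {H : Type*} [NormedAddCommGroup H] [InnerProductSpace ℝ H]

open Classical in
theorem perceptron {ι : Type*} (B : Finset ι) (v : ι → H) (R δ : ℝ) (hR : 0 < R) (hδ : 0 < δ)
    (hv : ∀ b ∈ B, ‖v b‖ ≤ R) (k : ℕ) :
    ∃ Z : Finset H, (0 : H) ∈ Z ∧ Z.card ≤ (2 * B.card + 1) ^ k ∧
      ∀ w : H, ‖w‖ ^ 2 ≤ k * (δ ^ 2 / R ^ 2) →
        ∃ z ∈ Z, ∀ b ∈ B, |inner ℝ (w - z) (v b)| ≤ δ := by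
  induction k with
  | zero =>
    refine ⟨{0}, by simp, by simp, ?_⟩
    intro w hw
    have hw0 : w = 0 := by
      have h1 : ‖w‖ ^ 2 ≤ 0 := by simpa using hw
      have h2 : ‖w‖ = 0 := by nlinarith [norm_nonneg w]
      exact norm_eq_zero.mp h2
    refine ⟨0, by simp, ?_⟩
    intro b _
    subst hw0
    simp
    exact hδ.le
  | succ k ih =>
    obtain ⟨Z, h0, hcard, hZ⟩ := ih
    set c : ℝ := δ / R ^ 2 with hc
    have hcpos : 0 < c := by positivity
    refine ⟨Z ∪ B.biUnion (fun b => Z.image (fun z => z + c • v b) ∪ Z.image (fun z => z - c • v b)),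
      Finset.mem_union_left _ h0, ?_, ?_⟩
    · have h1 : (B.biUnion (fun b => Z.image (fun z => z + c • v b) ∪
          Z.image (fun z => z - c • v b))).card ≤ B.card * (2 * Z.card) := by
        refine Finset.card_biUnion_le_card_mul _ _ _ ?_
        intro b _
        refine (Finset.card_union_le _ _).trans ?_
        have h2 : (Z.image (fun z => z + c • v b)).card ≤ Z.card := Finset.card_image_le
        have h3 : (Z.image (fun z => z - c • v b)).card ≤ Z.card := Finset.card_image_le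
        omega
      calc _ ≤ Z.card + B.card * (2 * Z.card) := (Finset.card_union_le _ _).trans (by omega)
        _ = (2 * B.card + 1) * Z.card := by ring
        _ ≤ (2 * B.card + 1) * (2 * B.card + 1) ^ k := Nat.mul_le_mul_left _ hcard
        _ = _ := by ring
    · intro w hw
      by_cases hall : ∀ b ∈ B, |inner ℝ w (v b)| ≤ δ
      · refine ⟨0, Finset.mem_union_left _ h0, ?_⟩
        simpa using hall
      · push Not at hall
        obtain ⟨b, hb, hlt⟩ := hall
        have hvb : ‖v b‖ ^ 2 ≤ R ^ 2 := by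
          have := hv b hb
          have h0' := norm_nonneg (v b)
          nlinarith
        have hR2 : (0:ℝ) < R ^ 2 := by positivity
        have key : c ^ 2 * R ^ 2 = δ ^ 2 / R ^ 2 := by
          rw [hc]; field_simp
        have key2 : c * δ = δ ^ 2 / R ^ 2 := by
          rw [hc]; field_simp
        rcases lt_abs.mp hlt with hpos | hneg
        · have hn : ‖w - c • v b‖ ^ 2 ≤ k * (δ ^ 2 / R ^ 2) := by
            rw [norm_sub_sq_real, inner_smul_right, norm_smul, mul_pow]
            have e1 : ‖c‖ ^ 2 = c ^ 2 := by simp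
            rw [e1]
            push_cast at hw
            nlinarith [mul_lt_mul_of_pos_left hpos hcpos, mul_le_mul_of_nonneg_left hvb (sq_nonneg c)]
          obtain ⟨z, hz, hzb⟩ := hZ _ hn
          refine ⟨z + c • v b, Finset.mem_union_right _ (Finset.mem_biUnion.mpr ⟨b, hb,
            Finset.mem_union_left _ (Finset.mem_image_of_mem _ hz)⟩), ?_⟩
          intro b' hb'
          have e2 : w - (z + c • v b) = w - c • v b - z := by abel
          rw [e2]
          exact hzb b' hb'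
        · have hn : ‖w + c • v b‖ ^ 2 ≤ k * (δ ^ 2 / R ^ 2) := by
            rw [norm_add_sq_real, inner_smul_right, norm_smul, mul_pow]
            have e1 : ‖c‖ ^ 2 = c ^ 2 := by simp
            rw [e1]
            push_cast at hw
            nlinarith [mul_lt_mul_of_pos_left hneg hcpos, mul_le_mul_of_nonneg_left hvb (sq_nonneg c)]
          obtain ⟨z, hz, hzb⟩ := hZ _ hn
          refine ⟨z - c • v b, Finset.mem_union_right _ (Finset.mem_biUnion.mpr ⟨b, hb,
            Finset.mem_union_right _ (Finset.mem_image_of_mem _ hz)⟩), ?_⟩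
          intro b' hb'
          have e2 : w - (z - c • v b) = w + c • v b - z := by abel
          rw [e2]
          exact hzb b' hb'

/-- same far code implies close values -/
theorem far_close (F : ℝ → ℝ) (ε R : ℝ) (hR : 0 < R)
    (hslow : ∀ r r', R ≤ r → R ≤ r' → r ≤ 4 * r' → r' ≤ 4 * r → |F r - F r'| < ε / 4)
    (ρ d D : ℝ) (hρ : 2 * R ≤ ρ) (h1 : ρ ≤ D) (h3 : D ≤ ρ + d) (hd : d ≤ ρ) :
    |F D - F ρ| < ε / 4 := by
  refine hslow _ _ ?_ ?_ ?_ ?_ <;> linarith

theorem far_close' (F : ℝ → ℝ) (ε R : ℝ) (hR : 0 < R)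
    (hslow : ∀ r r', R ≤ r → R ≤ r' → r ≤ 4 * r' → r' ≤ 4 * r → |F r - F r'| < ε / 4)
    (ρ d D : ℝ) (hdR : 2 * R ≤ d) (h1 : ρ ≤ D) (h2 : d ≤ D + ρ) (h3 : D ≤ ρ + d) (hd : ρ ≤ d) :
    |F D - F d| < ε / 4 := by
  refine hslow _ _ ?_ ?_ ?_ ?_ <;> linarith

open Classical in
theorem cover (F : ℝ → ℝ) (hlip : ∀ r r', 0 ≤ r → 0 ≤ r' → |F r - F r'| ≤ |r - r'|)
    (hb : ∀ r, |F r| ≤ 1)
    (hslow : ∀ ε : ℝ, 0 < ε → ∃ R : ℝ, 0 < R ∧ ∀ r r', R ≤ r → R ≤ r' → r ≤ 4 * r' →
      r' ≤ 4 * r → |F r - F r'| < ε)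
    (ε : ℝ) (hε : 0 < ε) :
    ∃ C T : ℕ, ∀ (B : Finset ℕ) (x : ℕ → H) (S : Finset ℕ) (y : ℕ → H),
      B.Nonempty → (∀ s ∈ S, ∀ s' ∈ S, s ≠ s' →
        ∃ b ∈ B, ε ≤ |F ‖y s - x b‖ - F ‖y s' - x b‖|) →
      S.card ≤ C * (B.card + 1) ^ T := by
  obtain ⟨R0, hR0, hs⟩ := hslow (ε / 4) (by positivity)
  set R : ℝ := 2 * R0 with hRdef
  have hR : 0 < R := by positivity
  set δ : ℝ := ε ^ 2 / 8 with hδdef
  have hδ : 0 < δ := by positivity
  set k : ℕ := ⌈R ^ 2 * R ^ 2 / δ ^ 2⌉₊ with hk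
  have hkR : R ^ 2 ≤ k * (δ ^ 2 / R ^ 2) := by
    have h1 : R ^ 2 * R ^ 2 / δ ^ 2 ≤ k := Nat.le_ceil _
    have h2 : R ^ 2 = (R ^ 2 * R ^ 2 / δ ^ 2) * (δ ^ 2 / R ^ 2) := by field_simp
    calc R ^ 2 = (R ^ 2 * R ^ 2 / δ ^ 2) * (δ ^ 2 / R ^ 2) := h2
      _ ≤ k * (δ ^ 2 / R ^ 2) := mul_le_mul_of_nonneg_right h1 (by positivity)
  set M : ℕ := ⌈4 / ε⌉₊ + 1 with hM
  set A : ℕ := (Finset.Icc (-(M:ℤ)) M).card with hA
  set M' : ℕ := ⌊R ^ 2 / δ⌋₊ + 1 with hM'
  refine ⟨A + M' * 2 ^ k, k + 2, ?_⟩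
  intro B x S y hB hsep
  set N := B.card with hN
  -- nearest points
  have hex : ∀ s : ℕ, ∃ l ∈ B, ∀ b ∈ B, ‖y s - x l‖ ≤ ‖y s - x b‖ :=
    fun s => Finset.exists_min_image B (fun b => ‖y s - x b‖) hB
  choose l0 hl0 hmin using hex
  set ρ : ℕ → ℝ := fun s => ‖y s - x (l0 s)‖ with hρ
  have tri1 : ∀ s b, ‖y s - x b‖ ≤ ρ s + ‖x b - x (l0 s)‖ := by
    intro s b
    have : y s - x b = (y s - x (l0 s)) - (x b - x (l0 s)) := by abel
    rw [this]
    exact norm_sub_le _ _
  have tri2 : ∀ s b, ‖x b - x (l0 s)‖ ≤ ‖y s - x b‖ + ρ s := by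
    intro s b
    have : x b - x (l0 s) = (y s - x (l0 s)) - (y s - x b) := by abel
    rw [this]
    refine (norm_sub_le _ _).trans (by simp only [hρ]; linarith)
  -- far part
  have hfar : (S.filter (fun s => R ≤ ρ s)).card ≤ (N * (N + 1)) * A := by
    have hcard : ((B ×ˢ Finset.range (N + 1)) ×ˢ Finset.Icc (-(M:ℤ)) M).card
        = (N * (N + 1)) * A := by
      rw [Finset.card_product, Finset.card_product, Finset.card_range]
    rw [← hcard]
    refine Finset.card_le_card_of_injOn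
      (fun s => ((l0 s, (B.filter (fun b => ‖x b - x (l0 s)‖ ≤ ρ s)).card),
        ⌊F (ρ s) / (ε / 4)⌋)) ?_ ?_
    · intro s _
      simp only [Finset.coe_product, Set.mem_prod, Finset.mem_coe]
      refine ⟨⟨hl0 s, ?_⟩, ?_⟩
      · rw [Finset.mem_range]
        exact Nat.lt_succ_of_le (Finset.card_filter_le _ _)
      · have hF := abs_le.mp (hb (ρ s))
        have h4 : (4 / ε : ℝ) ≤ ⌈4 / ε⌉₊ := Nat.le_ceil _
        have hε4 : 0 < ε / 4 := by positivity
        rw [Finset.mem_Icc]
        constructor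
        · rw [Int.le_floor]
          push_cast
          rw [le_div_iff₀ hε4, hM]
          push_cast
          have : (4/ε) * (ε / 4) = 1 := by field_simp
          nlinarith
        · have : ⌊F (ρ s) / (ε / 4)⌋ ≤ ⌊(M:ℝ)⌋ := by
            apply Int.floor_le_floor
            rw [div_le_iff₀ hε4, hM]
            push_cast
            have : (4/ε) * (ε / 4) = 1 := by field_simp
            nlinarith
          simpa using this
    · intro s hs1 s' hs1' heq
      by_contra hne
      rw [Finset.mem_coe, Finset.mem_filter] at hs1 hs1'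
      simp only [Prod.mk.injEq] at heq
      obtain ⟨⟨hl, hc⟩, hfl⟩ := heq
      obtain ⟨b, hbB, hbε⟩ := hsep s hs1.1 s' hs1'.1 hne
      have hFF : |F (ρ s) - F (ρ s')| < ε / 4 := by
        have h1 := Int.abs_sub_lt_one_of_floor_eq_floor hfl
        have hε4 : 0 < ε / 4 := by positivity
        rw [← sub_div, abs_div, abs_of_pos hε4, div_lt_one hε4] at h1
        exact h1
      have hset : (B.filter (fun b => ‖x b - x (l0 s)‖ ≤ ρ s))
          = (B.filter (fun b => ‖x b - x (l0 s')‖ ≤ ρ s')) := by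
        rw [← hl] at hc ⊢
        rcases le_total (ρ s) (ρ s') with h | h
        · refine Finset.eq_of_subset_of_card_le ?_ hc.ge
          intro b hb'
          rw [Finset.mem_filter] at hb' ⊢
          exact ⟨hb'.1, hb'.2.trans h⟩
        · refine (Finset.eq_of_subset_of_card_le ?_ hc.le).symm
          intro b hb'
          rw [Finset.mem_filter] at hb' ⊢
          exact ⟨hb'.1, hb'.2.trans h⟩
      by_cases hd : ‖x b - x (l0 s)‖ ≤ ρ s
      · have hd' : ‖x b - x (l0 s')‖ ≤ ρ s' := by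
          have : b ∈ (B.filter (fun b => ‖x b - x (l0 s')‖ ≤ ρ s')) := by
            rw [← hset]; exact Finset.mem_filter.mpr ⟨hbB, hd⟩
          exact (Finset.mem_filter.mp this).2
        have e1 := far_close F ε R0 hR0 hs (ρ s) _ _ hs1.2 (hmin s b hbB) (tri1 s b) hd
        have e2 := far_close F ε R0 hR0 hs (ρ s') _ _ hs1'.2 (hmin s' b hbB) (tri1 s' b) hd'
        rw [abs_lt] at e1 e2 hFF
        rcases le_abs.mp hbε with h | h <;> linarith
      · have hd' : ¬ ‖x b - x (l0 s')‖ ≤ ρ s' := by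
          intro hcon
          have : b ∈ (B.filter (fun b => ‖x b - x (l0 s)‖ ≤ ρ s)) := by
            rw [hset]; exact Finset.mem_filter.mpr ⟨hbB, hcon⟩
          exact hd (Finset.mem_filter.mp this).2
        push Not at hd hd'
        have e1 := far_close' F ε R0 hR0 hs (ρ s) _ _ (hs1.2.trans hd.le) (hmin s b hbB)
          (tri2 s b) (tri1 s b) hd.le
        have e2 := far_close' F ε R0 hR0 hs (ρ s') _ _ (hs1'.2.trans hd'.le) (hmin s' b hbB)
          (tri2 s' b) (tri1 s' b) hd'.le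
        rw [← hl] at e2
        rw [abs_lt] at e1 e2
        rcases le_abs.mp hbε with h | h <;> linarith
  -- near part
  have hnear : (S.filter (fun s => ¬ R ≤ ρ s)).card ≤ N * (M' * (2 * N + 1) ^ k) := by
    rw [Finset.card_eq_sum_card_fiberwise (f := l0) (t := B) (fun s _ => hl0 s)]
    refine (Finset.sum_le_card_nsmul B _ (M' * (2 * N + 1) ^ k) ?_).trans (by simp [hN])
    intro l hl
    obtain ⟨Z, -, hZcard, hZ⟩ := perceptron (B.filter (fun b => ‖x b - x l‖ < R))
      (fun b => x b - x l) R δ hR hδ (fun b hb' => (Finset.mem_filter.mp hb').2.le) k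
    have hZ' : ∀ s, l0 s = l → ¬ R ≤ ρ s → ∃ z ∈ Z, ∀ b ∈ B.filter (fun b => ‖x b - x l‖ < R),
        |inner ℝ (y s - x l - z) (x b - x l)| ≤ δ := by
      intro s hsl hρs
      apply hZ
      push Not at hρs
      have h1 : ‖y s - x l‖ < R := by rw [← hsl]; exact hρs
      have h2 := norm_nonneg (y s - x l)
      nlinarith
    choose! z hzZ hzb using hZ'
    have hcard : (Finset.range M' ×ˢ Z).card ≤ M' * (2 * N + 1) ^ k := by
      rw [Finset.card_product, Finset.card_range]
      refine Nat.mul_le_mul_left _ (hZcard.trans (Nat.pow_le_pow_left ?_ k))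
      have := Finset.card_filter_le B (fun b => ‖x b - x l‖ < R)
      omega
    refine le_trans ?_ hcard
    refine Finset.card_le_card_of_injOn (fun s => (⌊(ρ s) ^ 2 / δ⌋₊, z s)) ?_ ?_
    · intro s hs1
      rw [Finset.mem_coe, Finset.mem_filter, Finset.mem_filter] at hs1
      simp only [Finset.coe_product, Set.mem_prod, Finset.mem_coe]
      refine ⟨?_, hzZ s hs1.2 hs1.1.2⟩
      rw [Finset.mem_range, hM']
      have h1 : ρ s < R := not_le.mp hs1.1.2
      have h2 : 0 ≤ ρ s := norm_nonneg _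
      have : ⌊(ρ s) ^ 2 / δ⌋₊ ≤ ⌊R ^ 2 / δ⌋₊ := by
        apply Nat.floor_le_floor
        apply div_le_div_of_nonneg_right _ hδ.le
        nlinarith
      omega
    · intro s hs1 s' hs1' heq
      by_contra hne
      rw [Finset.mem_coe, Finset.mem_filter, Finset.mem_filter] at hs1 hs1'
      simp only [Prod.mk.injEq] at heq
      obtain ⟨hfl, hz⟩ := heq
      obtain ⟨b, hbB, hbε⟩ := hsep s hs1.1.1 s' hs1'.1.1 hne
      have hls := hs1.2
      have hls' := hs1'.2
      have hρs : ρ s < R := not_le.mp hs1.1.2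
      have hρs' : ρ s' < R := not_le.mp hs1'.1.2
      by_cases hd : ‖x b - x l‖ < R
      · have hbm : b ∈ B.filter (fun b => ‖x b - x l‖ < R) := Finset.mem_filter.mpr ⟨hbB, hd⟩
        have e1 := hzb s hls hs1.1.2 b hbm
        have e2 := hzb s' hls' hs1'.1.2 b hbm
        rw [hz] at e1
        have hρ2 : |(ρ s) ^ 2 - (ρ s') ^ 2| < δ := by
          have h1 : |(ρ s) ^ 2 / δ - (ρ s') ^ 2 / δ| < 1 := by
            have ha : 0 ≤ (ρ s) ^ 2 / δ := by positivity
            have hb' : 0 ≤ (ρ s') ^ 2 / δ := by positivity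
            have := Nat.floor_le ha
            have := Nat.floor_le hb'
            have := Nat.lt_floor_add_one ((ρ s) ^ 2 / δ)
            have := Nat.lt_floor_add_one ((ρ s') ^ 2 / δ)
            rw [hfl] at *
            rw [abs_lt]
            constructor <;> linarith
          rw [← sub_div, abs_div, abs_of_pos hδ, div_lt_one hδ] at h1
          exact h1
        have n1 : ‖y s - x b‖ ^ 2 = (ρ s) ^ 2 - 2 * inner ℝ (y s - x l) (x b - x l)
            + ‖x b - x l‖ ^ 2 := by
          have : y s - x b = (y s - x l) - (x b - x l) := by abel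
          rw [this, norm_sub_sq_real]
          simp only [hρ, hls]
        have n2 : ‖y s' - x b‖ ^ 2 = (ρ s') ^ 2 - 2 * inner ℝ (y s' - x l) (x b - x l)
            + ‖x b - x l‖ ^ 2 := by
          have : y s' - x b = (y s' - x l) - (x b - x l) := by abel
          rw [this, norm_sub_sq_real]
          simp only [hρ, hls']
        rw [inner_sub_left (y s - x l)] at e1
        rw [inner_sub_left (y s' - x l)] at e2
        have h5 : |‖y s - x b‖ ^ 2 - ‖y s' - x b‖ ^ 2| < 5 * δ := by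
          rw [n1, n2, abs_lt]
          rw [abs_le] at e1 e2
          rw [abs_lt] at hρ2
          constructor <;> linarith
        have h6 := hlip ‖y s - x b‖ ‖y s' - x b‖ (norm_nonneg _) (norm_nonneg _)
        have h7 : ε ≤ |‖y s - x b‖ - ‖y s' - x b‖| := hbε.trans h6
        set a1 := ‖y s - x b‖
        set a2 := ‖y s' - x b‖
        have ha1 : 0 ≤ a1 := norm_nonneg _
        have ha2 : 0 ≤ a2 := norm_nonneg _
        have h8 : |a1 ^ 2 - a2 ^ 2| = |a1 - a2| * (a1 + a2) := by
          rw [sq_sub_sq, abs_mul, abs_of_nonneg (by positivity : 0 ≤ a1 + a2), mul_comm]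
        have h9 : |a1 - a2| ≤ a1 + a2 := by
          rw [abs_le]; constructor <;> linarith
        have h10 : ε * ε ≤ |a1 - a2| * (a1 + a2) := by
          apply mul_le_mul h7 (h7.trans h9) hε.le (abs_nonneg _)
        rw [h8] at h5
        have h11 : 5 * δ < ε ^ 2 := by rw [hδdef]; nlinarith [sq_nonneg ε, pow_pos hε 2]
        nlinarith
      · push Not at hd
        have t1 := tri1 s b
        have t2 := tri2 s b
        have t1' := tri1 s' b
        have t2' := tri2 s' b
        rw [hls] at t1 t2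
        rw [hls'] at t1' t2'
        have e1 := far_close' F ε R0 hR0 hs (ρ s) _ _ hd (hmin s b hbB) t2 t1
          (hρs.le.trans hd)
        have e2 := far_close' F ε R0 hR0 hs (ρ s') _ _ hd (hmin s' b hbB) t2' t1'
          (hρs'.le.trans hd)
        rw [abs_lt] at e1 e2
        rcases le_abs.mp hbε with h | h <;> linarith
  have hsum : S.card = (S.filter (fun s => R ≤ ρ s)).card + (S.filter (fun s => ¬ R ≤ ρ s)).card :=
    (Finset.card_filter_add_card_filter_not (fun s => R ≤ ρ s)).symm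
  have hp1 : 1 ≤ (N + 1) ^ k := Nat.one_le_pow _ _ (by omega)
  have hp2 : (2 * N + 1) ^ k ≤ 2 ^ k * (N + 1) ^ k := by
    rw [← mul_pow]; exact Nat.pow_le_pow_left (by omega) k
  have q1 : N * (N + 1) * A ≤ (N + 1) * (N + 1) * A * (N + 1) ^ k := by
    calc N * (N + 1) * A ≤ (N + 1) * (N + 1) * A :=
          Nat.mul_le_mul_right _ (Nat.mul_le_mul_right _ (by omega))
      _ = (N + 1) * (N + 1) * A * 1 := (mul_one _).symm
      _ ≤ _ := Nat.mul_le_mul_left _ hp1
  have q2 : N * (M' * (2 * N + 1) ^ k) ≤ ((N + 1) * (N + 1)) * (M' * (2 ^ k * (N + 1) ^ k)) := by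
    refine Nat.mul_le_mul (by nlinarith) (Nat.mul_le_mul_left _ hp2)
  calc S.card ≤ (N * (N + 1)) * A + N * (M' * (2 * N + 1) ^ k) := by
        rw [hsum]; exact Nat.add_le_add hfar hnear
    _ ≤ ((N + 1) * (N + 1)) * A * (N + 1) ^ k + ((N + 1) * (N + 1)) * (M' * (2 ^ k * (N + 1) ^ k)) :=
        Nat.add_le_add q1 q2
    _ = (A + M' * 2 ^ k) * (N + 1) ^ (k + 2) := by ring

end Pool.Agent.V11108.NullCover
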