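import Mathlib

set_option autoImplicit false
open Filter Topology

namespace Pool.Agent.V11108.NullOrbit

noncomputable section

/-- The angle `2 π m / 3 ^ (i ^ 2)`. -/
def ang (i : ℕ) (m : ℤ) : ℝ := 2 * Real.pi * m / 3 ^ (i ^ 2)

/-- coordinate functions -/
def co (m : ℤ) (i : ℕ) : ℂ := Complex.exp (Complex.I * (ang i m)) - 1

theorem norm_co (m : ℤ) (i : ℕ) : ‖co m i‖ = |2 * Real.sin (ang i m / 2)| := by
  unfold co
  rw [Complex.norm_exp_I_mul_ofReal_sub_one, Real.norm_eq_abs]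

theorem norm_co_le (m : ℤ) (i : ℕ) : ‖co m i‖ ≤ |ang i m| := by
  unfold co
  exact Real.norm_exp_I_mul_ofReal_sub_one_le

theorem co_sub (m m' : ℤ) (i : ℕ) : ‖co m i - co m' i‖ = ‖co (m - m') i‖ := by
  have h1 : co m i - co m' i = Complex.exp (Complex.I * (ang i m')) * co (m - m') i := by
    unfold co
    rw [mul_sub, ← Complex.exp_add]
    have : Complex.I * (ang i m') + Complex.I * (ang i (m - m')) = Complex.I * (ang i m) := by
      unfold ang; push_cast; ring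
    rw [this]; ring
  rw [h1, norm_mul]
  have : ‖Complex.exp (Complex.I * (ang i m'))‖ = 1 := by
    rw [mul_comm]; exact Complex.norm_exp_ofReal_mul_I _
  rw [this, one_mul]

theorem ang_abs_le (m : ℤ) (i : ℕ) : |ang i m| ≤ 2 * Real.pi * |(m:ℝ)| * (1 / 3) ^ i := by
  unfold ang
  have h3 : (3:ℝ) ^ i ≤ 3 ^ (i ^ 2) := by
    apply pow_le_pow_right₀ (by norm_num)
    nlinarith [sq_nonneg (i:ℤ), Nat.zero_le i, Nat.le_self_pow (n := 2) (by norm_num) i]
  rw [abs_div, abs_mul, abs_mul, abs_of_pos (by positivity : (0:ℝ) < 3 ^ (i ^ 2)),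
    abs_of_pos Real.pi_pos, abs_of_pos (by norm_num : (0:ℝ) < 2), one_div, inv_pow,
    ← div_eq_mul_inv]
  gcongr

theorem memLp_co (m : ℤ) : Memℓp (fun i => co m i) 2 := by
  rw [memℓp_gen_iff (by norm_num)]
  have h2 : (2 : ENNReal).toReal = 2 := by norm_num
  rw [h2]
  have hs : Summable (fun i : ℕ => (2 * Real.pi * |(m:ℝ)|) ^ 2 * ((1:ℝ) / 9) ^ i) :=
    (summable_geometric_of_lt_one (by norm_num) (by norm_num)).mul_left _
  refine Summable.of_nonneg_of_le (fun i => by positivity) (fun i => ?_) hs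
  rw [show (2:ℝ) = ((2:ℕ):ℝ) by norm_num, Real.rpow_natCast]
  have h1 := (norm_co_le m i).trans (ang_abs_le m i)
  calc ‖co m i‖ ^ 2 ≤ (2 * Real.pi * |(m:ℝ)| * (1 / 3) ^ i) ^ 2 := by gcongr
    _ = _ := by rw [mul_pow, ← pow_mul, mul_comm i 2, pow_mul (1/3:ℝ)]; norm_num

/-- The Hilbert space. -/
abbrev Hs := lp (fun _ : ℕ => ℂ) 2

/-- The orbit. -/
def u (m : ℤ) : Hs := ⟨fun i => co m i, memLp_co m⟩

theorem norm_sq_eq (f : Hs) : ‖f‖ ^ 2 = ∑' i, ‖f i‖ ^ 2 := by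
  have h := lp.norm_rpow_eq_tsum (p := 2) (by norm_num) f
  have h2 : (2 : ENNReal).toReal = ((2:ℕ):ℝ) := by norm_num
  simp only [h2, Real.rpow_natCast] at h
  exact h

theorem summ_sq (f : Hs) : Summable (fun i => ‖f i‖ ^ 2) := by
  have h := (lp.memℓp f).summable (p := 2) (by norm_num)
  have h2 : (2 : ENNReal).toReal = ((2:ℕ):ℝ) := by norm_num
  simp only [h2, Real.rpow_natCast] at h
  exact h

theorem norm_u_sub (m m' : ℤ) : ‖u m - u m'‖ = ‖u (m - m')‖ := by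
  have h : ‖u m - u m'‖ ^ 2 = ‖u (m - m')‖ ^ 2 := by
    rw [norm_sq_eq, norm_sq_eq]
    congr 1
    ext i
    have : (u m - u m') i = co m i - co m' i := by
      simp [u]
    rw [this, co_sub]
    rfl
  have h1 := norm_nonneg (u m - u m')
  have h2 := norm_nonneg (u (m - m'))
  exact (sq_eq_sq₀ h1 h2).mp h

theorem u_zero : u 0 = 0 := by
  ext i
  simp [u, co, ang]

theorem norm_u_neg (m : ℤ) : ‖u (-m)‖ = ‖u m‖ := by
  have h := norm_u_sub 0 m
  rw [u_zero, zero_sub, zero_sub, norm_neg] at h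
  exact h.symm

theorem norm_u_add_le (m m' : ℤ) : ‖u (m + m')‖ ≤ ‖u m‖ + ‖u m'‖ := by
  have h := norm_u_sub m (-m')
  rw [sub_neg_eq_add] at h
  rw [← h, ← norm_u_neg m']
  exact norm_sub_le _ _

theorem abs_norm_u_add (m m' : ℤ) : |‖u (m + m')‖ - ‖u m‖| ≤ ‖u m'‖ := by
  rw [abs_le]
  have h1 := norm_u_add_le m m'
  have h2 := norm_u_add_le (m + m') (-m')
  rw [norm_u_neg, add_neg_cancel_right] at h2
  constructor <;> linarith

theorem norm_u_nat_le (n : ℕ) : ‖u n‖ ≤ n * ‖u 1‖ := by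
  induction n with
  | zero => simp [u_zero]
  | succ n ih =>
    push_cast
    have := norm_u_add_le n 1
    linarith

theorem co_eq_zero (i k : ℕ) (h : i ≤ k) : co (3 ^ (k ^ 2)) i = 0 := by
  rw [← norm_eq_zero, norm_co]
  have hik : i ^ 2 ≤ k ^ 2 := Nat.pow_le_pow_left h 2
  have : ang i (3 ^ (k ^ 2)) / 2 = ((3 ^ (k ^ 2 - i ^ 2) : ℕ) : ℝ) * Real.pi := by
    unfold ang
    have h1 : (3:ℝ) ^ (k ^ 2) = 3 ^ (k ^ 2 - i ^ 2) * 3 ^ (i ^ 2) := by
      rw [← pow_add]; congr 1; omega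
    push_cast
    rw [h1]
    field_simp
  rw [this, Real.sin_nat_mul_pi]
  simp

theorem co_le (i k : ℕ) : ‖co (3 ^ (k ^ 2)) i‖ ≤ 2 * Real.pi * (1 / 3) ^ i := by
  by_cases h : i ≤ k
  · rw [co_eq_zero i k h]; simp; positivity
  · push Not at h
    refine (norm_co_le _ _).trans ?_
    unfold ang
    have h3 : (3:ℝ) ^ (k ^ 2) * 3 ^ i ≤ 3 ^ (i ^ 2) := by
      rw [← pow_add]
      apply pow_le_pow_right₀ (by norm_num)
      nlinarith
    push_cast
    rw [abs_of_nonneg (by positivity), one_div, inv_pow, ← div_eq_mul_inv,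
      div_le_div_iff₀ (by positivity) (by positivity)]
    have : 2 * Real.pi * 3 ^ (k ^ 2) * 3 ^ i = 2 * Real.pi * ((3:ℝ) ^ (k ^ 2) * 3 ^ i) := by ring
    rw [this]
    gcongr

theorem tendsto_norm_u : Tendsto (fun k : ℕ => ‖u (3 ^ (k ^ 2))‖) atTop (𝓝 0) := by
  have h : Tendsto (fun k : ℕ => ‖u (3 ^ (k ^ 2))‖ ^ 2) atTop (𝓝 0) := by
    simp only [norm_sq_eq]
    have hz : (0:ℝ) = ∑' i : ℕ, (0:ℝ) := by simp
    rw [hz]
    refine tendsto_tsum_of_dominated_convergence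
      (bound := fun i : ℕ => (2 * Real.pi) ^ 2 * ((1:ℝ) / 9) ^ i)
      ((summable_geometric_of_lt_one (by norm_num) (by norm_num)).mul_left _) ?_ ?_
    · intro i
      refine tendsto_const_nhds.congr' ?_
      filter_upwards [eventually_ge_atTop i] with k hk
      have : (u (3 ^ (k ^ 2))) i = co (3 ^ (k ^ 2)) i := rfl
      rw [this, co_eq_zero i k hk]; simp
    · filter_upwards with k i
      have : (u (3 ^ (k ^ 2))) i = co (3 ^ (k ^ 2)) i := rfl
      rw [this, Real.norm_of_nonneg (by positivity)]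
      calc ‖co (3 ^ (k ^ 2)) i‖ ^ 2 ≤ (2 * Real.pi * (1 / 3) ^ i) ^ 2 := by
            gcongr; exact co_le i k
        _ = _ := by rw [mul_pow, ← pow_mul, mul_comm i 2, pow_mul (1/3:ℝ)]; norm_num
  have h2 := h.sqrt
  simp only [Real.sqrt_zero] at h2
  refine h2.congr (fun k => Real.sqrt_sq (norm_nonneg _))

theorem one_le_co (i k : ℕ) (hi : 1 ≤ i) (h : i ≤ k) (m : ℤ) (hm : 2 * m + 1 = 3 ^ (k ^ 2)) :
    1 ≤ ‖co m i‖ := by
  rw [norm_co]
  have hik : i ^ 2 ≤ k ^ 2 := Nat.pow_le_pow_left h 2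
  obtain ⟨j, hj⟩ : ∃ j : ℕ, 3 ^ (k ^ 2 - i ^ 2) = 2 * j + 1 := by
    have : Odd (3 ^ (k ^ 2 - i ^ 2)) := Odd.pow (by decide)
    exact this
  set y : ℝ := Real.pi / (2 * 3 ^ (i ^ 2)) with hy
  have hang : ang i m / 2 = (Real.pi / 2 - y) + j * Real.pi := by
    have h1 : (3:ℝ) ^ (k ^ 2) = 3 ^ (k ^ 2 - i ^ 2) * 3 ^ (i ^ 2) := by
      rw [← pow_add]; congr 1; omega
    have h2 : (3:ℝ) ^ (k ^ 2 - i ^ 2) = 2 * j + 1 := by exact_mod_cast hj
    have h3 : (2 * (m:ℝ) + 1) = (2 * j + 1) * 3 ^ (i ^ 2) := by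
      have : (2 * (m:ℝ) + 1) = 3 ^ (k ^ 2) := by exact_mod_cast hm
      rw [this, h1, h2]
    have h4 : (m:ℝ) = ((2 * j + 1) * 3 ^ (i ^ 2) - 1) / 2 := by linarith
    unfold ang
    rw [h4, hy]
    field_simp
    ring
  have h33 : (3:ℝ) ≤ 3 ^ (i ^ 2) := by
    calc (3:ℝ) = 3 ^ 1 := by norm_num
      _ ≤ 3 ^ (i ^ 2) := by
        apply pow_le_pow_right₀ (by norm_num)
        nlinarith
  have hy0 : 0 ≤ y := by positivity
  have hy1 : y ≤ Real.pi / 3 := by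
    rw [hy]
    apply div_le_div_of_nonneg_left Real.pi_pos.le (by norm_num)
    linarith
  have hc : 1 / 2 ≤ Real.cos y := by
    rw [← Real.cos_pi_div_three]
    exact Real.cos_le_cos_of_nonneg_of_le_pi hy0 (by linarith [Real.pi_pos]) hy1
  rw [hang, Real.sin_add_nat_mul_pi, Real.sin_pi_div_two_sub, abs_mul, abs_mul, abs_pow, abs_neg,
    abs_one, one_pow, one_mul, abs_of_pos (by norm_num : (0:ℝ) < 2),
    abs_of_pos (by linarith : 0 < Real.cos y)]
  linarith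

theorem unbounded (K : ℝ) : ∃ m : ℕ, K < ‖u m‖ := by
  obtain ⟨k, hk⟩ := exists_nat_gt (K ^ 2)
  obtain ⟨m, hm⟩ : ∃ m : ℕ, 3 ^ (k ^ 2) = 2 * m + 1 := by
    have : Odd (3 ^ (k ^ 2)) := Odd.pow (by decide)
    exact this
  refine ⟨m, ?_⟩
  have hm' : 2 * (m:ℤ) + 1 = 3 ^ (k ^ 2) := by exact_mod_cast hm.symm
  have h1 : (k:ℝ) ≤ ‖u m‖ ^ 2 := by
    rw [norm_sq_eq]
    calc (k:ℝ) = ∑ i ∈ Finset.Icc 1 k, (1:ℝ) := by simp
      _ ≤ ∑ i ∈ Finset.Icc 1 k, ‖(u m) i‖ ^ 2 := by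
        apply Finset.sum_le_sum
        intro i hi
        rw [Finset.mem_Icc] at hi
        have h := one_le_co i k hi.1 hi.2 m hm'
        have : (u m) i = co m i := rfl
        rw [this]
        nlinarith
      _ ≤ _ := Summable.sum_le_tsum _ (fun i _ => by positivity) (summ_sq (u m))
  have h2 : K ^ 2 < ‖u m‖ ^ 2 := by linarith
  exact lt_of_pow_lt_pow_left₀ 2 (norm_nonneg _) h2

end

end Pool.Agent.V11108.NullOrbit
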