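import Mathlib

set_option autoImplicit false
open Filter Topology

namespace Pool.Agent.V11108.SeqSpace

/-- The interval. -/
abbrev I := Set.Icc (-1:ℝ) 1

/-- sequences in the interval, as a type with its own metric -/
def Y : Type := ℕ → I

noncomputable instance : MetricSpace Y := PiCountable.metricSpace (ι := ℕ) (F := fun _ => I)

instance : CompactSpace Y := inferInstanceAs (CompactSpace (ℕ → I))

/-- evaluation as a real number -/
def ev (x : Y) (i : ℕ) : ℝ := ((x i : I) : ℝ)

theorem abs_ev_le (x : Y) (i : ℕ) : |ev x i| ≤ 1 := by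
  have := (x i : I).2
  exact abs_le.mpr ⟨this.1, this.2⟩

theorem continuous_apply' (i : ℕ) : Continuous (fun x : Y => (x i : I)) :=
  (continuous_apply i : Continuous (fun x : ℕ → I => x i))

theorem continuous_ev (i : ℕ) : Continuous (fun x : Y => ev x i) :=
  continuous_subtype_val.comp (continuous_apply' i)

theorem dist_def' (x y : Y) : dist x y = ∑' i : ℕ, min ((2:ℝ)⁻¹ ^ i) |ev x i - ev y i| := by
  have : dist x y = ∑' i : ℕ, min ((2:ℝ)⁻¹ ^ (Encodable.encode i)) (dist (x i : I) (y i : I)) := rfl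
  rw [this]
  rfl

theorem summable' (x y : Y) : Summable (fun i : ℕ => min ((2:ℝ)⁻¹ ^ i) |ev x i - ev y i|) := by
  refine .of_nonneg_of_le (fun i => ?_) (fun i => min_le_left _ _) ?_
  · exact le_min (by positivity) (abs_nonneg _)
  · exact summable_geometric_of_lt_one (by norm_num) (by norm_num)

theorem min_le_dist (x y : Y) (i : ℕ) : min ((2:ℝ)⁻¹ ^ i) |ev x i - ev y i| ≤ dist x y := by
  rw [dist_def']
  exact (summable' x y).le_tsum i fun j _ => le_min (by positivity) (abs_nonneg _)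

theorem window (ε : ℝ) (hε : 0 < ε) : ∃ W : ℕ, ∃ δ : ℝ, 0 < δ ∧ ∀ x y : Y,
    (∀ i < W, |ev x i - ev y i| < δ) → dist x y < ε := by
  obtain ⟨W, hW⟩ := exists_pow_lt_of_lt_one (by positivity : 0 < ε / 4)
    (by norm_num : (2:ℝ)⁻¹ < 1)
  refine ⟨W, ε / (2 * (W + 1)), by positivity, ?_⟩
  intro x y h
  rw [dist_def', ← (summable' x y).sum_add_tsum_nat_add W]
  have h1 : ∑ i ∈ Finset.range W, min ((2:ℝ)⁻¹ ^ i) |ev x i - ev y i| ≤ ε / 2 := by
    calc _ ≤ ∑ i ∈ Finset.range W, ε / (2 * (W + 1)) := by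
          apply Finset.sum_le_sum
          intro i hi
          exact (min_le_right _ _).trans (h i (Finset.mem_range.mp hi)).le
      _ = W * (ε / (2 * (W + 1))) := by simp
      _ ≤ (W + 1) * (ε / (2 * (W + 1))) := by gcongr; linarith
      _ = ε / 2 := by field_simp
  have h2 : ∑' i : ℕ, min ((2:ℝ)⁻¹ ^ (i + W)) |ev x (i + W) - ev y (i + W)| ≤ 2 * (2:ℝ)⁻¹ ^ W := by
    have hs : Summable (fun i : ℕ => (2:ℝ)⁻¹ ^ W * (2:ℝ)⁻¹ ^ i) :=
      (summable_geometric_of_lt_one (by norm_num) (by norm_num)).mul_left _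
    have e : ∑' i : ℕ, (2:ℝ)⁻¹ ^ W * (2:ℝ)⁻¹ ^ i = 2 * (2:ℝ)⁻¹ ^ W := by
      rw [tsum_mul_left, tsum_geometric_of_lt_one (by norm_num) (by norm_num)]
      norm_num; ring
    rw [← e]
    refine Summable.tsum_le_tsum (fun i => ?_) ((summable_nat_add_iff W).mpr (summable' x y)) hs
    refine (min_le_left _ _).trans ?_
    rw [pow_add, mul_comm]
  linarith

theorem ev_close (i : ℕ) (ε : ℝ) (hε : 0 < ε) : ∃ δ : ℝ, 0 < δ ∧ ∀ x y : Y,
    dist x y < δ → |ev x i - ev y i| < ε := by
  refine ⟨min ((2:ℝ)⁻¹ ^ i) ε, lt_min (by positivity) hε, ?_⟩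
  intro x y h
  have h1 := min_le_dist x y i
  rcases min_le_iff.mp h1 with h2 | h2
  · exact absurd (h.trans_le (min_le_left _ _)) (not_lt.mpr h2)
  · exact h2.trans_lt (h.trans_le (min_le_right _ _))

theorem dist_le_two (x y : Y) : dist x y ≤ 2 := by
  rw [dist_def']
  have e : ∑' i : ℕ, (2:ℝ)⁻¹ ^ i = 2 := by
    rw [tsum_geometric_of_lt_one (by norm_num) (by norm_num)]; norm_num
  exact (Summable.tsum_le_tsum (fun i => min_le_left _ _) (summable' x y)
    (summable_geometric_of_lt_one (by norm_num) (by norm_num))).trans e.le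

/-- the shift -/
def sh (x : Y) : Y := fun i => x (i + 1)

theorem continuous_sh : Continuous sh :=
  (continuous_pi fun i => continuous_apply (i + 1) : Continuous (fun (x : ℕ → I) i => x (i + 1)))

theorem sh_iter (n : ℕ) (x : Y) (i : ℕ) : ev (sh^[n] x) i = ev x (i + n) := by
  induction n generalizing i with
  | zero => rfl
  | succ n ih =>
    rw [Function.iterate_succ_apply']
    have : ev (sh (sh^[n] x)) i = ev (sh^[n] x) (i + 1) := rfl
    rw [this, ih]
    congr 1
    omega

theorem ext' (x y : Y) (h : ∀ i, ev x i = ev y i) : x = y := by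
  funext i
  exact Subtype.ext (h i)

/-- closure of the forward orbit -/
def orb (x : Y) : Set Y := closure (Set.range (fun n : ℕ => sh^[n] x))

theorem iter_mem_orb (x : Y) (n : ℕ) : sh^[n] x ∈ orb x := subset_closure ⟨n, rfl⟩

theorem sh_mem_orb (x y : Y) (h : y ∈ orb x) : sh y ∈ orb x := by
  refine map_mem_closure continuous_sh h ?_
  rintro _ ⟨n, rfl⟩
  exact ⟨n + 1, Function.iterate_succ_apply' _ _ _⟩

/-- the orbit closure as a space -/
def X (x : Y) : Type := orb x

noncomputable instance (x : Y) : MetricSpace (X x) := inferInstanceAs (MetricSpace (orb x))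

instance (x : Y) : CompactSpace (X x) :=
  isCompact_iff_compactSpace.mp isClosed_closure.isCompact

/-- the shift on the orbit closure -/
def T (x : Y) (y : X x) : X x := ⟨sh y.1, sh_mem_orb x y.1 y.2⟩

theorem continuous_T (x : Y) : Continuous (T x) :=
  (continuous_sh.comp continuous_subtype_val).subtype_mk _

theorem T_iter (x : Y) (y : X x) (n : ℕ) : ((T x)^[n] y).1 = sh^[n] y.1 := by
  induction n with
  | zero => rfl
  | succ n ih =>
    rw [Function.iterate_succ_apply', Function.iterate_succ_apply', ← ih]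
    rfl

theorem dist_X (x : Y) (y z : X x) : dist y z = dist y.1 z.1 := rfl

/-- the base point -/
def base (x : Y) : X x := ⟨x, iter_mem_orb x 0⟩

/-- density of the orbit, in coordinates -/
theorem approx (x : Y) (y : Y) (hy : y ∈ orb x) (B : Finset ℕ) (ε : ℝ) (hε : 0 < ε) :
    ∃ n : ℕ, ∀ b ∈ B, |ev y b - ev x (b + n)| < ε := by
  have hopen : IsOpen (⋂ b ∈ B, {z : Y | |ev y b - ev z b| < ε}) := by
    refine isOpen_biInter_finset fun b _ => ?_
    exact isOpen_lt (continuous_const.sub (continuous_ev b)).abs continuous_const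
  have hmem : y ∈ (⋂ b ∈ B, {z : Y | |ev y b - ev z b| < ε}) := by
    simp [hε]
  obtain ⟨z, hz, n, hn⟩ := mem_closure_iff.mp hy _ hopen hmem
  refine ⟨n, fun b hb => ?_⟩
  have h1 : z ∈ {z : Y | |ev y b - ev z b| < ε} := by
    have := Set.mem_iInter₂.mp hz b hb
    exact this
  have h2 : ev z b = ev x (b + n) := by
    rw [← hn]; exact sh_iter n x b
  rw [← h2]; exact h1

theorem mem_orb_of (x y : Y)
    (h : ∀ W : ℕ, ∀ ε : ℝ, 0 < ε → ∃ n : ℕ, ∀ i < W, |ev x (i + n) - ev y i| < ε) : y ∈ orb x := by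
  rw [orb, Metric.mem_closure_iff]
  intro ε hε
  obtain ⟨W, δ, hδ, hW⟩ := window ε hε
  obtain ⟨n, hn⟩ := h W δ hδ
  refine ⟨_, ⟨n, rfl⟩, ?_⟩
  rw [dist_comm]
  apply hW
  intro i hi
  rw [sh_iter]
  exact hn i hi

end Pool.Agent.V11108.SeqSpace
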