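import Mathlib

set_option autoImplicit false
open Filter Topology

namespace Pool.Agent.V11108.SlowCos

noncomputable section

/-- the slowly varying phase -/
def g (r : ℝ) : ℝ := Real.log (1 + Real.log (1 + r))

/-- the slowly oscillating function -/
def F (r : ℝ) : ℝ := Real.cos (g r)

theorem log_diff (a b : ℝ) (ha : 0 ≤ a) (hab : a ≤ b) :
    Real.log (1 + b) - Real.log (1 + a) ≤ (b - a) / (1 + a) := by
  have h1 : (0:ℝ) < 1 + a := by linarith
  have h2 : (0:ℝ) < 1 + b := by linarith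
  rw [← Real.log_div h2.ne' h1.ne']
  have h3 := Real.log_le_sub_one_of_pos (div_pos h2 h1)
  have h4 : (1 + b) / (1 + a) - 1 = (b - a) / (1 + a) := by field_simp; ring
  linarith

theorem log_mono (a b : ℝ) (ha : 0 ≤ a) (hab : a ≤ b) : Real.log (1 + a) ≤ Real.log (1 + b) :=
  Real.log_le_log (by linarith) (by linarith)

theorem log_nonneg' (a : ℝ) (ha : 0 ≤ a) : 0 ≤ Real.log (1 + a) := Real.log_nonneg (by linarith)

theorem g_lip_aux (a b : ℝ) (ha : 0 ≤ a) (hab : a ≤ b) : |g b - g a| ≤ b - a := by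
  have h0 := log_nonneg' a ha
  have h1 := log_mono a b ha hab
  have h2 := log_diff a b ha hab
  have h3 := log_diff (Real.log (1 + a)) (Real.log (1 + b)) h0 h1
  have h4 := log_mono (Real.log (1 + a)) (Real.log (1 + b)) h0 h1
  have h5 : (b - a) / (1 + a) ≤ b - a := div_le_self (by linarith) (by linarith)
  have h6 : (Real.log (1 + b) - Real.log (1 + a)) / (1 + Real.log (1 + a))
      ≤ Real.log (1 + b) - Real.log (1 + a) := div_le_self (by linarith) (by linarith)
  unfold g
  rw [abs_of_nonneg (by linarith)]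
  linarith

theorem F_lip (a b : ℝ) (ha : 0 ≤ a) (hb : 0 ≤ b) : |F a - F b| ≤ |a - b| := by
  unfold F
  refine (Real.abs_cos_sub_cos_le _ _).trans ?_
  rcases le_total a b with h | h
  · rw [abs_sub_comm, abs_sub_comm a b, abs_of_nonneg (by linarith : 0 ≤ b - a)]
    exact g_lip_aux a b ha h
  · rw [abs_of_nonneg (by linarith : 0 ≤ a - b)]
    exact g_lip_aux b a hb h

theorem F_bound (r : ℝ) : |F r| ≤ 1 := Real.abs_cos_le_one _

theorem slow_aux (R a b : ℝ) (hR : 0 < R) (ha : R ≤ a) (hab : a ≤ b) (hb : b ≤ 4 * a) :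
    |g b - g a| ≤ 2 / (1 + Real.log (1 + R)) := by
  have ha0 : 0 ≤ a := by linarith
  have h0 := log_nonneg' a ha0
  have hR0 := log_nonneg' R hR.le
  have hRa := log_mono R a hR.le ha
  have h1 := log_mono a b ha0 hab
  have h3 := log_diff (Real.log (1 + a)) (Real.log (1 + b)) h0 h1
  have h4 := log_mono (Real.log (1 + a)) (Real.log (1 + b)) h0 h1
  have h5 : Real.log (1 + b) ≤ Real.log 4 + Real.log (1 + a) := by
    rw [← Real.log_mul (by norm_num) (by linarith)]
    exact Real.log_le_log (by linarith) (by linarith)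
  have h6 : Real.log 4 ≤ 2 := by
    have e : (4:ℝ) = 2 ^ 2 := by norm_num
    rw [e, Real.log_pow]
    have := Real.log_two_lt_d9
    push_cast
    linarith
  unfold g
  rw [abs_of_nonneg (by linarith)]
  calc _ ≤ _ := h3
    _ ≤ 2 / (1 + Real.log (1 + a)) := by gcongr; linarith
    _ ≤ 2 / (1 + Real.log (1 + R)) := by gcongr

theorem slow (ε : ℝ) (hε : 0 < ε) : ∃ R : ℝ, 0 < R ∧ ∀ r r', R ≤ r → R ≤ r' → r ≤ 4 * r' →
    r' ≤ 4 * r → |F r - F r'| < ε := by
  refine ⟨Real.exp (2 / ε), Real.exp_pos _, ?_⟩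
  have hkey : 2 / (1 + Real.log (1 + Real.exp (2 / ε))) < ε := by
    have h1 : 2 / ε ≤ Real.log (1 + Real.exp (2 / ε)) := by
      rw [Real.le_log_iff_exp_le (by positivity)]
      linarith
    have h2 : 0 < 2 / ε := by positivity
    rw [div_lt_iff₀ (by linarith)]
    have h3 : ε * (2 / ε) = 2 := by field_simp
    nlinarith
  intro r r' h1 h2 h3 h4
  have hR := Real.exp_pos (2 / ε)
  unfold F
  refine (Real.abs_cos_sub_cos_le _ _).trans_lt (lt_of_le_of_lt ?_ hkey)
  rcases le_total r r' with h | h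
  · rw [abs_sub_comm]
    exact slow_aux _ r r' hR h1 h h4
  · exact slow_aux _ r' r hR h2 h h3

/-- the special radii -/
def tt (j : ℕ) : ℝ := Real.exp (Real.exp (j * Real.pi) - 1) - 1

theorem F_tt (j : ℕ) : F (tt j) = (-1) ^ j := by
  have : g (tt j) = j * Real.pi := by
    unfold g tt
    rw [add_sub_cancel, Real.log_exp, add_sub_cancel, Real.log_exp]
  unfold F
  rw [this, Real.cos_nat_mul_pi]

theorem le_tt (j : ℕ) : (j:ℝ) ≤ tt j := by
  unfold tt
  have h1 := Real.add_one_le_exp (j * Real.pi)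
  have h2 := Real.add_one_le_exp (Real.exp (j * Real.pi) - 1)
  have h3 : (j:ℝ) ≤ j * Real.pi := by
    have := Real.pi_gt_three
    have hj : (0:ℝ) ≤ j := Nat.cast_nonneg j
    nlinarith
  linarith

end

end Pool.Agent.V11108.SlowCos
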