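import Mathlib
import Pool.Agent.V11108.NullCover
import Pool.Agent.V11108.NullOrbit
import Pool.Agent.V11108.SeqSpace
import Pool.Agent.V11108.SlowCos

set_option autoImplicit false
open Filter Topology

namespace Pool.Agent.V11108.NullExample

open Pool.Agent.V11108.NullCover Pool.Agent.V11108.NullOrbit Pool.Agent.V11108.SeqSpace
  Pool.Agent.V11108.SlowCos

noncomputable section

/-- the base sequence -/
def x0 : Y := fun n => ⟨F ‖u n‖, abs_le.mp (F_bound _)⟩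

theorem ev_x0 (n : ℕ) : ev x0 n = F ‖u n‖ := rfl

/-- density -/
theorem dense_orb (U : Set (X x0)) (hU : IsOpen U) (hne : U.Nonempty) :
    ∃ a : ℕ, (T x0)^[a] (base x0) ∈ U := by
  obtain ⟨U', hU', rfl⟩ := isOpen_induced_iff.mp hU
  obtain ⟨y, hy⟩ := hne
  obtain ⟨z, hz, n, hn⟩ := mem_closure_iff.mp y.2 U' hU' hy
  refine ⟨n, ?_⟩
  show ((T x0)^[n] (base x0)).1 ∈ U'
  rw [T_iter]
  have : sh^[n] (base x0).1 = z := hn
  rw [this]; exact hz

theorem recur (b : ℕ) (ε : ℝ) (hε : 0 < ε) : ∀ᶠ k : ℕ in atTop,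
    dist (sh^[3 ^ (k ^ 2) + b] x0) (sh^[b] x0) < ε := by
  obtain ⟨W, δ, hδ, hW⟩ := window ε hε
  have h := (tendsto_order.mp tendsto_norm_u).2 δ hδ
  filter_upwards [h] with k hk
  apply hW
  intro i _
  rw [sh_iter, sh_iter, ev_x0, ev_x0]
  refine (F_lip _ _ (norm_nonneg _) (norm_nonneg _)).trans_lt (lt_of_le_of_lt ?_ hk)
  have : ((i + (3 ^ (k ^ 2) + b) : ℕ) : ℤ) = ((i + b : ℕ) : ℤ) + 3 ^ (k ^ 2) := by
    push_cast; ring
  rw [this]
  exact abs_norm_u_add _ _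

theorem trans (U V : Set (X x0)) (hU : IsOpen U) (hV : IsOpen V) (hUn : U.Nonempty)
    (hVn : V.Nonempty) : ∃ n : ℕ, 1 ≤ n ∧ (V ∩ (T x0)^[n] ⁻¹' U).Nonempty := by
  obtain ⟨b, hb⟩ := dense_orb U hU hUn
  obtain ⟨a, ha⟩ := dense_orb V hV hVn
  obtain ⟨ε, hε, hball⟩ := Metric.isOpen_iff.mp hU _ hb
  obtain ⟨k, hk, hk2⟩ := ((recur b ε hε).and (eventually_ge_atTop a)).exists
  have hlt : a < 3 ^ (k ^ 2) := by
    have h1 : k ^ 2 < 3 ^ (k ^ 2) := Nat.lt_pow_self (by norm_num)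
    have h2 : k ≤ k ^ 2 := Nat.le_self_pow (by norm_num) k
    omega
  refine ⟨3 ^ (k ^ 2) + b - a, by omega, (T x0)^[a] (base x0), ha, ?_⟩
  rw [Set.mem_preimage, ← Function.iterate_add_apply, Nat.sub_add_cancel (by omega)]
  apply hball
  rw [Metric.mem_ball, dist_X, T_iter, T_iter]
  exact hk

theorem norm_u_two (s b : ℕ) : ‖u (-(s:ℤ)) - u b‖ = ‖u ((b + s : ℕ) : ℤ)‖ := by
  rw [norm_u_sub, ← norm_u_neg]
  congr 2
  push_cast; ring

theorem poly_exp (C T' W : ℕ) (δ : ℝ) (hδ : 0 < δ) : ∀ᶠ n : ℕ in atTop,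
    (C : ℝ) * ((n * W + 1 : ℕ) : ℝ) ^ T' ≤ Real.exp (δ * n) := by
  have h := (isLittleO_pow_exp_pos_mul_atTop T' hδ).def
    (c := 1 / (C * (W + 1) ^ T' + 1)) (by positivity)
  have h2 := tendsto_natCast_atTop_atTop (R := ℝ) |>.eventually h
  filter_upwards [h2, eventually_ge_atTop 1] with n hn hn1
  rw [Real.norm_of_nonneg (by positivity), Real.norm_of_nonneg (Real.exp_pos _).le] at hn
  have h3 : ((n * W + 1 : ℕ) : ℝ) ≤ (W + 1) * n := by
    have : n * W + 1 ≤ (W + 1) * n := by nlinarith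
    exact_mod_cast this
  calc (C : ℝ) * ((n * W + 1 : ℕ) : ℝ) ^ T' ≤ C * ((W + 1) * n) ^ T' := by gcongr
    _ = (C * (W + 1) ^ T') * (n:ℝ) ^ T' := by rw [mul_pow]; ring
    _ ≤ (C * (W + 1) ^ T' + 1) * (1 / (C * (W + 1) ^ T' + 1) * Real.exp (δ * n)) := by
      gcongr
      linarith
    _ = Real.exp (δ * n) := by field_simp

open Classical in
theorem null (a : ℕ → ℕ) (ε : ℝ) (hε : 0 < ε) (δ : ℝ) (hδ : 0 < δ) :
    ∀ᶠ n in atTop, ∀ S : Finset (X x0),
      (∀ x ∈ S, ∀ y ∈ S, x ≠ y → ∃ i < n, ε ≤ dist ((T x0)^[a i] x) ((T x0)^[a i] y)) →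
      (S.card : ℝ) ≤ Real.exp (δ * n) := by
  obtain ⟨W, δ1, hδ1, hW⟩ := window ε hε
  obtain ⟨C, T', hcov⟩ := cover (H := Hs) F F_lip F_bound slow (δ1 / 2) (by positivity)
  filter_upwards [poly_exp C T' (W + 1) δ hδ |>.and (eventually_ge_atTop 1),
    (poly_exp (C * 2 ^ T') T' (W + 1) δ hδ)] with n hn hn2
  intro S hS
  set B : Finset ℕ := (Finset.range n ×ˢ Finset.range (W + 1)).image (fun p => a p.1 + p.2)
    with hB
  have hBne : B.Nonempty := by
    refine ⟨a 0 + 0, Finset.mem_image.mpr ⟨(0, 0), ?_, rfl⟩⟩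
    simp only [Finset.mem_product, Finset.mem_range]
    omega
  have hBcard : B.card ≤ n * (W + 1) := by
    refine Finset.card_image_le.trans ?_
    rw [Finset.card_product, Finset.card_range, Finset.card_range]
  have hap : ∀ x : X x0, ∃ s : ℕ, ∀ b ∈ B, |ev x.1 b - ev x0 (b + s)| < δ1 / 4 :=
    fun x => approx x0 x.1 x.2 B (δ1 / 4) (by positivity)
  choose s hs using hap
  have hsep : ∀ x ∈ S, ∀ y ∈ S, x ≠ y → ∃ b ∈ B,
      δ1 / 2 ≤ |F ‖u (-(s x : ℤ)) - u b‖ - F ‖u (-(s y : ℤ)) - u b‖| := by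
    intro x hx y hy hxy
    obtain ⟨i, hi, hd⟩ := hS x hx y hy hxy
    have hex : ∃ j < W, δ1 ≤ |ev x.1 (j + a i) - ev y.1 (j + a i)| := by
      by_contra hcon
      push Not at hcon
      have : dist ((T x0)^[a i] x) ((T x0)^[a i] y) < ε := by
        rw [dist_X, T_iter, T_iter]
        apply hW
        intro j hj
        rw [sh_iter, sh_iter]
        exact hcon j hj
      linarith
    obtain ⟨j, hj, hjd⟩ := hex
    have hbB : j + a i ∈ B := by
      refine Finset.mem_image.mpr ⟨(i, j), ?_, by simp [add_comm]⟩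
      simp only [Finset.mem_product, Finset.mem_range]
      omega
    refine ⟨j + a i, hbB, ?_⟩
    have h1 := hs x _ hbB
    have h2 := hs y _ hbB
    rw [norm_u_two, norm_u_two, ← ev_x0, ← ev_x0]
    rw [abs_lt] at h1 h2
    rcases le_abs.mp hjd with h | h
    · refine le_trans ?_ (le_abs_self _)
      linarith
    · refine le_trans ?_ (neg_le_abs _)
      linarith
  have hinj : Set.InjOn s (S : Set (X x0)) := by
    intro x hx y hy hxy
    by_contra hne
    obtain ⟨b, _, hb⟩ := hsep x hx y hy hne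
    rw [hxy, sub_self, abs_zero] at hb
    linarith
  have hcard : S.card = (S.image s).card := (Finset.card_image_of_injOn hinj).symm
  have hmain := hcov B (fun b => u b) (S.image s) (fun t => u (-(t:ℤ))) hBne (by
    intro t ht t' ht' htt
    obtain ⟨x, hx, rfl⟩ := Finset.mem_image.mp ht
    obtain ⟨y, hy, rfl⟩ := Finset.mem_image.mp ht'
    exact hsep x hx y hy (fun h => htt (by rw [h])))
  rw [← hcard] at hmain
  refine le_trans ?_ hn.1
  calc (S.card : ℝ) ≤ ((C * (B.card + 1) ^ T' : ℕ) : ℝ) := by exact_mod_cast hmain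
    _ ≤ ((C * (n * (W + 1) + 1) ^ T' : ℕ) : ℝ) := by
        have : C * (B.card + 1) ^ T' ≤ C * (n * (W + 1) + 1) ^ T' := by gcongr
        exact_mod_cast this
    _ = _ := by push_cast; ring

/-- windows where the base sequence is nearly constant `± 1` -/
theorem const_window (p W : ℕ) (ε : ℝ) (hε : 0 < ε) :
    ∃ n : ℕ, ∀ i < W, |ev x0 (i + n) - (-1) ^ p| < ε := by
  obtain ⟨R, hR, hs⟩ := slow ε hε
  set K : ℝ := (W + 1) * ‖u 1‖ with hK
  have hK0 : 0 ≤ K := by positivity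
  obtain ⟨J, hJ⟩ := exists_nat_gt (R + 2 * K)
  set t : ℝ := tt (2 * J + p) with ht
  have ht1 : R + 2 * K ≤ t := by
    have h1 := le_tt (2 * J + p)
    have h2 : (J:ℝ) ≤ ((2 * J + p : ℕ) : ℝ) := by exact_mod_cast (by omega)
    linarith
  have hFt : F t = (-1) ^ p := by
    rw [ht, F_tt, pow_add, pow_mul]; norm_num
  have hex : ∃ n : ℕ, t < ‖u n‖ := unbounded t
  classical
  set n := Nat.find hex with hn
  have hn1 : t < ‖u n‖ := Nat.find_spec hex
  have hnpos : n ≠ 0 := by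
    intro h0
    rw [h0] at hn1
    simp only [Nat.cast_zero, u_zero, norm_zero] at hn1
    linarith
  obtain ⟨n', hn'⟩ := Nat.exists_eq_succ_of_ne_zero hnpos
  have hn2 : ‖u n'‖ ≤ t := by
    have := Nat.find_min hex (m := n') (by omega)
    exact not_lt.mp this
  have hn3 : ‖u n‖ ≤ ‖u n'‖ + ‖u 1‖ := by
    have := norm_u_add_le n' 1
    rw [hn']
    push_cast
    exact this
  refine ⟨n, ?_⟩
  intro i hi
  rw [ev_x0, ← hFt]
  have h1 := abs_norm_u_add n i
  have h2 := norm_u_nat_le i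
  have h3 : (i:ℝ) * ‖u 1‖ ≤ W * ‖u 1‖ := by
    gcongr
  have e : ((i + n : ℕ) : ℤ) = (n:ℤ) + (i:ℤ) := by push_cast; ring
  rw [e]
  rw [abs_le] at h1
  have hK' : K = W * ‖u 1‖ + ‖u 1‖ := by rw [hK]; ring
  apply hs <;> linarith

/-- constant sequences -/
def cst (p : ℕ) : Y := fun _ => ⟨(-1) ^ p, by
  rcases neg_one_pow_eq_or ℝ p with h | h <;> rw [h] <;> constructor <;> norm_num⟩

theorem ev_cst (p i : ℕ) : ev (cst p) i = (-1) ^ p := rfl

theorem cst_mem (p : ℕ) : cst p ∈ orb x0 := mem_orb_of x0 (cst p) fun W ε hε => by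
  obtain ⟨n, hn⟩ := const_window p W ε hε
  exact ⟨n, fun i hi => by rw [ev_cst]; exact hn i hi⟩

/-- the constant points -/
def pt (p : ℕ) : X x0 := ⟨cst p, cst_mem p⟩

theorem T_pt (p i : ℕ) : (T x0)^[i] (pt p) = pt p := by
  apply Subtype.ext
  rw [T_iter]
  apply ext'
  intro j
  rw [sh_iter]
  rfl

theorem sum_shift (f : ℕ → ℝ) (a n : ℕ) (hf : ∀ i, 0 ≤ f i) (hf2 : ∀ i, f i ≤ 2) :
    ∑ j ∈ Finset.range n, f j ≤ 2 * a + ∑ i ∈ Finset.range n, f (a + i) := by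
  have h1 : ∑ j ∈ Finset.range n, f j ≤ ∑ j ∈ Finset.range (a + n), f j :=
    Finset.sum_le_sum_of_subset_of_nonneg (Finset.range_mono (by omega)) (fun i _ _ => hf i)
  rw [Finset.sum_range_add] at h1
  have h2 : ∑ j ∈ Finset.range a, f j ≤ 2 * a := by
    calc _ ≤ ∑ j ∈ Finset.range a, (2:ℝ) := Finset.sum_le_sum (fun i _ => hf2 i)
      _ = _ := by simp [mul_comm]
  linarith

theorem not_mean_equicontinuous :
    ¬ (∀ ε : ℝ, 0 < ε → ∃ δ : ℝ, 0 < δ ∧ ∀ x y : X x0, dist x y < δ →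
        ∀ᶠ n in atTop,
          (∑ i ∈ Finset.range n, dist ((T x0)^[i] x) ((T x0)^[i] y)) / (n : ℝ) < ε) := by
  intro h
  obtain ⟨δ, hδ, hd⟩ := h (1 / 8) (by norm_num)
  have hap : ∀ p : ℕ, ∃ a : ℕ, dist ((T x0)^[a] (base x0)) (pt p) < δ := by
    intro p
    obtain ⟨z, ⟨n, hn⟩, hz⟩ := Metric.mem_closure_iff.mp (cst_mem p) δ hδ
    refine ⟨n, ?_⟩
    rw [dist_X, T_iter, dist_comm]
    have : sh^[n] (base x0).1 = z := hn
    rw [this]
    exact hz
  obtain ⟨a, ha⟩ := hap 0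
  obtain ⟨b, hb⟩ := hap 1
  have e1 := hd _ _ ha
  have e2 := hd _ _ hb
  obtain ⟨n, hn1, hn2, hn3⟩ := (e1.and (e2.and (eventually_gt_atTop (4 * (a + b) + 1)))).exists
  have hnpos : (0:ℝ) < n := by
    have : 0 < n := by omega
    exact_mod_cast this
  rw [div_lt_iff₀ hnpos] at hn1 hn2
  set f : ℕ → ℕ → ℝ := fun p j => dist ((T x0)^[j] (base x0)) (pt p) with hf
  have c1 : ∀ p c n : ℕ, ∑ i ∈ Finset.range n,
      dist ((T x0)^[i] ((T x0)^[c] (base x0))) ((T x0)^[i] (pt p))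
      = ∑ i ∈ Finset.range n, f p (c + i) := by
    intro p c n
    apply Finset.sum_congr rfl
    intro i _
    rw [T_pt, ← Function.iterate_add_apply, add_comm i c]
  rw [c1] at hn1 hn2
  have s1 := sum_shift (f 0) a n (fun _ => dist_nonneg) (fun _ => dist_le_two _ _)
  have s2 := sum_shift (f 1) b n (fun _ => dist_nonneg) (fun _ => dist_le_two _ _)
  have s3 : (n:ℝ) ≤ ∑ j ∈ Finset.range n, (f 0 j + f 1 j) := by
    calc (n:ℝ) = ∑ j ∈ Finset.range n, (1:ℝ) := by simp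
      _ ≤ _ := by
        apply Finset.sum_le_sum
        intro j _
        have h1 : dist (pt 0) (pt 1) ≤ f 0 j + f 1 j := by
          simp only [hf]
          rw [dist_comm ((T x0)^[j] (base x0)) (pt 0)]
          exact dist_triangle _ _ _
        have h2 : (1:ℝ) ≤ dist (pt 0) (pt 1) := by
          rw [dist_X]
          have := min_le_dist (pt 0).1 (pt 1).1 0
          have e3 : ev (pt 0).1 0 = 1 := by show ev (cst 0) 0 = 1; rw [ev_cst]; norm_num
          have e4 : ev (pt 1).1 0 = -1 := by show ev (cst 1) 0 = -1; rw [ev_cst]; norm_num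
          rw [e3, e4] at this
          norm_num at this
          exact this
        linarith
  rw [Finset.sum_add_distrib] at s3
  have hn4 : (4 * (a + b) + 1 : ℝ) < n := by exact_mod_cast hn3
  have ha0 : (0:ℝ) ≤ a := Nat.cast_nonneg a
  have hb0 : (0:ℝ) ≤ b := Nat.cast_nonneg b
  linarith

end

end Pool.Agent.V11108.NullExample
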