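import Mathlib

/-!
# Metric mean dimension of Hölder maps of the interval

Definitions and the main estimate: an `α`-Hölder self-map of `[0,1]` has upper metric mean
dimension at most `1 - α`.
-/

open Filter Topology

namespace Pool.Agent.V11108.HolderMmdim

/-- The unit interval `[0,1]` with the metric `|x - y|`. -/
abbrev I : Type := Set.Icc (0 : ℝ) 1

/-- `A` is `(n, φ, ε)`-separated: any two distinct points `x, y` of `A` satisfy
`max_{0 ≤ j < n} |φ^j x - φ^j y| > ε`, that is, `|φ^j x - φ^j y| > ε` for some `j < n`. -/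
def IsSep (φ : I → I) (n : ℕ) (ε : ℝ) (A : Finset I) : Prop :=
  ∀ x ∈ A, ∀ y ∈ A, x ≠ y → ∃ j < n, ε < |((φ^[j] x : I) : ℝ) - ((φ^[j] y : I) : ℝ)|

/-- `sep(n, φ, ε)`: the largest cardinality of an `(n, φ, ε)`-separated set. -/
noncomputable def sepCard (φ : I → I) (n : ℕ) (ε : ℝ) : ℕ :=
  sSup {k : ℕ | ∃ A : Finset I, IsSep φ n ε A ∧ A.card = k}

/-- `sep(φ, ε) = limsup_n (1/n) log sep(n, φ, ε)`. -/
noncomputable def sepRate (φ : I → I) (ε : ℝ) : EReal :=
  limsup (fun n : ℕ => ((Real.log (sepCard φ n ε) / n : ℝ) : EReal)) atTop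

/-- The upper metric mean dimension
`limsup_{ε → 0} sep(φ, ε) / |log ε|` of `φ : [0,1] → [0,1]`. -/
noncomputable def upperMmdim (φ : I → I) : EReal :=
  limsup (fun ε : ℝ => sepRate φ ε / ((|Real.log ε| : ℝ) : EReal)) (𝓝[>] (0 : ℝ))

/-- `α`-Hölder continuity of `φ : [0,1] → [0,1]`. -/
def IsHolder (α : ℝ) (φ : I → I) : Prop :=
  ∃ K : ℝ, 0 < K ∧ ∀ x y : I, |(φ x : ℝ) - (φ y : ℝ)| ≤ K * |(x : ℝ) - (y : ℝ)| ^ α

/-- The index of the cell of length `ε` containing `x`. -/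
noncomputable def cell (ε : ℝ) (x : I) : ℕ := ⌊(x : ℝ) / ε⌋₊

lemma cell_le {ε : ℝ} (hε : 0 < ε) (x : I) : cell ε x ≤ ⌊1 / ε⌋₊ := by
  unfold cell
  apply Nat.floor_le_floor
  exact div_le_div_of_nonneg_right x.2.2 hε.le

lemma abs_lt_of_cell_eq {ε : ℝ} (hε : 0 < ε) {x y : I} (h : cell ε x = cell ε y) :
    |(x : ℝ) - (y : ℝ)| < ε := by
  unfold cell at h
  have hx0 : 0 ≤ (x : ℝ) / ε := div_nonneg x.2.1 hε.le
  have hy0 : 0 ≤ (y : ℝ) / ε := div_nonneg y.2.1 hε.le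
  have h1 := Nat.floor_le hx0
  have h2 := Nat.lt_floor_add_one ((x : ℝ) / ε)
  have h3 := Nat.floor_le hy0
  have h4 := Nat.lt_floor_add_one ((y : ℝ) / ε)
  rw [h] at h1 h2
  have h5 : |(x : ℝ) / ε - (y : ℝ) / ε| < 1 := by
    rw [abs_lt]; constructor <;> linarith
  rw [← sub_div, abs_div, abs_of_pos hε, div_lt_one hε] at h5
  exact h5

/-- the itinerary -/
noncomputable def itin (φ : I → I) (ε : ℝ) (n : ℕ) (x : I) : Fin n → ℕ :=
  fun j => cell ε (φ^[(j : ℕ)] x)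

lemma card_le_of_diam (V : Finset ℕ) (R : ℕ) (h : ∀ a ∈ V, ∀ b ∈ V, a ≤ b + R) :
    V.card ≤ R + 1 := by
  rcases V.eq_empty_or_nonempty with rfl | hne
  · simp
  · set m := V.min' hne with hm
    have hsub : V ⊆ Finset.Icc m (m + R) := by
      intro a ha
      rw [Finset.mem_Icc]
      exact ⟨V.min'_le a ha, h a ha m (V.min'_mem hne)⟩
    have := Finset.card_le_card hsub
    rw [Nat.card_Icc] at this
    omega

lemma next_card {φ : I → I} {α K ε : ℝ} (hα : 0 < α) (hε : 0 < ε)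
    (hφ : ∀ x y : I, |(φ x : ℝ) - (φ y : ℝ)| ≤ K * |(x : ℝ) - (y : ℝ)| ^ α) (hK : 0 < K)
    {x y : I} (h : cell ε x = cell ε y) :
    cell ε (φ x) ≤ cell ε (φ y) + (⌊K * ε ^ (α - 1)⌋₊ + 1) := by
  have h1 : |(φ x : ℝ) - (φ y : ℝ)| ≤ K * ε ^ α := by
    refine (hφ x y).trans ?_
    apply mul_le_mul_of_nonneg_left _ hK.le
    exact Real.rpow_le_rpow (abs_nonneg _) (abs_lt_of_cell_eq hε h).le hα.le
  have h2 : (φ x : ℝ) / ε ≤ (φ y : ℝ) / ε + K * ε ^ (α - 1) := by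
    rw [Real.rpow_sub hε, Real.rpow_one]
    have h3 := (abs_le.mp h1).2
    rw [← mul_div_assoc, ← add_div]
    apply div_le_div_of_nonneg_right _ hε.le
    linarith
  unfold cell
  have hy0 : 0 ≤ (φ y : ℝ) / ε := div_nonneg (φ y).2.1 hε.le
  have hx0 : 0 ≤ (φ x : ℝ) / ε := div_nonneg (φ x).2.1 hε.le
  have h3 := Nat.floor_le hx0
  have h4 := Nat.lt_floor_add_one ((φ y : ℝ) / ε)
  have h5 := Nat.lt_floor_add_one (K * ε ^ (α - 1))
  have h6 : ((⌊(φ x : ℝ) / ε⌋₊ : ℕ) : ℝ) <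
      ((⌊(φ y : ℝ) / ε⌋₊ + (⌊K * ε ^ (α - 1)⌋₊ + 1) + 1 : ℕ) : ℝ) := by
    push_cast
    linarith
  have h7 := Nat.cast_lt.mp h6
  omega

lemma card_image_itin {φ : I → I} {α K ε : ℝ} (hα : 0 < α) (hε : 0 < ε)
    (hφ : ∀ x y : I, |(φ x : ℝ) - (φ y : ℝ)| ≤ K * |(x : ℝ) - (y : ℝ)| ^ α) (hK : 0 < K)
    (A : Finset I) (n : ℕ) :
    (A.image (itin φ ε (n + 1))).card ≤
      (⌊1 / ε⌋₊ + 1) * (⌊K * ε ^ (α - 1)⌋₊ + 2) ^ n := by
  classical
  induction n with
  | zero =>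
    rw [pow_zero, mul_one]
    have : (A.image (itin φ ε (0 + 1))).card ≤ (Finset.range (⌊1 / ε⌋₊ + 1)).card := by
      apply Finset.card_le_card_of_injOn (fun v => v 0)
      · intro v hv
        rw [Finset.mem_coe, Finset.mem_image] at hv
        obtain ⟨x, _, rfl⟩ := hv
        rw [Finset.mem_coe, Finset.mem_range]
        exact Nat.lt_succ_of_le (cell_le hε _)
      · intro v _ w _ hvw
        funext j
        have : j = 0 := by
          apply Fin.ext
          have := j.2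
          simp only [Fin.val_zero]
          omega
        rw [this]; exact hvw
    simpa using this
  | succ n ih =>
    set D := ⌊K * ε ^ (α - 1)⌋₊ + 2 with hD
    set s := A.image (itin φ ε (n + 1 + 1)) with hs
    have himg : s.image (fun v => Fin.init v) = A.image (itin φ ε (n + 1)) := by
      rw [hs, Finset.image_image]
      rfl
    have hfib : ∀ w ∈ s.image (fun v : Fin (n + 1 + 1) → ℕ => (Fin.init v : Fin (n + 1) → ℕ)),
        (s.filter (fun v => (Fin.init v : Fin (n + 1) → ℕ) = w)).card ≤ D := by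
      intro w _
      have hinj : (s.filter (fun v => (Fin.init v : Fin (n + 1) → ℕ) = w)).card =
          ((s.filter (fun v => (Fin.init v : Fin (n + 1) → ℕ) = w)).image
            (fun v => v (Fin.last (n + 1)))).card := by
        rw [Finset.card_image_of_injOn]
        intro v hv v' hv' hvv
        rw [Finset.mem_coe, Finset.mem_filter] at hv hv'
        rw [← Fin.snoc_init_self v, ← Fin.snoc_init_self v', hv.2, hv'.2]
        congr 1
      rw [hinj]
      apply card_le_of_diam _ (⌊K * ε ^ (α - 1)⌋₊ + 1)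
      intro a ha b hb
      rw [Finset.mem_image] at ha hb
      obtain ⟨v, hv, rfl⟩ := ha
      obtain ⟨v', hv', rfl⟩ := hb
      rw [Finset.mem_filter, hs, Finset.mem_image] at hv hv'
      obtain ⟨⟨x, _, rfl⟩, hxw⟩ := hv
      obtain ⟨⟨y, _, rfl⟩, hyw⟩ := hv'
      have hxy : cell ε (φ^[n] x) = cell ε (φ^[n] y) := by
        have := congrFun (hxw.trans hyw.symm) (Fin.last n)
        simpa [Fin.init, itin] using this
      have e1 : itin φ ε (n + 1 + 1) x (Fin.last (n + 1)) = cell ε (φ (φ^[n] x)) := by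
        simp only [itin, Fin.val_last]
        rw [Function.iterate_succ_apply']
      have e2 : itin φ ε (n + 1 + 1) y (Fin.last (n + 1)) = cell ε (φ (φ^[n] y)) := by
        simp only [itin, Fin.val_last]
        rw [Function.iterate_succ_apply']
      rw [e1, e2]
      exact next_card hα hε hφ hK hxy
    have := Finset.card_le_mul_card_image s D hfib
    rw [himg] at this
    calc s.card ≤ D * (A.image (itin φ ε (n + 1))).card := this
      _ ≤ D * ((⌊1 / ε⌋₊ + 1) * D ^ n) := Nat.mul_le_mul_left _ ih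
      _ = (⌊1 / ε⌋₊ + 1) * D ^ (n + 1) := by ring

lemma card_sep_le {φ : I → I} {α K ε : ℝ} (hα : 0 < α) (hε : 0 < ε)
    (hφ : ∀ x y : I, |(φ x : ℝ) - (φ y : ℝ)| ≤ K * |(x : ℝ) - (y : ℝ)| ^ α) (hK : 0 < K)
    (A : Finset I) (n : ℕ) (hA : IsSep φ (n + 1) ε A) :
    A.card ≤ (⌊1 / ε⌋₊ + 1) * (⌊K * ε ^ (α - 1)⌋₊ + 2) ^ n := by
  classical
  have hinj : Set.InjOn (itin φ ε (n + 1)) (A : Set I) := by
    intro x hx y hy hxy
    by_contra hne
    obtain ⟨j, hj, hlt⟩ := hA x hx y hy hne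
    have h1 : cell ε (φ^[j] x) = cell ε (φ^[j] y) := congrFun hxy ⟨j, hj⟩
    have h2 := abs_lt_of_cell_eq hε h1
    linarith
  rw [← Finset.card_image_of_injOn hinj]
  exact card_image_itin hα hε hφ hK A n

lemma sepCard_le {φ : I → I} {α K ε : ℝ} (hα : 0 < α) (hε : 0 < ε)
    (hφ : ∀ x y : I, |(φ x : ℝ) - (φ y : ℝ)| ≤ K * |(x : ℝ) - (y : ℝ)| ^ α) (hK : 0 < K)
    (n : ℕ) :
    sepCard φ (n + 1) ε ≤ (⌊1 / ε⌋₊ + 1) * (⌊K * ε ^ (α - 1)⌋₊ + 2) ^ n := by
  apply csSup_le'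
  rintro k ⟨A, hA, rfl⟩
  exact card_sep_le hα hε hφ hK A n hA

lemma one_le_sepCard {φ : I → I} {α K ε : ℝ} (hα : 0 < α) (hε : 0 < ε)
    (hφ : ∀ x y : I, |(φ x : ℝ) - (φ y : ℝ)| ≤ K * |(x : ℝ) - (y : ℝ)| ^ α) (hK : 0 < K)
    (n : ℕ) : 1 ≤ sepCard φ (n + 1) ε := by
  apply le_csSup
  · refine ⟨(⌊1 / ε⌋₊ + 1) * (⌊K * ε ^ (α - 1)⌋₊ + 2) ^ n, ?_⟩
    rintro k ⟨A, hA, rfl⟩
    exact card_sep_le hα hε hφ hK A n hA
  · refine ⟨{⟨0, by simp⟩}, ?_, by simp⟩
    intro x hx y hy hxy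
    rw [Finset.mem_singleton] at hx hy
    exact absurd (hx.trans hy.symm) hxy

lemma sepRate_le {φ : I → I} {α K ε : ℝ} (hα : 0 < α) (hε : 0 < ε) (hε1 : ε < 1) (hα1 : α ≤ 1)
    (hφ : ∀ x y : I, |(φ x : ℝ) - (φ y : ℝ)| ≤ K * |(x : ℝ) - (y : ℝ)| ^ α) (hK : 0 < K) :
    sepRate φ ε ≤ ((Real.log (K + 2) + (1 - α) * |Real.log ε| : ℝ) : EReal) := by
  set N : ℝ := ((⌊1 / ε⌋₊ + 1 : ℕ) : ℝ) with hN
  set D : ℝ := ((⌊K * ε ^ (α - 1)⌋₊ + 2 : ℕ) : ℝ) with hD
  have hN1 : 1 ≤ N := by rw [hN]; push_cast; linarith [Nat.cast_nonneg (α := ℝ) ⌊1 / ε⌋₊]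
  have hD1 : 1 ≤ D := by
    rw [hD]; push_cast
    linarith [Nat.cast_nonneg (α := ℝ) ⌊K * ε ^ (α - 1)⌋₊]
  have hlogN : 0 ≤ Real.log N := Real.log_nonneg hN1
  have hlogD : 0 ≤ Real.log D := Real.log_nonneg hD1
  have hbound : ∀ n : ℕ, 1 ≤ n → Real.log (sepCard φ n ε) / n ≤ Real.log N / n + Real.log D := by
    intro n hn
    obtain ⟨m, rfl⟩ : ∃ m, n = m + 1 := ⟨n - 1, by omega⟩
    have h1 := sepCard_le hα hε hφ hK m
    have h0 := one_le_sepCard hα hε hφ hK m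
    have h2 : ((sepCard φ (m + 1) ε : ℕ) : ℝ) ≤ N * D ^ m := by
      rw [hN, hD]; exact_mod_cast h1
    have h3 : Real.log (sepCard φ (m + 1) ε) ≤ Real.log N + m * Real.log D := by
      rw [← Real.log_pow, ← Real.log_mul (by positivity) (by positivity)]
      apply Real.log_le_log _ h2
      exact_mod_cast h0
    have hmpos : (0 : ℝ) < ((m + 1 : ℕ) : ℝ) := by positivity
    rw [div_add' _ _ _ hmpos.ne', div_le_div_iff_of_pos_right hmpos]
    have h4 : (m : ℝ) * Real.log D ≤ Real.log D * ((m + 1 : ℕ) : ℝ) := by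
      push_cast; nlinarith
    linarith
  have hlim : Tendsto (fun n : ℕ => ((Real.log N / n + Real.log D : ℝ) : EReal)) atTop
      (𝓝 ((0 + Real.log D : ℝ) : EReal)) := by
    apply (continuous_coe_real_ereal.tendsto _).comp
    exact (tendsto_const_div_atTop_nhds_zero_nat _).add tendsto_const_nhds
  have h1 : sepRate φ ε ≤ ((0 + Real.log D : ℝ) : EReal) := by
    rw [← hlim.limsup_eq]
    refine limsup_le_limsup ?_
    · filter_upwards [eventually_ge_atTop 1] with n hn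
      exact_mod_cast hbound n hn
  refine h1.trans ?_
  rw [zero_add]
  have hlogε : Real.log ε < 0 := Real.log_neg hε hε1
  have habs : |Real.log ε| = - Real.log ε := abs_of_neg hlogε
  have hpow1 : 1 ≤ ε ^ (α - 1) := by
    apply Real.one_le_rpow_of_pos_of_le_one_of_nonpos hε hε1.le
    linarith
  have hDle : D ≤ (K + 2) * ε ^ (α - 1) := by
    rw [hD]; push_cast
    have := Nat.floor_le (a := K * ε ^ (α - 1)) (by positivity)
    nlinarith
  have : Real.log D ≤ Real.log (K + 2) + (1 - α) * |Real.log ε| := by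
    calc Real.log D ≤ Real.log ((K + 2) * ε ^ (α - 1)) :=
          Real.log_le_log (by linarith) hDle
      _ = Real.log (K + 2) + (α - 1) * Real.log ε := by
          rw [Real.log_mul (by positivity) (by positivity), Real.log_rpow hε]
      _ = Real.log (K + 2) + (1 - α) * |Real.log ε| := by rw [habs]; ring
  exact_mod_cast this

lemma tendsto_abs_log : Tendsto (fun ε : ℝ => |Real.log ε|) (𝓝[>] (0 : ℝ)) atTop :=
  tendsto_abs_atBot_atTop.comp Real.tendsto_log_nhdsGT_zero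

/-- The upper metric mean dimension of an `α`-Hölder interval map is at most `1 - α`. -/
theorem upperMmdim_le {φ : I → I} {α : ℝ} (hα : 0 < α) (hα1 : α ≤ 1) (hφ : IsHolder α φ) :
    upperMmdim φ ≤ ((1 - α : ℝ) : EReal) := by
  obtain ⟨K, hK, hφ⟩ := hφ
  have hlim : Tendsto (fun ε : ℝ => ((Real.log (K + 2) / |Real.log ε| + (1 - α) : ℝ) : EReal))
      (𝓝[>] (0 : ℝ)) (𝓝 ((0 + (1 - α) : ℝ) : EReal)) := by
    apply (continuous_coe_real_ereal.tendsto _).comp
    exact (tendsto_abs_log.const_div_atTop _).add tendsto_const_nhds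
  have h1 : upperMmdim φ ≤ ((0 + (1 - α) : ℝ) : EReal) := by
    rw [← hlim.limsup_eq]
    refine limsup_le_limsup ?_
    have hmem : Set.Ioo (0 : ℝ) 1 ∈ 𝓝[>] (0 : ℝ) := Ioo_mem_nhdsGT one_pos
    filter_upwards [hmem] with ε hε
    have hlogε : Real.log ε < 0 := Real.log_neg hε.1 hε.2
    have habs : 0 < |Real.log ε| := abs_pos.mpr hlogε.ne
    have h2 := sepRate_le hα hε.1 hε.2 hα1 hφ hK
    have h3 : sepRate φ ε / ((|Real.log ε| : ℝ) : EReal) ≤
        ((Real.log (K + 2) + (1 - α) * |Real.log ε| : ℝ) : EReal) /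
          ((|Real.log ε| : ℝ) : EReal) :=
      EReal.div_le_div_right_of_nonneg (by exact_mod_cast habs.le) h2
    refine h3.trans (le_of_eq ?_)
    rw [← EReal.coe_div]
    congr 1
    field_simp
  simpa using h1

lemma sepRate_nonneg (φ : I → I) (ε : ℝ) : 0 ≤ sepRate φ ε := by
  unfold sepRate
  have : (0 : EReal) = limsup (fun _ : ℕ => (0 : EReal)) atTop := by simp
  rw [this]
  refine limsup_le_limsup ?_
  filter_upwards with n
  have : (0 : ℝ) ≤ Real.log (sepCard φ n ε) / n :=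
    div_nonneg (Real.log_natCast_nonneg _) (Nat.cast_nonneg _)
  exact_mod_cast this

lemma upperMmdim_nonneg (φ : I → I) : 0 ≤ upperMmdim φ := by
  unfold upperMmdim
  have : (0 : EReal) = limsup (fun _ : ℝ => (0 : EReal)) (𝓝[>] (0 : ℝ)) := by simp
  rw [this]
  refine limsup_le_limsup ?_
  filter_upwards with ε
  apply EReal.div_nonneg (sepRate_nonneg φ ε)
  exact_mod_cast abs_nonneg _

end Pool.Agent.V11108.HolderMmdim
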