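import Mathlib

/-!
# Exponential dichotomies along a sequence and a perturbation lemma
-/

set_option autoImplicit false

open Filter Topology Set

namespace Pool.Agent.V11108.Hyp1

variable {E : Type*} [NormedAddCommGroup E] [NormedSpace ℝ E]

/-- forward products -/
noncomputable def fw (A : ℤ → E →L[ℝ] E) (t : ℤ) : ℕ → E →L[ℝ] E
  | 0 => ContinuousLinearMap.id ℝ E
  | n + 1 => (A (t + n)).comp (fw A t n)

/-- backward products -/
noncomputable def bw (B : ℤ → E →L[ℝ] E) (t : ℤ) : ℕ → E →L[ℝ] E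
  | 0 => ContinuousLinearMap.id ℝ E
  | n + 1 => (B (t - (n + 1))).comp (bw B t n)

/-- exponential dichotomy -/
structure Dich (A B : ℤ → E →L[ℝ] E) (P : ℤ → E → E) (C l L : ℝ) : Prop where
  AB : ∀ t v, A t (B t v) = v
  BA : ∀ t v, B t (A t v) = v
  add : ∀ t v w, P t (v + w) = P t v + P t w
  comm : ∀ t v, P (t + 1) (A t v) = A t (P t v)
  st : ∀ t n v, ‖fw A t n (P t v)‖ ≤ C * l ^ n * ‖P t v‖
  un : ∀ t n v, ‖bw B t n (v - P t v)‖ ≤ C * l ^ n * ‖v - P t v‖
  bd : ∀ t v, ‖A t v‖ ≤ L * ‖v‖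

theorem fw_norm {A : ℤ → E →L[ℝ] E} {L : ℝ} (hL : 0 ≤ L) (bd : ∀ t v, ‖A t v‖ ≤ L * ‖v‖)
    (t : ℤ) (n : ℕ) (v : E) : ‖fw A t n v‖ ≤ L ^ n * ‖v‖ := by
  induction n with
  | zero => simp [fw]
  | succ n ih =>
    calc ‖fw A t (n + 1) v‖ = ‖A (t + n) (fw A t n v)‖ := rfl
      _ ≤ L * ‖fw A t n v‖ := bd _ _
      _ ≤ L * (L ^ n * ‖v‖) := mul_le_mul_of_nonneg_left ih hL
      _ = L ^ (n + 1) * ‖v‖ := by ring

theorem P_fw {A B : ℤ → E →L[ℝ] E} {P : ℤ → E → E} {C l L : ℝ} (h : Dich A B P C l L)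
    (t : ℤ) (n : ℕ) (v : E) : P (t + n) (fw A t n v) = fw A t n (P t v) := by
  induction n with
  | zero => simp [fw]
  | succ n ih =>
    show P (t + (n + 1 : ℕ)) (A (t + n) (fw A t n v)) = A (t + n) (fw A t n (P t v))
    rw [← ih, ← h.comm]
    congr 1
    push_cast
    ring

theorem bw_succ' (B : ℤ → E →L[ℝ] E) (t : ℤ) (n : ℕ) (v : E) :
    bw B t (n + 1) v = bw B (t - 1) n (B (t - 1) v) := by
  induction n with
  | zero =>
    show B (t - ((0 : ℕ) + 1)) v = B (t - 1) v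
    simp
  | succ n ih =>
    show B (t - ((n + 1 : ℕ) + 1)) (bw B t (n + 1) v) = B (t - 1 - (n + 1)) (bw B (t - 1) n (B (t - 1) v))
    rw [ih]
    congr 2
    push_cast
    ring

theorem bw_fw {A B : ℤ → E →L[ℝ] E} (BA : ∀ t v, B t (A t v) = v)
    (t : ℤ) (n : ℕ) (v : E) : bw B (t + n) n (fw A t n v) = v := by
  induction n with
  | zero => simp [fw, bw]
  | succ n ih =>
    rw [bw_succ']
    have e : (t + (n + 1 : ℕ) - 1 : ℤ) = t + n := by push_cast; ring
    rw [e]
    show bw B (t + n) n (B (t + n) (A (t + n) (fw A t n v))) = v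
    rw [BA, ih]

/-- the projections are uniformly bounded -/
theorem P_bound {C l L : ℝ} (hC : 1 ≤ C) (hl0 : 0 < l) (hl1 : l < 1) (hL : 0 ≤ L) :
    ∃ K : ℝ, 0 < K ∧ ∀ (A B : ℤ → E →L[ℝ] E) (P : ℤ → E → E), Dich A B P C l L →
      ∀ t v, ‖P t v‖ ≤ K * ‖v‖ := by
  obtain ⟨n, hn⟩ := exists_pow_lt_of_lt_one (show (0 : ℝ) < 1 / (2 * C ^ 2) by positivity) hl1
  set a : ℝ := C * l ^ n with ha
  have ha0 : 0 < a := by positivity
  have haa : a * a ≤ 1 / 2 := by
    have h1 : l ^ n ≤ 1 := pow_le_one₀ hl0.le hl1.le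
    have h2 : a * a = C ^ 2 * l ^ n * l ^ n := by rw [ha]; ring
    rw [h2]
    have h3 : C ^ 2 * l ^ n ≤ 1 / 2 := by
      have := mul_le_mul_of_nonneg_left hn.le (show (0 : ℝ) ≤ C ^ 2 by positivity)
      calc C ^ 2 * l ^ n ≤ C ^ 2 * (1 / (2 * C ^ 2)) := this
        _ = 1 / 2 := by field_simp
    calc C ^ 2 * l ^ n * l ^ n ≤ C ^ 2 * l ^ n * 1 :=
          mul_le_mul_of_nonneg_left h1 (by positivity)
      _ ≤ 1 / 2 := by linarith
  refine ⟨2 * (a * L ^ n + 1), by positivity, fun A B P h t v => ?_⟩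
  set s := P t v with hs
  have e1 : ‖v - s‖ ≤ a * ‖fw A t n (v - s)‖ := by
    have h1 := h.un (t + n) n (fw A t n v)
    rw [P_fw h, ← map_sub, bw_fw h.BA] at h1
    exact h1
  have e2 : ‖fw A t n (v - s)‖ ≤ L ^ n * ‖v‖ + a * ‖s‖ := by
    rw [map_sub]
    calc ‖fw A t n v - fw A t n s‖ ≤ ‖fw A t n v‖ + ‖fw A t n s‖ := norm_sub_le _ _
      _ ≤ L ^ n * ‖v‖ + a * ‖s‖ := by
          gcongr
          · exact fw_norm hL h.bd _ _ _
          · exact h.st t n v
  have e3 : ‖s‖ ≤ ‖v‖ + ‖v - s‖ := by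
    calc ‖s‖ = ‖v - (v - s)‖ := by congr 1; abel
      _ ≤ ‖v‖ + ‖v - s‖ := norm_sub_le _ _
  have e4 : a * ‖fw A t n (v - s)‖ ≤ a * (L ^ n * ‖v‖ + a * ‖s‖) :=
    mul_le_mul_of_nonneg_left e2 ha0.le
  have e5 : a * (a * ‖s‖) ≤ 1 / 2 * ‖s‖ := by
    rw [← mul_assoc]
    exact mul_le_mul_of_nonneg_right haa (norm_nonneg _)
  nlinarith [norm_nonneg s, norm_nonneg v]

/-- The solution operator of `z (t+1) = A t (z t) + w t`. -/
noncomputable def sol (A B : ℤ → E →L[ℝ] E) (P : ℤ → E → E) (w : ℤ → E) (t : ℤ) : E :=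
  (∑' k : ℕ, fw A (t - k) k (P (t - k) (w (t - k - 1)))) -
    ∑' k : ℕ, bw B (t + k + 1) (k + 1) (w (t + k) - P (t + k + 1) (w (t + k)))

section
variable [CompleteSpace E]

theorem solver {C l L : ℝ} (hC : 1 ≤ C) (hl0 : 0 < l) (hl1 : l < 1) (hL : 0 ≤ L) :
    ∃ K : ℝ, 0 < K ∧ ∀ (A B : ℤ → E →L[ℝ] E) (P : ℤ → E → E), Dich A B P C l L →
      (∀ (w : ℤ → E) (b : ℝ), (∀ t, ‖w t‖ ≤ b) →
        (∀ t, ‖sol A B P w t‖ ≤ K * b) ∧ ∀ t, sol A B P w (t + 1) = A t (sol A B P w t) + w t) ∧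
      (∀ (z : ℤ → E) (D : ℝ), (∀ t, ‖z t‖ ≤ D) → (∀ t, z (t + 1) = A t (z t)) → ∀ t, z t = 0) := by
  obtain ⟨K, hK, hP⟩ := P_bound (E := E) hC hl0 hl1 hL
  have hl' : 0 < 1 - l := by linarith
  refine ⟨C * (2 * K + 1) * (1 - l)⁻¹, by positivity, fun A B P h => ⟨fun w b hw => ?_, ?_⟩⟩
  · have hb : 0 ≤ b := (norm_nonneg _).trans (hw 0)
    have hPb := hP A B P h
    -- bounds on the terms
    have t1 : ∀ (t : ℤ) (k : ℕ), ‖fw A (t - k) k (P (t - k) (w (t - k - 1)))‖ ≤
        (C * K * b) * l ^ k := by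
      intro t k
      calc _ ≤ C * l ^ k * ‖P (t - k) (w (t - k - 1))‖ := h.st _ _ _
        _ ≤ C * l ^ k * (K * b) := by
            gcongr
            exact (hPb _ _).trans (mul_le_mul_of_nonneg_left (hw _) hK.le)
        _ = _ := by ring
    have t2 : ∀ (t : ℤ) (k : ℕ), ‖bw B (t + k + 1) (k + 1)
        (w (t + k) - P (t + k + 1) (w (t + k)))‖ ≤ (C * (K + 1) * b) * l ^ k := by
      intro t k
      calc _ ≤ C * l ^ (k + 1) * ‖w (t + k) - P (t + k + 1) (w (t + k))‖ := h.un _ _ _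
        _ ≤ C * l ^ k * ((K + 1) * b) := by
            gcongr ?_ * ?_
            · gcongr ?_ * ?_
              exact pow_le_pow_of_le_one hl0.le hl1.le (Nat.le_succ k)
            · calc ‖w (t + k) - P (t + k + 1) (w (t + k))‖
                  ≤ ‖w (t + k)‖ + ‖P (t + k + 1) (w (t + k))‖ := norm_sub_le _ _
                _ ≤ b + K * b := add_le_add (hw _)
                    ((hPb _ _).trans (mul_le_mul_of_nonneg_left (hw _) hK.le))
                _ = (K + 1) * b := by ring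
        _ = _ := by ring
    have g1 : ∀ c : ℝ, HasSum (fun k : ℕ => c * l ^ k) (c * (1 - l)⁻¹) := fun c =>
      (hasSum_geometric_of_lt_one hl0.le hl1).mul_left c
    have s1 : ∀ t : ℤ, Summable (fun k : ℕ => fw A (t - k) k (P (t - k) (w (t - k - 1)))) :=
      fun t => Summable.of_norm_bounded (g1 _).summable (t1 t)
    have s2 : ∀ t : ℤ, Summable (fun k : ℕ => bw B (t + k + 1) (k + 1)
        (w (t + k) - P (t + k + 1) (w (t + k)))) :=
      fun t => Summable.of_norm_bounded (g1 _).summable (t2 t)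
    constructor
    · intro t
      unfold sol
      calc _ ≤ ‖∑' k : ℕ, fw A (t - k) k (P (t - k) (w (t - k - 1)))‖ +
            ‖∑' k : ℕ, bw B (t + k + 1) (k + 1) (w (t + k) - P (t + k + 1) (w (t + k)))‖ :=
            norm_sub_le _ _
        _ ≤ (C * K * b) * (1 - l)⁻¹ + (C * (K + 1) * b) * (1 - l)⁻¹ :=
            add_le_add (tsum_of_norm_bounded (g1 _) (t1 t)) (tsum_of_norm_bounded (g1 _) (t2 t))
        _ = _ := by ring
    · intro t
      have a1 : (∑' k : ℕ, fw A (t + 1 - k) k (P (t + 1 - k) (w (t + 1 - k - 1)))) =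
          P (t + 1) (w t) + A t (∑' k : ℕ, fw A (t - k) k (P (t - k) (w (t - k - 1)))) := by
        rw [(s1 (t + 1)).tsum_eq_zero_add, (A t).map_tsum (s1 t)]
        congr 1
        · simp [fw]
        · apply tsum_congr
          intro k
          have e : (t + 1 - ((k + 1 : ℕ) : ℤ)) = t - k := by push_cast; ring
          rw [e]
          show A (t - k + k) _ = _
          rw [sub_add_cancel]
          rfl
      have a2 : A t (∑' k : ℕ, bw B (t + k + 1) (k + 1) (w (t + k) - P (t + k + 1) (w (t + k)))) =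
          (w t - P (t + 1) (w t)) + ∑' k : ℕ, bw B (t + 1 + k + 1) (k + 1)
            (w (t + 1 + k) - P (t + 1 + k + 1) (w (t + 1 + k))) := by
        have s2' : Summable (fun k : ℕ => A t (bw B (t + k + 1) (k + 1)
            (w (t + k) - P (t + k + 1) (w (t + k))))) := (s2 t).map (A t) (A t).continuous
        rw [(A t).map_tsum (s2 t), s2'.tsum_eq_zero_add]
        congr 1
        · show A t (bw B (t + (0 : ℕ) + 1) (0 + 1) _) = _
          rw [bw_succ']
          simp [bw, h.AB]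
        · apply tsum_congr
          intro k
          show A t (B (t + (k + 1 : ℕ) + 1 - ((k + 1 : ℕ) + 1)) (bw B (t + (k + 1 : ℕ) + 1) (k + 1) _)) = _
          have e : (t + ((k + 1 : ℕ) : ℤ) + 1 - (((k + 1 : ℕ) : ℤ) + 1)) = t := by push_cast; ring
          rw [e, h.AB]
          have e' : (t + ((k + 1 : ℕ) : ℤ)) = t + 1 + k := by push_cast; ring
          rw [e']
      unfold sol
      rw [a1, map_sub, a2]
      abel
  · intro z D hz hrec
    have hPb := hP A B P h
    have hD : 0 ≤ D := (norm_nonneg _).trans (hz 0)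
    have f1 : ∀ (n : ℕ) (t : ℤ), z (t + n) = fw A t n (z t) := by
      intro n
      induction n with
      | zero => intro t; simp [fw]
      | succ n ih =>
        intro t
        show z (t + (n + 1 : ℕ)) = A (t + n) (fw A t n (z t))
        rw [← ih t, ← hrec]
        congr 1
        push_cast
        ring
    intro t
    have g0 : ∀ c : ℝ, Tendsto (fun n : ℕ => c * l ^ n) atTop (𝓝 0) := by
      intro c
      simpa using (tendsto_pow_atTop_nhds_zero_of_lt_one hl0.le hl1).const_mul c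
    have p1 : ‖P t (z t)‖ ≤ 0 := by
      refine ge_of_tendsto' (g0 (C * (K * D))) fun n => ?_
      have e : t - n + n = t := by ring
      have e2 : P t (z t) = fw A (t - n) n (P (t - n) (z (t - n))) := by
        rw [← P_fw h, ← f1 n (t - n), e]
      rw [e2]
      calc _ ≤ C * l ^ n * ‖P (t - n) (z (t - n))‖ := h.st _ _ _
        _ ≤ C * l ^ n * (K * D) := by
            gcongr
            exact (hPb _ _).trans (mul_le_mul_of_nonneg_left (hz _) hK.le)
        _ = _ := by ring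
    have p2 : ‖z t - P t (z t)‖ ≤ 0 := by
      refine ge_of_tendsto' (g0 (C * ((K + 1) * D))) fun n => ?_
      have e2 : z t - P t (z t) = bw B (t + n) n (z (t + n) - P (t + n) (z (t + n))) := by
        rw [f1 n t, P_fw h, ← map_sub, bw_fw h.BA]
      rw [e2]
      calc _ ≤ C * l ^ n * ‖z (t + n) - P (t + n) (z (t + n))‖ := h.un _ _ _
        _ ≤ C * l ^ n * ((K + 1) * D) := by
            gcongr
            calc ‖z (t + n) - P (t + n) (z (t + n))‖
                  ≤ ‖z (t + n)‖ + ‖P (t + n) (z (t + n))‖ := norm_sub_le _ _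
                _ ≤ D + K * D := add_le_add (hz _)
                    ((hPb _ _).trans (mul_le_mul_of_nonneg_left (hz _) hK.le))
                _ = (K + 1) * D := by ring
        _ = _ := by ring
    have q1 := norm_le_zero_iff.1 p1
    have q2 := norm_le_zero_iff.1 p2
    rw [q1, sub_zero] at q2
    exact q2

/-- a priori bound -/
theorem apriori {C l L : ℝ} (hC : 1 ≤ C) (hl0 : 0 < l) (hl1 : l < 1) (hL : 0 ≤ L) :
    ∃ K : ℝ, 0 < K ∧ ∀ (A B : ℤ → E →L[ℝ] E) (P : ℤ → E → E), Dich A B P C l L →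
      (∀ (w : ℤ → E) (b : ℝ), (∀ t, ‖w t‖ ≤ b) → ∃ z : ℤ → E, (∀ t, ‖z t‖ ≤ K * b) ∧
        ∀ t, z (t + 1) = A t (z t) + w t) ∧
      (∀ (z w : ℤ → E) (D b : ℝ), (∀ t, ‖z t‖ ≤ D) → (∀ t, ‖w t‖ ≤ b) →
        (∀ t, z (t + 1) = A t (z t) + w t) → ∀ t, ‖z t‖ ≤ K * b) := by
  obtain ⟨K, hK, hsol⟩ := solver (E := E) hC hl0 hl1 hL
  refine ⟨K, hK, fun A B P h => ⟨fun w b hw => ⟨_, ((hsol A B P h).1 w b hw).1,
    ((hsol A B P h).1 w b hw).2⟩, fun z w D b hz hw hrec t => ?_⟩⟩
  obtain ⟨h1, h2⟩ := (hsol A B P h).1 w b hw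
  have h3 := (hsol A B P h).2 (fun t => z t - sol A B P w t) (D + K * b)
    (fun t => (norm_sub_le _ _).trans (add_le_add (hz t) (h1 t)))
    (fun t => by
      show z (t + 1) - sol A B P w (t + 1) = A t (z t - sol A B P w t)
      rw [hrec, h2, map_sub]; abel) t
  have h4 : z t = sol A B P w t := sub_eq_zero.1 h3
  rw [h4]
  exact h1 t

/-- The perturbation lemma. -/
theorem perturb {C l L : ℝ} (hC : 1 ≤ C) (hl0 : 0 < l) (hl1 : l < 1) (hL : 0 ≤ L) :
    ∃ e : ℝ, 0 < e ∧ ∀ (A B : ℤ → E →L[ℝ] E) (P : ℤ → E → E), Dich A B P C l L →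
      ∀ (r : ℝ) (N : ℤ → E → E), 0 < r →
        (∀ t v w, ‖v‖ ≤ r → ‖w‖ ≤ r → ‖N t v - N t w‖ ≤ e * ‖v - w‖) →
        ((∀ t, ‖N t 0‖ ≤ e * r) → ∃ w : ℤ → E, (∀ t, ‖w t‖ ≤ r) ∧
          ∀ t, w (t + 1) = A t (w t) + N t (w t)) ∧
        ((∀ t, N t 0 = 0) → ∀ w : ℤ → E, (∀ t, ‖w t‖ ≤ r) →
          (∀ t, w (t + 1) = A t (w t) + N t (w t)) → ∀ t, w t = 0) := by
  obtain ⟨K, hK, hap⟩ := apriori (E := E) hC hl0 hl1 hL
  refine ⟨1 / (2 * K), by positivity, fun A B P h r N hr hN => ⟨fun hN0 => ?_, fun hN0 w hw hrec => ?_⟩⟩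
  · obtain ⟨hex, hbd⟩ := hap A B P h
    -- Picard iteration
    have step : ∀ w : {w : ℤ → E // ∀ t, ‖w t‖ ≤ r}, ∃ z : {w : ℤ → E // ∀ t, ‖w t‖ ≤ r},
        ∀ t, z.1 (t + 1) = A t (z.1 t) + N t (w.1 t) := by
      rintro ⟨w, hw⟩
      have hNb : ∀ t, ‖N t (w t)‖ ≤ 1 / (2 * K) * r + 1 / (2 * K) * r := by
        intro t
        calc ‖N t (w t)‖ = ‖(N t (w t) - N t 0) + N t 0‖ := by congr 1; abel
          _ ≤ ‖N t (w t) - N t 0‖ + ‖N t 0‖ := norm_add_le _ _
          _ ≤ 1 / (2 * K) * ‖w t - 0‖ + 1 / (2 * K) * r :=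
              add_le_add (hN t _ _ (hw t) (by simpa using hr.le)) (hN0 t)
          _ ≤ _ := by
              rw [sub_zero]
              gcongr
              exact hw t
      obtain ⟨z, hz1, hz2⟩ := hex (fun t => N t (w t)) _ hNb
      refine ⟨⟨z, fun t => (hz1 t).trans (le_of_eq ?_)⟩, hz2⟩
      field_simp
      ring
    choose F hF using step
    let W : ℕ → {w : ℤ → E // ∀ t, ‖w t‖ ≤ r} := fun n => F^[n] ⟨fun _ => 0, fun t => by simpa using hr.le⟩
    have hW : ∀ n, W (n + 1) = F (W n) := fun n => Function.iterate_succ_apply' F n _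
    have hdiff : ∀ n t, ‖(W (n + 1)).1 t - (W n).1 t‖ ≤ (2 * r) * (1 / 2) ^ n := by
      intro n
      induction n with
      | zero =>
        intro t
        calc _ ≤ ‖(W 1).1 t‖ + ‖(W 0).1 t‖ := norm_sub_le _ _
          _ ≤ r + r := add_le_add ((W 1).2 t) ((W 0).2 t)
          _ = _ := by ring
      | succ n ih =>
        intro t
        have hr1 : ∀ t, ((W (n + 2)).1 (t + 1) - (W (n + 1)).1 (t + 1)) =
            A t ((W (n + 2)).1 t - (W (n + 1)).1 t) +
              (N t ((W (n + 1)).1 t) - N t ((W n).1 t)) := by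
          intro t
          rw [show W (n + 2) = F (W (n + 1)) from hW _, hF, map_sub]
          have := hF (W n) t
          rw [← hW] at this
          rw [this]
          abel
        have h3 := hbd (fun t => (W (n + 2)).1 t - (W (n + 1)).1 t)
          (fun t => N t ((W (n + 1)).1 t) - N t ((W n).1 t)) (r + r)
          (1 / (2 * K) * ((2 * r) * (1 / 2) ^ n))
          (fun t => (norm_sub_le _ _).trans (add_le_add ((W (n + 2)).2 t) ((W (n + 1)).2 t)))
          (fun t => (hN t _ _ ((W (n + 1)).2 t) ((W n).2 t)).trans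
            (mul_le_mul_of_nonneg_left (ih t) (by positivity))) hr1 t
        refine h3.trans (le_of_eq ?_)
        field_simp
        ring
    have hcau : ∀ t, CauchySeq (fun n => (W n).1 t) := fun t =>
      cauchySeq_of_le_geometric (1 / 2) (2 * r) (by norm_num) fun n => by
        rw [dist_comm, dist_eq_norm]
        exact hdiff n t
    choose w hw using fun t => cauchySeq_tendsto_of_complete (hcau t)
    have hwr : ∀ t, ‖w t‖ ≤ r := fun t =>
      le_of_tendsto (hw t).norm (Eventually.of_forall fun n => (W n).2 t)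
    refine ⟨w, hwr, fun t => ?_⟩
    have l1 : Tendsto (fun n => (W (n + 1)).1 (t + 1)) atTop (𝓝 (w (t + 1))) :=
      (hw (t + 1)).comp (tendsto_add_atTop_nat 1)
    have l2 : Tendsto (fun n => A t ((W (n + 1)).1 t) + N t ((W n).1 t)) atTop
        (𝓝 (A t (w t) + N t (w t))) := by
      refine Tendsto.add (((A t).continuous.tendsto _).comp ((hw t).comp (tendsto_add_atTop_nat 1))) ?_
      rw [tendsto_iff_norm_sub_tendsto_zero]
      have l3 : Tendsto (fun n => 1 / (2 * K) * ‖(W n).1 t - w t‖) atTop (𝓝 0) := by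
        simpa using (tendsto_iff_norm_sub_tendsto_zero.1 (hw t)).const_mul (1 / (2 * K))
      exact squeeze_zero (fun n => norm_nonneg _) (fun n => hN t _ _ ((W n).2 t) (hwr t)) l3
    refine tendsto_nhds_unique l1 (l2.congr fun n => ?_)
    rw [hW, hF]
  · have key : ∀ n : ℕ, ∀ t, ‖w t‖ ≤ r * (1 / 2) ^ n := by
      intro n
      induction n with
      | zero => intro t; simpa using hw t
      | succ n ih =>
        intro t
        have := (hap A B P h).2 w (fun t => N t (w t)) r (1 / (2 * K) * (r * (1 / 2) ^ n)) hw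
          (fun t => by
            have h1 := hN t (w t) 0 (hw t) (by simpa using hr.le)
            rw [hN0, sub_zero, sub_zero] at h1
            exact h1.trans (mul_le_mul_of_nonneg_left (ih t) (by positivity))) hrec t
        refine this.trans (le_of_eq ?_)
        field_simp
        ring
    intro t
    have : ‖w t‖ ≤ 0 := by
      refine ge_of_tendsto' (?_ : Tendsto (fun n : ℕ => r * (1 / 2 : ℝ) ^ n) atTop (𝓝 0)) fun n => key n t
      simpa using (tendsto_pow_atTop_nhds_zero_of_lt_one (by norm_num : (0:ℝ) ≤ 1/2) (by norm_num)).const_mul r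
    exact norm_le_zero_iff.1 this

end

end Pool.Agent.V11108.Hyp1
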