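import Mathlib

/-!
# Controlled hyperbolic sets: definitions and basic facts
-/

set_option autoImplicit false

open Filter Topology Set Bundle
open scoped Manifold ContDiff

set_option linter.unusedSectionVars false

noncomputable section

namespace Pool.Agent.V11108.Hyp2

/-- An invertible control system with control range `U` on the manifold `M` (modelled on `E`):
a family `f u` of `C^1` diffeomorphisms such that `f u x`, the inverse `(f u)⁻¹ x` and the derivative
`D (f u) x` depend continuously on `(u, x)`. -/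
structure ControlSystem (E : Type*) [NormedAddCommGroup E] [NormedSpace ℝ E]
    (M : Type*) [TopologicalSpace M] [ChartedSpace E M] [IsManifold 𝓘(ℝ, E) ∞ M]
    (U : Type*) [TopologicalSpace U] where
  /-- the right-hand side -/
  f : U → Diffeomorph 𝓘(ℝ, E) 𝓘(ℝ, E) M M 1
  cont : Continuous fun p : U × M => f p.1 p.2
  cont_symm : Continuous fun p : U × M => (f p.1).symm p.2
  cont_deriv : Continuous fun p : U × TangentBundle 𝓘(ℝ, E) M =>
    tangentMap 𝓘(ℝ, E) 𝓘(ℝ, E) (f p.1) p.2

variable {E : Type*} [NormedAddCommGroup E] [NormedSpace ℝ E]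
  {M : Type*} [TopologicalSpace M] [ChartedSpace E M] [IsManifold 𝓘(ℝ, E) ∞ M]
  {U : Type*} [TopologicalSpace U]

/-- `f (u (n-1)) ∘ ⋯ ∘ f (u 0)` -/
def fwd (S : ControlSystem E M U) (u : ℤ → U) : ℕ → M → M
  | 0 => id
  | n + 1 => S.f (u n) ∘ fwd S u n

/-- `(f (u (-n)))⁻¹ ∘ ⋯ ∘ (f (u (-1)))⁻¹` -/
def bwd (S : ControlSystem E M U) (u : ℤ → U) : ℕ → M → M
  | 0 => id
  | n + 1 => (S.f (u (-(n + 1)))).symm ∘ bwd S u n

/-- The time-`t` map `φ(t, ·, u)`. -/
def phi (S : ControlSystem E M U) (u : ℤ → U) : ℤ → M → M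
  | Int.ofNat n => fwd S u n
  | Int.negSucc n => bwd S u (n + 1)

/-- The shift `θ^t`. -/
def shift (t : ℤ) (u : ℤ → U) : ℤ → U := fun s => u (s + t)

/-- The skew product `Φ_t (u, x) = (θ^t u, φ(t, x, u))`. -/
def Phi (S : ControlSystem E M U) (t : ℤ) (p : (ℤ → U) × M) : (ℤ → U) × M :=
  (shift t p.1, phi S p.1 t p.2)

/-- The fiber `Q(u)`. -/
def fiber (S : ControlSystem E M U) (Q : Set M) (u : ℤ → U) : Set M :=
  {x | ∀ t, phi S u t x ∈ Q}

/-- The lift `L(Q)`. -/
def lift (S : ControlSystem E M U) (Q : Set M) : Set ((ℤ → U) × M) :=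
  {p | ∀ t, phi S p.1 t p.2 ∈ Q}

theorem phi_zero (S : ControlSystem E M U) (u : ℤ → U) (x : M) : phi S u 0 x = x := rfl

theorem phi_succ (S : ControlSystem E M U) (u : ℤ → U) (t : ℤ) (x : M) :
    phi S u (t + 1) x = S.f (u t) (phi S u t x) := by
  cases t with
  | ofNat n => rfl
  | negSucc n =>
    cases n with
    | zero =>
      show x = S.f (u (Int.negSucc 0)) ((S.f (u (-(((0 : ℕ) : ℤ) + 1)))).symm x)
      have e : (Int.negSucc 0) = (-(((0 : ℕ) : ℤ) + 1)) := by simp
      rw [e, Diffeomorph.apply_symm_apply]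
    | succ n =>
      have e1 : Int.negSucc (n + 1) + 1 = Int.negSucc n := by
        rw [Int.negSucc_eq, Int.negSucc_eq]; push_cast; ring
      rw [e1]
      show bwd S u (n + 1) x = S.f (u (Int.negSucc (n + 1)))
        ((S.f (u (-(((n + 1 : ℕ) : ℤ) + 1)))).symm (bwd S u (n + 1) x))
      have e : (Int.negSucc (n + 1)) = (-(((n + 1 : ℕ) : ℤ) + 1)) := by
        rw [Int.negSucc_eq]
      rw [e, Diffeomorph.apply_symm_apply]

theorem orbit_unique (S : ControlSystem E M U) (u : ℤ → U) (y : ℤ → M)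
    (hy : ∀ t, y (t + 1) = S.f (u t) (y t)) : ∀ t, y t = phi S u t (y 0) := by
  intro t
  induction t using Int.induction_on with
  | zero => rfl
  | succ n ih => rw [hy, ih, phi_succ]
  | pred n ih =>
    have h1 := hy (-(n : ℤ) - 1)
    have h2 := phi_succ S u (-(n : ℤ) - 1) (y 0)
    rw [sub_add_cancel] at h1 h2
    rw [h1, h2] at ih
    exact (S.f _).injective ih

theorem phi_shift (S : ControlSystem E M U) (u : ℤ → U) (x : M) (s t : ℤ) :
    phi S (shift t u) s (phi S u t x) = phi S u (s + t) x := by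
  have := orbit_unique S (shift t u) (fun s => phi S u (s + t) x) (fun r => by
    show phi S u (r + 1 + t) x = S.f (u (r + t)) (phi S u (r + t) x)
    rw [← phi_succ]
    congr 1
    ring) s
  simp only [zero_add] at this
  exact this.symm

theorem lift_shift (S : ControlSystem E M U) (Q : Set M) (p : (ℤ → U) × M) (hp : p ∈ lift S Q)
    (t : ℤ) : Phi S t p ∈ lift S Q := by
  intro s
  show phi S (shift t p.1) s (phi S p.1 t p.2) ∈ Q
  rw [phi_shift]
  exact hp _

theorem continuous_fwd (S : ControlSystem E M U) (n : ℕ) :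
    Continuous fun p : (ℤ → U) × M => fwd S p.1 n p.2 := by
  induction n with
  | zero => exact continuous_snd
  | succ n ih =>
    exact S.cont.comp ((show Continuous fun p : (ℤ → U) × M => (p.1 (n : ℤ), fwd S p.1 n p.2) from
      ((continuous_apply (n : ℤ)).comp continuous_fst).prodMk ih))

theorem continuous_bwd (S : ControlSystem E M U) (n : ℕ) :
    Continuous fun p : (ℤ → U) × M => bwd S p.1 n p.2 := by
  induction n with
  | zero => exact continuous_snd
  | succ n ih =>
    exact S.cont_symm.comp ((show Continuous fun p : (ℤ → U) × M =>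
      (p.1 (-((n : ℤ) + 1)), bwd S p.1 n p.2) from
      ((continuous_apply (-((n : ℤ) + 1))).comp continuous_fst).prodMk ih))

theorem continuous_phi (S : ControlSystem E M U) (t : ℤ) :
    Continuous fun p : (ℤ → U) × M => phi S p.1 t p.2 := by
  cases t with
  | ofNat n => exact continuous_fwd S n
  | negSucc n => exact continuous_bwd S (n + 1)

theorem isCompact_lift [CompactSpace U] [T2Space M] (S : ControlSystem E M U) {Q : Set M}
    (hQ : IsCompact Q) : IsCompact (lift S Q) := by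
  have h1 : IsClosed (lift S Q) := by
    have : lift S Q = ⋂ t : ℤ, (fun p : (ℤ → U) × M => phi S p.1 t p.2) ⁻¹' Q := by
      ext p; simp [lift]
    rw [this]
    exact isClosed_iInter fun t => hQ.isClosed.preimage (continuous_phi S t)
  refine (isCompact_univ.prod hQ).of_isClosed_subset h1 fun p hp => ⟨mem_univ _, ?_⟩
  exact hp 0

section deriv

theorem mdiff_fwd (S : ControlSystem E M U) (u : ℤ → U) (n : ℕ) :
    MDifferentiable 𝓘(ℝ, E) 𝓘(ℝ, E) (fwd S u n) := by
  induction n with
  | zero => exact mdifferentiable_id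
  | succ n ih => exact ((S.f (u n)).mdifferentiable one_ne_zero).comp ih

theorem mdiff_bwd (S : ControlSystem E M U) (u : ℤ → U) (n : ℕ) :
    MDifferentiable 𝓘(ℝ, E) 𝓘(ℝ, E) (bwd S u n) := by
  induction n with
  | zero => exact mdifferentiable_id
  | succ n ih => exact ((S.f (u (-(n + 1)))).symm.mdifferentiable one_ne_zero).comp ih

/-- derivative, as a map of the model space -/
def dE (g : M → M) (x : M) : E →L[ℝ] E :=
  (mfderiv 𝓘(ℝ, E) 𝓘(ℝ, E) g x : TangentSpace 𝓘(ℝ, E) x →L[ℝ] TangentSpace 𝓘(ℝ, E) (g x))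

theorem dE_id (x : M) : dE (E := E) (id : M → M) x = ContinuousLinearMap.id ℝ E := by
  unfold dE
  rw [mfderiv_id]
  rfl

theorem dE_comp {g h : M → M} (hg : MDifferentiable 𝓘(ℝ, E) 𝓘(ℝ, E) g)
    (hh : MDifferentiable 𝓘(ℝ, E) 𝓘(ℝ, E) h) (x : M) (v : E) :
    dE (g ∘ h) x v = dE g (h x) (dE h x v) := by
  unfold dE
  rw [mfderiv_comp x (hg _) (hh _)]
  rfl

theorem dE_fwd_succ (S : ControlSystem E M U) (u : ℤ → U) (n : ℕ) (x : M) (v : E) :
    dE (fwd S u (n + 1)) x v = dE (S.f (u n)) (fwd S u n x) (dE (fwd S u n) x v) :=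
  dE_comp ((S.f (u n)).mdifferentiable one_ne_zero) (mdiff_fwd S u n) x v

theorem dE_bwd_succ (S : ControlSystem E M U) (u : ℤ → U) (n : ℕ) (x : M) (v : E) :
    dE (bwd S u (n + 1)) x v =
      dE (S.f (u (-(n + 1)))).symm (bwd S u n x) (dE (bwd S u n) x v) :=
  dE_comp ((S.f (u (-(n + 1)))).symm.mdifferentiable one_ne_zero) (mdiff_bwd S u n) x v

theorem dE_symm (g : Diffeomorph 𝓘(ℝ, E) 𝓘(ℝ, E) M M 1) (x : M) (v : E) :
    dE g.symm (g x) (dE g x v) = v := by
  rw [← dE_comp (g.symm.mdifferentiable one_ne_zero) (g.mdifferentiable one_ne_zero)]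
  have : (g.symm : M → M) ∘ g = id := by
    funext y; simp
  rw [this, dE_id]
  rfl

theorem dE_symm' (g : Diffeomorph 𝓘(ℝ, E) 𝓘(ℝ, E) M M 1) (x : M) (v : E) :
    dE g x (dE g.symm (g x) v) = v := by
  have h := dE_symm g.symm (g x) v
  have e : (g.symm.symm : M → M) = g := by
    funext y; rfl
  rw [show g.symm (g x) = x by simp] at h
  exact h

end deriv

end Pool.Agent.V11108.Hyp2
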