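import Pool.Agent.V11108.Hyp1
import Pool.Agent.V11108.Hyp2

/-!
# Local coordinates
-/

set_option autoImplicit false

open Filter Topology Set Bundle
open scoped Manifold ContDiff

set_option linter.unusedSectionVars false

noncomputable section

namespace Pool.Agent.V11108.Hyp3

open Hyp2

variable {E : Type*} [NormedAddCommGroup E] [NormedSpace ℝ E] [FiniteDimensional ℝ E]
  {M : Type*} [TopologicalSpace M] [ChartedSpace E M] [IsManifold 𝓘(ℝ, E) ∞ M]
  {U : Type*} [TopologicalSpace U]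

/-- coordinates of tangent vectors at `x` in the chart at `q` -/
def cE (q x : M) : E →L[ℝ] E :=
  ((trivializationAt E (TangentSpace 𝓘(ℝ, E)) q).continuousLinearMapAt ℝ x :
    TangentSpace 𝓘(ℝ, E) x →L[ℝ] E)

/-- the inverse -/
def dinv (q x : M) : E →L[ℝ] E :=
  ((trivializationAt E (TangentSpace 𝓘(ℝ, E)) q).symmL ℝ x :
    E →L[ℝ] TangentSpace 𝓘(ℝ, E) x)

theorem cE_dinv {q x : M} (hx : x ∈ (chartAt E q).source) (v : E) : cE q x (dinv q x v) = v :=
  (trivializationAt E (TangentSpace 𝓘(ℝ, E)) q).continuousLinearMapAt_symmL (R := ℝ) hx v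

theorem dinv_cE {q x : M} (hx : x ∈ (chartAt E q).source) (v : E) : dinv q x (cE q x v) = v :=
  (trivializationAt E (TangentSpace 𝓘(ℝ, E)) q).symmL_continuousLinearMapAt (R := ℝ) hx v

/-- a map in local coordinates -/
def loc (q q' : M) (g : M → M) (z : E) : E :=
  extChartAt 𝓘(ℝ, E) q' (g ((extChartAt 𝓘(ℝ, E) q).symm z))

/-- its derivative -/
def dloc (q q' : M) (g : M → M) (z : E) : E →L[ℝ] E :=
  (cE q' (g ((extChartAt 𝓘(ℝ, E) q).symm z))).comp
    ((dE g ((extChartAt 𝓘(ℝ, E) q).symm z)).comp (dinv q ((extChartAt 𝓘(ℝ, E) q).symm z)))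

theorem hasFDerivAt_loc {q q' : M} {g : M → M} (hg : MDifferentiable 𝓘(ℝ, E) 𝓘(ℝ, E) g) {z : E}
    (hz : z ∈ (extChartAt 𝓘(ℝ, E) q).target)
    (hz' : g ((extChartAt 𝓘(ℝ, E) q).symm z) ∈ (chartAt E q').source) :
    HasFDerivAt (loc q q' g) (dloc q q' g z) z := by
  set x := (extChartAt 𝓘(ℝ, E) q).symm z with hx
  have hxs : x ∈ (chartAt E q).source := by
    rw [← extChartAt_source 𝓘(ℝ, E)]
    exact (extChartAt 𝓘(ℝ, E) q).map_target hz
  have hxz : extChartAt 𝓘(ℝ, E) q x = z := (extChartAt 𝓘(ℝ, E) q).right_inv hz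
  have h1 : MDifferentiableAt 𝓘(ℝ, E) 𝓘(ℝ, E) (extChartAt 𝓘(ℝ, E) q).symm z := by
    have := mdifferentiableWithinAt_extChartAt_symm (I := 𝓘(ℝ, E)) hz
    rwa [ModelWithCorners.range_eq_univ, mdifferentiableWithinAt_univ] at this
  have e1 : (mfderiv 𝓘(ℝ, E) 𝓘(ℝ, E) (extChartAt 𝓘(ℝ, E) q).symm z) = (dinv q x : E →L[ℝ] E) := by
    have := TangentBundle.symmL_trivializationAt (I := 𝓘(ℝ, E)) (𝕜 := ℝ) hxs
    rw [hxz, ModelWithCorners.range_eq_univ, mfderivWithin_univ] at this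
    exact this.symm
  have h3 : MDifferentiableAt 𝓘(ℝ, E) 𝓘(ℝ, E) (extChartAt 𝓘(ℝ, E) q') (g x) :=
    mdifferentiableAt_extChartAt hz'
  have e3 : (mfderiv 𝓘(ℝ, E) 𝓘(ℝ, E) (extChartAt 𝓘(ℝ, E) q') (g x)) = (cE q' (g x) : E →L[ℝ] E) :=
    (TangentBundle.continuousLinearMapAt_trivializationAt (I := 𝓘(ℝ, E)) (𝕜 := ℝ) hz').symm
  have h2 := hg x
  have key := (h3.hasMFDerivAt.comp x h2.hasMFDerivAt).comp z h1.hasMFDerivAt
  rw [hasMFDerivAt_iff_hasFDerivAt] at key
  have e4 : dloc q q' g z = ((mfderiv 𝓘(ℝ, E) 𝓘(ℝ, E) (extChartAt 𝓘(ℝ, E) q') (g x)).comp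
      (mfderiv 𝓘(ℝ, E) 𝓘(ℝ, E) g x)).comp
      (mfderiv 𝓘(ℝ, E) 𝓘(ℝ, E) (extChartAt 𝓘(ℝ, E) q).symm z) := by
    rw [e1, e3]
    rfl
  rw [e4]
  exact key


/-- the domain of the local coordinate representation -/
def dom (S : ControlSystem E M U) (q q' : M) : Set (U × E) :=
  {p | p.2 ∈ (extChartAt 𝓘(ℝ, E) q).target ∧
    S.f p.1 ((extChartAt 𝓘(ℝ, E) q).symm p.2) ∈ (chartAt E q').source}

theorem continuousOn_pt (S : ControlSystem E M U) (q : M) :
    ContinuousOn (fun p : U × E => S.f p.1 ((extChartAt 𝓘(ℝ, E) q).symm p.2))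
      {p | p.2 ∈ (extChartAt 𝓘(ℝ, E) q).target} := by
  refine S.cont.comp_continuousOn (f := fun p : U × E => (p.1, (extChartAt 𝓘(ℝ, E) q).symm p.2)) ?_
  exact continuousOn_fst.prodMk ((continuousOn_extChartAt_symm q).comp continuousOn_snd
    fun p hp => hp)

theorem isOpen_dom (S : ControlSystem E M U) (q q' : M) : IsOpen (dom S q q') := by
  have h1 : IsOpen {p : U × E | p.2 ∈ (extChartAt 𝓘(ℝ, E) q).target} :=
    (isOpen_extChartAt_target q).preimage continuous_snd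
  exact (continuousOn_pt S q).isOpen_inter_preimage h1 (chartAt E q').open_source

theorem continuousOn_loc (S : ControlSystem E M U) (q q' : M) :
    ContinuousOn (fun p : U × E => loc q q' (S.f p.1) p.2) (dom S q q') := by
  refine (continuousOn_extChartAt q').comp ((continuousOn_pt S q).mono fun p hp => hp.1) ?_
  intro p hp
  rw [extChartAt_source]
  exact hp.2

theorem continuousOn_dloc (S : ControlSystem E M U) (q q' : M) :
    ContinuousOn (fun p : U × E => dloc q q' (S.f p.1) p.2) (dom S q q') := by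
  rw [continuousOn_clm_apply]
  intro w
  have a1 : ContinuousOn (fun p : U × E => ((trivializationAt E (TangentSpace 𝓘(ℝ, E)) q).toOpenPartialHomeomorph.symm
      ((extChartAt 𝓘(ℝ, E) q).symm p.2, w))) (dom S q q') := by
    refine (trivializationAt E (TangentSpace 𝓘(ℝ, E)) q).continuousOn_invFun.comp
      (f := fun p : U × E => ((extChartAt 𝓘(ℝ, E) q).symm p.2, w)) ?_ ?_
    · exact ((continuousOn_extChartAt_symm q).comp continuousOn_snd
        fun p hp => hp.1).prodMk continuousOn_const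
    · intro p hp
      rw [(trivializationAt E (TangentSpace 𝓘(ℝ, E)) q).target_eq]
      refine ⟨?_, mem_univ _⟩
      have := (extChartAt 𝓘(ℝ, E) q).map_target hp.1
      rwa [extChartAt_source] at this
  have a2 : ContinuousOn (fun p : U × E => tangentMap 𝓘(ℝ, E) 𝓘(ℝ, E) (S.f p.1)
      ((trivializationAt E (TangentSpace 𝓘(ℝ, E)) q).toOpenPartialHomeomorph.symm
      ((extChartAt 𝓘(ℝ, E) q).symm p.2, w))) (dom S q q') :=
    S.cont_deriv.comp_continuousOn (continuousOn_fst.prodMk a1)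
  have hb : ∀ p ∈ dom S q q', (extChartAt 𝓘(ℝ, E) q).symm p.2 ∈
      (trivializationAt E (TangentSpace 𝓘(ℝ, E)) q).baseSet := by
    intro p hp
    have := (extChartAt 𝓘(ℝ, E) q).map_target hp.1
    rwa [extChartAt_source] at this
  have e1 : ∀ p ∈ dom S q q', tangentMap 𝓘(ℝ, E) 𝓘(ℝ, E) (S.f p.1)
      ((trivializationAt E (TangentSpace 𝓘(ℝ, E)) q).toOpenPartialHomeomorph.symm
      ((extChartAt 𝓘(ℝ, E) q).symm p.2, w)) =
      (⟨S.f p.1 ((extChartAt 𝓘(ℝ, E) q).symm p.2), (dE (E := E) (S.f p.1)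
        ((extChartAt 𝓘(ℝ, E) q).symm p.2)
        (dinv (E := E) q ((extChartAt 𝓘(ℝ, E) q).symm p.2) w) : E)⟩ : TangentBundle 𝓘(ℝ, E) M) := by
    intro p hp
    rw [← Trivialization.mk_symm _ (hb p hp)]
    have : (dinv q ((extChartAt 𝓘(ℝ, E) q).symm p.2) w : E) =
        (trivializationAt E (TangentSpace 𝓘(ℝ, E)) q).symm ((extChartAt 𝓘(ℝ, E) q).symm p.2) w :=
      Trivialization.symmL_apply (R := ℝ) _ (hb p hp) w
    rw [this]
    rfl
  have a3 : ContinuousOn (fun p : U × E => (trivializationAt E (TangentSpace 𝓘(ℝ, E)) q')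
      (tangentMap 𝓘(ℝ, E) 𝓘(ℝ, E) (S.f p.1)
      ((trivializationAt E (TangentSpace 𝓘(ℝ, E)) q).toOpenPartialHomeomorph.symm
      ((extChartAt 𝓘(ℝ, E) q).symm p.2, w)))) (dom S q q') := by
    refine (trivializationAt E (TangentSpace 𝓘(ℝ, E)) q').continuousOn.comp a2 ?_
    intro p hp
    beta_reduce
    rw [e1 p hp, Trivialization.mem_source]
    exact hp.2
  refine (continuous_snd.comp_continuousOn a3).congr fun p hp => ?_
  simp only [Function.comp]
  rw [e1 p hp]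
  exact Trivialization.continuousLinearMapAt_apply_of_mem (R := ℝ)
    (trivializationAt E (TangentSpace 𝓘(ℝ, E)) q') hp.2 _

end Pool.Agent.V11108.Hyp3
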