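import Pool.Agent.V11108.Hyp3

/-!
# Uniform local estimates
-/

set_option autoImplicit false

open Filter Topology Set Bundle
open scoped Manifold ContDiff

set_option linter.unusedSectionVars false

noncomputable section

namespace Pool.Agent.V11108.Hyp4

open Hyp2 Hyp3

variable {E : Type*} [NormedAddCommGroup E] [NormedSpace ℝ E] [FiniteDimensional ℝ E]
  {M : Type*} [TopologicalSpace M] [ChartedSpace E M] [IsManifold 𝓘(ℝ, E) ∞ M]
  {U : Type*} [MetricSpace U]

/-- a compact set of controls and coordinates -/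
def cpt (S : ControlSystem E M U) (q : M) (K K' : Set M) : Set (U × E) :=
  (fun p : U × M => (p.1, extChartAt 𝓘(ℝ, E) q p.2)) '' {p | p.2 ∈ K ∧ S.f p.1 p.2 ∈ K'}

theorem isCompact_cpt [CompactSpace U] [T2Space M] (S : ControlSystem E M U) (q : M)
    {K K' : Set M} (hK : IsCompact K) (hKs : K ⊆ (chartAt E q).source) (hK' : IsCompact K') :
    IsCompact (cpt S q K K') := by
  have h1 : IsCompact {p : U × M | p.2 ∈ K ∧ S.f p.1 p.2 ∈ K'} := by
    have := (isCompact_univ (X := U)).prod hK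
    refine (this.inter_right (hK'.isClosed.preimage S.cont)).of_isClosed_subset ?_ ?_
    · exact (hK.isClosed.preimage continuous_snd).inter (hK'.isClosed.preimage S.cont)
    · rintro p ⟨h1, h2⟩
      exact ⟨⟨mem_univ _, h1⟩, h2⟩
  refine h1.image_of_continuousOn ?_
  refine continuousOn_fst.prodMk ((continuousOn_extChartAt q).comp continuousOn_snd ?_)
  intro p hp
  rw [extChartAt_source]
  exact hKs hp.1

theorem cpt_sub_dom (S : ControlSystem E M U) (q q' : M)
    {K K' : Set M} (hKs : K ⊆ (chartAt E q).source) (hKs' : K' ⊆ (chartAt E q').source) :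
    cpt S q K K' ⊆ dom S q q' := by
  rintro _ ⟨p, ⟨h1, h2⟩, rfl⟩
  have hs : p.2 ∈ (extChartAt 𝓘(ℝ, E) q).source := by rw [extChartAt_source]; exact hKs h1
  refine ⟨(extChartAt 𝓘(ℝ, E) q).map_source hs, ?_⟩
  show S.f p.1 ((extChartAt 𝓘(ℝ, E) q).symm (extChartAt 𝓘(ℝ, E) q p.2)) ∈ _
  rw [(extChartAt 𝓘(ℝ, E) q).left_inv hs]
  exact hKs' h2

theorem dloc_bound [CompactSpace U] [T2Space M] (S : ControlSystem E M U) (q q' : M)
    {K K' : Set M} (hK : IsCompact K) (hKs : K ⊆ (chartAt E q).source) (hK' : IsCompact K')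
    (hKs' : K' ⊆ (chartAt E q').source) :
    ∃ L : ℝ, ∀ u : U, ∀ x ∈ K, S.f u x ∈ K' →
      ‖dloc (E := E) q q' (S.f u) (extChartAt 𝓘(ℝ, E) q x)‖ ≤ L := by
  obtain ⟨L, hL⟩ := (isCompact_cpt S q hK hKs hK').exists_bound_of_continuousOn
    ((continuousOn_dloc S q q').mono (cpt_sub_dom S q q' hKs hKs'))
  exact ⟨L, fun u x hx hx' => hL (u, extChartAt 𝓘(ℝ, E) q x) ⟨(u, x), ⟨hx, hx'⟩, rfl⟩⟩

theorem local_est [CompactSpace U] [T2Space M] (S : ControlSystem E M U) (q q' : M)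
    {K K' : Set M} (hK : IsCompact K) (hKs : K ⊆ (chartAt E q).source) (hK' : IsCompact K')
    (hKs' : K' ⊆ (chartAt E q').source) {η : ℝ} (hη : 0 < η) :
    ∃ r₀ > 0, ∀ r, 0 < r → r ≤ r₀ → ∃ δ > 0, ∀ u v : U, dist u v ≤ δ → ∀ x ∈ K, S.f u x ∈ K' →
      (∀ w : E, ‖w‖ ≤ r → (v, extChartAt 𝓘(ℝ, E) q x + w) ∈ dom S q q') ∧
      ‖loc q q' (S.f v) (extChartAt 𝓘(ℝ, E) q x) - loc q q' (S.f u) (extChartAt 𝓘(ℝ, E) q x)‖
        ≤ η * r ∧
      ∀ w w' : E, ‖w‖ ≤ r → ‖w'‖ ≤ r →
        ‖(loc q q' (S.f v) (extChartAt 𝓘(ℝ, E) q x + w) -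
            dloc q q' (S.f u) (extChartAt 𝓘(ℝ, E) q x) w) -
          (loc q q' (S.f v) (extChartAt 𝓘(ℝ, E) q x + w') -
            dloc q q' (S.f u) (extChartAt 𝓘(ℝ, E) q x) w')‖ ≤ η * ‖w - w'‖ := by
  have hC := isCompact_cpt S q hK hKs hK'
  have hCd := cpt_sub_dom S q q' hKs hKs'
  have hO := isOpen_dom S q q'
  obtain ⟨ρ₁, hρ₁, hsub⟩ := hC.exists_thickening_subset_open hO hCd
  have u1 := hC.uniformContinuousAt_of_continuousAt (fun p : U × E => dloc q q' (S.f p.1) p.2)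
    (fun a ha => (continuousOn_dloc S q q').continuousAt (hO.mem_nhds (hCd ha)))
    (Metric.dist_mem_uniformity hη)
  obtain ⟨ρ₂, hρ₂, hd⟩ := Metric.mem_uniformity_dist.1 u1
  refine ⟨min ρ₁ ρ₂ / 2, by positivity, fun r hr hrr => ?_⟩
  have u2 := hC.uniformContinuousAt_of_continuousAt (fun p : U × E => loc q q' (S.f p.1) p.2)
    (fun a ha => (continuousOn_loc S q q').continuousAt (hO.mem_nhds (hCd ha)))
    (Metric.dist_mem_uniformity (mul_pos hη hr))
  obtain ⟨ρ₃, hρ₃, hd3⟩ := Metric.mem_uniformity_dist.1 u2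
  refine ⟨min (min ρ₁ ρ₂) ρ₃ / 2, by positivity, fun u v huv x hx hx' => ?_⟩
  set z := extChartAt 𝓘(ℝ, E) q x with hz
  have hmem : (u, z) ∈ cpt S q K K' := ⟨(u, x), ⟨hx, hx'⟩, rfl⟩
  have hm1 : min ρ₁ ρ₂ ≤ ρ₁ := min_le_left _ _
  have hm2 : min ρ₁ ρ₂ ≤ ρ₂ := min_le_right _ _
  have hm3 : min (min ρ₁ ρ₂) ρ₃ ≤ min ρ₁ ρ₂ := min_le_left _ _
  have hm4 : min (min ρ₁ ρ₂) ρ₃ ≤ ρ₃ := min_le_right _ _
  have hdist : ∀ w : E, ‖w‖ ≤ r → dist (u, z) (v, z + w) < min ρ₁ ρ₂ := by
    intro w hw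
    rw [Prod.dist_eq, max_lt_iff]
    have hpos : 0 < min ρ₁ ρ₂ := lt_min hρ₁ hρ₂
    constructor
    · show dist u v < _
      linarith
    · show dist z (z + w) < _
      rw [dist_eq_norm]
      have : ‖z - (z + w)‖ = ‖w‖ := by rw [← norm_neg]; congr 1; abel
      rw [this]
      linarith
  have hdom : ∀ w : E, ‖w‖ ≤ r → (v, z + w) ∈ dom S q q' := by
    intro w hw
    apply hsub
    rw [Metric.mem_thickening_iff]
    exact ⟨_, hmem, by rw [dist_comm]; exact (hdist w hw).trans_le hm1⟩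
  refine ⟨hdom, ?_, ?_⟩
  · have h3 : dist (u, z) (v, z) < ρ₃ := by
      rw [Prod.dist_eq, max_lt_iff]
      have hpos : 0 < min (min ρ₁ ρ₂) ρ₃ := lt_min (lt_min hρ₁ hρ₂) hρ₃
      constructor
      · show dist u v < _
        linarith
      · show dist z z < _
        rw [dist_self]; exact hρ₃
    have := hd3 h3 hmem
    change dist (loc q q' (S.f u) z) (loc q q' (S.f v) z) < _ at this
    rw [dist_comm, dist_eq_norm] at this
    exact this.le
  · intro w w' hw hw'
    have key := (convex_closedBall (0 : E) r).norm_image_sub_le_of_norm_hasFDerivWithin_le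
      (f := fun w => loc q q' (S.f v) (z + w) - dloc q q' (S.f u) z w)
      (f' := fun w => dloc q q' (S.f v) (z + w) - dloc q q' (S.f u) z) (C := η)
      (fun w hw => by
        have hw : ‖w‖ ≤ r := by simpa using hw
        have h1 := hasFDerivAt_loc (q' := q') ((S.f v).mdifferentiable one_ne_zero)
          (hdom w hw).1 (hdom w hw).2
        have h2 : HasFDerivAt (fun w : E => loc q q' (S.f v) (z + w))
            (dloc q q' (S.f v) (z + w)) w := by
          have := h1.comp w ((hasFDerivAt_id w).const_add z)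
          rw [ContinuousLinearMap.comp_id] at this
          exact this
        exact (h2.sub (ContinuousLinearMap.hasFDerivAt _)).hasFDerivWithinAt)
      (fun w hw => by
        have hw : ‖w‖ ≤ r := by simpa using hw
        have := hd ((hdist w hw).trans_le hm2) hmem
        change dist (dloc q q' (S.f u) z) (dloc q q' (S.f v) (z + w)) < _ at this
        rw [dist_comm, dist_eq_norm] at this
        exact this.le)
      (x := w') (y := w) (by simpa using hw') (by simpa using hw)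
    exact key

end Pool.Agent.V11108.Hyp4
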