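import Pool.Agent.V11108.Hyp4

/-!
# Hyperbolic sets of control systems, in coordinates
-/

set_option autoImplicit false

open Filter Topology Set Bundle
open scoped Manifold ContDiff

set_option linter.unusedSectionVars false

noncomputable section

namespace Pool.Agent.V11108.Hyp5

open Hyp1 Hyp2 Hyp3 Hyp4

variable {E : Type*} [NormedAddCommGroup E] [NormedSpace ℝ E]
  {M : Type*} [TopologicalSpace M] [ChartedSpace E M] [IsManifold 𝓘(ℝ, E) ∞ M]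
  {U : Type*} [MetricSpace U]
  [RiemannianBundle (fun x : M => TangentSpace 𝓘(ℝ, E) x)]

/-- A nonempty compact set `Q` is a hyperbolic set of the control system: every point of `Q` has a
control sequence keeping its orbit in `Q` for all times, and over the lift of `Q` there is a splitting
of the tangent spaces, invariant (H1), uniformly contracted in forward respectively backward time (H2),
with constant dimensions (H3). -/
structure Hyperbolic (S : ControlSystem E M U) (Q : Set M) : Prop where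
  nonempty : Q.Nonempty
  compact : IsCompact Q
  invariant : ∀ x ∈ Q, ∃ u, x ∈ fiber S Q u
  splitting : ∃ Em Ep : ∀ p : (ℤ → U) × M, Submodule ℝ (TangentSpace 𝓘(ℝ, E) p.2),
    (∀ p ∈ lift S Q, IsCompl (Em p) (Ep p)) ∧
    (∀ p ∈ lift S Q, ∀ t : ℤ,
      (Em p).map (mfderiv 𝓘(ℝ, E) 𝓘(ℝ, E) (phi S p.1 t) p.2).toLinearMap = Em (Phi S t p) ∧
      (Ep p).map (mfderiv 𝓘(ℝ, E) 𝓘(ℝ, E) (phi S p.1 t) p.2).toLinearMap = Ep (Phi S t p)) ∧
    (∃ c l : ℝ, 1 ≤ c ∧ 0 < l ∧ l < 1 ∧ ∀ p ∈ lift S Q, ∀ t : ℕ,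
      (∀ v ∈ Em p, ‖mfderiv 𝓘(ℝ, E) 𝓘(ℝ, E) (phi S p.1 t) p.2 v‖ ≤ c * l ^ t * ‖v‖) ∧
      (∀ v ∈ Ep p, ‖mfderiv 𝓘(ℝ, E) 𝓘(ℝ, E) (phi S p.1 (-t)) p.2 v‖ ≤ c * l ^ t * ‖v‖)) ∧
    (∃ a b : ℕ, ∀ p ∈ lift S Q,
      Module.finrank ℝ (Em p) = a ∧ Module.finrank ℝ (Ep p) = b)

/-- the Riemannian norm at `x` -/
def nrm (x : M) (v : E) : ℝ := ‖(show TangentSpace 𝓘(ℝ, E) x from v)‖

theorem nrm_nonneg (x : M) (v : E) : 0 ≤ nrm x v :=
  norm_nonneg (show TangentSpace 𝓘(ℝ, E) x from v)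

/-- hyperbolicity, in terms of the model space -/
structure HypData (S : ControlSystem E M U) (Q : Set M) (Em Ep : (ℤ → U) × M → Submodule ℝ E)
    (c l : ℝ) : Prop where
  compl : ∀ p ∈ lift S Q, IsCompl (Em p) (Ep p)
  invm : ∀ p ∈ lift S Q, ∀ v ∈ Em p, dE (S.f (p.1 0)) p.2 v ∈ Em (Phi S 1 p)
  invp : ∀ p ∈ lift S Q, ∀ v ∈ Ep p, dE (S.f (p.1 0)) p.2 v ∈ Ep (Phi S 1 p)
  contr : ∀ p ∈ lift S Q, ∀ n : ℕ, ∀ v ∈ Em p,
    nrm (fwd S p.1 n p.2) (dE (fwd S p.1 n) p.2 v) ≤ c * l ^ n * nrm p.2 v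
  expd : ∀ p ∈ lift S Q, ∀ n : ℕ, ∀ v ∈ Ep p,
    nrm (bwd S p.1 n p.2) (dE (bwd S p.1 n) p.2 v) ≤ c * l ^ n * nrm p.2 v

theorem phi_neg (S : ControlSystem E M U) (u : ℤ → U) (n : ℕ) : phi S u (-(n : ℤ)) = bwd S u n := by
  cases n with
  | zero => rfl
  | succ n => rfl

theorem hypData {S : ControlSystem E M U} {Q : Set M} (h : Hyperbolic S Q) :
    ∃ Em Ep : (ℤ → U) × M → Submodule ℝ E, ∃ c l : ℝ, 1 ≤ c ∧ 0 < l ∧ l < 1 ∧
      HypData S Q Em Ep c l := by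
  obtain ⟨Em, Ep, h1, h2, ⟨c, l, hc, hl0, hl1, h3⟩, -⟩ := h.splitting
  refine ⟨fun p => Em p, fun p => Ep p, c, l, hc, hl0, hl1, ⟨h1, ?_, ?_, ?_, ?_⟩⟩
  · intro p hp v hv
    have := (h2 p hp 1).1
    have hm : (mfderiv 𝓘(ℝ, E) 𝓘(ℝ, E) (phi S p.1 1) p.2).toLinearMap v ∈ Em (Phi S 1 p) := by
      rw [← this]
      exact Submodule.mem_map_of_mem hv
    exact hm
  · intro p hp v hv
    have := (h2 p hp 1).2
    have hm : (mfderiv 𝓘(ℝ, E) 𝓘(ℝ, E) (phi S p.1 1) p.2).toLinearMap v ∈ Ep (Phi S 1 p) := by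
      rw [← this]
      exact Submodule.mem_map_of_mem hv
    exact hm
  · intro p hp n v hv
    exact (h3 p hp n).1 v hv
  · intro p hp n v hv
    have := (h3 p hp n).2 v hv
    rw [phi_neg] at this
    exact this

theorem local_norm [IsContinuousRiemannianBundle E (fun x : M => TangentSpace 𝓘(ℝ, E) x)] (q : M) :
    ∃ C : ℝ, 0 < C ∧ ∀ᶠ y in 𝓝 q, ∀ v : E, ‖cE q y v‖ ≤ C * nrm y v ∧ nrm y (dinv q y v) ≤ C * ‖v‖ := by
  obtain ⟨C1, hC1, h1⟩ := eventually_norm_trivializationAt_lt E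
    (fun x : M => TangentSpace 𝓘(ℝ, E) x) q
  obtain ⟨C2, hC2, h2⟩ := eventually_norm_symmL_trivializationAt_lt E
    (fun x : M => TangentSpace 𝓘(ℝ, E) x) q
  refine ⟨max C1 C2, lt_max_of_lt_left hC1, ?_⟩
  filter_upwards [h1, h2] with y hy1 hy2 v
  constructor
  · have := ((trivializationAt E (TangentSpace 𝓘(ℝ, E)) q).continuousLinearMapAt ℝ y).le_opNorm
      (show TangentSpace 𝓘(ℝ, E) y from v)
    refine this.trans (mul_le_mul_of_nonneg_right (hy1.le.trans (le_max_left _ _)) (nrm_nonneg y v))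
  · have := ((trivializationAt E (TangentSpace 𝓘(ℝ, E)) q).symmL ℝ y).le_opNorm v
    refine le_trans this (mul_le_mul_of_nonneg_right (hy2.le.trans (le_max_right _ _)) (norm_nonneg v))

theorem cover [FiniteDimensional ℝ E] [T2Space M]
    [IsContinuousRiemannianBundle E (fun x : M => TangentSpace 𝓘(ℝ, E) x)]
    {Q : Set M} (hQ : IsCompact Q) :
    ∃ (F : Finset M) (K : M → Set M) (c : ℝ), 1 ≤ c ∧
      (∀ q ∈ F, IsCompact (K q) ∧ K q ⊆ (chartAt E q).source ∧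
        ∀ y ∈ K q, ∀ v : E, ‖cE q y v‖ ≤ c * nrm y v ∧ nrm y (dinv q y v) ≤ c * ‖v‖) ∧
      ∀ x ∈ Q, ∃ q ∈ F, x ∈ K q := by
  haveI : LocallyCompactSpace M := Manifold.locallyCompact_of_finiteDimensional 𝓘(ℝ, E)
  have h1 : ∀ q : M, ∃ C : ℝ, ∃ K ∈ 𝓝 q, IsCompact K ∧ K ⊆ (chartAt E q).source ∧
      ∀ y ∈ K, ∀ v : E, ‖cE q y v‖ ≤ C * nrm y v ∧ nrm y (dinv q y v) ≤ C * ‖v‖ := by
    intro q
    obtain ⟨C, hC, hev⟩ := local_norm (E := E) q
    obtain ⟨K, hK1, hK2, hK3⟩ := local_compact_nhds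
      (inter_mem ((chartAt E q).open_source.mem_nhds (mem_chart_source E q)) hev)
    exact ⟨C, K, hK1, hK3, fun y hy => (hK2 hy).1, fun y hy => (hK2 hy).2⟩
  choose C K hKn hKc hKs hKb using h1
  obtain ⟨F, hFQ, hF⟩ := hQ.elim_nhds_subcover K (fun x _ => hKn x)
  obtain ⟨c, hc⟩ : ∃ c : ℝ, 1 ≤ c ∧ ∀ q ∈ F, C q ≤ c := by
    obtain ⟨b, hb⟩ := (F.image C).bddAbove
    refine ⟨max 1 b, le_max_left _ _, fun q hq => (hb ?_).trans (le_max_right _ _)⟩
    simpa using ⟨q, hq, rfl⟩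
  refine ⟨F, K, c, hc.1, fun q hq => ⟨hKc q, hKs q, fun y hy v => ⟨?_, ?_⟩⟩, fun x hx => ?_⟩
  · exact (hKb q y hy v).1.trans (mul_le_mul_of_nonneg_right (hc.2 q hq) (nrm_nonneg y v))
  · exact (hKb q y hy v).2.trans (mul_le_mul_of_nonneg_right (hc.2 q hq) (norm_nonneg v))
  · have := hF hx
    simp only [mem_iUnion, exists_prop] at this
    exact this

theorem exists_proj {V : Type*} [AddCommGroup V] [Module ℝ V] (S T : Submodule ℝ V)
    (h : IsCompl S T) : ∃ pr : V →ₗ[ℝ] V, (∀ v, pr v ∈ S) ∧ ∀ v, v - pr v ∈ T := by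
  have hex : ∀ v : V, ∃ s ∈ S, v - s ∈ T := by
    intro v
    have : v ∈ S ⊔ T := by rw [h.sup_eq_top]; trivial
    obtain ⟨s, hs, t, ht, rfl⟩ := Submodule.mem_sup.1 this
    exact ⟨s, hs, by simpa using ht⟩
  choose f hf1 hf2 using hex
  have huniq : ∀ a b v, a ∈ S → b ∈ S → v - a ∈ T → v - b ∈ T → a = b := by
    intro a b v ha hb ha' hb'
    have h1 : a - b ∈ S := S.sub_mem ha hb
    have h2 : a - b ∈ T := by
      have := T.sub_mem hb' ha'
      have e : v - b - (v - a) = a - b := by abel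
      rwa [e] at this
    have := (Submodule.disjoint_def.1 h.disjoint) _ h1 h2
    exact sub_eq_zero.1 this
  refine ⟨⟨⟨f, fun v w => ?_⟩, fun r v => ?_⟩, hf1, hf2⟩
  · refine huniq _ _ (v + w) (hf1 _) (S.add_mem (hf1 _) (hf1 _)) (hf2 _) ?_
    have := T.add_mem (hf2 v) (hf2 w)
    have e : v - f v + (w - f w) = v + w - (f v + f w) := by abel
    rwa [e] at this
  · refine huniq _ _ (r • v) (hf1 _) (S.smul_mem r (hf1 _)) (hf2 _) ?_
    have := T.smul_mem r (hf2 v)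
    rwa [smul_sub] at this

theorem proj_unique {V : Type*} [AddCommGroup V] [Module ℝ V] {S T : Submodule ℝ V}
    (h : IsCompl S T) {a b v : V} (ha : a ∈ S) (hb : b ∈ S) (ha' : v - a ∈ T) (hb' : v - b ∈ T) :
    a = b := by
  have h1 : a - b ∈ S := S.sub_mem ha hb
  have h2 : a - b ∈ T := by
    have := T.sub_mem hb' ha'
    have e : v - b - (v - a) = a - b := by abel
    rwa [e] at this
  have := (Submodule.disjoint_def.1 h.disjoint) _ h1 h2
  exact sub_eq_zero.1 this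

end Pool.Agent.V11108.Hyp5
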