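import Pool.Agent.V11108.Hyp5

/-!
# Dichotomies along orbits in local coordinates
-/

set_option autoImplicit false

open Filter Topology Set Bundle
open scoped Manifold ContDiff

set_option linter.unusedSectionVars false

noncomputable section

namespace Pool.Agent.V11108.Hyp6

open Hyp1 Hyp2 Hyp3 Hyp4 Hyp5

variable {E : Type*} [NormedAddCommGroup E] [NormedSpace ℝ E]
  {M : Type*} [TopologicalSpace M] [ChartedSpace E M] [IsManifold 𝓘(ℝ, E) ∞ M]
  {U : Type*} [MetricSpace U]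
  [RiemannianBundle (fun x : M => TangentSpace 𝓘(ℝ, E) x)]

theorem dloc_apply {q : M} (q' : M) (g : M → M) {x : M} (hx : x ∈ (chartAt E q).source) (v : E) :
    dloc q q' g (extChartAt 𝓘(ℝ, E) q x) v = cE q' (g x) (dE g x (dinv q x v)) := by
  have hs : x ∈ (extChartAt 𝓘(ℝ, E) q).source := by rw [extChartAt_source]; exact hx
  unfold dloc
  rw [(extChartAt 𝓘(ℝ, E) q).left_inv hs]
  rfl

theorem dich_orbit [FiniteDimensional ℝ E] (S : ControlSystem E M U) (Q : Set M)
    {Em Ep : (ℤ → U) × M → Submodule ℝ E} {c l : ℝ} (hc : 1 ≤ c) (hl0 : 0 < l)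
    (H : HypData S Q Em Ep c l)
    {F : Finset M} {K : M → Set M} {c' : ℝ} (hc' : 1 ≤ c')
    (hF : ∀ q ∈ F, IsCompact (K q) ∧ K q ⊆ (chartAt E q).source ∧
        ∀ y ∈ K q, ∀ v : E, ‖cE q y v‖ ≤ c' * nrm y v ∧ nrm y (dinv q y v) ≤ c' * ‖v‖)
    {L : ℝ} (hL : ∀ q ∈ F, ∀ q' ∈ F, ∀ u : U, ∀ x ∈ K q, S.f u x ∈ K q' →
      ‖dloc (E := E) q q' (S.f u) (extChartAt 𝓘(ℝ, E) q x)‖ ≤ L)
    (p : (ℤ → U) × M) (hp : p ∈ lift S Q) (qs : ℤ → M) (hqs : ∀ t, qs t ∈ F)
    (hqK : ∀ t, phi S p.1 t p.2 ∈ K (qs t)) :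
    ∃ (B : ℤ → E →L[ℝ] E) (P : ℤ → E → E),
      Dich (fun t => dloc (qs t) (qs (t + 1)) (S.f (p.1 t))
        (extChartAt 𝓘(ℝ, E) (qs t) (phi S p.1 t p.2))) B P (c' * c * c') l L := by
  set u := p.1 with hu
  set x : ℤ → M := fun t => phi S u t p.2 with hx
  have hxs : ∀ t, x t ∈ (chartAt E (qs t)).source := fun t => (hF _ (hqs t)).2.1 (hqK t)
  have hx1 : ∀ t, S.f (u t) (x t) = x (t + 1) := fun t => (phi_succ S u t p.2).symm
  have hlift : ∀ t, (shift t u, x t) ∈ lift S Q := fun t => lift_shift S Q p hp t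
  have hex : ∀ t, ∃ pr : E →ₗ[ℝ] E, (∀ v, pr v ∈ Em (shift t u, x t)) ∧
      ∀ v, v - pr v ∈ Ep (shift t u, x t) := fun t => exists_proj _ _ (H.compl _ (hlift t))
  choose pr hpr1 hpr2 using hex
  set A : ℤ → E →L[ℝ] E := fun t => dloc (qs t) (qs (t + 1)) (S.f (u t))
        (extChartAt 𝓘(ℝ, E) (qs t) (x t)) with hA
  have hAv : ∀ t v, A t v = cE (qs (t + 1)) (x (t + 1)) (dE (S.f (u t)) (x t) (dinv (qs t) (x t) v)) := by
    intro t v
    rw [hA]
    beta_reduce
    rw [dloc_apply _ _ (hxs t), hx1]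
  set B : ℤ → E →L[ℝ] E := fun t => (cE (qs t) (x t)).comp ((dE (S.f (u t)).symm (x (t + 1))).comp
    (dinv (qs (t + 1)) (x (t + 1)))) with hB
  have hBv : ∀ t v, B t v = cE (qs t) (x t) (dE (S.f (u t)).symm (x (t + 1))
    (dinv (qs (t + 1)) (x (t + 1)) v)) := fun t v => rfl
  set P : ℤ → E → E := fun t v => cE (qs t) (x t) (pr t (dinv (qs t) (x t) v)) with hP
  have hphis : ∀ (t : ℤ) (s : ℤ), phi S (shift t u) s (x t) = x (t + s) := by
    intro t s
    rw [hx]
    beta_reduce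
    rw [phi_shift, add_comm]
  have hfw : ∀ (t : ℤ) (n : ℕ) (v : E), fw A t n (cE (qs t) (x t) v) =
      cE (qs (t + n)) (x (t + n)) (dE (fwd S (shift t u) n) (x t) v) := by
    intro t n v
    induction n with
    | zero =>
      show cE (qs t) (x t) v = _
      have e : t + ((0 : ℕ) : ℤ) = t := by simp
      rw [e]
      show _ = cE (qs t) (x t) (dE (id : M → M) (x t) v)
      rw [dE_id]; rfl
    | succ n ih =>
      show A (t + n) (fw A t n (cE (qs t) (x t) v)) = _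
      rw [ih, hAv, dinv_cE (hxs _), dE_fwd_succ]
      have e1 : shift t u (n : ℤ) = u (t + n) := by
        show u (n + t) = _
        rw [add_comm]
      have e2 : fwd S (shift t u) n (x t) = x (t + n) := hphis t n
      have e3 : t + (n : ℤ) + 1 = t + ((n + 1 : ℕ) : ℤ) := by push_cast; ring
      rw [e1, e2, e3]
  have hbw : ∀ (t : ℤ) (n : ℕ) (v : E), bw B t n (cE (qs t) (x t) v) =
      cE (qs (t - n)) (x (t - n)) (dE (bwd S (shift t u) n) (x t) v) := by
    intro t n v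
    induction n with
    | zero =>
      show cE (qs t) (x t) v = _
      have e : t - ((0 : ℕ) : ℤ) = t := by simp
      rw [e]
      show _ = cE (qs t) (x t) (dE (id : M → M) (x t) v)
      rw [dE_id]; rfl
    | succ n ih =>
      show B (t - (n + 1)) (bw B t n (cE (qs t) (x t) v)) = _
      have e3 : t - ((n : ℤ) + 1) + 1 = t - n := by ring
      rw [ih, hBv, e3, dinv_cE (hxs _), dE_bwd_succ]
      have e1 : shift t u (-((n : ℤ) + 1)) = u (t - (n + 1)) := by
        show u (-((n : ℤ) + 1) + t) = _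
        congr 1; ring
      have e2 : bwd S (shift t u) n (x t) = x (t - n) := by
        rw [← phi_neg, hphis, ← sub_eq_add_neg]
      have e4 : t - ((n : ℤ) + 1) = t - ((n + 1 : ℕ) : ℤ) := by push_cast; ring
      rw [e1, e2, e4]
  have hc0 : 0 ≤ c' := by linarith
  have hnrm : ∀ (t : ℤ) (v : E), nrm (x t) v ≤ c' * ‖cE (qs t) (x t) v‖ := by
    intro t v
    have := ((hF _ (hqs t)).2.2 _ (hqK t) (cE (qs t) (x t) v)).2
    change nrm (x t) (dinv (qs t) (x t) (cE (qs t) (x t) v)) ≤ _ at this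
    rwa [dinv_cE (hxs t)] at this
  have hnrm' : ∀ (t : ℤ) (v : E), ‖cE (qs t) (x t) v‖ ≤ c' * nrm (x t) v := fun t v =>
    ((hF _ (hqs t)).2.2 _ (hqK t) v).1
  have hcl : ∀ n : ℕ, 0 ≤ c * l ^ n := fun n => by positivity
  refine ⟨B, P, ⟨?_, ?_, ?_, ?_, ?_, ?_, ?_⟩⟩
  · intro t v
    rw [hAv, hBv, dinv_cE (hxs t)]
    have := dE_symm' (S.f (u t)) (x t) (dinv (qs (t + 1)) (x (t + 1)) v)
    rw [hx1] at this
    rw [this, cE_dinv (hxs (t + 1))]
  · intro t v
    rw [hAv, hBv, dinv_cE (hxs (t + 1))]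
    have := dE_symm (S.f (u t)) (x t) (dinv (qs t) (x t) v)
    rw [hx1] at this
    rw [this, cE_dinv (hxs t)]
  · intro t v w
    simp only [hP, map_add]
  · intro t v
    show cE (qs (t + 1)) (x (t + 1)) (pr (t + 1) (dinv (qs (t + 1)) (x (t + 1)) (A t v))) =
      A t (cE (qs t) (x t) (pr t (dinv (qs t) (x t) v)))
    rw [hAv, hAv, dinv_cE (hxs _), dinv_cE (hxs _)]
    congr 1
    set a := dinv (qs t) (x t) v
    have e1 : Phi S 1 (shift t u, x t) = (shift (t + 1) u, x (t + 1)) := by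
      show (shift 1 (shift t u), phi S (shift t u) 1 (x t)) = _
      rw [hphis]
      congr 1
      funext s
      show u (s + 1 + t) = u (s + (t + 1))
      congr 1; ring
    have e2 : (shift t u) 0 = u t := by show u (0 + t) = u t; rw [zero_add]
    have m1 := H.invm _ (hlift t) _ (hpr1 t a)
    have m2 := H.invp _ (hlift t) _ (hpr2 t a)
    rw [e1] at m1 m2
    change dE (S.f (shift t u 0)) (x t) _ ∈ _ at m1
    change dE (S.f (shift t u 0)) (x t) _ ∈ _ at m2
    rw [e2] at m1 m2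
    rw [map_sub] at m2
    exact proj_unique (H.compl _ (hlift (t + 1))) (hpr1 _ _) m1 (hpr2 _ _) m2
  · intro t n v
    have h1 := H.contr _ (hlift t) n _ (hpr1 t (dinv (qs t) (x t) v))
    have e2 : fwd S (shift t u) n (x t) = x (t + n) := hphis t n
    change nrm (fwd S (shift t u) n (x t)) (dE (fwd S (shift t u) n) (x t) _) ≤ _ * nrm (x t) _ at h1
    rw [e2] at h1
    show ‖fw A t n (cE (qs t) (x t) (pr t (dinv (qs t) (x t) v)))‖ ≤ _
    rw [hfw]
    calc _ ≤ c' * nrm (x (t + n)) (dE (fwd S (shift t u) n) (x t) (pr t (dinv (qs t) (x t) v))) :=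
          hnrm' _ _
      _ ≤ c' * (c * l ^ n * nrm (x t) (pr t (dinv (qs t) (x t) v))) :=
          mul_le_mul_of_nonneg_left h1 hc0
      _ ≤ c' * (c * l ^ n * (c' * ‖cE (qs t) (x t) (pr t (dinv (qs t) (x t) v))‖)) := by
          refine mul_le_mul_of_nonneg_left (mul_le_mul_of_nonneg_left (hnrm t _) (hcl n)) hc0
      _ = c' * c * c' * l ^ n * ‖P t v‖ := by ring
  · intro t n v
    have h1 := H.expd _ (hlift t) n _ (hpr2 t (dinv (qs t) (x t) v))
    have e2 : bwd S (shift t u) n (x t) = x (t - n) := by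
      rw [← phi_neg, hphis, ← sub_eq_add_neg]
    change nrm (bwd S (shift t u) n (x t)) (dE (bwd S (shift t u) n) (x t) _) ≤ _ * nrm (x t) _ at h1
    rw [e2] at h1
    have e3 : v - P t v = cE (qs t) (x t) (dinv (qs t) (x t) v - pr t (dinv (qs t) (x t) v)) := by
      rw [map_sub, cE_dinv (hxs t)]
    rw [e3, hbw]
    calc _ ≤ c' * nrm (x (t - n)) (dE (bwd S (shift t u) n) (x t)
            (dinv (qs t) (x t) v - pr t (dinv (qs t) (x t) v))) :=
          hnrm' _ _
      _ ≤ c' * (c * l ^ n * nrm (x t) (dinv (qs t) (x t) v - pr t (dinv (qs t) (x t) v))) :=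
          mul_le_mul_of_nonneg_left h1 hc0
      _ ≤ c' * (c * l ^ n * (c' * ‖cE (qs t) (x t)
            (dinv (qs t) (x t) v - pr t (dinv (qs t) (x t) v))‖)) := by
          refine mul_le_mul_of_nonneg_left (mul_le_mul_of_nonneg_left (hnrm t _) (hcl n)) hc0
      _ = _ := by ring
  · intro t v
    refine (ContinuousLinearMap.le_opNorm _ _).trans (mul_le_mul_of_nonneg_right ?_ (norm_nonneg _))
    refine hL _ (hqs t) _ (hqs (t + 1)) _ _ (hqK t) ?_
    show S.f (u t) (x t) ∈ _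
    rw [hx1]
    exact hqK (t + 1)

end Pool.Agent.V11108.Hyp6
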