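import Pool.Agent.V11108.Hyp6

/-!
# Shadowing, expansivity and chains of controls
-/

set_option autoImplicit false

open Filter Topology Set Bundle
open scoped Manifold ContDiff

set_option linter.unusedSectionVars false

noncomputable section

namespace Pool.Agent.V11108.Hyp7

open Hyp1 Hyp2 Hyp3 Hyp4 Hyp5 Hyp6

theorem exists_common {ι : Type*} (F : Finset ι) (P : ι → ℝ → Prop)
    (hmono : ∀ i r s, 0 < s → s ≤ r → P i r → P i s) (h : ∀ i ∈ F, ∃ r > 0, P i r) :
    ∃ r > 0, ∀ i ∈ F, P i r := by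
  classical
  induction F using Finset.induction_on with
  | empty => exact ⟨1, one_pos, by simp⟩
  | insert a F ha ih =>
    obtain ⟨r1, hr1, h1⟩ := ih fun i hi => h i (Finset.mem_insert_of_mem hi)
    obtain ⟨r2, hr2, h2⟩ := h a (Finset.mem_insert_self _ _)
    refine ⟨min r1 r2, lt_min hr1 hr2, fun i hi => ?_⟩
    rcases Finset.mem_insert.1 hi with rfl | hi
    · exact hmono _ _ _ (lt_min hr1 hr2) (min_le_right _ _) h2
    · exact hmono _ _ _ (lt_min hr1 hr2) (min_le_left _ _) (h1 i hi)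

section chains

variable {U : Type*} [MetricSpace U]

/-- `b` can be reached from `a` by a `δ`-chain with `n` steps -/
def Chain (δ : ℝ) (n : ℕ) (a b : U) : Prop :=
  ∃ c : ℕ → U, c 0 = a ∧ (∀ j, n ≤ j → c j = b) ∧ ∀ j, dist (c j) (c (j + 1)) ≤ δ

theorem Chain.refl {δ : ℝ} (hδ : 0 ≤ δ) (n : ℕ) (a : U) : Chain δ n a a :=
  ⟨fun _ => a, rfl, fun _ _ => rfl, fun _ => by simpa using hδ⟩

theorem Chain.symm {δ : ℝ} (hδ : 0 ≤ δ) {n : ℕ} {a b : U} (h : Chain δ n a b) : Chain δ n b a := by
  obtain ⟨c, h0, h1, h2⟩ := h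
  refine ⟨fun j => c (n - j), h1 _ (by simp), fun j hj => ?_, fun j => ?_⟩
  · show c (n - j) = a
    rw [Nat.sub_eq_zero_of_le hj, h0]
  · show dist (c (n - j)) (c (n - (j + 1))) ≤ δ
    rcases lt_or_ge j n with hj | hj
    · have : n - j = (n - (j + 1)) + 1 := by omega
      rw [this, dist_comm]
      exact h2 _
    · rw [Nat.sub_eq_zero_of_le hj, Nat.sub_eq_zero_of_le (by omega), dist_self]
      exact hδ

theorem Chain.trans {δ : ℝ} {n m : ℕ} {a b c : U} (h : Chain δ n a b) (h' : Chain δ m b c) :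
    Chain δ (n + m) a c := by
  obtain ⟨x, h0, h1, h2⟩ := h
  obtain ⟨y, k0, k1, k2⟩ := h'
  refine ⟨fun j => if j ≤ n then x j else y (j - n), by simpa using h0, fun j hj => ?_, fun j => ?_⟩
  · by_cases hjn : j ≤ n
    · have : m = 0 := by omega
      subst this
      have e : j = n := by omega
      subst e
      simp only [le_refl, if_true]
      rw [h1 j le_rfl, ← k0]
      exact k1 0 le_rfl
    · simp only [hjn, if_false]
      exact k1 _ (by omega)
  · by_cases hj : j + 1 ≤ n
    · simp only [hj, show j ≤ n by omega, if_true]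
      exact h2 j
    · by_cases hj' : j ≤ n
      · have e : j = n := by omega
        subst e
        simp only [le_refl, if_true, hj, if_false]
        rw [show j + 1 - j = 0 + 1 by omega, h1 j le_rfl, ← k0]
        exact k2 0
      · simp only [hj, hj', if_false]
        rw [show j + 1 - n = (j - n) + 1 by omega]
        exact k2 _

theorem Chain.step {δ : ℝ} {a b : U} (h : dist a b ≤ δ) (hδ : 0 ≤ δ) : Chain δ 1 a b :=
  ⟨fun j => if j = 0 then a else b, by simp, fun j hj => by simp [show j ≠ 0 by omega], fun j => by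
    by_cases hj : j = 0
    · subst hj; simpa using h
    · simp [hj, hδ]⟩

theorem uniform_chain [CompactSpace U] [ConnectedSpace U] {δ : ℝ} (hδ : 0 < δ) :
    ∃ m : ℕ, ∀ a b : U, Chain δ m a b := by
  obtain ⟨a₀⟩ : Nonempty U := inferInstance
  -- everything is reachable from a₀
  let R : Set U := {b | ∃ n, Chain δ n a₀ b}
  have hRo : IsOpen R := by
    rw [Metric.isOpen_iff]
    rintro b ⟨n, hn⟩
    refine ⟨δ, hδ, fun c hc => ⟨n + 1, hn.trans (Chain.step ?_ hδ.le)⟩⟩
    rw [dist_comm]; exact (Metric.mem_ball.1 hc).le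
  have hRc : IsClosed R := by
    rw [← isOpen_compl_iff, Metric.isOpen_iff]
    intro b hb
    refine ⟨δ, hδ, fun c hc ⟨n, hn⟩ => hb ⟨n + 1, hn.trans (Chain.step ?_ hδ.le)⟩⟩
    exact (Metric.mem_ball.1 hc).le
  have hR : R = univ := IsClopen.eq_univ ⟨hRc, hRo⟩ ⟨a₀, 0, Chain.refl hδ.le 0 a₀⟩
  let O : ℕ → Set U := fun n => interior {b | Chain δ n a₀ b}
  have hmono : ∀ n m, n ≤ m → ∀ b, Chain δ n a₀ b → Chain δ m a₀ b := by
    intro n m hnm b hb
    have := hb.trans (Chain.refl hδ.le (m - n) b)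
    rwa [Nat.add_sub_cancel' hnm] at this
  have hO : (univ : Set U) ⊆ ⋃ n, O n := by
    intro b _
    have : b ∈ R := by rw [hR]; trivial
    obtain ⟨n, hn⟩ := this
    refine mem_iUnion.2 ⟨n + 1, mem_interior.2 ⟨Metric.ball b δ, fun c hc => ?_,
      Metric.isOpen_ball, Metric.mem_ball_self hδ⟩⟩
    exact hn.trans (Chain.step (by rw [dist_comm]; exact (Metric.mem_ball.1 hc).le) hδ.le)
  obtain ⟨s, hs⟩ := isCompact_univ.elim_finite_subcover O (fun n => isOpen_interior) hO
  have hall : ∀ b, Chain δ (s.sup id) a₀ b := by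
    intro b
    have := hs (mem_univ b)
    simp only [mem_iUnion, exists_prop] at this
    obtain ⟨n, hn, hb⟩ := this
    have hle : n ≤ s.sup id := Finset.le_sup (f := id) hn
    have hb' : b ∈ {b | Chain δ n a₀ b} := interior_subset hb
    exact hmono n _ hle b hb'
  exact ⟨s.sup id + s.sup id, fun a b => ((hall a).symm hδ.le).trans (hall b)⟩

/-- uniform chains, staying between close points -/
theorem chain_fun [CompactSpace U] [ConnectedSpace U] {δ : ℝ} (hδ : 0 < δ) :
    ∃ (m : ℕ) (c : ℕ → U → U → U), (∀ a b, c 0 a b = a) ∧ (∀ a b, c m a b = b) ∧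
      (∀ j a b, dist (c j a b) (c (j + 1) a b) ≤ δ) ∧
      ∀ a b, dist a b ≤ δ → ∀ j, c j a b = a ∨ c j a b = b := by
  classical
  obtain ⟨m, hm⟩ := uniform_chain (U := U) hδ
  have key : ∀ a b : U, ∃ c : ℕ → U, c 0 = a ∧ c (m + 1) = b ∧ (∀ j, dist (c j) (c (j + 1)) ≤ δ) ∧
      (dist a b ≤ δ → ∀ j, c j = a ∨ c j = b) := by
    intro a b
    by_cases hab : dist a b ≤ δ
    · refine ⟨fun j => if j = 0 then a else b, by simp, by simp, fun j => ?_, fun _ j => ?_⟩
      · by_cases hj : j = 0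
        · subst hj; simpa using hab
        · simp [hj, hδ.le]
      · by_cases hj : j = 0
        · simp [hj]
        · simp [hj]
    · obtain ⟨c, h0, h1, h2⟩ := hm a b
      exact ⟨c, h0, h1 _ (by omega), h2, fun h => absurd h hab⟩
  choose c h0 h1 h2 h3 using key
  exact ⟨m + 1, fun j a b => c a b j, h0, h1, fun j a b => h2 a b j, h3⟩

end chains

end Pool.Agent.V11108.Hyp7
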