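import Pool.Agent.V11108.Hyp7

/-!
# Shadowing and expansivity
-/

set_option autoImplicit false

open Filter Topology Set Bundle
open scoped Manifold ContDiff

set_option linter.unusedSectionVars false

noncomputable section

namespace Pool.Agent.V11108.Hyp8

open Hyp1 Hyp2 Hyp3 Hyp4 Hyp5 Hyp6 Hyp7

variable {E : Type*} [NormedAddCommGroup E] [NormedSpace ℝ E] [FiniteDimensional ℝ E]
  {M : Type*} [TopologicalSpace M] [ChartedSpace E M] [IsManifold 𝓘(ℝ, E) ∞ M]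
  {U : Type*} [MetricSpace U]
  [RiemannianBundle (fun x : M => TangentSpace 𝓘(ℝ, E) x)]

/-- close points -/
def Cl (F : Finset M) (K : M → Set M) (r : ℝ) : Set (M × M) :=
  {p | ∃ q ∈ F, ∃ w : E, p.1 ∈ K q ∧ ‖w‖ ≤ r ∧
    p.2 = (extChartAt 𝓘(ℝ, E) q).symm (extChartAt 𝓘(ℝ, E) q p.1 + w)}

/-- Shadowing and expansivity. -/
theorem shadowing [CompactSpace U] [T2Space M] (S : ControlSystem E M U) (Q : Set M)
    {Em Ep : (ℤ → U) × M → Submodule ℝ E} {c l : ℝ} (hc : 1 ≤ c) (hl0 : 0 < l) (hl1 : l < 1)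
    (H : HypData S Q Em Ep c l)
    {F : Finset M} {K : M → Set M} {c' : ℝ} (hc' : 1 ≤ c')
    (hF : ∀ q ∈ F, IsCompact (K q) ∧ K q ⊆ (chartAt E q).source ∧
        ∀ y ∈ K q, ∀ v : E, ‖cE q y v‖ ≤ c' * nrm y v ∧ nrm y (dinv q y v) ≤ c' * ‖v‖)
    (hcov : ∀ x ∈ Q, ∃ q ∈ F, x ∈ K q) :
    ∃ r₀ > 0, (∀ q ∈ F, ∀ x ∈ K q, ∀ w : E, ‖w‖ ≤ r₀ →
        extChartAt 𝓘(ℝ, E) q x + w ∈ (extChartAt 𝓘(ℝ, E) q).target) ∧
      (∀ r, 0 < r → r ≤ r₀ → ∃ δ > 0, ∀ p ∈ lift S Q, ∀ v : ℤ → U, (∀ t, dist (p.1 t) (v t) ≤ δ) →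
        ∃ y, ∀ t, (phi S p.1 t p.2, phi S v t y) ∈ Cl (E := E) F K r) ∧
      (∀ p ∈ lift S Q, ∀ y, (∀ t, (phi S p.1 t p.2, phi S p.1 t y) ∈ Cl (E := E) F K r₀) →
        y = p.2) := by
  classical
  -- a bound for the local derivatives
  have hLex : ∃ L : ℝ, 0 ≤ L ∧ ∀ q ∈ F, ∀ q' ∈ F, ∀ u : U, ∀ x ∈ K q, S.f u x ∈ K q' →
      ‖dloc (E := E) q q' (S.f u) (extChartAt 𝓘(ℝ, E) q x)‖ ≤ L := by
    have h1 : ∀ q ∈ F, ∀ q' ∈ F, ∃ L : ℝ, ∀ u : U, ∀ x ∈ K q, S.f u x ∈ K q' →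
        ‖dloc (E := E) q q' (S.f u) (extChartAt 𝓘(ℝ, E) q x)‖ ≤ L := fun q hq q' hq' =>
      dloc_bound S q q' (hF q hq).1 (hF q hq).2.1 (hF q' hq').1 (hF q' hq').2.1
    choose! L hL using h1
    obtain ⟨b, hb⟩ := ((F ×ˢ F).image fun p => L p.1 p.2).bddAbove
    refine ⟨max 0 b, le_max_left _ _, fun q hq q' hq' u x hx hx' =>
      (hL q hq q' hq' u x hx hx').trans (le_trans (hb ?_) (le_max_right _ _))⟩
    simp only [Finset.coe_image, Set.mem_image, Finset.mem_coe, Finset.mem_product, Prod.exists]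
    exact ⟨q, q', ⟨hq, hq'⟩, rfl⟩
  obtain ⟨L, hL0, hL⟩ := hLex
  have hCC : 1 ≤ c' * c * c' := by nlinarith [mul_le_mul hc' hc zero_le_one (by linarith)]
  obtain ⟨e, he, hpert⟩ := perturb (E := E) hCC hl0 hl1 hL0
  -- common radius
  have hloc : ∃ r₀ > 0, ∀ qq ∈ F ×ˢ F, ∀ r, 0 < r → r ≤ r₀ → ∃ δ > 0, ∀ u v : U, dist u v ≤ δ →
      ∀ x ∈ K qq.1, S.f u x ∈ K qq.2 →
      (∀ w : E, ‖w‖ ≤ r → (v, extChartAt 𝓘(ℝ, E) qq.1 x + w) ∈ dom S qq.1 qq.2) ∧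
      ‖loc (E := E) qq.1 qq.2 (S.f v) (extChartAt 𝓘(ℝ, E) qq.1 x) -
        loc qq.1 qq.2 (S.f u) (extChartAt 𝓘(ℝ, E) qq.1 x)‖ ≤ e * r ∧
      ∀ w w' : E, ‖w‖ ≤ r → ‖w'‖ ≤ r →
        ‖(loc qq.1 qq.2 (S.f v) (extChartAt 𝓘(ℝ, E) qq.1 x + w) -
            dloc qq.1 qq.2 (S.f u) (extChartAt 𝓘(ℝ, E) qq.1 x) w) -
          (loc qq.1 qq.2 (S.f v) (extChartAt 𝓘(ℝ, E) qq.1 x + w') -
            dloc qq.1 qq.2 (S.f u) (extChartAt 𝓘(ℝ, E) qq.1 x) w')‖ ≤ e * ‖w - w'‖ := by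
    refine exists_common (F ×ˢ F) (fun qq r₀ => ∀ r, 0 < r → r ≤ r₀ → ∃ δ > 0, ∀ u v : U,
      dist u v ≤ δ → ∀ x ∈ K qq.1, S.f u x ∈ K qq.2 →
      (∀ w : E, ‖w‖ ≤ r → (v, extChartAt 𝓘(ℝ, E) qq.1 x + w) ∈ dom S qq.1 qq.2) ∧
      ‖loc (E := E) qq.1 qq.2 (S.f v) (extChartAt 𝓘(ℝ, E) qq.1 x) -
        loc qq.1 qq.2 (S.f u) (extChartAt 𝓘(ℝ, E) qq.1 x)‖ ≤ e * r ∧
      ∀ w w' : E, ‖w‖ ≤ r → ‖w'‖ ≤ r →
        ‖(loc qq.1 qq.2 (S.f v) (extChartAt 𝓘(ℝ, E) qq.1 x + w) -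
            dloc qq.1 qq.2 (S.f u) (extChartAt 𝓘(ℝ, E) qq.1 x) w) -
          (loc qq.1 qq.2 (S.f v) (extChartAt 𝓘(ℝ, E) qq.1 x + w') -
            dloc qq.1 qq.2 (S.f u) (extChartAt 𝓘(ℝ, E) qq.1 x) w')‖ ≤ e * ‖w - w'‖)
      (fun i r s _ hsr h r' hr' hr's => h r' hr' (hr's.trans hsr)) ?_
    rintro ⟨q, q'⟩ hqq
    rw [Finset.mem_product] at hqq
    exact local_est S q q' (hF q hqq.1).1 (hF q hqq.1).2.1 (hF q' hqq.2).1 (hF q' hqq.2).2.1 he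
  obtain ⟨r₁, hr₁, hloc⟩ := hloc
  have htar : ∃ r₂ > 0, ∀ q ∈ F, ∀ x ∈ K q, ∀ w : E, ‖w‖ ≤ r₂ →
        extChartAt 𝓘(ℝ, E) q x + w ∈ (extChartAt 𝓘(ℝ, E) q).target := by
    refine exists_common F (fun q r₂ => ∀ x ∈ K q, ∀ w : E, ‖w‖ ≤ r₂ →
        extChartAt 𝓘(ℝ, E) q x + w ∈ (extChartAt 𝓘(ℝ, E) q).target)
      (fun i r s _ hsr h x hx w hw => h x hx w (hw.trans hsr)) ?_
    intro q hq
    have hcomp : IsCompact ((extChartAt 𝓘(ℝ, E) q) '' K q) :=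
      (hF q hq).1.image_of_continuousOn ((continuousOn_extChartAt q).mono fun x hx => by
        rw [extChartAt_source]; exact (hF q hq).2.1 hx)
    obtain ⟨ρ, hρ, hsub⟩ := hcomp.exists_thickening_subset_open (isOpen_extChartAt_target q)
      (by
        rintro _ ⟨x, hx, rfl⟩
        exact (extChartAt 𝓘(ℝ, E) q).map_source (by rw [extChartAt_source]; exact (hF q hq).2.1 hx))
    refine ⟨ρ / 2, by positivity, fun x hx w hw => hsub ?_⟩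
    rw [Metric.mem_thickening_iff]
    refine ⟨_, ⟨x, hx, rfl⟩, ?_⟩
    rw [dist_eq_norm, add_sub_cancel_left]
    linarith
  obtain ⟨r₂, hr₂, htar⟩ := htar
  -- the key facts along an orbit
  have hx1 : ∀ (u : ℤ → U) (x : M) (t : ℤ), phi S u (t + 1) x = S.f (u t) (phi S u t x) :=
    fun u x t => phi_succ S u t x
  have hlocx : ∀ q ∈ F, ∀ x ∈ K q, ∀ (q' : M) (g : M → M),
      loc (E := E) q q' g (extChartAt 𝓘(ℝ, E) q x) = extChartAt 𝓘(ℝ, E) q' (g x) := by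
    intro q hq x hx q' g
    unfold loc
    rw [(extChartAt 𝓘(ℝ, E) q).left_inv (by rw [extChartAt_source]; exact (hF q hq).2.1 hx)]
  refine ⟨min r₁ r₂, lt_min hr₁ hr₂, fun q hq x hx w hw => htar q hq x hx w
    (hw.trans (min_le_right _ _)), ?_, ?_⟩
  · intro r hr hrr
    have hrr1 : r ≤ r₁ := hrr.trans (min_le_left _ _)
    obtain ⟨δ, hδ, hest⟩ := exists_common (F ×ˢ F) (fun qq δ => ∀ u v : U, dist u v ≤ δ →
      ∀ x ∈ K qq.1, S.f u x ∈ K qq.2 →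
      (∀ w : E, ‖w‖ ≤ r → (v, extChartAt 𝓘(ℝ, E) qq.1 x + w) ∈ dom S qq.1 qq.2) ∧
      ‖loc (E := E) qq.1 qq.2 (S.f v) (extChartAt 𝓘(ℝ, E) qq.1 x) -
        loc qq.1 qq.2 (S.f u) (extChartAt 𝓘(ℝ, E) qq.1 x)‖ ≤ e * r ∧
      ∀ w w' : E, ‖w‖ ≤ r → ‖w'‖ ≤ r →
        ‖(loc qq.1 qq.2 (S.f v) (extChartAt 𝓘(ℝ, E) qq.1 x + w) -
            dloc qq.1 qq.2 (S.f u) (extChartAt 𝓘(ℝ, E) qq.1 x) w) -
          (loc qq.1 qq.2 (S.f v) (extChartAt 𝓘(ℝ, E) qq.1 x + w') -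
            dloc qq.1 qq.2 (S.f u) (extChartAt 𝓘(ℝ, E) qq.1 x) w')‖ ≤ e * ‖w - w'‖)
      (fun i δ₁ δ₂ _ h12 h u v huv => h u v (huv.trans h12))
      (fun qq hqq => hloc qq hqq r hr hrr1)
    refine ⟨δ, hδ, fun p hp v hv => ?_⟩
    choose qs hqs hqK using fun t => hcov _ (hp t)
    obtain ⟨B, P, hD⟩ := dich_orbit S Q hc hl0 H hc' hF hL p hp qs hqs hqK
    have hest' : ∀ t, _ := fun t => hest (qs t, qs (t + 1))
      (Finset.mem_product.2 ⟨hqs t, hqs (t + 1)⟩) (p.1 t) (v t) (hv t) (phi S p.1 t p.2) (hqK t)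
      (by rw [← hx1]; exact hqK (t + 1))
    let N : ℤ → E → E := fun t w =>
      (loc (qs t) (qs (t + 1)) (S.f (v t)) (extChartAt 𝓘(ℝ, E) (qs t) (phi S p.1 t p.2) + w) -
        extChartAt 𝓘(ℝ, E) (qs (t + 1)) (phi S p.1 (t + 1) p.2)) -
        dloc (qs t) (qs (t + 1)) (S.f (p.1 t)) (extChartAt 𝓘(ℝ, E) (qs t) (phi S p.1 t p.2)) w
    obtain ⟨hsh, -⟩ := hpert _ B P hD r N hr (fun t w w' hw hw' => by
      have := (hest' t).2.2 w w' hw hw'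
      convert this using 2
      simp only [N]
      abel)
    obtain ⟨w, hw, hrec⟩ := hsh (fun t => by
      have := (hest' t).2.1
      rw [hlocx _ (hqs t) _ (hqK t) _ (S.f (p.1 t)), ← hx1] at this
      simp only [N, add_zero, map_zero, sub_zero]
      exact this)
    let y : ℤ → M := fun t => (extChartAt 𝓘(ℝ, E) (qs t)).symm
      (extChartAt 𝓘(ℝ, E) (qs t) (phi S p.1 t p.2) + w t)
    have hy : ∀ t, y (t + 1) = S.f (v t) (y t) := by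
      intro t
      have h1 : extChartAt 𝓘(ℝ, E) (qs (t + 1)) (phi S p.1 (t + 1) p.2) + w (t + 1) =
          extChartAt 𝓘(ℝ, E) (qs (t + 1)) (S.f (v t) (y t)) := by
        rw [hrec t]
        simp only [N]
        unfold loc
        abel
      show (extChartAt 𝓘(ℝ, E) (qs (t + 1))).symm _ = _
      rw [h1]
      refine (extChartAt 𝓘(ℝ, E) (qs (t + 1))).left_inv ?_
      rw [extChartAt_source]
      exact ((hest' t).1 (w t) (hw t)).2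
    have hy' := orbit_unique S v y hy
    refine ⟨y 0, fun t => ?_⟩
    rw [← hy' t]
    exact ⟨qs t, hqs t, w t, hqK t, hw t, rfl⟩
  · intro p hp y hy
    set r := min r₁ r₂ with hrdef
    have hr : 0 < r := lt_min hr₁ hr₂
    have hrr1 : r ≤ r₁ := min_le_left _ _
    choose qs hqs w hqK hw hyw using hy
    obtain ⟨B, P, hD⟩ := dich_orbit S Q hc hl0 H hc' hF hL p hp qs hqs hqK
    have hest' : ∀ t, _ := fun t => (hloc (qs t, qs (t + 1))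
      (Finset.mem_product.2 ⟨hqs t, hqs (t + 1)⟩) r hr hrr1).choose_spec.2 (p.1 t) (p.1 t)
      (by rw [dist_self]; exact (hloc (qs t, qs (t + 1))
        (Finset.mem_product.2 ⟨hqs t, hqs (t + 1)⟩) r hr hrr1).choose_spec.1.le)
      (phi S p.1 t p.2) (hqK t) (by rw [← hx1]; exact hqK (t + 1))
    let N : ℤ → E → E := fun t w =>
      (loc (qs t) (qs (t + 1)) (S.f (p.1 t)) (extChartAt 𝓘(ℝ, E) (qs t) (phi S p.1 t p.2) + w) -
        extChartAt 𝓘(ℝ, E) (qs (t + 1)) (phi S p.1 (t + 1) p.2)) -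
        dloc (qs t) (qs (t + 1)) (S.f (p.1 t)) (extChartAt 𝓘(ℝ, E) (qs t) (phi S p.1 t p.2)) w
    obtain ⟨-, hun⟩ := hpert _ B P hD r N hr (fun t w w' hw hw' => by
      have := (hest' t).2.2 w w' hw hw'
      convert this using 2
      simp only [N]
      abel)
    have h0 := hun (fun t => by
      simp only [N, add_zero, map_zero, sub_zero]
      rw [hlocx _ (hqs t) _ (hqK t) _ (S.f (p.1 t)), ← hx1, sub_self]) w hw (fun t => by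
      simp only [N]
      have h1 : loc (qs t) (qs (t + 1)) (S.f (p.1 t))
          (extChartAt 𝓘(ℝ, E) (qs t) (phi S p.1 t p.2) + w t) =
          extChartAt 𝓘(ℝ, E) (qs (t + 1)) (phi S p.1 (t + 1) p.2) + w (t + 1) := by
        have h2 := hyw (t + 1)
        have h3 := hyw t
        change phi S p.1 (t + 1) y = _ at h2
        change phi S p.1 t y = _ at h3
        unfold loc
        rw [← h3, ← hx1, h2]
        exact (extChartAt 𝓘(ℝ, E) (qs (t + 1))).right_inv (htar _ (hqs _) _ (hqK _) _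
          ((hw _).trans (min_le_right _ _)))
      rw [h1]
      abel)
    have h4 := hyw 0
    change y = (extChartAt 𝓘(ℝ, E) (qs 0)).symm (extChartAt 𝓘(ℝ, E) (qs 0) p.2 + w 0) at h4
    rw [h4, h0 0, add_zero]
    exact (extChartAt 𝓘(ℝ, E) (qs 0)).left_inv (by
      rw [extChartAt_source]; exact (hF _ (hqs 0)).2.1 (hqK 0))

end Pool.Agent.V11108.Hyp8
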