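import Pool.Agent.V11108.Hyp8

/-!
# Closedness, isolation, and the limit argument
-/

set_option autoImplicit false

open Filter Topology Set Bundle
open scoped Manifold ContDiff

set_option linter.unusedSectionVars false

noncomputable section

namespace Pool.Agent.V11108.Hyp9

open Hyp1 Hyp2 Hyp3 Hyp4 Hyp5 Hyp6 Hyp7 Hyp8

variable {E : Type*} [NormedAddCommGroup E] [NormedSpace ℝ E] [FiniteDimensional ℝ E]
  {M : Type*} [TopologicalSpace M] [ChartedSpace E M] [IsManifold 𝓘(ℝ, E) ∞ M]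
  {U : Type*} [MetricSpace U]

/-- `L(Q)` is isolated invariant: it is the largest `Φ`-invariant subset of some neighbourhood of
itself. -/
def IsolatedLift (S : ControlSystem E M U) (Q : Set M) : Prop :=
  ∃ N ∈ 𝓝ˢ (lift S Q), ∀ T : Set ((ℤ → U) × M), T ⊆ N → (∀ t : ℤ, ∀ p ∈ T, Phi S t p ∈ T) →
    T ⊆ lift S Q

/-- The fiber map `u ↦ Q(u)` is lower semicontinuous. -/
def LowerSemicont (S : ControlSystem E M U) (Q : Set M) : Prop :=
  ∀ u : ℤ → U, ∀ x ∈ fiber S Q u, ∀ V : Set M, IsOpen V → x ∈ V →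
    ∃ W ∈ 𝓝 u, ∀ v ∈ W, (fiber S Q v ∩ V).Nonempty

theorem isClosed_Cl [T2Space M] {F : Finset M} {K : M → Set M} {r : ℝ}
    (hF : ∀ q ∈ F, IsCompact (K q) ∧ K q ⊆ (chartAt E q).source)
    (htar : ∀ q ∈ F, ∀ x ∈ K q, ∀ w : E, ‖w‖ ≤ r →
        extChartAt 𝓘(ℝ, E) q x + w ∈ (extChartAt 𝓘(ℝ, E) q).target) :
    IsClosed (Cl (E := E) F K r) := by
  have : Cl (E := E) F K r = ⋃ q ∈ F, (fun p : M × E => (p.1, (extChartAt 𝓘(ℝ, E) q).symm
      (extChartAt 𝓘(ℝ, E) q p.1 + p.2))) '' (K q ×ˢ Metric.closedBall (0 : E) r) := by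
    ext ⟨x, y⟩
    simp only [Cl, mem_ofPred_eq, mem_iUnion, mem_image, mem_prod, Prod.exists, Prod.mk.injEq,
      exists_prop, Metric.mem_closedBall, dist_zero_right]
    constructor
    · rintro ⟨q, hq, w, h1, h2, h3⟩
      exact ⟨q, hq, x, w, ⟨h1, h2⟩, rfl, h3.symm⟩
    · rintro ⟨q, hq, x', w, ⟨h1, h2⟩, rfl, h3⟩
      exact ⟨q, hq, w, h1, h2, h3.symm⟩
  rw [this]
  refine isClosed_biUnion_finset fun q hq => ?_
  refine IsCompact.isClosed ?_
  refine ((hF q hq).1.prod (isCompact_closedBall _ _)).image_of_continuousOn ?_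
  refine continuousOn_fst.prodMk ?_
  refine (continuousOn_extChartAt_symm q).comp
    (f := fun p : M × E => extChartAt 𝓘(ℝ, E) q p.1 + p.2) ?_ ?_
  · refine ContinuousOn.add ((continuousOn_extChartAt q).comp continuousOn_fst ?_) continuousOn_snd
    intro p hp
    rw [extChartAt_source]
    exact (hF q hq).2 hp.1
  · intro p hp
    exact htar q hq p.1 hp.1 p.2 (by simpa using hp.2)

/-- Uniform isolation. -/
theorem iso_unif [CompactSpace U] [T2Space M] {S : ControlSystem E M U} {Q : Set M}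
    (hQ : IsCompact Q) {N : Set ((ℤ → U) × M)} (hN : N ∈ 𝓝ˢ (lift S Q))
    {F : Finset M} {K : M → Set M} (hF : ∀ q ∈ F, IsCompact (K q) ∧ K q ⊆ (chartAt E q).source) :
    ∃ ε > 0, ∀ p ∈ lift S Q, ∀ p' : (ℤ → U) × M, (∀ t, dist (p.1 t) (p'.1 t) ≤ ε) →
      (p.2, p'.2) ∈ Cl (E := E) F K ε → p' ∈ N := by
  by_contra hcon
  push Not at hcon
  have hpos : ∀ n : ℕ, (0 : ℝ) < 1 / ((n : ℝ) + 1) := fun n => by positivity
  choose p hp p' hd hcl hnot using fun n : ℕ => hcon (1 / ((n : ℝ) + 1)) (hpos n)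
  let G : Ultrafilter ℕ := hyperfilter ℕ
  have hG : (G : Filter ℕ) ≤ atTop := Nat.hyperfilter_le_atTop
  have hε : Tendsto (fun n : ℕ => 1 / ((n : ℝ) + 1)) (G : Filter ℕ) (𝓝 0) :=
    tendsto_one_div_add_atTop_nhds_zero_nat.mono_left hG
  obtain ⟨z, hz, hlim⟩ := (isCompact_lift S hQ).ultrafilter_le_nhds (G.map p)
    (by
      rw [Ultrafilter.coe_map, le_principal_iff, Filter.mem_map]
      exact Filter.univ_mem' hp)
  have hlim : Tendsto p G (𝓝 z) := by rwa [Ultrafilter.coe_map] at hlim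
  have hl1 : Tendsto (fun n => (p n).1) G (𝓝 z.1) := (continuous_fst.tendsto z).comp hlim
  have hl2 : Tendsto (fun n => (p n).2) G (𝓝 z.2) := (continuous_snd.tendsto z).comp hlim
  have hl1' : Tendsto (fun n => (p' n).1) G (𝓝 z.1) := by
    rw [tendsto_pi_nhds] at hl1 ⊢
    intro t
    have h1 := hl1 t
    rw [tendsto_iff_dist_tendsto_zero] at h1 ⊢
    have h2 := h1.add hε
    rw [add_zero] at h2
    refine squeeze_zero (fun n => dist_nonneg) (fun n => ?_) h2
    calc dist ((p' n).1 t) (z.1 t) ≤ dist ((p' n).1 t) ((p n).1 t) + dist ((p n).1 t) (z.1 t) :=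
          dist_triangle _ _ _
      _ ≤ 1 / ((n : ℝ) + 1) + dist ((p n).1 t) (z.1 t) := by
          gcongr
          rw [dist_comm]; exact hd n t
      _ = _ := by ring
  have hl2' : Tendsto (fun n => (p' n).2) G (𝓝 z.2) := by
    intro V hV
    rw [Filter.mem_map]
    have key : ∀ q ∈ F, ∀ᶠ n in (G : Filter ℕ), (p n).2 ∈ K q → ∀ w : E, ‖w‖ ≤ 1 / ((n : ℝ) + 1) →
        (extChartAt 𝓘(ℝ, E) q).symm (extChartAt 𝓘(ℝ, E) q (p n).2 + w) ∈ V := by
      intro q hq
      by_cases hzq : z.2 ∈ K q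
      · have hzs : z.2 ∈ (extChartAt 𝓘(ℝ, E) q).source := by
          rw [extChartAt_source]; exact (hF q hq).2 hzq
        have hca : ContinuousAt (fun pw : M × E => (extChartAt 𝓘(ℝ, E) q).symm
            (extChartAt 𝓘(ℝ, E) q pw.1 + pw.2)) (z.2, 0) := by
          have h1 : ContinuousAt (fun pw : M × E => extChartAt 𝓘(ℝ, E) q pw.1 + pw.2) (z.2, 0) :=
            ContinuousAt.add (ContinuousAt.comp (f := Prod.fst) (x := (z.2, (0 : E)))
              (continuousAt_extChartAt' hzs) continuousAt_fst) continuousAt_snd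
          refine ContinuousAt.comp (g := (extChartAt 𝓘(ℝ, E) q).symm)
            (f := fun pw : M × E => extChartAt 𝓘(ℝ, E) q pw.1 + pw.2) (x := (z.2, (0 : E))) ?_ h1
          show ContinuousAt (extChartAt 𝓘(ℝ, E) q).symm (extChartAt 𝓘(ℝ, E) q z.2 + 0)
          rw [add_zero]
          exact continuousAt_extChartAt_symm'' ((extChartAt 𝓘(ℝ, E) q).map_source hzs)
        have hval : (extChartAt 𝓘(ℝ, E) q).symm (extChartAt 𝓘(ℝ, E) q z.2 + 0) = z.2 := by
          rw [add_zero]; exact (extChartAt 𝓘(ℝ, E) q).left_inv hzs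
        have hpre := hca.preimage_mem_nhds (t := V) (by
          show V ∈ 𝓝 ((extChartAt 𝓘(ℝ, E) q).symm (extChartAt 𝓘(ℝ, E) q z.2 + 0))
          rw [hval]; exact hV)
        rw [nhds_prod_eq, Filter.mem_prod_iff] at hpre
        obtain ⟨t1, ht1, t2, ht2, hsub⟩ := hpre
        obtain ⟨ρ, hρ, hball⟩ := Metric.mem_nhds_iff.1 ht2
        filter_upwards [hl2 ht1, hε.eventually (gt_mem_nhds hρ)] with n hn1 hn2 _ w hw
        exact hsub (show ((p n).2, w) ∈ t1 ×ˢ t2 from ⟨hn1, hball (by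
          rw [Metric.mem_ball, dist_zero_right]
          exact hw.trans_lt hn2)⟩)
      · have : (K q)ᶜ ∈ 𝓝 z.2 := (hF q hq).1.isClosed.isOpen_compl.mem_nhds hzq
        filter_upwards [hl2 this] with n hn hn'
        exact absurd hn' hn
    have key' := (Filter.eventually_all_finset F).2 key
    filter_upwards [key'] with n hn
    obtain ⟨q, hq, w, h1, h2, h3⟩ := hcl n
    show (p' n).2 ∈ V
    change (p' n).2 = _ at h3
    rw [h3]
    exact hn q hq h1 w h2
  have hlim' : Tendsto p' G (𝓝 z) := by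
    have := hl1'.prodMk_nhds hl2'
    exact this
  have hNz : N ∈ 𝓝 z := by
    rw [mem_nhdsSet_iff_forall] at hN
    exact hN z hz
  have hev : ∀ᶠ n in (G : Filter ℕ), p' n ∈ N := hlim' hNz
  obtain ⟨n, hn⟩ := hev.exists
  exact hnot n hn

/-- The main theorem. -/
theorem main [CompactSpace U] [ConnectedSpace U] [T2Space M]
    [RiemannianBundle (fun x : M => TangentSpace 𝓘(ℝ, E) x)]
    [IsContinuousRiemannianBundle E (fun x : M => TangentSpace 𝓘(ℝ, E) x)]
    (S : ControlSystem E M U) (Q : Set M) (hyp : Hyperbolic S Q) (hiso : IsolatedLift S Q) :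
    LowerSemicont S Q := by
  classical
  obtain ⟨Em, Ep, c, l, hc, hl0, hl1, H⟩ := hypData hyp
  obtain ⟨F, K, c', hc', hF, hcov⟩ := cover (E := E) hyp.compact
  obtain ⟨r₀, hr₀, htar, hshadow, hexp⟩ := shadowing S Q hc hl0 hl1 H hc' hF hcov
  obtain ⟨N, hN, hmax⟩ := hiso
  have hF' : ∀ q ∈ F, IsCompact (K q) ∧ K q ⊆ (chartAt E q).source :=
    fun q hq => ⟨(hF q hq).1, (hF q hq).2.1⟩
  obtain ⟨ε, hε, hisoU⟩ := iso_unif (E := E) hyp.compact hN hF'
  set r := min r₀ ε with hrdef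
  have hr : 0 < r := lt_min hr₀ hε
  obtain ⟨δ₁, hδ₁, hsh⟩ := hshadow r hr (min_le_left _ _)
  set δ := min δ₁ ε with hδdef
  have hδ : 0 < δ := lt_min hδ₁ hε
  have hClmono : ∀ {a b : ℝ}, a ≤ b → Cl (E := E) F K a ⊆ Cl (E := E) F K b := by
    rintro a b hab ⟨x, y⟩ ⟨q, hq, w, h1, h2, h3⟩
    exact ⟨q, hq, w, h1, h2.trans hab, h3⟩
  -- shadowing inside `Q`
  have hstep : ∀ p ∈ lift S Q, ∀ v : ℤ → U, (∀ t, dist (p.1 t) (v t) ≤ δ) →
      ∃ y, (v, y) ∈ lift S Q ∧ ∀ t, (phi S p.1 t p.2, phi S v t y) ∈ Cl (E := E) F K r := by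
    intro p hp v hv
    obtain ⟨y, hy⟩ := hsh p hp v fun t => (hv t).trans (min_le_left _ _)
    refine ⟨y, ?_, hy⟩
    refine hmax (range fun t : ℤ => Phi S t (v, y)) ?_ ?_ ⟨0, ?_⟩
    · rintro _ ⟨t, rfl⟩
      refine hisoU _ (lift_shift S Q p hp t) _ (fun s => ?_) (hClmono (min_le_right _ _) (hy t))
      exact (hv (s + t)).trans (min_le_right _ _)
    · rintro s _ ⟨t, rfl⟩
      refine ⟨s + t, ?_⟩
      show (shift (s + t) v, phi S v (s + t) y) =
        (shift s (shift t v), phi S (shift t v) s (phi S v t y))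
      rw [phi_shift]
      congr 1
      funext a
      show v (a + (s + t)) = v (a + s + t)
      rw [add_assoc]
    · show (shift 0 v, phi S v 0 y) = (v, y)
      congr 1
      funext a
      show v (a + 0) = v a
      rw [add_zero]
  obtain ⟨m, ch, hch0, hchm, hchd, hchc⟩ := chain_fun (U := U) hδ
  have hclosed : IsClosed (Cl (E := E) F K r) := isClosed_Cl hF' fun q hq x hx w hw =>
    htar q hq x hx w (hw.trans (min_le_left _ _))
  intro u x hx V hV hxV
  by_contra hcon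
  have hfreq : ∃ᶠ v in 𝓝 u, ¬ (fiber S Q v ∩ V).Nonempty := by
    intro hev
    apply hcon
    refine ⟨_, hev, fun v hv => ?_⟩
    exact not_not.1 hv
  have hne : (𝓝 u ⊓ 𝓟 {v | ¬ (fiber S Q v ∩ V).Nonempty}).NeBot := frequently_mem_iff_neBot.1 hfreq
  let G : Ultrafilter (ℤ → U) := Ultrafilter.of (𝓝 u ⊓ 𝓟 {v | ¬ (fiber S Q v ∩ V).Nonempty})
  have hG : (G : Filter (ℤ → U)) ≤ 𝓝 u ⊓ 𝓟 {v | ¬ (fiber S Q v ∩ V).Nonempty} :=
    Ultrafilter.of_le _
  have hG1 : (G : Filter (ℤ → U)) ≤ 𝓝 u := hG.trans inf_le_left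
  have hG2 : ∀ᶠ v in (G : Filter (ℤ → U)), ¬ (fiber S Q v ∩ V).Nonempty :=
    le_principal_iff.1 (hG.trans inf_le_right)
  -- the chains of control sequences
  let cs : ℕ → (ℤ → U) → ℤ → U := fun j v t => ch j (u t) (v t)
  have hcs : ∀ j, Tendsto (cs j) G (𝓝 u) := by
    intro j
    rw [tendsto_pi_nhds]
    intro t
    have h1 : Tendsto (fun v : ℤ → U => v t) G (𝓝 (u t)) :=
      ((continuous_apply t).tendsto u).comp (tendsto_id'.2 hG1)
    rw [tendsto_iff_dist_tendsto_zero] at h1 ⊢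
    refine squeeze_zero' (Eventually.of_forall fun _ => dist_nonneg) ?_ h1
    filter_upwards [h1.eventually (gt_mem_nhds hδ)] with v hv
    rcases hchc (u t) (v t) (by rw [dist_comm]; exact hv.le) j with h | h
    · show dist (ch j (u t) (v t)) (u t) ≤ _
      rw [h, dist_self]; exact dist_nonneg
    · show dist (ch j (u t) (v t)) (u t) ≤ _
      rw [h]
  -- the shadowing points
  let nxt : (ℤ → U) × M → (ℤ → U) → M := fun p v =>
    if h : ∃ y, (v, y) ∈ lift S Q ∧ ∀ t, (phi S p.1 t p.2, phi S v t y) ∈ Cl (E := E) F K r then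
      h.choose else p.2
  let X : ℕ → (ℤ → U) → M := fun j v => Nat.rec x (fun j y => nxt (cs j v, y) (cs (j + 1) v)) j
  have hX0 : ∀ v, X 0 v = x := fun v => rfl
  have hXs : ∀ j v, X (j + 1) v = nxt (cs j v, X j v) (cs (j + 1) v) := fun j v => rfl
  have hXl : ∀ j v, (cs j v, X j v) ∈ lift S Q := by
    intro j v
    induction j with
    | zero =>
      have : cs 0 v = u := by funext t; exact hch0 _ _
      rw [this]
      exact hx
    | succ j ih =>
      have hex := hstep (cs j v, X j v) ih (cs (j + 1) v) (fun t => hchd j (u t) (v t))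
      rw [hXs]
      simp only [nxt, dif_pos hex]
      exact hex.choose_spec.1
  have hXc : ∀ j v t, (phi S (cs j v) t (X j v), phi S (cs (j + 1) v) t (X (j + 1) v)) ∈
      Cl (E := E) F K r := by
    intro j v
    have hex := hstep (cs j v, X j v) (hXl j v) (cs (j + 1) v) (fun t => hchd j (u t) (v t))
    rw [hXs]
    simp only [nxt, dif_pos hex]
    exact hex.choose_spec.2
  have hXt : ∀ j, Tendsto (X j) G (𝓝 x) := by
    intro j
    induction j with
    | zero => exact tendsto_const_nhds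
    | succ j ih =>
      obtain ⟨y, -, hlim⟩ := hyp.compact.ultrafilter_le_nhds (G.map (X (j + 1)))
        (by
          rw [Ultrafilter.coe_map, le_principal_iff, Filter.mem_map]
          exact Filter.univ_mem' fun v => hXl (j + 1) v 0)
      have hlim : Tendsto (X (j + 1)) G (𝓝 y) := by rwa [Ultrafilter.coe_map] at hlim
      have hyx : y = x := by
        refine hexp (u, x) hx y fun t => hClmono (show r ≤ r₀ from min_le_left _ _) ?_
        have h1 : Tendsto (fun v => phi S (cs j v) t (X j v)) G (𝓝 (phi S u t x)) :=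
          ((continuous_phi S t).tendsto (u, x)).comp ((hcs j).prodMk_nhds ih)
        have h2 : Tendsto (fun v => phi S (cs (j + 1) v) t (X (j + 1) v)) G (𝓝 (phi S u t y)) :=
          ((continuous_phi S t).tendsto (u, y)).comp ((hcs (j + 1)).prodMk_nhds hlim)
        exact hclosed.mem_of_tendsto (h1.prodMk_nhds h2) (Eventually.of_forall fun v => hXc j v t)
      rw [← hyx]
      exact hlim
  have hend := hXt m (hV.mem_nhds hxV)
  obtain ⟨v, hv1, hv2⟩ := (Filter.Eventually.and (show ∀ᶠ v in (G : Filter (ℤ → U)), X m v ∈ V from hend) hG2).exists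
  apply hv2
  refine ⟨X m v, ?_, hv1⟩
  have := hXl m v
  have hcm : cs m v = v := by funext t; exact hchm _ _
  rw [hcm] at this
  exact this

end Pool.Agent.V11108.Hyp9
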