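import Pool.Agent.V11106.Nil8

/-! Iterated commutators as multiplicative functions in each slot. -/

namespace Pool.Agent.V11108.N

open Pool.Agent.V11106 Subgroup commutatorElement

section alg

variable {G : Type*} [Group G]

/-- three subgroups lemma modulo a normal subgroup -/
theorem three_le {H₁ H₂ H₃ N : Subgroup G} [N.Normal] (h1 : ⁅⁅H₂, H₃⁆, H₁⁆ ≤ N)
    (h2 : ⁅⁅H₃, H₁⁆, H₂⁆ ≤ N) : ⁅⁅H₁, H₂⁆, H₃⁆ ≤ N := by
  have key : ∀ (A B C : Subgroup G), ⁅⁅A, B⁆, C⁆ ≤ N ↔
      ⁅⁅A.map (QuotientGroup.mk' N), B.map (QuotientGroup.mk' N)⁆,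
        C.map (QuotientGroup.mk' N)⁆ = ⊥ := by
    intro A B C
    rw [← Subgroup.map_commutator, ← Subgroup.map_commutator, Subgroup.map_eq_bot_iff,
      QuotientGroup.ker_mk']
  rw [key] at *
  exact Subgroup.commutator_commutator_eq_bot_of_rotate h1 h2

theorem LC_comm (n : ℕ) : ∀ m, ⁅LC G m, LC G n⁆ ≤ LC G (m + n + 1) := by
  induction n with
  | zero => intro m; exact le_of_eq (LC_succ m).symm
  | succ n ih =>
    intro m
    have h0 : ⁅LC G m, LC G (n + 1)⁆ = ⁅⁅LC G n, (⊤ : Subgroup G)⁆, LC G m⁆ := by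
      rw [Subgroup.commutator_comm, LC_succ n]
    rw [h0]
    refine three_le ?_ ?_
    · rw [Subgroup.commutator_comm ⊤ (LC G m), ← LC_succ m]
      have := ih (m + 1)
      rwa [show m + 1 + n + 1 = m + (n + 1) + 1 by omega] at this
    · have h1 : ⁅⁅LC G m, LC G n⁆, (⊤ : Subgroup G)⁆ ≤ ⁅LC G (m + n + 1), (⊤ : Subgroup G)⁆ :=
        Subgroup.commutator_mono (ih m) le_rfl
      exact h1.trans (le_of_eq (LC_succ (m + n + 1)).symm)

theorem comm_mem_LC {m n l : ℕ} {x y : G} (hx : x ∈ LC G m) (hy : y ∈ LC G n)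
    (hl : l ≤ m + n + 1) : ⁅x, y⁆ ∈ LC G l :=
  LC_anti hl (LC_comm n m (commutator_mem_commutator hx hy))

/-- iterated commutator of `n+1` elements -/
def com : ∀ n : ℕ, (Fin (n + 1) → G) → G
  | 0, x => x 0
  | n + 1, x => ⁅x 0, com n (Fin.tail x)⁆

theorem com_zero (x : Fin 1 → G) : com 0 x = x 0 := rfl

theorem com_succ (n : ℕ) (x : Fin (n + 2) → G) : com (n + 1) x = ⁅x 0, com n (Fin.tail x)⁆ := rfl

theorem com_mem (n : ℕ) : ∀ x : Fin (n + 1) → G, com n x ∈ LC G n := by
  induction n with
  | zero => intro x; exact Subgroup.mem_top _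
  | succ n ih => intro x; rw [com_succ]; exact comm_mem (ih _) _

theorem com_mem_sub (n : ℕ) (H : Subgroup G) :
    ∀ x : Fin (n + 1) → G, (∀ i, x i ∈ H) → com n x ∈ H := by
  induction n with
  | zero => intro x hx; exact hx 0
  | succ n ih =>
    intro x hx
    rw [com_succ, commutatorElement_def]
    have h1 : com n (Fin.tail x) ∈ H := ih _ fun i => hx i.succ
    exact mul_mem (mul_mem (mul_mem (hx 0) h1) (inv_mem (hx 0))) (inv_mem h1)

theorem com_update_one (n : ℕ) : ∀ (x : Fin (n + 1) → G) (i : Fin (n + 1)),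
    com n (Function.update x i 1) = 1 := by
  induction n with
  | zero =>
    intro x i
    have : i = 0 := Fin.ext (by have := i.2; simp only [Fin.val_zero]; omega)
    subst this
    rw [com_zero, Function.update_self]
  | succ n ih =>
    intro x i
    refine Fin.cases ?_ (fun j => ?_) i
    · rw [com_succ, Function.update_self]
      simp [commutatorElement_def]
    · rw [com_succ, Fin.tail_update_succ, ih]
      simp [commutatorElement_def]

theorem com_update_mul (n : ℕ) : ∀ (x : Fin (n + 1) → G) (i : Fin (n + 1)) (a b : G),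
    q (n + 1) (com n (Function.update x i (a * b))) =
      q (n + 1) (com n (Function.update x i a)) * q (n + 1) (com n (Function.update x i b)) := by
  induction n with
  | zero =>
    intro x i a b
    have : i = 0 := Fin.ext (by have := i.2; simp only [Fin.val_zero]; omega)
    subst this
    simp only [com_zero, Function.update_self, map_mul]
  | succ n ih =>
    intro x i a b
    refine Fin.cases ?_ (fun j => ?_) i
    · simp only [com_succ, Function.update_self, Fin.tail_update_zero]
      exact q_comm_mul_left (com_mem n _) a b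
    · simp only [com_succ, Fin.tail_update_succ]
      have h0 : ∀ c : G, Function.update x j.succ c 0 = x 0 := fun c =>
        Function.update_of_ne (Fin.succ_ne_zero j).symm _ _
      simp only [h0]
      have h1 := ih (Fin.tail x) j a b
      rw [← map_mul] at h1
      rw [q_comm_congr (mul_mem (com_mem n _) (com_mem n _)) h1 (x 0),
        q_comm_mul_right (com_mem n _) (com_mem n _)]

theorem closure_com_le (n : ℕ) : Subgroup.closure (Set.range (com (G := G) n)) ≤ LC G n := by
  rw [Subgroup.closure_le]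
  rintro _ ⟨x, rfl⟩
  exact com_mem n x

theorem LC_rep (n : ℕ) : ∀ p ∈ LC G n, ∃ y ∈ Subgroup.closure (Set.range (com (G := G) n)),
    q (n + 1) p = q (n + 1) y := by
  induction n with
  | zero =>
    intro p _
    exact ⟨p, Subgroup.subset_closure ⟨fun _ => p, rfl⟩, rfl⟩
  | succ n ih =>
    have claim : ∀ g : G, ∀ y ∈ Subgroup.closure (Set.range (com (G := G) n)),
        ∃ z ∈ Subgroup.closure (Set.range (com (G := G) (n + 1))),
          q (n + 2) ⁅g, y⁆ = q (n + 2) z := by
      intro g y hy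
      induction hy using Subgroup.closure_induction with
      | mem y hy =>
        obtain ⟨x, rfl⟩ := hy
        refine ⟨com (n + 1) (Fin.cons g x), Subgroup.subset_closure ⟨_, rfl⟩, ?_⟩
        rw [com_succ, Fin.cons_zero, Fin.tail_cons]
      | one => exact ⟨1, one_mem _, by rw [q_comm_one_right, map_one]⟩
      | mul x y hx hy h1 h2 =>
        obtain ⟨z, hz, hz2⟩ := h1
        obtain ⟨w, hw, hw2⟩ := h2
        refine ⟨z * w, mul_mem hz hw, ?_⟩
        rw [q_comm_mul_right (closure_com_le n hx) (closure_com_le n hy), hz2, hw2, map_mul]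
      | inv x hx h1 =>
        obtain ⟨z, hz, hz2⟩ := h1
        exact ⟨z⁻¹, inv_mem hz, by rw [q_comm_inv_right (closure_com_le n hx), hz2, map_inv]⟩
    intro p hp
    have hp' : p ∈ Subgroup.closure {x | ∃ p ∈ LC G n, ∃ g ∈ (⊤ : Subgroup G), ⁅p, g⁆ = x} :=
      (Subgroup.mem_lowerCentralSeries_succ_iff (⊤ : Subgroup G) n p).1 hp
    clear hp
    induction hp' using Subgroup.closure_induction with
    | mem x hx =>
      obtain ⟨p, hp, g, -, rfl⟩ := hx
      obtain ⟨y, hy, hy2⟩ := ih p hp
      obtain ⟨z, hz, hz2⟩ := claim g y hy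
      refine ⟨z⁻¹, inv_mem hz, ?_⟩
      rw [← commutatorElement_inv, map_inv, map_inv, q_comm_congr (closure_com_le n hy) hy2 g, hz2]
    | one => exact ⟨1, one_mem _, rfl⟩
    | mul x y _ _ h1 h2 =>
      obtain ⟨z, hz, hz2⟩ := h1
      obtain ⟨w, hw, hw2⟩ := h2
      exact ⟨z * w, mul_mem hz hw, by rw [map_mul, map_mul, hz2, hw2]⟩
    | inv x _ h1 =>
      obtain ⟨z, hz, hz2⟩ := h1
      exact ⟨z⁻¹, inv_mem hz, by rw [map_inv, map_inv, hz2]⟩

theorem mem_congr {m : ℕ} {M : Subgroup G} (hM : LC G m ≤ M) {x y : G} (h : q m x = q m y)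
    (hy : y ∈ M) : x ∈ M := by
  have h2 : x = (x * y⁻¹) * y := by group
  rw [h2]
  exact mul_mem (hM (q_eq.1 h)) hy

theorem LC_le_of_com {n : ℕ} {M : Subgroup G} (hM : LC G (n + 1) ≤ M) (h : ∀ x, com n x ∈ M) :
    LC G n ≤ M := by
  intro p hp
  obtain ⟨y, hy, hy2⟩ := LC_rep n p hp
  refine mem_congr hM hy2 ?_
  have : Subgroup.closure (Set.range (com (G := G) n)) ≤ M := by
    rw [Subgroup.closure_le]
    rintro _ ⟨x, rfl⟩
    exact h x
  exact this hy

theorem continuous_com [TopologicalSpace G] [IsTopologicalGroup G] (n : ℕ) :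
    Continuous (com (G := G) n) := by
  induction n with
  | zero => exact continuous_apply 0
  | succ n ih =>
    have h1 : Continuous (fun x : Fin (n + 2) → G => com n (Fin.tail x)) := by
      refine ih.comp ?_
      exact continuous_pi fun i => continuous_apply _
    have h2 : com (G := G) (n + 1) = fun x =>
        x 0 * com n (Fin.tail x) * (x 0)⁻¹ * (com n (Fin.tail x))⁻¹ := by
      funext x; rw [com_succ, commutatorElement_def]
    rw [h2]
    fun_prop

end alg

end Pool.Agent.V11108.N
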