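import Pool.Agent.V11108.N8

/-! Lattice, nilpotency and functions for the group `PG`. -/

namespace Pool.Agent.V11108.N

open Filter Topology commutatorElement
open scoped Manifold ContDiff

theorem sft_int {d : ℕ} {ι : Type} {m : ℤ} {q : PV d ι} (hq : ∀ i j, ∃ z : ℤ, q i j = z) :
    ∀ i j, ∃ z : ℤ, sft (m : ℝ) q i j = z := by
  intro i j
  choose z hz using hq
  refine ⟨∑ l : Fin d, (((l : ℕ).choose i : ℕ) : ℤ) * m ^ ((l : ℕ) - (i : ℕ)) * z l j, ?_⟩
  simp only [sft]
  push_cast
  exact Finset.sum_congr rfl fun l _ => by rw [hz]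

namespace PG

variable {d : ℕ} {ι : Type}

/-- the lattice of integer points -/
def lat (d : ℕ) (ι : Type) : Subgroup (PG d ι) where
  carrier := {a | (∃ m : ℤ, a.v.1 = m) ∧ ∀ i j, ∃ z : ℤ, a.v.2 i j = z}
  mul_mem' := by
    rintro a b ⟨⟨m, hm⟩, ha⟩ ⟨⟨n, hn⟩, hb⟩
    refine ⟨⟨m + n, by rw [mul_v, hm, hn]; push_cast; ring⟩, fun i j => ?_⟩
    obtain ⟨z, hz⟩ := ha i j
    obtain ⟨w, hw⟩ := sft_int (m := m) hb i j
    refine ⟨z + w, ?_⟩
    rw [mul_v, hm]
    push_cast
    rw [← hz, ← hw]; rfl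
  one_mem' := ⟨⟨0, by rw [one_v]; simp⟩, fun i j => ⟨0, by rw [one_v]; simp⟩⟩
  inv_mem' := by
    rintro a ⟨⟨m, hm⟩, ha⟩
    refine ⟨⟨-m, by rw [inv_v, hm]; push_cast; ring⟩, fun i j => ?_⟩
    obtain ⟨w, hw⟩ := sft_int (m := -m) ha i j
    refine ⟨-w, ?_⟩
    rw [inv_v, hm]
    push_cast at hw ⊢
    rw [← hw]; rfl

theorem mem_lat {a : PG d ι} : a ∈ lat d ι ↔
    (∃ m : ℤ, a.v.1 = m) ∧ ∀ i j, ∃ z : ℤ, a.v.2 i j = z := Iff.rfl

section top

variable [Fintype ι]

instance : DiscreteTopology (lat d ι) := by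
  refine discreteTopology_of_isOpen_singleton_one ?_
  have hU : IsOpen {a : lat d ι | ‖(a : PG d ι).v‖ < 1} := by
    have hc : Continuous (fun a : lat d ι => ‖(a : PG d ι).v‖) :=
      (continuous_v.comp continuous_subtype_val).norm
    exact isOpen_lt hc continuous_const
  have : ({1} : Set (lat d ι)) = {a : lat d ι | ‖(a : PG d ι).v‖ < 1} := by
    ext a
    simp only [Set.mem_singleton_iff, Set.mem_ofPred_eq]
    constructor
    · rintro rfl
      change ‖((0, 0) : ℝ × PV d ι)‖ < 1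
      rw [show ((0, 0) : ℝ × PV d ι) = 0 from rfl, norm_zero]
      exact one_pos
    · intro h
      obtain ⟨⟨m, hm⟩, ha⟩ := a.2
      have h1 : ‖(a : PG d ι).v.1‖ < 1 := (norm_fst_le _).trans_lt h
      have h2 : ‖(a : PG d ι).v.2‖ < 1 := (norm_snd_le _).trans_lt h
      have hz : ∀ (x : ℝ) (z : ℤ), x = z → ‖x‖ < 1 → x = 0 := by
        intro x z hx hx1
        rw [hx, Real.norm_eq_abs, ← Int.cast_abs] at hx1
        have : |z| < 1 := by exact_mod_cast hx1
        rw [Int.abs_lt_one_iff] at this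
        rw [hx, this]; simp
      refine Subtype.ext (ext' ?_ ?_)
      · exact hz _ m hm h1
      · funext i j
        obtain ⟨z, hz2⟩ := ha i j
        refine hz _ z hz2 ?_
        exact ((norm_le_pi_norm _ j).trans (norm_le_pi_norm _ i)).trans_lt h2
  rw [this]
  exact hU

instance : CompactSpace (PG d ι ⧸ lat d ι) := by
  set K : Set (ℝ × PV d ι) := Set.Icc 0 1 ×ˢ Set.pi Set.univ fun _ => Set.pi Set.univ fun _ =>
    Set.Icc 0 1 with hK
  have hKc : IsCompact K := isCompact_Icc.prod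
    (isCompact_univ_pi fun _ => isCompact_univ_pi fun _ => isCompact_Icc)
  set f : ℝ × PV d ι → PG d ι ⧸ lat d ι := fun x =>
    QuotientGroup.mk (mk (x.1, 0) * mk (0, x.2)) with hf
  have hfc : Continuous f := by
    refine QuotientGroup.continuous_mk.comp ?_
    exact (continuous_mk.comp (by fun_prop)).mul (continuous_mk.comp (by fun_prop))
  have himg : f '' K = Set.univ := by
    rw [Set.eq_univ_iff_forall]
    intro y
    obtain ⟨a, rfl⟩ := QuotientGroup.mk_surjective y
    set m : ℤ := ⌊a.v.1⌋ with hm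
    set p : PV d ι := sft (m : ℝ) (sft (-a.v.1) a.v.2) with hp
    refine ⟨(a.v.1 - m, fun i j => p i j - ⌊p i j⌋), ?_, ?_⟩
    · refine ⟨⟨?_, ?_⟩, fun i _ j _ => ⟨?_, ?_⟩⟩
      · simp only; have := Int.floor_le a.v.1; rw [hm]; linarith
      · simp only; have := Int.lt_floor_add_one a.v.1; rw [hm]; linarith
      · simp only; have := Int.floor_le (p i j); linarith
      · simp only; have := Int.lt_floor_add_one (p i j); linarith
    · simp only [hf]
      rw [QuotientGroup.eq]
      -- a = (s,0)(0,r)(0,q)(m,0)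
      have e : (mk (a.v.1 - m, 0) * mk (0, fun i j => p i j - ⌊p i j⌋) : PG d ι)⁻¹ * a =
          mk (0, fun i j => (⌊p i j⌋ : ℝ)) * mk ((m : ℝ), 0) := by
        rw [inv_mul_eq_iff_eq_mul]
        refine ext' ?_ ?_
        · simp only [mul_v, v_mk]; ring
        · simp only [mul_v, v_mk, sft_zero_right, add_zero, zero_add]
          rw [← sft_add]
          have h1 : (fun i j => p i j - (⌊p i j⌋ : ℝ)) + (fun i j => (⌊p i j⌋ : ℝ)) = p := by
            funext i j; simp
          rw [h1, hp, sft_sft, sft_sft]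
          rw [show a.v.1 - (m : ℝ) + (m : ℝ) + -a.v.1 = 0 by ring, sft_zero_left]
      rw [e]
      refine mul_mem ?_ ?_
      · exact ⟨⟨0, by rw [v_mk]; simp⟩, fun i j => ⟨⌊p i j⌋, rfl⟩⟩
      · exact ⟨⟨m, rfl⟩, fun i j => ⟨0, by rw [v_mk]; simp⟩⟩
  refine ⟨?_⟩
  rw [← himg]
  exact hKc.image hfc

end top

section nil

theorem sft_vanish {t : ℝ} {q : PV d ι} {L : ℕ} (hq : ∀ (l : Fin d) (j : ι), L ≤ (l : ℕ) → q l j = 0)
    (i : Fin d) (j : ι) (hi : L ≤ (i : ℕ) + 1) : sft t q i j = q i j := by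
  simp only [sft]
  rw [Finset.sum_eq_single i]
  · simp
  · intro l _ hl
    rcases lt_or_gt_of_ne hl with h | h
    · rw [Nat.choose_eq_zero_of_lt (by exact_mod_cast h)]; simp
    · have h2 : (i : ℕ) < l := h
      rw [hq l j (by omega), mul_zero]
  · intro h; exact absurd (Finset.mem_univ _) h

/-- the descending filtration -/
def fil (d : ℕ) (ι : Type) (m : ℕ) : Subgroup (PG d ι) where
  carrier := {a | (1 ≤ m → a.v.1 = 0) ∧ ∀ (i : Fin d) (j : ι), d ≤ (i : ℕ) + m → a.v.2 i j = 0}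
  mul_mem' := by
    rintro a b ⟨ha1, ha2⟩ ⟨hb1, hb2⟩
    refine ⟨fun hm => by rw [mul_v]; simp only; rw [ha1 hm, hb1 hm, add_zero], fun i j hij => ?_⟩
    have hm : 1 ≤ m := by have := i.2; omega
    rw [mul_v, ha1 hm]
    simp only [sft_zero_left, Pi.add_apply]
    rw [ha2 i j hij, hb2 i j hij, add_zero]
  one_mem' := ⟨fun _ => rfl, fun _ _ _ => rfl⟩
  inv_mem' := by
    rintro a ⟨ha1, ha2⟩
    refine ⟨fun hm => by rw [inv_v]; simp only; rw [ha1 hm, neg_zero], fun i j hij => ?_⟩
    have hm : 1 ≤ m := by have := i.2; omega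
    rw [inv_v, ha1 hm]
    simp only [neg_zero, sft_zero_left, Pi.neg_apply]
    rw [ha2 i j hij, neg_zero]

theorem comm_fil {m : ℕ} {a b : PG d ι} (ha : a ∈ fil d ι m) : ⁅a, b⁆ ∈ fil d ι (m + 1) := by
  obtain ⟨ha1, ha2⟩ := ha
  set c := ⁅a, b⁆ with hc
  have h : c * (b * a) = a * b := by rw [hc, commutatorElement_def]; group
  have h1 := congrArg (fun x : PG d ι => x.v.1) h
  have h2 := congrArg (fun x : PG d ι => x.v.2) h
  simp only [mul_v] at h1 h2
  have hc1 : c.v.1 = 0 := by linarith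
  rw [hc1, sft_zero_left] at h2
  refine ⟨fun _ => hc1, fun i j hij => ?_⟩
  have h3 := congrFun (congrFun h2 i) j
  simp only [Pi.add_apply] at h3
  rcases Nat.eq_zero_or_pos m with rfl | hm
  · have e1 : sft a.v.1 b.v.2 i j = b.v.2 i j :=
      sft_vanish (L := d) (fun l _ hl => absurd l.2 (by omega)) i j (by omega)
    have e2 : sft b.v.1 a.v.2 i j = a.v.2 i j :=
      sft_vanish (L := d) (fun l _ hl => absurd l.2 (by omega)) i j (by omega)
    rw [e1, e2] at h3
    linarith
  · have e1 : sft a.v.1 b.v.2 i j = b.v.2 i j := by rw [ha1 hm, sft_zero_left]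
    have e2 : sft b.v.1 a.v.2 i j = a.v.2 i j :=
      sft_vanish (L := d - m) (fun l j hl => ha2 l j (by omega)) i j (by omega)
    rw [e1, e2] at h3
    linarith

theorem lcs_le_fil (m : ℕ) : (⊤ : Subgroup (PG d ι)).lowerCentralSeries m ≤ fil d ι m := by
  induction m with
  | zero =>
    intro a _
    refine ⟨fun h => absurd h (by omega), fun i j hij => absurd i.2 (by omega)⟩
  | succ m ih =>
    rw [Subgroup.lowerCentralSeries_succ, Subgroup.commutator_le]
    intro a ha b _
    exact comm_fil (ih ha)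

theorem lcs_eq_bot (hd : 1 ≤ d) : (⊤ : Subgroup (PG d ι)).lowerCentralSeries d = ⊥ := by
  rw [eq_bot_iff]
  intro a ha
  obtain ⟨h1, h2⟩ := lcs_le_fil d ha
  rw [Subgroup.mem_bot]
  refine ext' (h1 hd) ?_
  funext i j
  exact h2 i j (by omega)

end nil

section fn

/-- a continuous cut-off of the distance to the nearest integer -/
noncomputable def cut (y : ℝ) : ℝ := max 0 (min 1 (4 * ‖(y : UnitAddCircle)‖ - 1 / 2))

theorem continuous_cut : Continuous cut := by
  unfold cut
  have h1 : Continuous (fun y : ℝ => ‖(y : UnitAddCircle)‖) :=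
    continuous_norm.comp (AddCircle.continuous_mk' 1)
  fun_prop

theorem cut_add_int (y : ℝ) (z : ℤ) : cut (y + z) = cut y := by
  have : ((y + z : ℝ) : UnitAddCircle) = (y : UnitAddCircle) := by
    rw [AddCircle.coe_add]
    have : ((z : ℝ) : UnitAddCircle) = 0 := by
      rw [AddCircle.coe_eq_zero_iff]
      exact ⟨z, by simp⟩
    rw [this, add_zero]
  rw [cut, cut, this]

theorem cut_nonneg (y : ℝ) : 0 ≤ cut y := le_max_left _ _

theorem cut_le_one (y : ℝ) : cut y ≤ 1 := max_le zero_le_one (min_le_left _ _)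

theorem cut_near_zero {y : ℝ} (h : near y 0 (1 / 8)) : cut y = 0 := by
  obtain ⟨z, hz⟩ := h
  rw [sub_zero] at hz
  have h1 : ‖(y : UnitAddCircle)‖ ≤ 1 / 8 := by
    rw [UnitAddCircle.norm_eq]
    exact (round_le y z).trans hz
  rw [cut]
  refine max_eq_left ((min_le_right _ _).trans ?_)
  linarith

theorem cut_near_half {y : ℝ} (h : near y (1 / 2) (1 / 8)) : cut y = 1 := by
  obtain ⟨z, hz⟩ := h
  have h1 : 3 / 8 ≤ ‖(y : UnitAddCircle)‖ := by
    rw [UnitAddCircle.norm_eq]
    by_contra hcon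
    rw [not_le] at hcon
    rw [abs_lt] at hcon
    rw [abs_le] at hz
    have e1 : (z : ℝ) < round y := by linarith [hcon.1, hcon.2, hz.1, hz.2]
    have e2 : (round y : ℝ) < z + 1 := by linarith [hcon.1, hcon.2, hz.1, hz.2]
    have e3 : z < round y := by exact_mod_cast e1
    have e4 : round y < z + 1 := by exact_mod_cast e2
    omega
  rw [cut, min_eq_left (by linarith)]
  exact max_eq_right zero_le_one

/-- weight vanishing at half-integers -/
noncomputable def wt (t : ℝ) : ℝ := 1 - 2 * ‖(t : UnitAddCircle)‖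

theorem continuous_wt : Continuous wt := by
  unfold wt
  have h1 : Continuous (fun y : ℝ => ‖(y : UnitAddCircle)‖) :=
    continuous_norm.comp (AddCircle.continuous_mk' 1)
  fun_prop

theorem wt_eq (t : ℝ) : wt t = 1 - 2 * |t - round t| := by rw [wt, UnitAddCircle.norm_eq]

theorem wt_nonneg (t : ℝ) : 0 ≤ wt t := by
  rw [wt_eq]; have := abs_sub_round t; linarith

/-- the function on the group -/
noncomputable def fn (j : ι) (a : PG d ι) : ℝ := wt a.v.1 * cut (ev a.v.2 (round a.v.1 - a.v.1) j)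

theorem fn_mul_lat (j : ι) (a : PG d ι) {b : PG d ι} (hb : b ∈ lat d ι) :
    fn j (a * b) = fn j a := by
  obtain ⟨⟨m, hm⟩, hb2⟩ := hb
  simp only [fn, mul_v, hm]
  have h1 : round (a.v.1 + (m : ℝ)) = round a.v.1 + m := round_add_intCast _ _
  have h2 : wt (a.v.1 + m) = wt a.v.1 := by
    rw [wt_eq, wt_eq, h1]; push_cast; congr 3; ring
  rw [h2, h1]
  push_cast
  rw [show (round a.v.1 : ℝ) + m - (a.v.1 + m) = round a.v.1 - a.v.1 by ring, ev_add, ev_sft,
    sub_add_cancel]
  obtain ⟨z, hz⟩ : ∃ z : ℤ, ev b.v.2 (round a.v.1 : ℝ) j = z := by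
    choose z hz using hb2
    refine ⟨∑ i : Fin d, z i j * (round a.v.1) ^ (i : ℕ), ?_⟩
    simp only [ev]
    push_cast
    exact Finset.sum_congr rfl fun i _ => by rw [hz]
  rw [hz, cut_add_int]

theorem continuous_ev [Fintype ι] {X : Type*} [TopologicalSpace X] {f : X → PV d ι} {g : X → ℝ}
    (hf : Continuous f) (hg : Continuous g) (j : ι) : Continuous (fun x => ev (f x) (g x) j) := by
  simp only [ev]
  refine continuous_finsetSum _ fun i _ => ?_
  have : Continuous (fun x => f x i j) := (continuous_apply j).comp ((continuous_apply i).comp hf)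
  exact this.mul (hg.pow _)

theorem continuous_fn [Fintype ι] (j : ι) : Continuous (fn j : PG d ι → ℝ) := by
  rw [continuous_iff_continuousAt]
  intro a
  have hv1 : Continuous (fun b : PG d ι => b.v.1) := continuous_fst.comp continuous_v
  have hv2 : Continuous (fun b : PG d ι => b.v.2) := continuous_snd.comp continuous_v
  have hwc : Continuous (fun b : PG d ι => wt b.v.1) := continuous_wt.comp hv1
  rcases (wt_nonneg a.v.1).eq_or_lt with h0 | h0
  · -- weight zero
    have hfa : fn j a = 0 := by rw [fn, ← h0, zero_mul]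
    rw [ContinuousAt, hfa]
    have hw0 : Tendsto (fun b : PG d ι => wt b.v.1) (𝓝 a) (𝓝 0) := by
      have := hwc.tendsto a
      rwa [← h0] at this
    refine squeeze_zero (fun b => mul_nonneg (wt_nonneg _) (cut_nonneg _)) (fun b => ?_) hw0
    exact mul_le_of_le_one_right (wt_nonneg _) (cut_le_one _)
  · -- locally constant round
    rw [wt_eq] at h0
    have hlt : |a.v.1 - round a.v.1| < 1 / 2 := by linarith
    have hev : ∀ᶠ b : PG d ι in 𝓝 a, |b.v.1 - (round a.v.1 : ℝ)| < 1 / 2 := by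
      have hc : Continuous (fun b : PG d ι => |b.v.1 - (round a.v.1 : ℝ)|) := by fun_prop
      exact hc.continuousAt.eventually_lt continuousAt_const hlt
    have heq : ∀ᶠ b : PG d ι in 𝓝 a, wt b.v.1 * cut (ev b.v.2 ((round a.v.1 : ℝ) - b.v.1) j) = fn j b := by
      filter_upwards [hev] with b hb
      have hr : round b.v.1 = round a.v.1 := by
        have h1 := abs_sub_round b.v.1
        rw [abs_le] at h1
        rw [abs_lt] at hb
        have e1 : (round b.v.1 : ℝ) < round a.v.1 + 1 := by linarith [h1.1, h1.2, hb.1, hb.2]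
        have e2 : (round a.v.1 : ℝ) < round b.v.1 + 1 := by linarith [h1.1, h1.2, hb.1, hb.2]
        have e3 : round b.v.1 < round a.v.1 + 1 := by exact_mod_cast e1
        have e4 : round a.v.1 < round b.v.1 + 1 := by exact_mod_cast e2
        omega
      simp only [fn, hr]
    refine ContinuousAt.congr (Continuous.continuousAt ?_) heq
    exact hwc.mul (continuous_cut.comp (continuous_ev hv2 (continuous_const.sub hv1) j))

/-- the function on the nilmanifold -/
noncomputable def qfn (d : ℕ) {ι : Type} (j : ι) : PG d ι ⧸ lat d ι → ℝ :=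
  Quotient.lift (fn j) (by
    intro a b hab
    have h : a⁻¹ * b ∈ lat d ι := QuotientGroup.leftRel_apply.1 hab
    have : b = a * (a⁻¹ * b) := by group
    rw [this, fn_mul_lat j a h])

theorem qfn_mk (j : ι) (a : PG d ι) : qfn d j (QuotientGroup.mk a) = fn j a := rfl

theorem continuous_qfn [Fintype ι] (j : ι) : Continuous (qfn d j) :=
  (continuous_fn j).quotient_lift _

theorem fn_nonneg (j : ι) (a : PG d ι) : 0 ≤ fn j a := mul_nonneg (wt_nonneg _) (cut_nonneg _)

theorem fn_le_one (j : ι) (a : PG d ι) : fn j a ≤ 1 := by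
  have h1 : wt a.v.1 ≤ 1 := by
    rw [wt_eq]; have := abs_nonneg (a.v.1 - round a.v.1); linarith
  exact mul_le_one₀ h1 (cut_nonneg _) (cut_le_one _)

theorem qfn_nonneg (j : ι) (x : PG d ι ⧸ lat d ι) : 0 ≤ qfn d j x := by
  obtain ⟨a, rfl⟩ := QuotientGroup.mk_surjective x
  exact fn_nonneg j a

theorem qfn_le_one (j : ι) (x : PG d ι ⧸ lat d ι) : qfn d j x ≤ 1 := by
  obtain ⟨a, rfl⟩ := QuotientGroup.mk_surjective x
  exact fn_le_one j a

end fn

section orbit

/-- coefficients of `α ((x + n) ^ d - x ^ d)` -/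
def cf (d : ℕ) {ι : Type} (α : ι → ℝ) (n : ℝ) : PV d ι := fun i j =>
  α j * (n ^ (d - (i : ℕ)) * ((d.choose i : ℕ) : ℝ))

theorem ev_cf (α : ι → ℝ) (n x : ℝ) (j : ι) : ev (cf d α n) x j = α j * ((x + n) ^ d - x ^ d) := by
  have h := add_pow x n d
  rw [Finset.sum_range_succ] at h
  simp only [Nat.sub_self, pow_zero, mul_one, Nat.choose_self, Nat.cast_one] at h
  rw [h, add_sub_cancel_right]
  simp only [ev, cf]
  rw [Finset.mul_sum, ← Fin.sum_univ_eq_sum_range (fun i => α j * (x ^ i * n ^ (d - i) *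
    ((d.choose i : ℕ) : ℝ))) d]
  exact Finset.sum_congr rfl fun i _ => by ring

/-- the element with `gen α n = (gen α 1) ^ n` -/
def gen (d : ℕ) {ι : Type} (α : ι → ℝ) (n : ℝ) : PG d ι := mk (n, cf d α n)

theorem gen_mul (α : ι → ℝ) (m n : ℝ) : gen d α m * gen d α n = gen d α (m + n) := by
  refine ext' rfl ?_
  refine ev_inj fun x j => ?_
  simp only [gen, mul_v, v_mk, ev_add, ev_sft, ev_cf]
  rw [show x + m + n = x + (m + n) by ring]
  ring

theorem gen_pow (α : ι → ℝ) (n : ℕ) : (gen d α 1) ^ n = gen d α n := by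
  induction n with
  | zero =>
    rw [pow_zero]
    refine ext' (by simp [gen, v_mk, one_v]) ?_
    refine ev_inj fun x j => ?_
    simp only [gen, v_mk, one_v, ev_cf, ev_zero]
    simp
  | succ n ih => rw [pow_succ, ih, gen_mul]; push_cast; rfl

theorem fn_gen (hd : 1 ≤ d) (α : ι → ℝ) (n : ℕ) (j : ι) :
    fn j (gen d α n) = cut (α j * (n : ℝ) ^ d) := by
  simp only [fn, gen, v_mk]
  have h1 : round (n : ℝ) = (n : ℤ) := round_natCast n
  have h2 : wt (n : ℝ) = 1 := by rw [wt_eq, h1]; simp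
  rw [h2, one_mul, h1, ev_cf]
  congr 1
  push_cast
  rw [sub_self, zero_add, zero_pow (by omega), sub_zero]

theorem qfn_orbit (hd : 1 ≤ d) (α : ι → ℝ) (n : ℕ) (j : ι) :
    qfn d j ((gen d α 1) ^ n • (QuotientGroup.mk (1 : PG d ι) : PG d ι ⧸ lat d ι)) =
      cut (α j * (n : ℝ) ^ d) := by
  have : (gen d α 1) ^ n • (QuotientGroup.mk (1 : PG d ι) : PG d ι ⧸ lat d ι) =
      QuotientGroup.mk (gen d α n) := by
    rw [gen_pow]
    change QuotientGroup.mk (gen d α n * 1) = _
    rw [mul_one]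
  rw [this, qfn_mk, fn_gen hd]

end orbit

end PG

end Pool.Agent.V11108.N
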