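import Pool.Agent.V11108.N6
import Pool.Agent.V11108.N9

/-! The two halves: interpolation by `d`-step data, and failure for `(d-1)`-step data. -/

namespace Pool.Agent.V11108.N

open Filter Topology
open scoped Manifold ContDiff

/-- sums of `d` distinct terms of `s` -/
def sums (s : ℕ → ℕ) (d : ℕ) : Set ℕ := {n | ∃ I : Finset ℕ, I.card = d ∧ n = ∑ i ∈ I, s i}

/-- binary digit -/
noncomputable def bd (y : ℝ) (j : ℕ) : ℤ := ⌊2 ^ (j + 1) * y⌋ - 2 * ⌊2 ^ j * y⌋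

theorem bd_mem (y : ℝ) (j : ℕ) : bd y j = 0 ∨ bd y j = 1 := by
  have h1 := Int.floor_le (2 ^ j * y)
  have h2 := Int.lt_floor_add_one (2 ^ j * y)
  have h3 := Int.floor_le (2 ^ (j + 1) * y)
  have h4 := Int.lt_floor_add_one (2 ^ (j + 1) * y)
  have e : (2 : ℝ) ^ (j + 1) * y = 2 * (2 ^ j * y) := by ring
  rw [e] at h3 h4
  have h5 : (⌊2 ^ (j + 1) * y⌋ : ℝ) < 2 * ⌊2 ^ j * y⌋ + 2 := by rw [e]; linarith
  have h6 : (2 * ⌊2 ^ j * y⌋ : ℝ) < ⌊2 ^ (j + 1) * y⌋ + 1 := by rw [e]; linarith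
  have h7 : ⌊2 ^ (j + 1) * y⌋ < 2 * ⌊2 ^ j * y⌋ + 2 := by exact_mod_cast h5
  have h8 : 2 * ⌊2 ^ j * y⌋ < ⌊2 ^ (j + 1) * y⌋ + 1 := by exact_mod_cast h6
  unfold bd
  omega

theorem hasSum_bd {y : ℝ} (h0 : 0 ≤ y) (h1 : y < 1) :
    HasSum (fun j : ℕ => (bd y j : ℝ) / 2 ^ (j + 1)) y := by
  have hpart : ∀ m : ℕ, ∑ j ∈ Finset.range m, (bd y j : ℝ) / 2 ^ (j + 1) =
      (⌊2 ^ m * y⌋ : ℝ) / 2 ^ m := by
    intro m
    induction m with
    | zero =>
      have : ⌊y⌋ = 0 := Int.floor_eq_zero_iff.2 ⟨h0, h1⟩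
      simp [this]
    | succ m ih =>
      rw [Finset.sum_range_succ, ih, bd]
      push_cast
      field_simp
      ring
  rw [hasSum_iff_tendsto_nat_of_nonneg]
  · simp only [hpart]
    have hlow : ∀ m : ℕ, y - (1 / 2 : ℝ) ^ m ≤ (⌊2 ^ m * y⌋ : ℝ) / 2 ^ m := by
      intro m
      have := Int.lt_floor_add_one (2 ^ m * y)
      rw [le_div_iff₀ (by positivity), sub_mul, one_div_pow, one_div_mul_cancel (by positivity)]
      linarith
    have hup : ∀ m : ℕ, (⌊2 ^ m * y⌋ : ℝ) / 2 ^ m ≤ y := by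
      intro m
      have := Int.floor_le (2 ^ m * y)
      rw [div_le_iff₀ (by positivity)]
      linarith
    have hlim : Tendsto (fun m : ℕ => y - (1 / 2 : ℝ) ^ m) atTop (𝓝 y) := by
      have := (tendsto_pow_atTop_nhds_zero_of_lt_one (r := (1 / 2 : ℝ)) (by norm_num)
        (by norm_num)).const_sub y
      simpa using this
    exact tendsto_of_tendsto_of_tendsto_of_le_of_le hlim tendsto_const_nhds hlow hup
  · intro j
    rcases bd_mem y j with h | h <;> rw [h] <;> simp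

/-- scale of a bounded function -/
theorem decomp {S : Set ℕ} {f : ℕ → ℂ} {C : ℝ} (hC : ∀ n ∈ S, ‖f n‖ ≤ C) (hC0 : 0 ≤ C) :
    ∃ (c0 : ℂ) (c : ℕ → Bool → ℂ) (B : ℕ → Bool → Set ℕ),
      (∀ j β, ‖c j β‖ ≤ (2 * C + 1) / 2 ^ (j + 1)) ∧
      ∀ n ∈ S, HasSum (fun j => ∑ β, c j β * ((B j β).indicator 1 n : ℂ)) (f n - c0) := by
  classical
  set y : Bool → ℕ → ℝ := fun β n =>
    ((if β then (f n).im else (f n).re) + C) / (2 * C + 1) with hy
  have hy01 : ∀ β, ∀ n ∈ S, 0 ≤ y β n ∧ y β n < 1 := by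
    intro β n hn
    have h1 := hC n hn
    have h2 : |if β then (f n).im else (f n).re| ≤ C := by
      split_ifs
      · exact (Complex.abs_im_le_norm _).trans h1
      · exact (Complex.abs_re_le_norm _).trans h1
    rw [abs_le] at h2
    constructor
    · exact div_nonneg (by linarith) (by linarith)
    · rw [div_lt_one (by linarith)]
      linarith
  set u : Bool → ℂ := fun β => if β then Complex.I else 1 with hu
  refine ⟨-(C : ℂ) - C * Complex.I, fun j β => ((2 * C + 1 : ℝ) : ℂ) / 2 ^ (j + 1) * u β,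
    fun j β => {n | bd (y β n) j = 1}, ?_, ?_⟩
  · intro j β
    have hu1 : ‖u β‖ = 1 := by
      simp only [hu]; split_ifs <;> simp
    rw [norm_mul, hu1, mul_one, norm_div, Complex.norm_real, norm_pow, Real.norm_eq_abs,
      abs_of_nonneg (by linarith)]
    simp
  · intro n hn
    have h1 : ∀ β, HasSum (fun j : ℕ => ((2 * C + 1 : ℝ) : ℂ) / 2 ^ (j + 1) * u β *
        (({n | bd (y β n) j = 1} : Set ℕ).indicator 1 n : ℂ))
        (((2 * C + 1 : ℝ) : ℂ) * u β * (y β n : ℂ)) := by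
      intro β
      have h2 := hasSum_bd (hy01 β n hn).1 (hy01 β n hn).2
      have h3 := (Complex.hasSum_ofReal.2 h2).mul_left (((2 * C + 1 : ℝ) : ℂ) * u β)
      have e : (fun j : ℕ => ((2 * C + 1 : ℝ) : ℂ) / 2 ^ (j + 1) * u β *
          (({n | bd (y β n) j = 1} : Set ℕ).indicator 1 n : ℂ)) = fun j =>
          ((2 * C + 1 : ℝ) : ℂ) * u β * (((bd (y β n) j : ℝ) / 2 ^ (j + 1) : ℝ) : ℂ) := by
        funext j
        rcases bd_mem (y β n) j with h | h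
        · rw [Set.indicator_of_notMem (by
            change ¬ (bd (y β n) j = 1)
            rw [h]; norm_num)]
          simp [h]
        · rw [Set.indicator_of_mem (show n ∈ {n | bd (y β n) j = 1} from h)]
          simp only [h, Pi.one_apply, mul_one]
          push_cast
          ring
      rw [e]
      exact h3
    have h2 := hasSum_sum (s := Finset.univ) (fun β _ => h1 β)
    have e : ∑ β, ((2 * C + 1 : ℝ) : ℂ) * u β * (y β n : ℂ) = f n - (-(C : ℂ) - C * Complex.I) := by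
      rw [Fintype.sum_bool]
      simp only [hu, hy, if_true, Bool.false_eq_true, if_false]
      have hne : ((2 * C + 1 : ℝ) : ℂ) ≠ 0 := by
        rw [Ne, Complex.ofReal_eq_zero]; linarith
      conv_rhs => rw [← Complex.re_add_im (f n)]
      push_cast at hne ⊢
      field_simp
      ring
    rw [e] at h2
    exact h2

theorem pos {d : ℕ} {s : ℕ → ℕ}
    (hs : ∀ A : Set (Finset ℕ), ∃ α : ℝ, ∀ I : Finset ℕ, I.card = d →
      (I ∈ A → near (α * ((∑ i ∈ I, s i : ℕ) : ℝ) ^ d) (1 / 2) (1 / 8)) ∧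
      (I ∉ A → near (α * ((∑ i ∈ I, s i : ℕ) : ℝ) ^ d) 0 (1 / 8)))
    {f : ℕ → ℂ} {C : ℝ} (hC : ∀ n ∈ sums s d, ‖f n‖ ≤ C) (hC0 : 0 ≤ C) :
    ∃ (c0 : ℂ) (c : ℕ → Bool → ℂ) (α : ℕ → Bool → ℝ),
      (∀ j β, ‖c j β‖ ≤ (2 * C + 1) / 2 ^ (j + 1)) ∧
      ∀ n ∈ sums s d, HasSum (fun j => ∑ β, c j β * (PG.cut (α j β * (n : ℝ) ^ d) : ℂ))
        (f n - c0) := by
  obtain ⟨c0, c, B, hc, hB⟩ := decomp hC hC0
  choose α hα using fun (j : ℕ) (β : Bool) => hs {I | ∑ i ∈ I, s i ∈ B j β}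
  refine ⟨c0, c, α, hc, fun n hn => ?_⟩
  have e : ∀ j β, (PG.cut (α j β * (n : ℝ) ^ d) : ℂ) = (B j β).indicator 1 n := by
    intro j β
    obtain ⟨I, hI, rfl⟩ := hn
    by_cases h : ∑ i ∈ I, s i ∈ B j β
    · rw [Set.indicator_of_mem h, PG.cut_near_half ((hα j β I hI).1 h)]; simp
    · rw [Set.indicator_of_notMem h, PG.cut_near_zero ((hα j β I hI).2 h)]; simp
  simp only [e]
  exact hB n hn

theorem neg {k : ℕ} (hk1 : 1 ≤ k) {s : ℕ → ℕ}
    (hinj : ∀ I I' : Finset ℕ, ∑ i ∈ I, s i = ∑ i ∈ I', s i → I = I') :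
    ∃ f : ℕ → ℂ, (∀ n, ‖f n‖ ≤ 1) ∧
    ∀ {E : Type} [NormedAddCommGroup E] [NormedSpace ℝ E] [FiniteDimensional ℝ E]
      {G : Type} [TopologicalSpace G] [T2Space G] [ChartedSpace E G] [Group G]
      [LieGroup 𝓘(ℝ, E) ∞ G] (_ : (⊤ : Subgroup G).lowerCentralSeries k = ⊥)
      (Γ : Subgroup G) [DiscreteTopology Γ] [CompactSpace (G ⧸ Γ)] (g : G) (v : G ⧸ Γ)
      {Z : Type} [PseudoMetricSpace Z] (F : G ⧸ Γ → Z) (_ : Continuous F) {ε : ℝ} (_ : 0 < ε),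
      ∃ n ∈ sums s (k + 1), ∃ n' ∈ sums s (k + 1), f n = 1 ∧ f n' = 0 ∧
        dist (F (g ^ n • v)) (F (g ^ n' • v)) < ε := by
  classical
  obtain ⟨A, hA⟩ := core k
  refine ⟨fun n => if ∃ I ∈ A, n = ∑ i ∈ I, s i then 1 else 0, fun n => ?_, ?_⟩
  · simp only
    split_ifs <;> simp
  · intro E _ _ _ G _ _ _ _ _ hk Γ _ _ g v Z _ F hF ε hε
    have hG : IsTopologicalGroup G := topologicalGroup_of_lieGroup 𝓘(ℝ, E) ∞
    have hlc : LocallyCompactSpace G := Manifold.locallyCompact_of_finiteDimensional 𝓘(ℝ, E)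
    have hlcc : LocallyConnectedSpace G := ChartedSpace.locallyConnectedSpace E G
    have hc : CompleteSpace E := FiniteDimensional.complete ℝ E
    have hroot := Pool.Agent.V11106.rooted_nhds (E := E) (G := G)
    obtain ⟨κ, hκ, hpat⟩ := pattern hroot hk1 hk Γ g v F hF hε (k + 1)
    obtain ⟨W, hW⟩ := hA κ
    obtain ⟨c, hc⟩ := hpat s W
    obtain ⟨I, I', hI, hI', hIc, hI'c, hp, h1, h2⟩ := hW c
    refine ⟨∑ i ∈ I, s i, ⟨I, hIc, rfl⟩, ∑ i ∈ I', s i, ⟨I', hI'c, rfl⟩, ?_, ?_,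
      hc I hI I' hI' hIc.le hI'c.le hp⟩
    · simp only
      rw [if_pos ⟨I, h1, rfl⟩]
    · simp only
      rw [if_neg]
      rintro ⟨J, hJ, h3⟩
      exact h2 (hinj _ _ h3 ▸ hJ)

end Pool.Agent.V11108.N
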