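import Pool.Agent.V11108.N1

/-! Multi-slot extension lemma and cocompactness of the lower central series. -/

namespace Pool.Agent.V11108.N

open Pool.Agent.V11106 Subgroup commutatorElement Filter Topology
open scoped Pointwise

variable {G : Type*} [Group G] [TopologicalSpace G] [IsTopologicalGroup G]

theorem ext2 {M : Subgroup G} (hMc : IsClosed (M : Set G)) {m : ℕ} (hLM : LC G m ≤ M)
    {Γ : Subgroup G} {K : Set G} (hK : IsCompact K)
    (hKΓ : ∀ g : G, ∃ a ∈ K, ∃ γ ∈ Γ, g = a * γ)
    (hgen : Subgroup.closure ({c | Rooted c} ∪ (Γ : Set G)) = ⊤) (θ : G → G → G)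
    (h1 : ∀ g g' h, q m (θ (g * g') h) = q m (θ g h) * q m (θ g' h))
    (h2 : ∀ g h h', q m (θ g (h * h')) = q m (θ g h) * q m (θ g h'))
    (h5 : ∀ h, θ 1 h = 1)
    (hc : Continuous (fun p : G × G => θ p.1 p.2))
    (h3 : ∀ γ ∈ Γ, ∀ h, θ γ h ∈ M) (h3' : ∀ g, ∀ γ ∈ Γ, θ g γ ∈ M) : ∀ g h, θ g h ∈ M := by
  have hpow1 : ∀ g h (n : ℕ), q m (θ (g ^ n) h) = q m (θ g h) ^ n := by
    intro g h n
    induction n with
    | zero => rw [pow_zero, pow_zero, h5, map_one]
    | succ n ih => rw [pow_succ, pow_succ, h1, ih]
  have hone : ∀ g, q m (θ g 1) = 1 := by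
    intro g
    have := h2 g 1 1
    rw [mul_one] at this
    exact (mul_eq_left.1 this.symm)
  have hpow2 : ∀ g h (n : ℕ), q m (θ g (h ^ n)) = q m (θ g h) ^ n := by
    intro g h n
    induction n with
    | zero => rw [pow_zero, pow_zero, hone]
    | succ n ih => rw [pow_succ, pow_succ, h2, ih]
  have hroot : ∀ c, Rooted c → ∀ h, θ c h ∈ M := by
    rintro c ⟨f, hf, hf2⟩ h
    choose b hb γ hγ hbγ using fun n : ℕ => hKΓ (h ^ n)
    have hlim : Tendsto (fun n => θ (f n) (b n)) atTop (𝓝 1) := by
      rw [tendsto_def]
      intro U hU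
      obtain ⟨U', hU'U, hU'o, h1U'⟩ := mem_nhds_iff.1 hU
      have ho : IsOpen {p : G × G | θ p.1 p.2 ∈ U'} := hU'o.preimage hc
      obtain ⟨A, B, hA, hB, h1A, hKB, hAB⟩ := generalized_tube_lemma
        (isCompact_singleton (x := (1 : G))) hK ho (by
          rintro ⟨g, y⟩ ⟨hg, hy⟩
          simp only [Set.mem_singleton_iff] at hg
          subst hg
          simpa [h5] using h1U')
      have hAn : A ∈ 𝓝 (1 : G) := hA.mem_nhds (h1A (Set.mem_singleton _))
      filter_upwards [hf.eventually hAn] with n hn
      exact hU'U (hAB (Set.mk_mem_prod hn (hKB (hb n))))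
    have hmem : ∀ᶠ n in atTop, (θ (f n) (b n))⁻¹ * θ c h ∈ M := by
      filter_upwards [hf2] with n hn
      refine mem_congr hLM ?_ (h3' (f n) _ (hγ n))
      have e1 : q m (θ c h) = q m (θ (f n) (b n)) * q m (θ (f n) (γ n)) := by
        rw [← h2, ← hbγ n, hpow2, ← hpow1, hn]
      rw [map_mul, map_inv, e1, inv_mul_cancel_left]
    have hlim2 : Tendsto (fun n => (θ (f n) (b n))⁻¹ * θ c h) atTop (𝓝 (θ c h)) := by
      have := hlim.inv.mul_const (θ c h)
      simpa using this
    exact hMc.mem_of_tendsto hlim2 hmem
  intro g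
  have hg : g ∈ Subgroup.closure ({c : G | Rooted c} ∪ (Γ : Set G)) := by
    rw [hgen]; exact Subgroup.mem_top g
  induction hg using Subgroup.closure_induction with
  | mem x hx =>
    rcases hx with hx | hx
    · exact hroot x hx
    · exact h3 x hx
  | one => intro h; rw [h5]; exact one_mem _
  | mul x y _ _ hx hy =>
    intro h
    exact mem_congr hLM (by rw [h1, map_mul]) (mul_mem (hx h) (hy h))
  | inv x _ hx =>
    intro h
    refine mem_congr hLM (y := (θ x h)⁻¹) ?_ (inv_mem (hx h))
    rw [map_inv, eq_inv_iff_mul_eq_one, ← h1, inv_mul_cancel, h5, map_one]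

theorem ext_multi {n : ℕ} (φ : (Fin (n + 1) → G) → G) {m : ℕ} (hφc : Continuous φ)
    (hmul : ∀ x i a b, q m (φ (Function.update x i (a * b))) =
      q m (φ (Function.update x i a)) * q m (φ (Function.update x i b)))
    (hone : ∀ x i, φ (Function.update x i 1) = 1)
    {M : Subgroup G} (hMc : IsClosed (M : Set G)) (hLM : LC G m ≤ M)
    {Γ : Subgroup G} {K : Set G} (hK : IsCompact K)
    (hKΓ : ∀ g : G, ∃ a ∈ K, ∃ γ ∈ Γ, g = a * γ)
    (hgen : Subgroup.closure ({c | Rooted c} ∪ (Γ : Set G)) = ⊤)
    {S : Set G} (hS : Subgroup.closure S = Γ)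
    (h0 : ∀ x i, (∀ i', i' ≠ i → x i' ∈ S) → φ x ∈ M) : ∀ x, φ x ∈ M := by
  classical
  have step1 : ∀ (F : Finset (Fin (n + 1))) (x : Fin (n + 1) → G) (i : Fin (n + 1)),
      (∀ i', i' ≠ i → i' ∈ F → x i' ∈ Γ) → (∀ i', i' ≠ i → i' ∉ F → x i' ∈ S) → φ x ∈ M := by
    intro F
    induction F using Finset.induction_on with
    | empty =>
      intro x i _ h
      exact h0 x i fun i' hi' => h i' hi' (Finset.notMem_empty _)
    | insert j F hj ih =>
      intro x i hx1 hx2
      by_cases hji : j = i
      · refine ih x i (fun i' hi' hF => hx1 i' hi' (Finset.mem_insert_of_mem hF)) ?_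
        intro i' hi' hF
        refine hx2 i' hi' ?_
        rw [Finset.mem_insert, not_or]
        exact ⟨fun h => hi' (h.trans hji), hF⟩
      · have hxj : x j ∈ Subgroup.closure S := by
          rw [hS]; exact hx1 j hji (Finset.mem_insert_self _ _)
        have key : ∀ y ∈ Subgroup.closure S, φ (Function.update x j y) ∈ M := by
          intro y hy
          induction hy using Subgroup.closure_induction with
          | mem y hy =>
            refine ih _ i ?_ ?_
            · intro i' hi' hF
              have : i' ≠ j := fun h => hj (h ▸ hF)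
              rw [Function.update_of_ne this]
              exact hx1 i' hi' (Finset.mem_insert_of_mem hF)
            · intro i' hi' hF
              by_cases h : i' = j
              · subst h; rw [Function.update_self]; exact hy
              · rw [Function.update_of_ne h]
                refine hx2 i' hi' ?_
                rw [Finset.mem_insert, not_or]
                exact ⟨h, hF⟩
          | one => rw [hone]; exact one_mem _
          | mul a b _ _ ha hb => exact mem_congr hLM (by rw [hmul, map_mul]) (mul_mem ha hb)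
          | inv a _ ha =>
            refine mem_congr hLM (y := (φ (Function.update x j a))⁻¹) ?_ (inv_mem ha)
            rw [map_inv, eq_inv_iff_mul_eq_one, ← hmul, inv_mul_cancel, hone, map_one]
        have := key _ hxj
        rwa [Function.update_eq_self] at this
  have step2 : ∀ (N : ℕ) (F : Finset (Fin (n + 1))), F.card ≤ N → ∀ x : Fin (n + 1) → G,
      (∀ i, i ∉ F → x i ∈ Γ) → φ x ∈ M := by
    intro N
    induction N with
    | zero =>
      intro F hF x hx
      have : F = ∅ := Finset.card_eq_zero.1 (Nat.le_zero.1 hF)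
      subst this
      exact step1 Finset.univ x 0 (fun i' _ _ => hx i' (Finset.notMem_empty _))
        (fun i' _ h => absurd (Finset.mem_univ i') h)
    | succ N ih =>
      intro F hF x hx
      by_cases hF1 : F.card ≤ 1
      · obtain ⟨i, hi⟩ : ∃ i, F ⊆ {i} := by
          rcases Finset.card_le_one_iff_subset_singleton.1 hF1 with ⟨i, hi⟩
          exact ⟨i, hi⟩
        refine step1 Finset.univ x i (fun i' hi' _ => hx i' ?_)
          (fun i' _ h => absurd (Finset.mem_univ i') h)
        intro h
        exact hi' (Finset.mem_singleton.1 (hi h))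
      · obtain ⟨i0, hi0, i1, hi1, hne⟩ := Finset.one_lt_card.1 (not_le.1 hF1)
        have main : ∀ g h, φ (Function.update (Function.update x i0 g) i1 h) ∈ M := by
          refine ext2 hMc hLM hK hKΓ hgen
            (fun g h => φ (Function.update (Function.update x i0 g) i1 h)) ?_ ?_ ?_ ?_ ?_ ?_
          · intro g g' h
            simp only [Function.update_comm hne]
            exact hmul _ _ _ _
          · intro g h h'
            exact hmul _ _ _ _
          · intro h
            simp only [Function.update_comm hne]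
            exact hone _ _
          · refine hφc.comp ?_
            refine continuous_pi fun i => ?_
            by_cases h1 : i = i1
            · subst h1; simp only [Function.update_self]; exact continuous_snd
            · simp only [Function.update_of_ne h1]
              by_cases h2 : i = i0
              · subst h2; simp only [Function.update_self]; exact continuous_fst
              · simp only [Function.update_of_ne h2]; exact continuous_const
          · intro γ hγ h
            refine ih (F.erase i0) ?_ _ ?_
            · rw [Finset.card_erase_of_mem hi0]; omega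
            · intro i hi
              have hi1' : i ≠ i1 := by
                rintro rfl
                exact hi (Finset.mem_erase.2 ⟨hne.symm, hi1⟩)
              rw [Function.update_of_ne hi1']
              by_cases h2 : i = i0
              · subst h2; rw [Function.update_self]; exact hγ
              · rw [Function.update_of_ne h2]
                exact hx i fun h => hi (Finset.mem_erase.2 ⟨h2, h⟩)
          · intro g γ hγ
            refine ih (F.erase i1) ?_ _ ?_
            · rw [Finset.card_erase_of_mem hi1]; omega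
            · intro i hi
              by_cases h1 : i = i1
              · subst h1; rw [Function.update_self]; exact hγ
              · rw [Function.update_of_ne h1]
                have h2 : i ≠ i0 := by
                  rintro rfl
                  exact hi (Finset.mem_erase.2 ⟨hne, hi0⟩)
                rw [Function.update_of_ne h2]
                exact hx i fun h => hi (Finset.mem_erase.2 ⟨h1, h⟩)
        have := main (x i0) (x i1)
        rwa [Function.update_eq_self, Function.update_eq_self] at this
  intro x
  exact step2 _ Finset.univ le_rfl x fun i hi => absurd (Finset.mem_univ i) hi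

/-- a finitely generated stabiliser -/
theorem fg_of_compact {Γ : Subgroup G} (hfin : ∀ C : Set G, IsCompact C → (C ∩ Γ).Finite)
    {K C : Set G} (hK : IsCompact K) (hKΓ : ∀ g : G, ∃ a ∈ K, ∃ γ ∈ Γ, g = a * γ)
    (hC : IsCompact C) (hgen : Subgroup.closure C = (⊤ : Subgroup G)) :
    ∃ S : Finset G, Subgroup.closure (S : Set G) = Γ := by
  classical
  set K' : Set G := insert 1 K with hK'
  set C' : Set G := insert 1 (C ∪ C⁻¹) with hC'
  have hK'c : IsCompact K' := hK.insert 1
  have hC'c : IsCompact C' := (hC.union hC.inv).insert 1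
  have hP : IsCompact (K'⁻¹ * C' * K') := (hK'c.inv.mul hC'c).mul hK'c
  have hf := hfin _ hP
  refine ⟨hf.toFinset, le_antisymm ?_ ?_⟩
  · rw [Subgroup.closure_le]
    intro x hx
    rw [Set.Finite.coe_toFinset] at hx
    exact hx.2
  set Δ : Subgroup G := Subgroup.closure (hf.toFinset : Set G) with hΔ
  have hmem : ∀ a ∈ K', ∀ c ∈ C', ∀ b ∈ K', a⁻¹ * c * b ∈ Γ → a⁻¹ * c * b ∈ Δ := by
    intro a ha c hc b hb h
    refine Subgroup.subset_closure ?_
    rw [Set.Finite.coe_toFinset]
    exact ⟨Set.mul_mem_mul (Set.mul_mem_mul (Set.inv_mem_inv.2 ha) hc) hb, h⟩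
  have hall : ∀ g : G, ∃ a ∈ K', ∃ δ ∈ Δ, g = a * δ := by
    intro g
    have hg : g ∈ Subgroup.closure C := by rw [hgen]; exact Subgroup.mem_top g
    have hstep : ∀ c ∈ C', ∀ g : G, (∃ a ∈ K', ∃ δ ∈ Δ, g = a * δ) →
        ∃ a ∈ K', ∃ δ ∈ Δ, c * g = a * δ := by
      rintro c hc g ⟨a, ha, δ, hδ, rfl⟩
      obtain ⟨b, hb, γ, hγ, hbγ⟩ := hKΓ (c * a)
      have e : γ = b⁻¹ * c * a := by rw [mul_assoc, hbγ, inv_mul_cancel_left]
      refine ⟨b, Set.mem_insert_of_mem _ hb, γ * δ, mul_mem ?_ hδ, ?_⟩
      · rw [e]
        exact hmem b (Set.mem_insert_of_mem _ hb) c hc a ha (e ▸ hγ)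
      · rw [← mul_assoc, hbγ, mul_assoc]
    induction hg using Subgroup.closure_induction_left with
    | one => exact ⟨1, Set.mem_insert _ _, 1, one_mem _, by rw [mul_one]⟩
    | mul_left x hx y _ ih =>
      exact hstep x (Set.mem_insert_of_mem _ (Or.inl hx)) y ih
    | inv_mul_cancel x hx y _ ih =>
      exact hstep x⁻¹ (Set.mem_insert_of_mem _ (Or.inr (by simpa using hx))) y ih
  intro γ hγ
  obtain ⟨a, ha, δ, hδ, e⟩ := hall γ
  have ha2 : a ∈ Γ := by
    have h1 : a = γ * δ⁻¹ := by rw [e]; group
    rw [h1]
    have hle : Δ ≤ Γ := by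
      rw [hΔ, Subgroup.closure_le]
      intro x hx
      rw [Set.Finite.coe_toFinset] at hx
      exact hx.2
    exact mul_mem hγ (inv_mem (hle hδ))
  have h2 := hmem 1 (Set.mem_insert _ _) 1 (Set.mem_insert _ _) a ha (by simpa using ha2)
  rw [e]
  refine mul_mem ?_ hδ
  simpa using h2

end Pool.Agent.V11108.N
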