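import Pool.Agent.V11108.N2

/-! Cocompactness of `Γ ∩ L j` in `L j`. -/

namespace Pool.Agent.V11108.N

open Pool.Agent.V11106 Subgroup commutatorElement Filter Topology
open scoped Pointwise

variable {G : Type*} [Group G] [TopologicalSpace G] [IsTopologicalGroup G]

theorem slot_group {Γ : Subgroup G} {K : Set G} (hK : IsCompact K)
    (hKΓ : ∀ g : G, ∃ a ∈ K, ∃ γ ∈ Γ, g = a * γ) (j : ℕ)
    (T : Finset ((Fin (j + 1) → G) × Fin (j + 1))) (hT : ∀ t ∈ T, ∀ i, t.1 i ∈ Γ) :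
    ∃ (KT : Set G) (MT : Subgroup G), IsCompact KT ∧ KT ⊆ LC G j ∧
      (∀ t ∈ T, ∀ g, com j (Function.update t.1 t.2 g) ∈ MT) ∧
      (∀ y, y ∈ MT ↔ ∃ a ∈ KT, ∃ γ ∈ Γ, q (j + 1) y = q (j + 1) (a * γ)) := by
  classical
  induction T using Finset.induction_on with
  | empty =>
    refine ⟨{1}, (Γ.map (q (j + 1))).comap (q (j + 1)), isCompact_singleton, ?_, ?_, ?_⟩
    · rintro _ rfl
      exact one_mem _
    · intro t ht
      exact absurd ht (Finset.notMem_empty _)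
    · intro y
      rw [Subgroup.mem_comap, Subgroup.mem_map]
      constructor
      · rintro ⟨γ, hγ, h⟩
        exact ⟨1, rfl, γ, hγ, by rw [one_mul]; exact h.symm⟩
      · rintro ⟨a, rfl, γ, hγ, h⟩
        exact ⟨γ, hγ, by rw [h, one_mul]⟩
  | insert t T ht ih =>
    obtain ⟨KT, MT, hKT, hKTs, hMT1, hMT2⟩ := ih fun t' ht' => hT t' (Finset.mem_insert_of_mem ht')
    set φ : G → G := fun g => com j (Function.update t.1 t.2 g) with hφ
    have hφm : ∀ g, φ g ∈ LC G j := fun g => com_mem j _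
    have hφc : Continuous φ := by
      refine (continuous_com j).comp ?_
      exact continuous_const.update t.2 continuous_id
    have hφmul : ∀ a b, q (j + 1) (φ (a * b)) = q (j + 1) (φ a) * q (j + 1) (φ b) :=
      fun a b => com_update_mul j t.1 t.2 a b
    have hφΓ : ∀ γ ∈ Γ, φ γ ∈ Γ := by
      intro γ hγ
      refine com_mem_sub j Γ _ fun i => ?_
      by_cases h : i = t.2
      · subst h; rw [Function.update_self]; exact hγ
      · rw [Function.update_of_ne h]; exact hT t (Finset.mem_insert_self _ _) i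
    let φb : G →* G ⧸ LC G (j + 1) := MonoidHom.mk' (fun g => q (j + 1) (φ g)) hφmul
    have hnorm : φb.range.Normal := by
      refine ⟨?_⟩
      rintro _ ⟨g, rfl⟩ y
      obtain ⟨y, rfl⟩ := QuotientGroup.mk'_surjective _ y
      refine ⟨g, ?_⟩
      change q (j + 1) (φ g) = q (j + 1) y * q (j + 1) (φ g) * (q (j + 1) y)⁻¹
      rw [q_comm (hφm g) y, mul_inv_cancel_right]
    refine ⟨(φ '' K) * KT, (φb.range ⊔ MT.map (q (j + 1))).comap (q (j + 1)), ?_, ?_, ?_, ?_⟩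
    · exact (hK.image hφc).mul hKT
    · rintro _ ⟨_, ⟨b, _, rfl⟩, a, ha, rfl⟩
      exact mul_mem (hφm b) (hKTs ha)
    · intro t' ht' g
      rw [Subgroup.mem_comap]
      rcases Finset.mem_insert.1 ht' with rfl | h
      · exact Subgroup.mem_sup_left ⟨g, rfl⟩
      · exact Subgroup.mem_sup_right (Subgroup.mem_map_of_mem _ (hMT1 t' h g))
    · intro y
      rw [Subgroup.mem_comap, ← SetLike.mem_coe, Subgroup.normal_mul]
      constructor
      · intro h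
        obtain ⟨_, ⟨g, rfl⟩, _, ⟨m, hm, rfl⟩, h⟩ := Set.mem_mul.1 h
        obtain ⟨a, ha, γ, hγ, h2⟩ := (hMT2 m).1 hm
        obtain ⟨b, hb, γ0, hγ0, rfl⟩ := hKΓ g
        refine ⟨φ b * a, Set.mul_mem_mul ⟨b, hb, rfl⟩ ha, φ γ0 * γ, mul_mem (hφΓ γ0 hγ0) hγ, ?_⟩
        have h3 : φb (b * γ0) = q (j + 1) (φ b) * q (j + 1) (φ γ0) := hφmul b γ0
        rw [← h, h3, h2]
        simp only [map_mul, mul_assoc]
        rw [← mul_assoc (q (j + 1) (φ γ0)) (q (j + 1) a), ← q_comm (hφm γ0) a, mul_assoc]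
      · rintro ⟨_, ⟨_, ⟨b, _, rfl⟩, a, ha, rfl⟩, γ, hγ, h⟩
        refine Set.mem_mul.2 ⟨q (j + 1) (φ b), ⟨b, rfl⟩, q (j + 1) (a * γ),
          Subgroup.mem_map_of_mem _ ((hMT2 _).2 ⟨a, ha, γ, hγ, rfl⟩), ?_⟩
        rw [h, ← map_mul, mul_assoc]

theorem cc_step {Γ : Subgroup G} (hΓc : IsClosed (Γ : Set G)) {K : Set G} (hK : IsCompact K)
    (hKΓ : ∀ g : G, ∃ a ∈ K, ∃ γ ∈ Γ, g = a * γ)
    (hgen : Subgroup.closure ({c | Rooted c} ∪ (Γ : Set G)) = ⊤)
    {S : Finset G} (hS : Subgroup.closure (S : Set G) = Γ) {j : ℕ} {K1 : Set G}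
    (hK1 : IsCompact K1) (hK1s : K1 ⊆ LC G (j + 1))
    (hK1d : ∀ y ∈ LC G (j + 1), ∃ a ∈ K1, ∃ γ ∈ Γ, y = a * γ) :
    ∃ K0 : Set G, IsCompact K0 ∧ K0 ⊆ LC G j ∧ ∀ y ∈ LC G j, ∃ a ∈ K0, ∃ γ ∈ Γ, y = a * γ := by
  classical
  have hSΓ : ∀ s ∈ S, s ∈ Γ := fun s hs => hS ▸ Subgroup.subset_closure hs
  obtain ⟨KT, MT, hKT, hKTs, hMT1, hMT2⟩ := slot_group hK hKΓ j
    ((Fintype.piFinset fun _ : Fin (j + 1) => insert 1 S) ×ˢ Finset.univ) (by
      rintro ⟨x, i⟩ ht i'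
      have h1 := Fintype.mem_piFinset.1 (Finset.mem_product.1 ht).1 i'
      rcases Finset.mem_insert.1 h1 with h | h
      · change x i' ∈ Γ
        rw [show x i' = 1 from h]; exact Γ.one_mem
      · exact hSΓ _ h)
  have hset : (MT : Set G) = (KT * K1) * (Γ : Set G) := by
    ext y
    rw [SetLike.mem_coe, hMT2]
    constructor
    · rintro ⟨a, ha, γ, hγ, h⟩
      have h1 := q_eq.1 h
      have h2 : a⁻¹ * (y * (a * γ)⁻¹) * a ∈ LC G (j + 1) := by
        have := (inferInstance : (LC G (j + 1)).Normal).conj_mem _ h1 a⁻¹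
        simpa using this
      obtain ⟨b, hb, γ1, hγ1, h3⟩ := hK1d _ h2
      refine ⟨a * b, Set.mul_mem_mul ha hb, γ1 * γ, mul_mem hγ1 hγ, ?_⟩
      have h4 : b * γ1 = a⁻¹ * (y * (a * γ)⁻¹) * a := h3.symm
      calc (a * b) * (γ1 * γ) = a * (b * γ1) * γ := by group
        _ = y := by rw [h4]; group
    · rintro ⟨_, ⟨a, ha, b, hb, rfl⟩, γ, hγ, rfl⟩
      refine ⟨a, ha, γ, hγ, ?_⟩
      simp only [map_mul]
      rw [q_eq_one.2 (hK1s hb), mul_one]
  have hcl : IsClosed (MT : Set G) := by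
    rw [hset]
    exact IsClosed.mul_left_of_isCompact hΓc (hKT.mul hK1)
  have hLM : LC G (j + 1) ≤ MT := by
    intro y hy
    rw [← SetLike.mem_coe, hset]
    obtain ⟨b, hb, γ, hγ, rfl⟩ := hK1d y hy
    have h1 : (1 : G) ∈ MT := one_mem _
    rw [hMT2] at h1
    obtain ⟨a, ha, γ', hγ', h2⟩ := h1
    -- use membership in `MT` directly
    rw [← hset, SetLike.mem_coe, hMT2]
    refine ⟨a, ha, γ', hγ', ?_⟩
    rw [← h2, map_one]
    exact q_eq_one.2 hy
  have hall : ∀ x, com j x ∈ MT := by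
    refine ext_multi (com j) (continuous_com j) (com_update_mul j) (com_update_one j) hcl hLM hK
      hKΓ hgen hS ?_
    intro x i hx
    have h1 : (Function.update x i 1, i) ∈
        (Fintype.piFinset fun _ : Fin (j + 1) => insert 1 S) ×ˢ Finset.univ := by
      refine Finset.mem_product.2 ⟨Fintype.mem_piFinset.2 fun i' => ?_, Finset.mem_univ _⟩
      by_cases h : i' = i
      · subst h; simp only [Function.update_self]; exact Finset.mem_insert_self _ _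
      · simp only [Function.update_of_ne h]
        exact Finset.mem_insert_of_mem (hx i' h)
    have h2 := hMT1 _ h1 (x i)
    simpa using h2
  have hLj : LC G j ≤ MT := LC_le_of_com hLM hall
  refine ⟨KT * K1, hKT.mul hK1, ?_, ?_⟩
  · rintro _ ⟨a, ha, b, hb, rfl⟩
    exact mul_mem (hKTs ha) (LC_anti (Nat.le_succ j) (hK1s hb))
  · intro y hy
    have h1 := hLj hy
    rw [← SetLike.mem_coe, hset] at h1
    obtain ⟨a, ha, γ, hγ, rfl⟩ := h1
    exact ⟨a, ha, γ, hγ, rfl⟩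

theorem cc_all {Γ : Subgroup G} (hΓc : IsClosed (Γ : Set G)) {K : Set G} (hK : IsCompact K)
    (hKΓ : ∀ g : G, ∃ a ∈ K, ∃ γ ∈ Γ, g = a * γ)
    (hgen : Subgroup.closure ({c | Rooted c} ∪ (Γ : Set G)) = ⊤)
    {S : Finset G} (hS : Subgroup.closure (S : Set G) = Γ) {k : ℕ} (hk : LC G k = ⊥) :
    ∀ j, ∃ K0 : Set G, IsCompact K0 ∧ K0 ⊆ LC G j ∧
      ∀ y ∈ LC G j, ∃ a ∈ K0, ∃ γ ∈ Γ, y = a * γ := by
  have base : ∀ j, k ≤ j → ∃ K0 : Set G, IsCompact K0 ∧ K0 ⊆ LC G j ∧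
      ∀ y ∈ LC G j, ∃ a ∈ K0, ∃ γ ∈ Γ, y = a * γ := by
    intro j hj
    have h1 : LC G j = ⊥ := le_bot_iff.1 (hk ▸ LC_anti hj)
    refine ⟨{1}, isCompact_singleton, ?_, ?_⟩
    · rintro _ rfl; exact one_mem _
    · intro y hy
      rw [h1, Subgroup.mem_bot] at hy
      exact ⟨1, rfl, 1, one_mem _, by rw [hy, one_mul]⟩
  have main : ∀ i j, i + j = k → ∃ K0 : Set G, IsCompact K0 ∧ K0 ⊆ LC G j ∧
      ∀ y ∈ LC G j, ∃ a ∈ K0, ∃ γ ∈ Γ, y = a * γ := by
    intro i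
    induction i with
    | zero => intro j hj; exact base j (by omega)
    | succ i ih =>
      intro j hj
      obtain ⟨K1, h1, h2, h3⟩ := ih (j + 1) (by omega)
      exact cc_step hΓc hK hKΓ hgen hS h1 h2 h3
  intro j
  by_cases hj : k ≤ j
  · exact base j hj
  · exact main (k - j) j (by omega)

end Pool.Agent.V11108.N
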