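import Pool.Agent.V11108.N1

/-! Factorisation of cube maps `I ↦ g ^ (∑ i ∈ I, s i)` modulo a subgroup. -/

namespace Pool.Agent.V11108.N

open Pool.Agent.V11106 Subgroup commutatorElement

variable {G : Type*} [Group G]

/-- upper face element -/
def fe (J : Finset ℕ) (a : G) : Finset ℕ → G := fun I => if J ⊆ I then a else 1

theorem fe_mul (J : Finset ℕ) (a b : G) : fe J (a * b) = fe J a * fe J b := by
  funext I
  simp only [fe, Pi.mul_apply]
  split_ifs <;> simp

theorem fe_one (J : Finset ℕ) : fe J (1 : G) = 1 := by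
  funext I
  simp only [fe, Pi.one_apply, ite_self]

theorem fe_inv (J : Finset ℕ) (a : G) : fe J a⁻¹ = (fe J a)⁻¹ := by
  funext I
  simp only [fe, Pi.inv_apply]
  split_ifs <;> simp

theorem fe_comm (J J' : Finset ℕ) (a b : G) : ⁅fe J a, fe J' b⁆ = fe (J ∪ J') ⁅a, b⁆ := by
  funext I
  simp only [fe, commutatorElement_def, Pi.mul_apply, Pi.inv_apply, Finset.union_subset_iff]
  by_cases h1 : J ⊆ I <;> by_cases h2 : J' ⊆ I <;> simp [h1, h2]

/-- generators of the Host–Kra filtration over the cube `𝒫(W)` -/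
def gens (G : Type*) [Group G] (W : Finset ℕ) (i : ℕ) : Set (Finset ℕ → G) :=
  {f | ∃ (J : Finset ℕ) (a : G), i ≤ J.card ∧ J ⊆ W ∧ a ∈ LC G (J.card - 1) ∧ f = fe J a}

def HK (G : Type*) [Group G] (W : Finset ℕ) (i : ℕ) : Subgroup (Finset ℕ → G) :=
  Subgroup.closure (gens G W i)

theorem HK_anti (W : Finset ℕ) {i j : ℕ} (h : i ≤ j) : HK G W j ≤ HK G W i := by
  refine Subgroup.closure_mono ?_
  rintro _ ⟨J, a, h1, h2, h3, rfl⟩
  exact ⟨J, a, h.trans h1, h2, h3, rfl⟩

theorem fe_mem {W : Finset ℕ} {i : ℕ} {J : Finset ℕ} {a : G} (h1 : i ≤ J.card) (h2 : J ⊆ W)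
    (h3 : a ∈ LC G (J.card - 1)) : fe J a ∈ HK G W i :=
  Subgroup.subset_closure ⟨J, a, h1, h2, h3, rfl⟩

theorem comm_fe_mem {W : Finset ℕ} {i : ℕ} {J J' : Finset ℕ} {a b : G} (hJ : 1 ≤ J.card)
    (hJ' : 1 ≤ J'.card) (hJW : J ⊆ W) (hJ'W : J' ⊆ W) (hi : i ≤ (J ∪ J').card)
    (ha : a ∈ LC G (J.card - 1)) (hb : b ∈ LC G (J'.card - 1)) :
    ⁅fe J a, fe J' b⁆ ∈ HK G W i := by
  rw [fe_comm]
  refine fe_mem hi (Finset.union_subset hJW hJ'W) ?_
  refine comm_mem_LC ha hb ?_
  have := Finset.card_union_le J J'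
  omega

theorem HK_conj {W : Finset ℕ} {i : ℕ} (hi : 1 ≤ i) {x : Finset ℕ → G} (hx : x ∈ HK G W 1) :
    ∀ y ∈ HK G W i, x * y * x⁻¹ ∈ HK G W i ∧ x⁻¹ * y * x ∈ HK G W i := by
  have key : ∀ (J : Finset ℕ) (a : G), 1 ≤ J.card → J ⊆ W → a ∈ LC G (J.card - 1) →
      ∀ y ∈ HK G W i, fe J a * y * (fe J a)⁻¹ ∈ HK G W i := by
    intro J a hJ hJW ha y hy
    refine Subgroup.closure_induction (p := fun y _ => fe J a * y * (fe J a)⁻¹ ∈ HK G W i)
      ?_ ?_ ?_ ?_ hy
    · rintro _ ⟨J', b, hJ', hJ'W, hb, rfl⟩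
      have h1 : fe J a * fe J' b * (fe J a)⁻¹ = ⁅fe J a, fe J' b⁆ * fe J' b := by
        rw [commutatorElement_def, inv_mul_cancel_right]
      rw [h1]
      refine mul_mem (comm_fe_mem hJ (hi.trans hJ') hJW hJ'W ?_ ha hb) (fe_mem hJ' hJ'W hb)
      exact hJ'.trans (Finset.card_le_card Finset.subset_union_right)
    · simp only [mul_one, mul_inv_cancel]; exact one_mem _
    · intro u v _ _ hu hv
      have : fe J a * (u * v) * (fe J a)⁻¹ =
          (fe J a * u * (fe J a)⁻¹) * (fe J a * v * (fe J a)⁻¹) := by group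
      rw [this]; exact mul_mem hu hv
    · intro u _ hu
      have : fe J a * u⁻¹ * (fe J a)⁻¹ = (fe J a * u * (fe J a)⁻¹)⁻¹ := by group
      rw [this]; exact inv_mem hu
  induction hx using Subgroup.closure_induction with
  | mem x hx =>
    obtain ⟨J, a, hJ, hJW, ha, rfl⟩ := hx
    intro y hy
    refine ⟨key J a hJ hJW ha y hy, ?_⟩
    have := key J a⁻¹ hJ hJW (inv_mem ha) y hy
    rwa [fe_inv, inv_inv] at this
  | one => intro y hy; simpa using hy
  | mul u v _ _ hu hv =>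
    intro y hy
    constructor
    · have : u * v * y * (u * v)⁻¹ = u * (v * y * v⁻¹) * u⁻¹ := by group
      rw [this]; exact (hu _ (hv y hy).1).1
    · have : (u * v)⁻¹ * y * (u * v) = v⁻¹ * (u⁻¹ * y * u) * v := by group
      rw [this]; exact (hv _ (hu y hy).2).2
  | inv u _ hu =>
    intro y hy
    rw [inv_inv]
    exact ⟨(hu y hy).2, (hu y hy).1⟩

/-- ordered product of face elements -/
def E (l : List (Finset ℕ)) (u : Finset ℕ → G) : Finset ℕ → G := (l.map fun J => fe J (u J)).prod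

theorem E_nil (u : Finset ℕ → G) : E [] u = 1 := rfl

theorem E_cons (J : Finset ℕ) (l : List (Finset ℕ)) (u : Finset ℕ → G) :
    E (J :: l) u = fe J (u J) * E l u := by
  simp only [E, List.map_cons, List.prod_cons]

theorem E_append (l l' : List (Finset ℕ)) (u : Finset ℕ → G) : E (l ++ l') u = E l u * E l' u := by
  simp only [E, List.map_append, List.prod_append]

theorem E_congr {l : List (Finset ℕ)} {u v : Finset ℕ → G} (h : ∀ J ∈ l, u J = v J) :
    E l u = E l v := by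
  simp only [E]
  congr 1
  exact List.map_congr_left fun J hJ => by rw [h J hJ]

theorem E_one (l : List (Finset ℕ)) : E l (fun _ => (1 : G)) = 1 := by
  induction l with
  | nil => rfl
  | cons J l ih => rw [E_cons, ih, fe_one, mul_one]

theorem E_apply (l : List (Finset ℕ)) (u : Finset ℕ → G) (I : Finset ℕ) :
    E l u I = ((l.filter (fun J => decide (J ⊆ I))).map u).prod := by
  induction l with
  | nil => rfl
  | cons J l ih =>
    rw [E_cons, Pi.mul_apply, ih]
    by_cases h : J ⊆ I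
    · rw [List.filter_cons_of_pos (by simpa using h), List.map_cons, List.prod_cons]
      simp only [fe, if_pos h]
    · rw [List.filter_cons_of_neg (by simpa using h)]
      simp only [fe, if_neg h, one_mul]

theorem E_mem_sub (l : List (Finset ℕ)) (u : Finset ℕ → G) (Γ : Subgroup G) (h : ∀ J, u J ∈ Γ)
    (I : Finset ℕ) : E l u I ∈ Γ := by
  rw [E_apply]
  refine Subgroup.list_prod_mem _ ?_
  intro x hx
  obtain ⟨J, _, rfl⟩ := List.mem_map.1 hx
  exact h J

theorem E_mem {W : Finset ℕ} {i : ℕ} {l : List (Finset ℕ)} (hl : ∀ J ∈ l, J.card = i ∧ J ⊆ W)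
    {a : Finset ℕ → G} (ha : ∀ J, a J ∈ LC G (i - 1)) : E l a ∈ HK G W i := by
  induction l with
  | nil => exact one_mem _
  | cons J l ih =>
    rw [E_cons]
    have h1 := hl J List.mem_cons_self
    refine mul_mem (fe_mem h1.1.ge h1.2 ?_) (ih fun J' hJ' => hl J' (List.mem_cons_of_mem _ hJ'))
    rw [h1.1]
    exact ha J

theorem comm_E_mem {W : Finset ℕ} {i : ℕ} (hi : 1 ≤ i) {J : Finset ℕ} (hJ : J.card = i)
    (hJW : J ⊆ W) {b : G} (hb : b ∈ LC G (i - 1)) {l : List (Finset ℕ)}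
    (hl : ∀ J ∈ l, J.card = i ∧ J ⊆ W) (hJl : J ∉ l)
    {a : Finset ℕ → G} (ha : ∀ J, a J ∈ LC G (i - 1)) :
    ⁅fe J b, E l a⁆ ∈ HK G W (i + 1) := by
  induction l with
  | nil => rw [E_nil]; simp only [commutatorElement_def]; simp
  | cons J' l ih =>
    have h1 := hl J' List.mem_cons_self
    have hne : J ≠ J' := fun h => hJl (h ▸ List.mem_cons_self)
    have h2 : ⁅fe J b, E (J' :: l) a⁆ =
        ⁅fe J b, fe J' (a J')⁆ * (fe J' (a J') * ⁅fe J b, E l a⁆ * (fe J' (a J'))⁻¹) := by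
      rw [E_cons]; simp only [commutatorElement_def]; group
    rw [h2]
    refine mul_mem (comm_fe_mem (hJ ▸ hi) (h1.1 ▸ hi) hJW h1.2 ?_ (hJ.symm ▸ hb) (h1.1.symm ▸ ha J')) ?_
    · have hlt : J.card < (J ∪ J').card := by
        refine Finset.card_lt_card ⟨Finset.subset_union_left, fun h => hne ?_⟩
        have h3 : J' ⊆ J := Finset.subset_union_right.trans h
        exact (Finset.eq_of_subset_of_card_le h3 (by rw [hJ, h1.1])).symm
      omega
    · refine (HK_conj (by omega) (HK_anti W hi (fe_mem h1.1.ge h1.2 (h1.1.symm ▸ ha J'))) _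
        (ih (fun J' hJ' => hl J' (List.mem_cons_of_mem _ hJ'))
          (fun h => hJl (List.mem_cons_of_mem _ h)))).1

theorem E_mul {W : Finset ℕ} {i : ℕ} (hi : 1 ≤ i) {l : List (Finset ℕ)} (hnd : l.Nodup)
    (hl : ∀ J ∈ l, J.card = i ∧ J ⊆ W)
    {a b : Finset ℕ → G} (ha : ∀ J, a J ∈ LC G (i - 1)) (hb : ∀ J, b J ∈ LC G (i - 1)) :
    ∃ z ∈ HK G W (i + 1), E l (a * b) = E l a * z * E l b := by
  induction l with
  | nil => exact ⟨1, one_mem _, by simp only [E_nil, mul_one]⟩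
  | cons J l ih =>
    obtain ⟨hJl, hnd'⟩ := List.nodup_cons.1 hnd
    have hl' : ∀ J ∈ l, J.card = i ∧ J ⊆ W := fun J' hJ' => hl J' (List.mem_cons_of_mem _ hJ')
    obtain ⟨z, hz, hz2⟩ := ih hnd' hl'
    have h1 := hl J List.mem_cons_self
    have hc := comm_E_mem hi h1.1 h1.2 (hb J) hl' hJl ha
    refine ⟨((E l a)⁻¹ * ⁅fe J (b J), E l a⁆ * E l a) * (fe J (b J) * z * (fe J (b J))⁻¹),
      mul_mem ?_ ?_, ?_⟩
    · exact (HK_conj (by omega) (HK_anti W hi (E_mem hl' ha)) _ hc).2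
    · exact (HK_conj (by omega) (HK_anti W hi (fe_mem h1.1.ge h1.2 (h1.1.symm ▸ hb J))) _ hz).1
    · rw [E_cons, E_cons, E_cons, hz2, Pi.mul_apply, fe_mul]
      simp only [commutatorElement_def]
      group

theorem E_single {l : List (Finset ℕ)} (hnd : l.Nodup) {J : Finset ℕ} (hJ : J ∈ l) (c : G) :
    E l (fun J' => if J' = J then c else 1) = fe J c := by
  induction l with
  | nil => exact absurd hJ (List.not_mem_nil)
  | cons J' l ih =>
    obtain ⟨hJl, hnd'⟩ := List.nodup_cons.1 hnd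
    rw [E_cons]
    by_cases h : J' = J
    · subst h
      rw [if_pos rfl]
      have : E l (fun J'' => if J'' = J' then c else 1) = E l (fun _ => (1 : G)) :=
        E_congr fun J'' hJ'' => by
          rw [if_neg]
          rintro rfl
          exact hJl hJ''
      rw [this, E_one, mul_one]
    · rw [if_neg h, fe_one, one_mul]
      refine ih hnd' ?_
      rcases List.mem_cons.1 hJ with h2 | h2
      · exact absurd h2.symm h
      · exact h2

/-- the list of subsets of `W` of cardinality `i` -/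
noncomputable def lev (W : Finset ℕ) (i : ℕ) : List (Finset ℕ) := (W.powersetCard i).toList

theorem lev_nodup (W : Finset ℕ) (i : ℕ) : (lev W i).Nodup := Finset.nodup_toList _

theorem mem_lev {W : Finset ℕ} {i : ℕ} {J : Finset ℕ} : J ∈ lev W i ↔ J ⊆ W ∧ J.card = i := by
  rw [lev, Finset.mem_toList, Finset.mem_powersetCard]

theorem HK_rep {W : Finset ℕ} {i : ℕ} (hi : 1 ≤ i) {P : Finset ℕ → G} (hP : P ∈ HK G W i) :
    ∃ a : Finset ℕ → G, (∀ J, a J ∈ LC G (i - 1)) ∧ ∃ z ∈ HK G W (i + 1), P = E (lev W i) a * z := by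
  have hl : ∀ J ∈ lev W i, J.card = i ∧ J ⊆ W := fun J hJ => (mem_lev.1 hJ).symm
  have hE : ∀ {a : Finset ℕ → G}, (∀ J, a J ∈ LC G (i - 1)) → E (lev W i) a ∈ HK G W 1 :=
    fun ha => HK_anti W hi (E_mem hl ha)
  induction hP using Subgroup.closure_induction with
  | mem x hx =>
    obtain ⟨J, c, hJ, hJW, hc, rfl⟩ := hx
    rcases hJ.eq_or_lt with h | h
    · refine ⟨fun J' => if J' = J then c else 1, ?_, 1, one_mem _, ?_⟩
      · intro J'
        simp only
        split_ifs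
        · rw [h]; exact hc
        · exact one_mem _
      · rw [E_single (lev_nodup W i) (mem_lev.2 ⟨hJW, h.symm⟩), mul_one]
    · exact ⟨fun _ => 1, fun _ => one_mem _, fe J c, fe_mem h hJW hc, by rw [E_one, one_mul]⟩
  | one => exact ⟨fun _ => 1, fun _ => one_mem _, 1, one_mem _, by rw [E_one, one_mul]⟩
  | mul x y _ _ h1 h2 =>
    obtain ⟨a, ha, z, hz, rfl⟩ := h1
    obtain ⟨b, hb, z', hz', rfl⟩ := h2
    obtain ⟨w, hw, hw2⟩ := E_mul hi (lev_nodup W i) hl ha hb
    refine ⟨a * b, fun J => mul_mem (ha J) (hb J),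
      ((E (lev W i) b)⁻¹ * (w⁻¹ * z) * E (lev W i) b) * z', mul_mem ?_ hz', ?_⟩
    · exact (HK_conj (by omega) (hE hb) _ (mul_mem (inv_mem hw) hz)).2
    · rw [hw2]; group
  | inv x _ h1 =>
    obtain ⟨a, ha, z, hz, rfl⟩ := h1
    have ha' : ∀ J, a⁻¹ J ∈ LC G (i - 1) := fun J => inv_mem (ha J)
    obtain ⟨w, hw, hw2⟩ := E_mul hi (lev_nodup W i) hl ha ha'
    have h0 : E (lev W i) (a * a⁻¹) = 1 := by
      rw [mul_inv_cancel]; exact E_one _
    rw [h0] at hw2
    have h2 : (E (lev W i) a)⁻¹ = w * E (lev W i) a⁻¹ := by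
      rw [inv_eq_iff_mul_eq_one, ← mul_assoc]; exact hw2.symm
    refine ⟨a⁻¹, ha', (E (lev W i) a⁻¹)⁻¹ * (z⁻¹ * w) * E (lev W i) a⁻¹, ?_, ?_⟩
    · exact (HK_conj (by omega) (hE ha') _ (mul_mem (inv_mem hz) hw)).2
    · rw [mul_inv_rev, h2]; group

/-- levels `i, …, i + n - 1` -/
noncomputable def Lf (W : Finset ℕ) : ℕ → ℕ → List (Finset ℕ)
  | _, 0 => []
  | i, n + 1 => lev W i ++ Lf W (i + 1) n

theorem mem_Lf {W : Finset ℕ} {J : Finset ℕ} : ∀ (n i : ℕ), J ∈ Lf W i n ↔
    J ⊆ W ∧ i ≤ J.card ∧ J.card < i + n := by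
  intro n
  induction n with
  | zero => intro i; simp only [Lf, List.not_mem_nil, false_iff]; omega
  | succ n ih =>
    intro i
    simp only [Lf, List.mem_append, ih, mem_lev]
    constructor
    · rintro (⟨h1, h2⟩ | ⟨h1, h2, h3⟩)
      · exact ⟨h1, by omega, by omega⟩
      · exact ⟨h1, by omega, by omega⟩
    · rintro ⟨h1, h2, h3⟩
      by_cases h : J.card = i
      · exact Or.inl ⟨h1, h⟩
      · exact Or.inr ⟨h1, by omega, by omega⟩

theorem nodup_Lf {W : Finset ℕ} : ∀ (n i : ℕ), (Lf W i n).Nodup := by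
  intro n
  induction n with
  | zero => intro i; exact List.nodup_nil
  | succ n ih =>
    intro i
    simp only [Lf]
    rw [List.nodup_append]
    refine ⟨lev_nodup W i, ih (i + 1), ?_⟩
    rintro a ha b hb rfl
    have h1 := (mem_lev.1 ha).2
    have h2 := ((mem_Lf n (i + 1)).1 hb).2.1
    omega

theorem fac {W : Finset ℕ} {k : ℕ} (hk : LC G k = ⊥) {Γ : Subgroup G} {Q : Set G}
    (h1Q : (1 : G) ∈ Q)
    (hQ : ∀ j < k, ∀ y ∈ LC G j, ∃ a ∈ Q, a ∈ LC G j ∧ ∃ γ ∈ Γ, y = a * γ) :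
    ∀ (n i : ℕ), 1 ≤ i → i + n = k + 1 → ∀ P ∈ HK G W i,
      ∃ u : Finset ℕ → G, (∀ J, u J ∈ Q) ∧ ∃ R : Finset ℕ → G, (∀ I, R I ∈ Γ) ∧
        P = E (Lf W i n) u * R := by
  intro n
  induction n with
  | zero =>
    intro i hi hik P hP
    have hP1 : P = 1 := by
      have hle : HK G W i ≤ ⊥ := by
        rw [HK, Subgroup.closure_le]
        rintro _ ⟨J, a, hJ, hJW, ha, rfl⟩
        have h1 : LC G (J.card - 1) ≤ LC G k := LC_anti (by omega)
        have h2 : a = 1 := by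
          have := h1 ha
          rwa [hk, Subgroup.mem_bot] at this
        rw [h2, fe_one]
        exact Subgroup.mem_bot.2 rfl
      exact Subgroup.mem_bot.1 (hle hP)
    exact ⟨fun _ => 1, fun _ => h1Q, 1, fun _ => one_mem _, by rw [hP1, mul_one]; rfl⟩
  | succ n ih =>
    intro i hi hik P hP
    have hl : ∀ J ∈ lev W i, J.card = i ∧ J ⊆ W := fun J hJ => (mem_lev.1 hJ).symm
    obtain ⟨a, ha, z, hz, rfl⟩ := HK_rep hi hP
    choose u hu hu2 r hr hur using fun J => hQ (i - 1) (by omega) (a J) (ha J)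
    have hr2 : ∀ J, r J ∈ LC G (i - 1) := by
      intro J
      have h1 : r J = (u J)⁻¹ * a J := by rw [hur J, inv_mul_cancel_left]
      rw [h1]; exact mul_mem (inv_mem (hu2 J)) (ha J)
    obtain ⟨w, hw, hw2⟩ := E_mul hi (lev_nodup W i) hl hu2 hr2
    have har : a = u * r := funext hur
    have hEr : E (lev W i) r ∈ HK G W 1 := HK_anti W hi (E_mem hl hr2)
    obtain ⟨u', hu', R', hR', hh⟩ := ih (i + 1) (by omega) (by omega)
      (w * (E (lev W i) r * z * (E (lev W i) r)⁻¹))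
      (mul_mem hw (HK_conj (by omega) hEr _ hz).1)
    refine ⟨fun J => if J.card = i then u J else u' J, ?_, R' * E (lev W i) r, ?_, ?_⟩
    · intro J
      simp only
      split_ifs
      · exact hu J
      · exact hu' J
    · intro I
      exact mul_mem (hR' I) (E_mem_sub _ _ _ hr I)
    · simp only [Lf]
      rw [E_append]
      have e1 : E (lev W i) (fun J => if J.card = i then u J else u' J) = E (lev W i) u :=
        E_congr fun J hJ => by rw [if_pos (mem_lev.1 hJ).2]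
      have e2 : E (Lf W (i + 1) n) (fun J => if J.card = i then u J else u' J) =
          E (Lf W (i + 1) n) u' := E_congr fun J hJ => by
        rw [if_neg]
        have := ((mem_Lf n (i + 1)).1 hJ).2.1
        omega
      rw [e1, e2, har, hw2]
      calc E (lev W i) u * w * E (lev W i) r * z
          = E (lev W i) u * (w * (E (lev W i) r * z * (E (lev W i) r)⁻¹)) * E (lev W i) r := by
            group
        _ = E (lev W i) u * E (Lf W (i + 1) n) u' * (R' * E (lev W i) r) := by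
            rw [hh]; group

theorem pow_mem_HK (g : G) (s : ℕ → ℕ) {W : Finset ℕ} (W' : Finset ℕ) (hW' : W' ⊆ W) :
    (fun I => g ^ (∑ i ∈ W' ∩ I, s i)) ∈ HK G W 1 := by
  classical
  induction W' using Finset.induction_on with
  | empty =>
    have : (fun I : Finset ℕ => g ^ (∑ i ∈ (∅ : Finset ℕ) ∩ I, s i)) = 1 := by
      funext I; simp
    rw [this]; exact one_mem _
  | insert j W' hj ih =>
    have h1 : (fun I : Finset ℕ => g ^ (∑ i ∈ (insert j W') ∩ I, s i)) =
        fe {j} (g ^ s j) * fun I => g ^ (∑ i ∈ W' ∩ I, s i) := by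
      funext I
      rw [Pi.mul_apply]
      simp only [fe, Finset.singleton_subset_iff]
      by_cases h : j ∈ I
      · rw [if_pos h, Finset.insert_inter_of_mem h, Finset.sum_insert, pow_add]
        intro h2
        exact hj (Finset.mem_inter.1 h2).1
      · rw [if_neg h, Finset.insert_inter_of_notMem h, one_mul]
    rw [h1]
    refine mul_mem (fe_mem ?_ ?_ ?_) (ih ((Finset.subset_insert _ _).trans hW'))
    · rw [Finset.card_singleton]
    · rw [Finset.singleton_subset_iff]; exact hW' (Finset.mem_insert_self _ _)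
    · rw [Finset.card_singleton]; exact Subgroup.mem_top _

/-- Determination of `g ^ (sum over I)` modulo `Γ` by bounded elements attached to the subsets of
`I` of size at most `k`. -/
theorem det {W : Finset ℕ} {k : ℕ} (hk : LC G k = ⊥) {Γ : Subgroup G} {Q : Set G}
    (h1Q : (1 : G) ∈ Q)
    (hQ : ∀ j < k, ∀ y ∈ LC G j, ∃ a ∈ Q, a ∈ LC G j ∧ ∃ γ ∈ Γ, y = a * γ)
    (g : G) (s : ℕ → ℕ) :
    ∃ u : Finset ℕ → G, (∀ J, u J ∈ Q) ∧ ∀ I ⊆ W, ∃ γ ∈ Γ,
      g ^ (∑ i ∈ I, s i) = (((Lf W 1 k).filter (fun J => decide (J ⊆ I))).map u).prod * γ := by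
  obtain ⟨u, hu, R, hR, h⟩ := fac hk h1Q hQ k 1 le_rfl (by omega) _
    (pow_mem_HK g s W (Finset.Subset.refl W))
  refine ⟨u, hu, fun I hI => ⟨R I, hR I, ?_⟩⟩
  have h2 := congrFun h I
  simp only [Pi.mul_apply] at h2
  rw [Finset.inter_eq_right.2 hI, E_apply] at h2
  exact h2

end Pool.Agent.V11108.N
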