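import Pool.Agent.V11108.N3
import Pool.Agent.V11108.N4

/-! Orbits in nilmanifolds at sums over finite sets: determination by lower-order data. -/

namespace Pool.Agent.V11108.N

open Pool.Agent.V11106 Subgroup commutatorElement Filter Topology
open scoped Pointwise

theorem exists_prodSet {G : Type} [Group G] [TopologicalSpace G] [IsTopologicalGroup G]
    {Q : Set G} (hQ : IsCompact Q) (n : ℕ) :
    ∃ P : Set G, IsCompact P ∧ ∀ l : List G, l.length ≤ n → (∀ x ∈ l, x ∈ Q) → l.prod ∈ P := by
  induction n with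
  | zero =>
    refine ⟨{1}, isCompact_singleton, ?_⟩
    intro l hl _
    have : l = [] := List.length_eq_zero_iff.1 (Nat.le_zero.1 hl)
    subst this; rfl
  | succ n ih =>
    obtain ⟨P, hP, h⟩ := ih
    refine ⟨P ∪ Q * P, hP.union (hQ.mul hP), ?_⟩
    intro l hl hlQ
    rcases l with _ | ⟨a, l⟩
    · exact Or.inl (h [] (Nat.zero_le _) (fun x hx => absurd hx List.not_mem_nil))
    · right
      rw [List.prod_cons]
      refine Set.mul_mem_mul (hlQ a List.mem_cons_self) (h l ?_ fun x hx =>
        hlQ x (List.mem_cons_of_mem _ hx))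
      simpa using hl

theorem cells {G : Type} [Group G] [TopologicalSpace G] [IsTopologicalGroup G] {Q : Set G}
    (hQ : IsCompact Q) {Z : Type*} [PseudoMetricSpace Z] (n : ℕ) :
    ∀ (f : G → Z), Continuous f → ∀ ε > (0 : ℝ), ∃ (κ : Type) (_ : Finite κ) (cell : G → κ),
      ∀ l l' : List G, l.length ≤ n → (∀ x ∈ l, x ∈ Q) → (∀ x ∈ l', x ∈ Q) →
        l.map cell = l'.map cell → dist (f l.prod) (f l'.prod) < ε := by
  classical
  induction n with
  | zero =>
    intro f _ ε hε
    refine ⟨Unit, inferInstance, fun _ => (), ?_⟩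
    intro l l' hl _ _ h
    have : l = [] := List.length_eq_zero_iff.1 (Nat.le_zero.1 hl)
    subst this
    have h' : l' = [] := by simpa using h.symm
    subst h'
    rwa [dist_self]
  | succ n ih =>
    intro f hf ε hε
    obtain ⟨P, hP, hPl⟩ := exists_prodSet hQ n
    have hev : ∀ a : G, {b : G | ∀ y ∈ P, dist (f (b * y)) (f (a * y)) < ε / 4} ∈ 𝓝 a := by
      intro a
      refine hP.eventually_forall_of_forall_eventually
        (P := fun b y => dist (f (b * y)) (f (a * y)) < ε / 4) ?_
      intro y _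
      have hc : ContinuousAt (fun z : G × G => dist (f (z.1 * z.2)) (f (a * z.2))) (a, y) := by
        fun_prop
      have h0 : dist (f ((a, y).1 * (a, y).2)) (f (a * (a, y).2)) < ε / 4 := by
        simp only [dist_self]; positivity
      exact hc.eventually_lt continuousAt_const h0
    obtain ⟨t, -, ht⟩ := hQ.elim_nhds_subcover
      (fun a => {b : G | ∀ y ∈ P, dist (f (b * y)) (f (a * y)) < ε / 4}) (fun a _ => hev a)
    choose κ hκ cell hcell using fun i : G =>
      ih (fun y => f (i * y)) (hf.comp (continuous_const.mul continuous_id)) (ε / 4) (by positivity)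
    have hidx : ∀ a : G, ∃ o : Option t, a ∈ Q → ∃ i : t, o = some i ∧
        ∀ y ∈ P, dist (f (a * y)) (f (i * y)) < ε / 4 := by
      intro a
      by_cases ha : a ∈ Q
      · obtain ⟨i, hi, hai⟩ := Set.mem_iUnion₂.1 (ht ha)
        exact ⟨some ⟨i, hi⟩, fun _ => ⟨⟨i, hi⟩, rfl, hai⟩⟩
      · exact ⟨none, fun h => absurd h ha⟩
    choose idx hidx using hidx
    refine ⟨Option t × (∀ i : t, κ i), inferInstance, fun a => (idx a, fun i => cell i a), ?_⟩
    intro l l' hl hlQ hl'Q hmap
    rcases l with _ | ⟨a, m⟩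
    · have h' : l' = [] := by simpa using hmap.symm
      subst h'
      rwa [dist_self]
    rcases l' with _ | ⟨a', m'⟩
    · simp at hmap
    rw [List.map_cons, List.map_cons, List.cons.injEq] at hmap
    obtain ⟨h1, h2⟩ := hmap
    have h3 : idx a = idx a' := congrArg Prod.fst h1
    have hm : m.length ≤ n := by simpa using hl
    have hm' : m'.length ≤ n := by
      have : m.length = m'.length := by
        have := congrArg List.length h2
        simpa using this
      omega
    have hmQ : ∀ x ∈ m, x ∈ Q := fun x hx => hlQ x (List.mem_cons_of_mem _ hx)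
    have hm'Q : ∀ x ∈ m', x ∈ Q := fun x hx => hl'Q x (List.mem_cons_of_mem _ hx)
    obtain ⟨i, hi, hi2⟩ := hidx a (hlQ a List.mem_cons_self)
    obtain ⟨i', hi', hi'2⟩ := hidx a' (hl'Q a' List.mem_cons_self)
    have hii : i = i' := by
      have : some i = some i' := by rw [← hi, ← hi', h3]
      exact Option.some.inj this
    subst hii
    have h4 : m.map (cell i) = m'.map (cell i) := by
      have := congrArg (List.map (fun p : Option t × (∀ i : t, κ i) => p.2 i)) h2
      simpa [List.map_map, Function.comp_def] using this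
    have h5 := hcell i m m' hm hmQ hm'Q h4
    have h6 := hi2 _ (hPl m hm hmQ)
    have h7 := hi'2 _ (hPl m' hm' hm'Q)
    rw [List.prod_cons, List.prod_cons]
    calc dist (f (a * m.prod)) (f (a' * m'.prod))
        ≤ dist (f (a * m.prod)) (f (i * m.prod)) + dist (f (i * m.prod)) (f (i * m'.prod))
          + dist (f (i * m'.prod)) (f (a' * m'.prod)) := dist_triangle4 _ _ _ _
      _ < ε := by
          rw [dist_comm (f (i * m'.prod))]
          linarith

section red

variable {G : Type} [Group G] [TopologicalSpace G] [IsTopologicalGroup G] [T2Space G]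

omit [T2Space G] in
theorem isOpenMap_smul_quot (Γ : Subgroup G) (y : G ⧸ Γ) : IsOpenMap (fun g : G => g • y) := by
  obtain ⟨h, rfl⟩ := QuotientGroup.mk_surjective y
  have : (fun g : G => g • (QuotientGroup.mk h : G ⧸ Γ)) =
      (fun x : G => (QuotientGroup.mk x : G ⧸ Γ)) ∘ (fun g : G => g * h) := rfl
  rw [this]
  exact QuotientGroup.isOpenMap_coe.comp (isOpenMap_mul_right h)

theorem finite_stab (Γ : Subgroup G) [DiscreteTopology Γ] (v : G ⧸ Γ) {C : Set G}
    (hC : IsCompact C) : (C ∩ MulAction.stabilizer G v).Finite := by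
  obtain ⟨h, rfl⟩ := QuotientGroup.mk_surjective v
  have hcl : IsClosed (Γ : Set G) := Subgroup.isClosed_of_discrete
  have hc : IsCompact ((fun x => h⁻¹ * x * h) '' C ∩ (Γ : Set G)) := by
    refine IsCompact.inter_right (hC.image ?_) hcl
    fun_prop
  have hfin : ((fun x => h⁻¹ * x * h) '' C ∩ (Γ : Set G)).Finite := by
    refine hc.finite ?_
    have hd : IsDiscrete (Γ : Set G) := ⟨inferInstance⟩
    exact hd.mono Set.inter_subset_right
  have hsub : C ∩ (MulAction.stabilizer G (QuotientGroup.mk h : G ⧸ Γ) : Set G) ⊆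
      (fun x => h * x * h⁻¹) '' ((fun x => h⁻¹ * x * h) '' C ∩ (Γ : Set G)) := by
    rintro x ⟨hx, hx2⟩
    refine ⟨h⁻¹ * x * h, ⟨⟨x, hx, rfl⟩, ?_⟩, by group⟩
    have h1 : x • (QuotientGroup.mk h : G ⧸ Γ) = QuotientGroup.mk h :=
      MulAction.mem_stabilizer_iff.1 hx2
    have h2 : (QuotientGroup.mk (x * h) : G ⧸ Γ) = QuotientGroup.mk h := h1
    rw [eq_comm, QuotientGroup.eq] at h2
    simpa [mul_assoc] using h2
  exact (hfin.image _).subset hsub

theorem main_det [LocallyCompactSpace G] [LocallyConnectedSpace G]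
    (hroot : ∀ᶠ g in 𝓝 (1 : G), Rooted g) {k : ℕ} (hk : LC G k = ⊥) (Γ : Subgroup G)
    [DiscreteTopology Γ] [CompactSpace (G ⧸ Γ)] (g : G) (v : G ⧸ Γ) :
    ∃ N : ℕ, 1 ≤ N ∧ ∃ Q : Set G, IsCompact Q ∧ ∀ (s : ℕ → ℕ) (W : Finset ℕ),
      ∃ u : Finset ℕ → G, (∀ J, u J ∈ Q) ∧ ∀ I ⊆ W, (g ^ N) ^ (∑ i ∈ I, s i) • v =
        (((Lf W 1 k).filter (fun J => decide (J ⊆ I))).map u).prod • v := by
  classical
  have hcl : IsClosed (Γ : Set G) := Subgroup.isClosed_of_discrete
  have hT2 : T2Space (G ⧸ Γ) := QuotientGroup.instT2Space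
  set C0 : Subgroup G := Subgroup.connectedComponentOfOne G with hC0
  have hC0o : IsOpen (C0 : Set G) := isOpen_connectedComponent
  have hC0n : ∀ x ∈ C0, ∀ y : G, y * x * y⁻¹ ∈ C0 := by
    intro x hx y
    have hc : Continuous (fun x : G => y * x * y⁻¹) := by fun_prop
    have h1 := hc.image_connectedComponent_subset (1 : G) ⟨x, hx, rfl⟩
    have h2 : y * x * y⁻¹ ∈ connectedComponent (1 : G) := by simpa using h1
    exact h2
  have hopenG := isOpenMap_smul_quot Γ
  -- a power of g in C0 * stabiliser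
  obtain ⟨N, hN, a, ha, haN⟩ : ∃ N : ℕ, 1 ≤ N ∧ ∃ a ∈ C0, g ^ N • v = a • v := by
    obtain ⟨t, ht⟩ := isCompact_univ.elim_finite_subcover
      (fun y : G ⧸ Γ => (fun c : G => c • y) '' (C0 : Set G)) (fun y => hopenG y _ hC0o) (by
        intro y _
        exact Set.mem_iUnion.2 ⟨y, 1, one_mem _, one_smul _ _⟩)
    have h1 : ∀ m : ℕ, ∃ y : t, ∃ c ∈ C0, c • (y : G ⧸ Γ) = g ^ m • v := by
      intro m
      obtain ⟨y, hy, c, hc, h⟩ := Set.mem_iUnion₂.1 (ht (Set.mem_univ (g ^ m • v)))
      exact ⟨⟨y, hy⟩, c, hc, h⟩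
    choose y c hc hcy using h1
    obtain ⟨m, m', hne, heq⟩ := Finite.exists_ne_map_eq_of_infinite y
    have key : ∀ m m' : ℕ, m < m' → y m = y m' → ∃ N : ℕ, 1 ≤ N ∧ ∃ a ∈ C0, g ^ N • v = a • v := by
      intro m m' hlt he
      refine ⟨m' - m, by omega, (g ^ m)⁻¹ * (c m' * (c m)⁻¹) * g ^ m, ?_, ?_⟩
      · have := hC0n _ (mul_mem (hc m') (inv_mem (hc m))) (g ^ m)⁻¹
        simpa using this
      · have h2 : g ^ m' • v = (c m' * (c m)⁻¹) • g ^ m • v := by
          rw [← hcy m, ← hcy m', mul_smul, inv_smul_smul, he]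
        have h3 : g ^ (m' - m) • v = (g ^ m)⁻¹ • g ^ m' • v := by
          rw [← mul_smul]
          congr 1
          rw [eq_inv_mul_iff_mul_eq, ← pow_add]
          congr 1
          omega
        rw [h3, h2]
        simp only [mul_smul]
    rcases lt_or_gt_of_ne hne with h | h
    · exact key m m' h heq
    · exact key m' m h heq.symm
  refine ⟨N, hN, ?_⟩
  set H : Subgroup G := C0 ⊔ Subgroup.zpowers (g ^ N) with hH
  have hHo : IsOpen (H : Set G) := Subgroup.isOpen_mono le_sup_left hC0o
  have hgH : g ^ N ∈ H := Subgroup.mem_sup_right (Subgroup.mem_zpowers _)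
  have hC0H : C0 ≤ H := le_sup_left
  set gH : H := ⟨g ^ N, hgH⟩ with hgHdef
  have gen : ∀ U : Subgroup H, (U : Set H) ∈ 𝓝 (1 : H) → gH ∈ U → U = ⊤ := by
    intro U hU hgU
    have hUo : IsOpen (U : Set H) := U.isOpen_of_mem_nhds hU
    have hU'o : IsOpen ((U.map H.subtype : Subgroup G) : Set G) := by
      have := hHo.isOpenMap_subtype_val _ hUo
      exact this
    have hU'c : IsClosed ((U.map H.subtype : Subgroup G) : Set G) :=
      Subgroup.isClosed_of_isOpen _ hU'o
    have hle1 : C0 ≤ U.map H.subtype := by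
      have := (isPreconnected_connectedComponent (x := (1 : G))).subset_isClopen
        ⟨hU'c, hU'o⟩ ⟨1, mem_connectedComponent, one_mem _⟩
      exact this
    have hle2 : Subgroup.zpowers (g ^ N) ≤ U.map H.subtype := by
      rw [Subgroup.zpowers_le]
      exact ⟨gH, hgU, rfl⟩
    have hle : H ≤ U.map H.subtype := sup_le hle1 hle2
    rw [eq_top_iff]
    rintro ⟨x, hx⟩ -
    obtain ⟨y, hy, hyx⟩ := hle hx
    have : y = ⟨x, hx⟩ := Subtype.ext hyx
    exact this ▸ hy
  have hlcH : LocallyCompactSpace H := hHo.locallyCompactSpace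
  have hsmG : ContinuousSMul G (G ⧸ Γ) := inferInstance
  have hsm : ContinuousSMul H (G ⧸ Γ) := by
    refine ⟨?_⟩
    have h1 : Continuous (fun p : H × (G ⧸ Γ) => ((p.1 : G), p.2)) := by fun_prop
    exact (continuous_smul (M := G) (X := G ⧸ Γ)).comp h1
  have hopen : ∀ y : G ⧸ Γ, IsOpenMap (fun h : H => h • y) := fun y =>
    (hopenG y).comp hHo.isOpenMap_subtype_val
  set St : Subgroup H := MulAction.stabilizer H v with hSt
  have hStc : IsClosed (St : Set H) := by
    have hc : Continuous (fun h : H => h • v) := by fun_prop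
    exact isClosed_singleton.preimage hc
  -- finiteness
  have hfin : ∀ C : Set H, IsCompact C → (C ∩ St).Finite := by
    intro C hC
    have h1 := finite_stab Γ v (hC.image continuous_subtype_val)
    refine Set.Finite.of_finite_image (f := Subtype.val) (h1.subset ?_)
      Subtype.val_injective.injOn
    rintro _ ⟨x, ⟨hx, hx2⟩, rfl⟩
    exact ⟨⟨x, hx, rfl⟩, hx2⟩
  -- a compact transversal
  obtain ⟨K, hK, hKΓ⟩ : ∃ K : Set H, IsCompact K ∧ ∀ h : H, ∃ a ∈ K, ∃ γ ∈ St, h = a * γ := by
    have horb : IsClosed (Set.range fun h : H => h • v) := by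
      rw [← isOpen_compl_iff]
      have : (Set.range fun h : H => h • v)ᶜ = ⋃ w ∈ (Set.range fun h : H => h • v)ᶜ,
          Set.range (fun h : H => h • w) := by
        ext z
        constructor
        · intro hz
          exact Set.mem_biUnion hz ⟨1, one_smul _ _⟩
        · intro hz
          obtain ⟨w, hw, g1, rfl⟩ := Set.mem_iUnion₂.1 hz
          rintro ⟨g2, hg2⟩
          refine hw ⟨g1⁻¹ * g2, ?_⟩
          simp only at hg2 ⊢
          rw [mul_smul, hg2, inv_smul_smul]
      rw [this]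
      exact isOpen_biUnion fun w _ => (hopen w).isOpen_range
    have hcpt : IsCompact (Set.range fun h : H => h • v) := horb.isCompact
    have hcov : ∃ K : Set H, IsCompact K ∧ (Set.range fun h : H => h • v) ⊆
        (fun h : H => h • v) '' K := by
      refine hcpt.induction_on (p := fun S : Set (G ⧸ Γ) => ∃ K : Set H, IsCompact K ∧
        S ⊆ (fun h : H => h • v) '' K) ?_ ?_ ?_ ?_
      · exact ⟨∅, isCompact_empty, Set.empty_subset _⟩
      · rintro s t hst ⟨K, hK, h⟩
        exact ⟨K, hK, hst.trans h⟩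
      · rintro s t ⟨K, hK, h⟩ ⟨K', hK', h'⟩
        refine ⟨K ∪ K', hK.union hK', ?_⟩
        rw [Set.image_union]
        exact Set.union_subset_union h h'
      · rintro _ ⟨h, rfl⟩
        obtain ⟨B, hB, hBh⟩ := exists_compact_mem_nhds h
        exact ⟨(fun h : H => h • v) '' B, mem_nhdsWithin_of_mem_nhds
          ((hopen v).image_mem_nhds hBh), B, hB, Set.Subset.rfl⟩
    obtain ⟨K, hK, h⟩ := hcov
    refine ⟨K, hK, fun x => ?_⟩
    obtain ⟨b, hb, hbx⟩ := h ⟨x, rfl⟩
    refine ⟨b, hb, b⁻¹ * x, ?_, by group⟩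
    rw [hSt, MulAction.mem_stabilizer_iff, mul_smul]
    simp only at hbx
    rw [← hbx, inv_smul_smul]
  -- compact generation
  obtain ⟨B, hB, hB1⟩ := exists_compact_mem_nhds (1 : H)
  have hgenC : Subgroup.closure (B ∪ {gH}) = (⊤ : Subgroup H) := by
    refine gen _ ?_ (Subgroup.subset_closure (Or.inr rfl))
    exact mem_of_superset hB1 fun x hx => Subgroup.subset_closure (Or.inl hx)
  obtain ⟨S, hS⟩ := fg_of_compact (Γ := St) hfin hK hKΓ (hB.union isCompact_singleton) hgenC
  -- generation by rooted elements and the stabiliser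
  have hrootH : ∀ c (hc : c ∈ H), Rooted c → Rooted (⟨c, hc⟩ : H) := by
    rintro c hc ⟨f, hf, hf2⟩
    have hHn : (H : Set G) ∈ 𝓝 (1 : G) := hHo.mem_nhds (one_mem _)
    have hev : ∀ᶠ n in atTop, f n ∈ H := hf.eventually hHn
    refine ⟨fun n => if h : f n ∈ H then ⟨f n, h⟩ else 1, ?_, ?_⟩
    · rw [tendsto_subtype_rng]
      refine hf.congr' ?_
      filter_upwards [hev] with n hn
      rw [dif_pos hn]
    · filter_upwards [hev, hf2] with n hn hn2
      rw [dif_pos hn]
      exact Subtype.ext hn2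
  have hrootn : {c : H | Rooted c} ∈ 𝓝 (1 : H) := by
    have h1 : ∀ᶠ c : H in 𝓝 (1 : H), Rooted (c : G) :=
      (continuous_subtype_val.tendsto (1 : H)).eventually hroot
    exact mem_of_superset h1 fun c hc => hrootH c c.2 hc
  have hgenR : Subgroup.closure ({c : H | Rooted c} ∪ (St : Set H)) = ⊤ := by
    have hn : ((Subgroup.closure ({c : H | Rooted c} ∪ (St : Set H)) : Subgroup H) : Set H) ∈
        𝓝 (1 : H) := mem_of_superset hrootn fun x hx => Subgroup.subset_closure (Or.inl hx)
    refine gen _ hn ?_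
    -- `C0` is inside
    have hUo : IsOpen ((Subgroup.closure ({c : H | Rooted c} ∪ (St : Set H)) : Subgroup H) :
        Set H) := Subgroup.isOpen_of_mem_nhds _ hn
    have hU'o : IsOpen (((Subgroup.closure ({c : H | Rooted c} ∪ (St : Set H))).map H.subtype :
        Subgroup G) : Set G) := hHo.isOpenMap_subtype_val _ hUo
    have hU'c := Subgroup.isClosed_of_isOpen _ hU'o
    have hle1 : C0 ≤ (Subgroup.closure ({c : H | Rooted c} ∪ (St : Set H))).map H.subtype := by
      have := (isPreconnected_connectedComponent (x := (1 : G))).subset_isClopen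
        ⟨hU'c, hU'o⟩ ⟨1, mem_connectedComponent, one_mem _⟩
      exact this
    obtain ⟨a', ha', haa'⟩ := hle1 ha
    have h1 : gH = a' * (a'⁻¹ * gH) := by group
    rw [h1]
    refine mul_mem ha' (Subgroup.subset_closure (Or.inr ?_))
    rw [SetLike.mem_coe, hSt, MulAction.mem_stabilizer_iff, mul_smul]
    have h2 : gH • v = a' • v := by
      change (g ^ N) • v = (a' : G) • v
      rw [haN]
      congr 1
      exact haa'.symm
    rw [h2, inv_smul_smul]
  have hkH : LC H k = ⊥ := by
    rw [← Subgroup.map_subtype_inj, Subgroup.map_bot, Subgroup.top_subtype_lowerCentralSeries,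
      eq_bot_iff, ← hk]
    exact H.lowerCentralSeries_mono k le_top
  choose Kj hKj hKjs hKjd using cc_all hStc hK hKΓ hgenR hS hkH
  set QH : Set H := insert 1 (⋃ j ∈ Finset.range k, Kj j) with hQH
  have hQHc : IsCompact QH := ((Finset.range k).isCompact_biUnion fun j _ => hKj j).insert 1
  have hQ : ∀ j < k, ∀ y ∈ LC H j, ∃ a ∈ QH, a ∈ LC H j ∧ ∃ γ ∈ St, y = a * γ := by
    intro j hj y hy
    obtain ⟨a, ha, γ, hγ, h⟩ := hKjd j y hy
    exact ⟨a, Set.mem_insert_of_mem _ (Set.mem_biUnion (Finset.mem_range.2 hj) ha), hKjs j ha,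
      γ, hγ, h⟩
  refine ⟨Subtype.val '' QH, hQHc.image continuous_subtype_val, ?_⟩
  intro s W
  obtain ⟨u, hu, hu2⟩ := det (W := W) hkH (Set.mem_insert _ _) hQ gH s
  refine ⟨fun J => (u J : G), fun J => ⟨u J, hu J, rfl⟩, ?_⟩
  intro I hI
  obtain ⟨γ, hγ, h⟩ := hu2 I hI
  have h3 : gH ^ (∑ i ∈ I, s i) • v =
      (((Lf W 1 k).filter (fun J => decide (J ⊆ I))).map u).prod • v := by
    rw [h, mul_smul, MulAction.mem_stabilizer_iff.1 hγ]
  have h4 : (((((Lf W 1 k).filter (fun J => decide (J ⊆ I))).map u).prod : H) : G) =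
      (((Lf W 1 k).filter (fun J => decide (J ⊆ I))).map fun J => (u J : G)).prod := by
    rw [← Subgroup.subtype_apply, map_list_prod, List.map_map]
    rfl
  rw [← h4]
  exact h3

end red

end Pool.Agent.V11108.N
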