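import Pool.Agent.V11108.N5

/-! Patterns and the counting argument. -/

namespace Pool.Agent.V11108.N

open Pool.Agent.V11106 Subgroup commutatorElement Filter Topology

/-- the list of colours of the subsets of `I` of size between `1` and `k` -/
noncomputable def pat {κ : Type*} (W : Finset ℕ) (k : ℕ) (c : Finset ℕ → κ) (I : Finset ℕ) :
    List κ := ((Lf W 1 k).filter (fun J => decide (J ⊆ I))).map c

theorem length_filter_le (W : Finset ℕ) (k : ℕ) (I : Finset ℕ) :
    ((Lf W 1 k).filter (fun J => decide (J ⊆ I))).length ≤ 2 ^ I.card := by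
  classical
  have hnd : ((Lf W 1 k).filter (fun J => decide (J ⊆ I))).Nodup := (nodup_Lf k 1).filter _
  rw [← List.toFinset_card_of_nodup hnd, ← Finset.card_powerset]
  refine Finset.card_le_card ?_
  intro J hJ
  rw [List.mem_toFinset, List.mem_filter] at hJ
  exact Finset.mem_powerset.2 (by simpa using hJ.2)

theorem sum_singletons {W : Finset ℕ} {k : ℕ} (hk : 1 ≤ k) {I : Finset ℕ} (hI : I ⊆ W)
    (w : Finset ℕ → ℕ) (hw : ∀ J, J.card ≠ 1 → w J = 0) :
    (((Lf W 1 k).filter (fun J => decide (J ⊆ I))).map w).sum = ∑ i ∈ I, w {i} := by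
  classical
  have hnd : ((Lf W 1 k).filter (fun J => decide (J ⊆ I))).Nodup := (nodup_Lf k 1).filter _
  rw [← List.sum_toFinset _ hnd]
  have hsub : I.powersetCard 1 ⊆ ((Lf W 1 k).filter (fun J => decide (J ⊆ I))).toFinset := by
    intro J hJ
    rw [Finset.mem_powersetCard] at hJ
    rw [List.mem_toFinset, List.mem_filter, mem_Lf]
    exact ⟨⟨hJ.1.trans hI, by omega, by omega⟩, by simpa using hJ.1⟩
  rw [← Finset.sum_subset hsub]
  · rw [Finset.powersetCard_one, Finset.sum_map]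
    rfl
  · intro J hJ hJ2
    refine hw J fun h => hJ2 ?_
    rw [List.mem_toFinset, List.mem_filter] at hJ
    exact Finset.mem_powersetCard.2 ⟨by simpa using hJ.2, h⟩

theorem pattern {G : Type} [Group G] [TopologicalSpace G] [IsTopologicalGroup G] [T2Space G]
    [LocallyCompactSpace G] [LocallyConnectedSpace G]
    (hroot : ∀ᶠ g in 𝓝 (1 : G), Rooted g) {k : ℕ} (hk1 : 1 ≤ k) (hk : LC G k = ⊥)
    (Γ : Subgroup G) [DiscreteTopology Γ] [CompactSpace (G ⧸ Γ)] (g : G) (v : G ⧸ Γ)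
    {Z : Type*} [PseudoMetricSpace Z] (F : G ⧸ Γ → Z) (hF : Continuous F)
    {ε : ℝ} (hε : 0 < ε) (n : ℕ) :
    ∃ (κ : Type) (_ : Finite κ), ∀ (s : ℕ → ℕ) (W : Finset ℕ), ∃ c : Finset ℕ → κ,
      ∀ I ⊆ W, ∀ I' ⊆ W, I.card ≤ n → I'.card ≤ n → pat W k c I = pat W k c I' →
        dist (F (g ^ (∑ i ∈ I, s i) • v)) (F (g ^ (∑ i ∈ I', s i) • v)) < ε := by
  classical
  obtain ⟨N, hN, Q, hQ, hdet⟩ := main_det hroot hk Γ g v
  obtain ⟨κ, hκ, cell, hcell⟩ := cells hQ (2 ^ n)
    (fun (y : G) (t : Fin (n * N + 1)) => F (g ^ (t : ℕ) • y • v)) (by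
      refine continuous_pi fun t => hF.comp ?_
      fun_prop) ε hε
  refine ⟨κ × Fin N, inferInstance, fun s W => ?_⟩
  obtain ⟨u, hu, hu2⟩ := hdet (fun i => s i / N) W
  set w : Finset ℕ → ℕ := fun J => if J.card = 1 then (∑ i ∈ J, s i) % N else 0 with hw
  have hwN : ∀ J, w J < N := by
    intro J
    simp only [hw]
    split_ifs
    · exact Nat.mod_lt _ hN
    · exact hN
  refine ⟨fun J => (cell (u J), ⟨w J, hwN J⟩), ?_⟩
  have hval : ∀ I ⊆ W, I.card ≤ n → ∃ ht : (∑ i ∈ I, w {i}) < n * N + 1,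
      F (g ^ (∑ i ∈ I, s i) • v) = F (g ^ (((⟨∑ i ∈ I, w {i}, ht⟩ : Fin (n * N + 1)) : ℕ)) •
        (((Lf W 1 k).filter (fun J => decide (J ⊆ I))).map u).prod • v) := by
    intro I hI hIn
    have h1 : ∑ i ∈ I, w {i} ≤ I.card * N := by
      rw [← smul_eq_mul]
      exact Finset.sum_le_card_nsmul _ _ _ fun i _ => (hwN _).le
    have h2 : I.card * N ≤ n * N := Nat.mul_le_mul_right _ hIn
    refine ⟨by omega, ?_⟩
    have h3 : ∑ i ∈ I, s i = ∑ i ∈ I, w {i} + N * ∑ i ∈ I, s i / N := by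
      rw [Finset.mul_sum, ← Finset.sum_add_distrib]
      refine Finset.sum_congr rfl fun i _ => ?_
      simp only [hw, Finset.card_singleton, if_true, Finset.sum_singleton]
      exact (Nat.mod_add_div (s i) N).symm
    rw [h3, pow_add, pow_mul, mul_smul, hu2 I hI]
  intro I hI I' hI' hIn hI'n hpat
  obtain ⟨ht, e⟩ := hval I hI hIn
  obtain ⟨ht', e'⟩ := hval I' hI' hI'n
  have hfst : (((Lf W 1 k).filter (fun J => decide (J ⊆ I))).map u).map cell =
      (((Lf W 1 k).filter (fun J => decide (J ⊆ I'))).map u).map cell := by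
    have := congrArg (List.map Prod.fst) hpat
    simpa [pat, List.map_map, Function.comp_def] using this
  have hsnd : ∑ i ∈ I, w {i} = ∑ i ∈ I', w {i} := by
    have := congrArg (fun l => (l.map fun p : κ × Fin N => (p.2 : ℕ)).sum) hpat
    simp only [pat, List.map_map, Function.comp_def] at this
    rw [sum_singletons hk1 hI w, sum_singletons hk1 hI' w] at this
    · exact this
    · intro J hJ; simp only [hw, if_neg hJ]
    · intro J hJ; simp only [hw, if_neg hJ]
  have hc := hcell _ _ (by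
      rw [List.length_map]
      exact (length_filter_le W k I).trans (Nat.pow_le_pow_right (by norm_num) hIn))
    (by
      intro x hx
      obtain ⟨J, _, rfl⟩ := List.mem_map.1 hx
      exact hu J)
    (by
      intro x hx
      obtain ⟨J, _, rfl⟩ := List.mem_map.1 hx
      exact hu J) hfst
  rw [e, e']
  have hc2 := (dist_pi_lt_iff hε).1 hc ⟨∑ i ∈ I, w {i}, ht⟩
  simp only at hc2 ⊢
  rw [← hsnd]
  exact hc2

theorem choose_mono_half {m k : ℕ} (hm : 2 * k + 2 ≤ m) : ∀ d i, i + d = k →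
    m.choose i ≤ m.choose k := by
  intro d
  induction d with
  | zero => intro i hi; rw [show i = k by omega]
  | succ d ih =>
    intro i hi
    exact (Nat.choose_le_succ_of_lt_half_left (by omega)).trans (ih (i + 1) (by omega))

theorem length_Lf {W : Finset ℕ} {k : ℕ} (hm : 2 * k + 2 ≤ W.card) : ∀ n i, i + n = k + 1 →
    (Lf W i n).length ≤ n * W.card.choose k := by
  intro n
  induction n with
  | zero => intro i _; simp [Lf]
  | succ n ih =>
    intro i hi
    simp only [Lf, List.length_append]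
    have h1 : (lev W i).length = W.card.choose i := by
      rw [lev, Finset.length_toList, Finset.card_powersetCard]
    have h2 := choose_mono_half hm (k - i) i (by omega)
    have h3 := ih (i + 1) (by omega)
    rw [h1]
    calc _ ≤ W.card.choose k + n * W.card.choose k := by omega
      _ = (n + 1) * W.card.choose k := by ring

theorem exists_chi (k r : ℕ) : ∃ m : ℕ, ∀ W : Finset ℕ, W.card = m → ∃ χ : Finset ℕ → Prop,
    ∀ c : Finset ℕ → Fin r, ∃ I I' : Finset ℕ, I ⊆ W ∧ I' ⊆ W ∧ I.card = k + 1 ∧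
      I'.card = k + 1 ∧ pat W k c I = pat W k c I' ∧ χ I ∧ ¬ χ I' := by
  classical
  set PP : Finset (List (Fin r)) := (List.finite_length_le (Fin r) (2 ^ (k + 1))).toFinset with hPP
  set B := PP.card with hB
  refine ⟨2 * k + 2 + (k + 1) * (r * k + B + 1), fun W hW => ?_⟩
  by_contra hcon
  push Not at hcon
  choose c hc using fun 𝒳 : Finset (Finset ℕ) => hcon (fun I => I ∈ 𝒳)
  set 𝓛 := (Lf W 1 k).toFinset with h𝓛
  have hcard := Finset.card_le_card_of_injOn
    (s := (W.powersetCard (k + 1)).powerset)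
    (t := (Finset.univ : Finset (𝓛 → Fin r)) ×ˢ PP.powerset)
    (fun 𝒳 => (fun J : 𝓛 => c 𝒳 J, 𝒳.image (pat W k (c 𝒳)))) ?_ ?_
  · rw [Finset.card_product, Finset.card_powerset, Finset.card_powerset, Finset.card_univ,
      Fintype.card_fun, Fintype.card_fin, Fintype.card_coe, Finset.card_powersetCard] at hcard
    set C := W.card.choose k with hC
    have hCpos : 1 ≤ C := Nat.choose_pos (by omega)
    have h1 : 𝓛.card ≤ k * C := (List.toFinset_card_le _).trans
      (length_Lf (by omega) k 1 (by omega))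
    have h2 : r ^ 𝓛.card ≤ 2 ^ (r * (k * C)) := by
      calc r ^ 𝓛.card ≤ (2 ^ r) ^ 𝓛.card := Nat.pow_le_pow_left Nat.lt_two_pow_self.le _
        _ = 2 ^ (r * 𝓛.card) := (pow_mul _ _ _).symm
        _ ≤ 2 ^ (r * (k * C)) := Nat.pow_le_pow_right (by norm_num) (Nat.mul_le_mul_left _ h1)
    have h3 : 2 ^ (W.card.choose (k + 1)) ≤ 2 ^ (r * (k * C) + B) := by
      rw [pow_add]
      exact hcard.trans (Nat.mul_le_mul_right _ h2)
    have h4 : W.card.choose (k + 1) ≤ r * (k * C) + B :=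
      (Nat.pow_le_pow_iff_right (by norm_num)).1 h3
    have h5 : W.card.choose (k + 1) * (k + 1) = C * (W.card - k) := Nat.choose_succ_right_eq _ _
    have h6 : (k + 1) * (r * k + B + 1) ≤ W.card - k := by omega
    have h7 : C * ((k + 1) * (r * k + B + 1)) ≤ W.card.choose (k + 1) * (k + 1) := by
      rw [h5]; exact Nat.mul_le_mul_left _ h6
    have h8 : C * (r * k + B + 1) ≤ W.card.choose (k + 1) := by
      refine Nat.le_of_mul_le_mul_right (c := k + 1) ?_ (by omega)
      calc C * (r * k + B + 1) * (k + 1) = C * ((k + 1) * (r * k + B + 1)) := by ring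
        _ ≤ _ := h7
    nlinarith
  · intro 𝒳 h𝒳
    rw [Finset.mem_coe, Finset.mem_powerset] at h𝒳
    rw [Finset.mem_coe, Finset.mem_product]
    refine ⟨Finset.mem_univ _, Finset.mem_powerset.2 ?_⟩
    intro l hl
    obtain ⟨I, hI, rfl⟩ := Finset.mem_image.1 hl
    rw [hPP, Set.Finite.mem_toFinset, Set.mem_ofPred_eq, pat, List.length_map]
    have := (Finset.mem_powersetCard.1 (h𝒳 hI)).2
    rw [← this]
    exact length_filter_le W k I
  · have key : ∀ 𝒳 𝒴 : Finset (Finset ℕ), 𝒳 ⊆ W.powersetCard (k + 1) →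
        𝒴 ⊆ W.powersetCard (k + 1) → (fun J : 𝓛 => c 𝒳 J) = (fun J : 𝓛 => c 𝒴 J) →
        𝒳.image (pat W k (c 𝒳)) = 𝒴.image (pat W k (c 𝒴)) → 𝒳 ⊆ 𝒴 := by
      intro 𝒳 𝒴 h𝒳 h𝒴 h1 h2 I hI
      have hpat : ∀ I, pat W k (c 𝒳) I = pat W k (c 𝒴) I := by
        intro I
        simp only [pat]
        refine List.map_congr_left fun J hJ => ?_
        have hJ2 : J ∈ 𝓛 := List.mem_toFinset.2 (List.mem_filter.1 hJ).1
        exact congrFun h1 ⟨J, hJ2⟩
      have h3 : pat W k (c 𝒳) I ∈ 𝒴.image (pat W k (c 𝒴)) := by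
        rw [← h2]; exact Finset.mem_image_of_mem _ hI
      obtain ⟨I', hI', h4⟩ := Finset.mem_image.1 h3
      have e1 := Finset.mem_powersetCard.1 (h𝒳 hI)
      have e2 := Finset.mem_powersetCard.1 (h𝒴 hI')
      exact hc 𝒴 I' I e2.1 e1.1 e2.2 e1.2 (by rw [h4, hpat]) hI'
    intro 𝒳 h𝒳 𝒴 h𝒴 h
    rw [Finset.mem_coe, Finset.mem_powerset] at h𝒳 h𝒴
    simp only [Prod.mk.injEq] at h
    exact Finset.Subset.antisymm (key 𝒳 𝒴 h𝒳 h𝒴 h.1 h.2) (key 𝒴 𝒳 h𝒴 h𝒳 h.1.symm h.2.symm)

/-- One family of finite sets that is not determined by any finite colouring of the smaller sets. -/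
theorem core (k : ℕ) : ∃ A : Set (Finset ℕ), ∀ (κ : Type) [Finite κ], ∃ W : Finset ℕ,
    ∀ c : Finset ℕ → κ, ∃ I I' : Finset ℕ, I ⊆ W ∧ I' ⊆ W ∧ I.card = k + 1 ∧ I'.card = k + 1 ∧
      pat W k c I = pat W k c I' ∧ I ∈ A ∧ I' ∉ A := by
  classical
  choose m hm using exists_chi k
  obtain ⟨o, ho⟩ : ∃ o : ℕ → ℕ, ∀ r, o (r + 1) = o r + m r := by
    refine ⟨fun r => ∑ i ∈ Finset.range r, m i, fun r => Finset.sum_range_succ _ _⟩
  have homono : Monotone o := monotone_nat_of_le_succ fun r => by rw [ho]; omega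
  choose χ hχ using fun r => hm r (Finset.Ico (o r) (o (r + 1))) (by rw [Nat.card_Ico, ho]; omega)
  refine ⟨{I | ∃ r, I ⊆ Finset.Ico (o r) (o (r + 1)) ∧ χ r I}, ?_⟩
  intro κ hκ
  have : Fintype κ := Fintype.ofFinite κ
  set r := Fintype.card κ with hr
  let e := Fintype.equivFin κ
  refine ⟨Finset.Ico (o r) (o (r + 1)), fun c => ?_⟩
  obtain ⟨I, I', hI, hI', hc, hc', hp, h1, h2⟩ := hχ r (fun J => e (c J))
  refine ⟨I, I', hI, hI', hc, hc', ?_, ⟨r, hI, h1⟩, ?_⟩
  · have h3 := congrArg (List.map e.symm) hp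
    simpa [pat, List.map_map, Function.comp_def] using h3
  · rintro ⟨r', hI'', h3⟩
    have hne : I'.Nonempty := by rw [← Finset.card_pos, hc']; omega
    obtain ⟨x, hx⟩ := hne
    have hx1 := Finset.mem_Ico.1 (hI' hx)
    have hx2 := Finset.mem_Ico.1 (hI'' hx)
    have : r' = r := by
      rcases lt_trichotomy r' r with h | h | h
      · have := homono (show r' + 1 ≤ r by omega); omega
      · exact h
      · have := homono (show r + 1 ≤ r' by omega); omega
    subst this
    exact h2 h3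

end Pool.Agent.V11108.N
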