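import Mathlib

/-! The sparse sequence: `α n ^ d` takes prescribed values (`0` or `1/2` mod 1, up to `1/8`) on the
sums of `d` distinct terms. -/

namespace Pool.Agent.V11108.N

theorem digits_unique {B : ℕ} : ∀ (N : ℕ) (e e' : ℕ → ℕ), (∀ i, e i < B) → (∀ i, e' i < B) →
    ∑ i ∈ Finset.range N, e i * B ^ i = ∑ i ∈ Finset.range N, e' i * B ^ i →
    ∀ i < N, e i = e' i := by
  intro N
  induction N with
  | zero => intro e e' _ _ _ i hi; omega
  | succ N ih =>
    intro e e' he he' h i hi
    rw [Finset.sum_range_succ', Finset.sum_range_succ'] at h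
    simp only [pow_zero, mul_one] at h
    have hB : 0 < B := (Nat.zero_le _).trans_lt (he 0)
    have e1 : ∀ f : ℕ → ℕ, ∑ i ∈ Finset.range N, f (i + 1) * B ^ (i + 1) =
        B * ∑ i ∈ Finset.range N, f (i + 1) * B ^ i := by
      intro f
      rw [Finset.mul_sum]
      exact Finset.sum_congr rfl fun i _ => by ring
    rw [e1 e, e1 e'] at h
    have h0 : e 0 = e' 0 := by
      have := congrArg (· % B) h
      simp only [Nat.mul_add_mod] at this
      rwa [Nat.mod_eq_of_lt (he 0), Nat.mod_eq_of_lt (he' 0)] at this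
    have h1 : ∑ i ∈ Finset.range N, e (i + 1) * B ^ i = ∑ i ∈ Finset.range N, e' (i + 1) * B ^ i := by
      rw [h0] at h
      exact Nat.eq_of_mul_eq_mul_left hB (Nat.add_right_cancel h)
    rcases Nat.eq_zero_or_pos i with rfl | hi0
    · exact h0
    · obtain ⟨j, rfl⟩ : ∃ j, i = j + 1 := ⟨i - 1, by omega⟩
      exact ih (fun i => e (i + 1)) (fun i => e' (i + 1)) (fun i => he _) (fun i => he' _) h1 j
        (by omega)

/-- closeness modulo one -/
def near (x y δ : ℝ) : Prop := ∃ z : ℤ, |x - y - z| ≤ δ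

theorem near_sum {ι : Type*} (t : Finset ι) (x y : ι → ℝ) (δ : ℝ) (h : ∀ i ∈ t, near (x i) (y i) δ) :
    near (∑ i ∈ t, x i) (∑ i ∈ t, y i) (t.card * δ) := by
  classical
  induction t using Finset.induction_on with
  | empty => exact ⟨0, by simp⟩
  | insert i t hi ih =>
    obtain ⟨z, hz⟩ := ih fun j hj => h j (Finset.mem_insert_of_mem hj)
    obtain ⟨w, hw⟩ := h i (Finset.mem_insert_self _ _)
    refine ⟨w + z, ?_⟩
    rw [Finset.sum_insert hi, Finset.sum_insert hi, Finset.card_insert_of_notMem hi]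
    push_cast
    have e : x i + ∑ j ∈ t, x j - (y i + ∑ j ∈ t, y j) - (w + z) =
        (x i - y i - w) + (∑ j ∈ t, x j - ∑ j ∈ t, y j - z) := by ring
    rw [e]
    calc _ ≤ |x i - y i - w| + |∑ j ∈ t, x j - ∑ j ∈ t, y j - z| := abs_add_le _ _
      _ ≤ δ + t.card * δ := add_le_add hw hz
      _ = _ := by ring

/-- a lacunary base `D` expansion -/
theorem near_single {D : ℕ} (hD : 2 ≤ D) {h : ℕ} (hh : 1 ≤ h) (χ : ℕ → ℝ)
    (hχ : ∀ e, χ e = 0 ∨ χ e = 1) :
    ∃ α : ℝ, ∀ y : ℕ, near ((D : ℝ) ^ (h * y) * α) (χ y / D) (1 / (D : ℝ) ^ h) := by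
  have hD0 : (0 : ℝ) < D := by positivity
  have hD2 : (2 : ℝ) ≤ D := by exact_mod_cast hD
  have hD1 : (1 : ℝ) ≤ D := by linarith
  have hχ0 : ∀ e, 0 ≤ χ e := fun e => by rcases hχ e with h | h <;> rw [h]; norm_num
  have hχ1 : ∀ e, χ e ≤ 1 := fun e => by rcases hχ e with h | h <;> rw [h]; norm_num
  set x : ℕ → ℝ := fun e => χ e / (D : ℝ) ^ (h * e + 1) with hx
  have hx0 : ∀ e, 0 ≤ x e := fun e => div_nonneg (hχ0 e) (by positivity)
  have hbound : ∀ m j : ℕ, x (m + j) ≤ 1 / (D : ℝ) ^ (h * m) / 2 / 2 ^ j := by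
    intro m j
    have h1 : x (m + j) ≤ 1 / (D : ℝ) ^ (h * (m + j) + 1) :=
      div_le_div_of_nonneg_right (hχ1 _) (by positivity)
    have h2 : (D : ℝ) ^ (h * m) * (2 * 2 ^ j) ≤ (D : ℝ) ^ (h * (m + j) + 1) := by
      calc (D : ℝ) ^ (h * m) * (2 * 2 ^ j) = (D : ℝ) ^ (h * m) * 2 ^ (j + 1) := by ring
        _ ≤ (D : ℝ) ^ (h * m) * (D : ℝ) ^ (j + 1) := by gcongr
        _ = (D : ℝ) ^ (h * m + (j + 1)) := (pow_add _ _ _).symm
        _ ≤ (D : ℝ) ^ (h * (m + j) + 1) := by
            refine pow_le_pow_right₀ hD1 ?_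
            have : j ≤ h * j := Nat.le_mul_of_pos_left _ hh
            rw [Nat.mul_add]
            omega
    refine h1.trans ?_
    rw [div_div, div_div]
    exact one_div_le_one_div_of_le (by positivity) h2
  have hsum : Summable x := by
    refine Summable.of_nonneg_of_le hx0 (fun j => ?_) (hasSum_geometric_two' (1 : ℝ)).summable
    have := hbound 0 j
    simpa using this
  refine ⟨∑' e, x e, fun y => ?_⟩
  have hsplit := hsum.sum_add_tsum_nat_add (y + 1)
  have htail0 : 0 ≤ ∑' j, x (j + (y + 1)) := tsum_nonneg fun j => hx0 _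
  have htail1 : ∑' j, x (j + (y + 1)) ≤ 1 / (D : ℝ) ^ (h * (y + 1)) := by
    have h1 := hasSum_geometric_two' (1 / (D : ℝ) ^ (h * (y + 1)))
    rw [← h1.tsum_eq]
    refine ((summable_nat_add_iff (y + 1)).2 hsum).tsum_le_tsum (fun j => ?_) h1.summable
    rw [add_comm j (y + 1)]
    exact hbound (y + 1) j
  refine ⟨∑ e ∈ Finset.range y, (if χ e = 1 then (D : ℤ) ^ (h * y - (h * e + 1)) else 0), ?_⟩
  have hint : (D : ℝ) ^ (h * y) * ∑ e ∈ Finset.range y, x e =
      ((∑ e ∈ Finset.range y, (if χ e = 1 then (D : ℤ) ^ (h * y - (h * e + 1)) else 0) : ℤ) : ℝ) := by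
    rw [Finset.mul_sum]
    push_cast
    refine Finset.sum_congr rfl fun e he => ?_
    rw [Finset.mem_range] at he
    have hle : h * e + 1 ≤ h * y := by
      have : h * (e + 1) ≤ h * y := Nat.mul_le_mul_left _ he
      rw [Nat.mul_add] at this
      omega
    rcases hχ e with h0 | h0
    · simp only [hx, h0]; norm_num
    · simp only [hx, h0, if_true]
      rw [pow_sub₀ _ hD0.ne' hle]
      rw [div_eq_mul_inv, one_mul]
  have hself : (D : ℝ) ^ (h * y) * x y = χ y / D := by
    simp only [hx]
    rw [pow_succ]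
    field_simp
  rw [← hsplit, Finset.sum_range_succ, mul_add, mul_add, hint, hself]
  have e : ∀ a b c : ℝ, a + b + c - b - a = c := fun a b c => by ring
  rw [e, abs_of_nonneg (by positivity)]
  calc (D : ℝ) ^ (h * y) * ∑' j, x (j + (y + 1)) ≤ (D : ℝ) ^ (h * y) *
      (1 / (D : ℝ) ^ (h * (y + 1))) := by gcongr
    _ = 1 / (D : ℝ) ^ h := by
        rw [Nat.mul_add, pow_add, mul_one]
        field_simp

theorem exists_alpha {d : ℕ} (hd : 1 ≤ d) : ∃ s : ℕ → ℕ, (∀ i, 1 ≤ s i) ∧
    (∀ I I' : Finset ℕ, ∑ i ∈ I, s i = ∑ i ∈ I', s i → I = I') ∧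
    ∀ A : Set (Finset ℕ), ∃ α : ℝ, ∀ I : Finset ℕ, I.card = d →
      (I ∈ A → near (α * ((∑ i ∈ I, s i : ℕ) : ℝ) ^ d) (1 / 2) (1 / 8)) ∧
      (I ∉ A → near (α * ((∑ i ∈ I, s i : ℕ) : ℝ) ^ d) 0 (1 / 8)) := by
  classical
  set D : ℕ := 2 * d.factorial with hD
  have hD2 : 2 ≤ D := by
    have := Nat.factorial_pos d
    omega
  set h : ℕ := 8 * d ^ d + 1 with hh
  have hinjb : Function.Injective (fun i : ℕ => h * (d + 1) ^ i) := by
    intro i j hij
    have h1 : (d + 1) ^ i = (d + 1) ^ j := Nat.eq_of_mul_eq_mul_left (by omega) hij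
    exact Nat.pow_right_injective (by omega) h1
  refine ⟨fun i => D ^ (h * (d + 1) ^ i), fun i => Nat.one_le_pow _ _ (by omega), ?_, ?_⟩
  · intro I I' hII
    have e : ∀ I : Finset ℕ, ∑ i ∈ I, D ^ (h * (d + 1) ^ i) =
        ∑ j ∈ I.image (fun i => h * (d + 1) ^ i), D ^ j := by
      intro I
      rw [Finset.sum_image]
      intro x _ y _ hxy
      exact hinjb hxy
    rw [e, e] at hII
    have h1 := Finset.geomSum_injective hD2 hII
    exact Finset.image_injective hinjb h1
  · intro A
    set χ : ℕ → ℝ := fun e => if ∃ I ∈ A, I.card = d ∧ ∑ i ∈ I, (d + 1) ^ i = e then 1 else 0 with hχ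
    obtain ⟨α, hα⟩ := near_single hD2 (h := h) (by omega) χ (fun e => by
      simp only [hχ]; split_ifs <;> simp)
    refine ⟨α, ?_⟩
    intro I hI
    -- expansion
    have hexp : α * ((∑ i ∈ I, D ^ (h * (d + 1) ^ i) : ℕ) : ℝ) ^ d =
        ∑ p ∈ Fintype.piFinset (fun _ : Fin d => I),
          (D : ℝ) ^ (h * ∑ t, (d + 1) ^ (p t)) * α := by
      have h1 : ((∑ i ∈ I, D ^ (h * (d + 1) ^ i) : ℕ) : ℝ) ^ d =
          ∏ _t : Fin d, ∑ i ∈ I, (D : ℝ) ^ (h * (d + 1) ^ i) := by
        rw [Finset.prod_const, Finset.card_univ, Fintype.card_fin]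
        push_cast
        rfl
      rw [h1, Finset.prod_univ_sum, Finset.mul_sum]
      refine Finset.sum_congr rfl fun p _ => ?_
      rw [mul_comm, Finset.prod_pow_eq_pow_sum, Finset.mul_sum]
    have hnear := near_sum (Fintype.piFinset (fun _ : Fin d => I))
      (fun p => (D : ℝ) ^ (h * ∑ t, (d + 1) ^ (p t)) * α)
      (fun p => χ (∑ t, (d + 1) ^ (p t)) / D) (1 / (D : ℝ) ^ h) (fun p _ => hα _)
    rw [← hexp] at hnear
    -- digits
    have hdig : ∀ (p : Fin d → ℕ) (J : Finset ℕ), ∑ t, (d + 1) ^ (p t) = ∑ i ∈ J, (d + 1) ^ i →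
        Function.Injective p ∧ J ⊆ Finset.univ.image p := by
      intro p J hpJ
      obtain ⟨N, hN1, hN2⟩ : ∃ N, (∀ t, p t < N) ∧ ∀ i ∈ J, i < N := by
        refine ⟨(∑ t, p t) + (∑ i ∈ J, i) + 1, fun t => ?_, fun i hi => ?_⟩
        · have := Finset.single_le_sum (f := p) (fun _ _ => Nat.zero_le _) (Finset.mem_univ t)
          omega
        · have := Finset.single_le_sum (f := fun i => i) (fun _ _ => Nat.zero_le _) hi
          omega
      have e1 : ∑ t, (d + 1) ^ (p t) = ∑ i ∈ Finset.range N,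
          (Finset.univ.filter fun t => p t = i).card * (d + 1) ^ i := by
        rw [← Finset.sum_fiberwise_of_maps_to (s := Finset.univ) (t := Finset.range N) (g := p)
          (fun t _ => Finset.mem_range.2 (hN1 t))]
        refine Finset.sum_congr rfl fun i _ => ?_
        rw [Finset.sum_congr rfl (g := fun _ => (d + 1) ^ i), Finset.sum_const, smul_eq_mul]
        intro t ht
        rw [(Finset.mem_filter.1 ht).2]
      have e2 : ∑ i ∈ J, (d + 1) ^ i = ∑ i ∈ Finset.range N,
          (if i ∈ J then 1 else 0) * (d + 1) ^ i := by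
        simp only [ite_mul, one_mul, zero_mul]
        rw [← Finset.sum_filter]
        congr 1
        ext i
        simp only [Finset.mem_filter, Finset.mem_range]
        exact ⟨fun hi => ⟨hN2 i hi, hi⟩, fun hi => hi.2⟩
      have hcard : ∀ i, (Finset.univ.filter fun t => p t = i).card ≤ d := by
        intro i
        refine (Finset.card_le_univ _).trans ?_
        rw [Fintype.card_fin]
      have key := digits_unique (B := d + 1) N
        (fun i => (Finset.univ.filter fun t => p t = i).card) (fun i => if i ∈ J then 1 else 0)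
        (fun i => by have := hcard i; omega) (fun i => by by_cases h : i ∈ J <;> simp [h] <;> omega)
        (by rw [← e1, ← e2, hpJ])
      constructor
      · intro t t' htt
        by_contra hne
        have h1 := key (p t) (hN1 t)
        have h2 : 2 ≤ (Finset.univ.filter fun t' => p t' = p t).card := by
          rw [← Finset.card_pair hne]
          refine Finset.card_le_card ?_
          intro x hx
          rcases Finset.mem_insert.1 hx with rfl | hx
          · simp
          · rw [Finset.mem_singleton] at hx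
            subst hx
            simp [htt]
        by_cases h3 : p t ∈ J
        · rw [if_pos h3] at h1; omega
        · rw [if_neg h3] at h1; omega
      · intro i hi
        have h1 := key i (hN2 i hi)
        simp only [if_pos hi] at h1
        have h2 : (Finset.univ.filter fun t => p t = i).Nonempty := by
          rw [← Finset.card_pos]; omega
        obtain ⟨t, ht⟩ := h2
        exact Finset.mem_image.2 ⟨t, Finset.mem_univ _, (Finset.mem_filter.1 ht).2⟩
    have himg : ∀ p ∈ Fintype.piFinset (fun _ : Fin d => I), Function.Injective p →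
        Finset.univ.image p = I := by
      intro p hp hinj
      refine Finset.eq_of_subset_of_card_le ?_ ?_
      · intro x hx
        obtain ⟨t, _, rfl⟩ := Finset.mem_image.1 hx
        exact Fintype.mem_piFinset.1 hp t
      · rw [Finset.card_image_of_injective _ hinj, Finset.card_univ, Fintype.card_fin, hI]
    -- value of χ
    have hχ1 : ∀ p ∈ Fintype.piFinset (fun _ : Fin d => I), Function.Injective p →
        χ (∑ t, (d + 1) ^ (p t)) = if I ∈ A then 1 else 0 := by
      intro p hp hinj
      have h1 : ∑ t, (d + 1) ^ (p t) = ∑ i ∈ I, (d + 1) ^ i := by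
        rw [← himg p hp hinj, Finset.sum_image (fun x _ y _ hxy => hinj hxy)]
      rw [h1]
      simp only [hχ]
      by_cases hIA : I ∈ A
      · rw [if_pos ⟨I, hIA, hI, rfl⟩, if_pos hIA]
      · rw [if_neg hIA, if_neg]
        rintro ⟨I', hI', _, h2⟩
        have : I' = I := Finset.geomSum_injective (by omega) h2
        exact hIA (this ▸ hI')
    have hχ0 : ∀ p ∈ Fintype.piFinset (fun _ : Fin d => I), ¬ Function.Injective p →
        χ (∑ t, (d + 1) ^ (p t)) = 0 := by
      intro p hp hinj
      simp only [hχ]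
      rw [if_neg]
      rintro ⟨J, hJ, hJd, h2⟩
      exact hinj (hdig p J h2.symm).1
    have hcount : ((Fintype.piFinset (fun _ : Fin d => I)).filter
        (fun p => Function.Injective p)).card = d.factorial := by
      have h1 : Fintype.card (Fin d ↪ I) = d.factorial := by
        rw [Fintype.card_embedding_eq, Fintype.card_fin, Fintype.card_coe, hI,
          Nat.descFactorial_self]
      rw [← h1, ← Finset.card_univ]
      refine Finset.card_bij' (fun p hp => ⟨fun t => ⟨p t,
          Fintype.mem_piFinset.1 (Finset.mem_filter.1 hp).1 t⟩, fun t t' htt =>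
            (Finset.mem_filter.1 hp).2 (congrArg Subtype.val htt)⟩)
        (fun f _ => fun t => (f t : ℕ)) ?_ ?_ ?_ ?_
      · intro p hp; exact Finset.mem_univ _
      · intro f _
        refine Finset.mem_filter.2 ⟨Fintype.mem_piFinset.2 fun t => (f t).2, ?_⟩
        intro t t' htt
        exact f.injective (Subtype.ext htt)
      · intro p hp; rfl
      · intro f _; rfl
    have hsumχ : ∑ p ∈ Fintype.piFinset (fun _ : Fin d => I), χ (∑ t, (d + 1) ^ (p t)) / D =
        if I ∈ A then 1 / 2 else 0 := by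
      rw [← Finset.sum_filter_add_sum_filter_not _ (fun p => Function.Injective p)]
      have h1 : ∑ p ∈ (Fintype.piFinset (fun _ : Fin d => I)).filter
          (fun p => ¬ Function.Injective p), χ (∑ t, (d + 1) ^ (p t)) / D = 0 := by
        refine Finset.sum_eq_zero fun p hp => ?_
        rw [hχ0 p (Finset.mem_filter.1 hp).1 (Finset.mem_filter.1 hp).2, zero_div]
      have h2 : ∑ p ∈ (Fintype.piFinset (fun _ : Fin d => I)).filter
          (fun p => Function.Injective p), χ (∑ t, (d + 1) ^ (p t)) / D =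
          d.factorial * ((if I ∈ A then 1 else 0) / D) := by
        rw [Finset.sum_congr rfl (g := fun _ => ((if I ∈ A then (1 : ℝ) else 0) / D))
          (fun p hp => by rw [hχ1 p (Finset.mem_filter.1 hp).1 (Finset.mem_filter.1 hp).2]),
          Finset.sum_const, hcount, nsmul_eq_mul]
      rw [h1, h2, add_zero, hD]
      have hf : (d.factorial : ℝ) ≠ 0 := by exact_mod_cast (Nat.factorial_pos d).ne'
      push_cast
      split_ifs
      · field_simp
      · simp
    rw [hsumχ] at hnear
    have hsmall : ((Fintype.piFinset (fun _ : Fin d => I)).card : ℝ) * (1 / (D : ℝ) ^ h) ≤ 1 / 8 := by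
      rw [Fintype.card_piFinset, Finset.prod_const, Finset.card_univ, Fintype.card_fin, hI]
      have h1 : 8 * d ^ d ≤ D ^ h := by
        calc 8 * d ^ d ≤ h := by omega
          _ ≤ 2 ^ h := Nat.lt_two_pow_self.le
          _ ≤ D ^ h := Nat.pow_le_pow_left hD2 _
      have h2 : (8 : ℝ) * (d : ℝ) ^ d ≤ (D : ℝ) ^ h := by exact_mod_cast h1
      have h3 : (0 : ℝ) < (D : ℝ) ^ h := by positivity
      push_cast
      rw [mul_one_div, div_le_div_iff₀ h3 (by norm_num)]
      linarith
    obtain ⟨z, hz⟩ := hnear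
    constructor
    · intro hIA
      rw [if_pos hIA] at hz
      exact ⟨z, hz.trans hsmall⟩
    · intro hIA
      rw [if_neg hIA] at hz
      exact ⟨z, hz.trans hsmall⟩

end Pool.Agent.V11108.N
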