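import Pool.Agent.V11108.N7

/-! A simply connected `d`-step nilpotent Lie group realising the sequences `α n ^ d`. -/

namespace Pool.Agent.V11108.N

open Filter Topology
open scoped Manifold ContDiff

/-- coefficient vectors of `ι`-tuples of polynomials of degree `< d` -/
abbrev PV (d : ℕ) (ι : Type) : Type := Fin d → ι → ℝ

/-- evaluation -/
def ev {d : ℕ} {ι : Type} (p : PV d ι) (x : ℝ) (j : ι) : ℝ := ∑ i : Fin d, p i j * x ^ (i : ℕ)

/-- translation of polynomials -/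
def sft {d : ℕ} {ι : Type} (t : ℝ) (q : PV d ι) : PV d ι := fun i j =>
  ∑ l : Fin d, (((l : ℕ).choose i : ℕ) : ℝ) * t ^ ((l : ℕ) - (i : ℕ)) * q l j

theorem ev_sft {d : ℕ} {ι : Type} (t : ℝ) (q : PV d ι) (x : ℝ) (j : ι) :
    ev (sft t q) x j = ev q (x + t) j := by
  simp only [ev, sft, Finset.sum_mul]
  rw [Finset.sum_comm]
  refine Finset.sum_congr rfl fun l _ => ?_
  have h1 : ∀ i : Fin d, (((l : ℕ).choose i : ℕ) : ℝ) * t ^ ((l : ℕ) - (i : ℕ)) * q l j * x ^ (i : ℕ) =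
      q l j * (x ^ (i : ℕ) * t ^ ((l : ℕ) - (i : ℕ)) * (((l : ℕ).choose i : ℕ) : ℝ)) := fun i => by ring
  rw [Finset.sum_congr rfl fun i _ => h1 i, ← Finset.mul_sum, add_pow]
  congr 1
  rw [Fin.sum_univ_eq_sum_range
    (fun i => x ^ i * t ^ ((l : ℕ) - i) * (((l : ℕ).choose i : ℕ) : ℝ)) d]
  symm
  refine Finset.sum_subset (Finset.range_subset_range.2 l.2) ?_
  intro i _ hi
  rw [Finset.mem_range, not_lt] at hi
  rw [Nat.choose_eq_zero_of_lt (by omega)]
  simp

theorem ev_inj {d : ℕ} {ι : Type} {p q : PV d ι} (h : ∀ x j, ev p x j = ev q x j) : p = q := by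
  funext i j
  have key : ∀ r : PV d ι, ∀ x, ev r x j =
      (∑ l : Fin d, Polynomial.C (r l j) * Polynomial.X ^ (l : ℕ) : Polynomial ℝ).eval x := by
    intro r x
    simp only [ev, Polynomial.eval_finsetSum, Polynomial.eval_mul, Polynomial.eval_C,
      Polynomial.eval_pow, Polynomial.eval_X]
  have hpoly : (∑ l : Fin d, Polynomial.C (p l j) * Polynomial.X ^ (l : ℕ) : Polynomial ℝ) =
      ∑ l : Fin d, Polynomial.C (q l j) * Polynomial.X ^ (l : ℕ) := by
    refine Polynomial.funext fun x => ?_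
    rw [← key, ← key, h]
  have hco : ∀ r : PV d ι, (∑ l : Fin d, Polynomial.C (r l j) * Polynomial.X ^ (l : ℕ) :
      Polynomial ℝ).coeff i = r i j := by
    intro r
    rw [Polynomial.finsetSum_coeff]
    simp only [Polynomial.coeff_C_mul_X_pow]
    rw [Finset.sum_eq_single i]
    · simp
    · intro l _ hl
      rw [if_neg]
      intro h
      exact hl (Fin.ext h.symm)
    · intro h; exact absurd (Finset.mem_univ _) h
  rw [← hco p, ← hco q, hpoly]

theorem ev_add {d : ℕ} {ι : Type} (p q : PV d ι) (x : ℝ) (j : ι) :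
    ev (p + q) x j = ev p x j + ev q x j := by
  simp only [ev, Pi.add_apply, add_mul, Finset.sum_add_distrib]

theorem ev_neg {d : ℕ} {ι : Type} (p : PV d ι) (x : ℝ) (j : ι) : ev (-p) x j = - ev p x j := by
  simp only [ev, Pi.neg_apply, neg_mul, Finset.sum_neg_distrib]

theorem ev_zero {d : ℕ} {ι : Type} (x : ℝ) (j : ι) : ev (0 : PV d ι) x j = 0 := by
  simp [ev]

theorem sft_add {d : ℕ} {ι : Type} (t : ℝ) (p q : PV d ι) : sft t (p + q) = sft t p + sft t q :=
  ev_inj fun x j => by rw [ev_sft, ev_add, ev_add, ev_sft, ev_sft]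

theorem sft_neg {d : ℕ} {ι : Type} (t : ℝ) (p : PV d ι) : sft t (-p) = - sft t p :=
  ev_inj fun x j => by rw [ev_sft, ev_neg, ev_neg, ev_sft]

theorem sft_zero_left {d : ℕ} {ι : Type} (p : PV d ι) : sft 0 p = p :=
  ev_inj fun x j => by rw [ev_sft, add_zero]

theorem sft_zero_right {d : ℕ} {ι : Type} (t : ℝ) : sft t (0 : PV d ι) = 0 :=
  ev_inj fun x j => by rw [ev_sft, ev_zero, ev_zero]

theorem sft_sft {d : ℕ} {ι : Type} (s t : ℝ) (p : PV d ι) : sft s (sft t p) = sft (s + t) p :=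
  ev_inj fun x j => by rw [ev_sft, ev_sft, ev_sft, add_assoc]

/-- the group: `ℝ` acting on polynomials by translation -/
def PG (d : ℕ) (ι : Type) : Type := ℝ × PV d ι

namespace PG

section basic

variable {d : ℕ} {ι : Type}

/-- coordinates -/
def v (a : PG d ι) : ℝ × PV d ι := a

/-- element with given coordinates -/
def mk (a : ℝ × PV d ι) : PG d ι := a

theorem v_mk (a : ℝ × PV d ι) : (mk a).v = a := rfl

theorem mk_v (a : PG d ι) : mk a.v = a := rfl

theorem ext' {a b : PG d ι} (h1 : a.v.1 = b.v.1) (h2 : a.v.2 = b.v.2) : a = b :=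
  Prod.ext h1 h2

instance : Mul (PG d ι) := ⟨fun a b => mk (a.v.1 + b.v.1, a.v.2 + sft a.v.1 b.v.2)⟩
instance : One (PG d ι) := ⟨mk (0, 0)⟩
instance : Inv (PG d ι) := ⟨fun a => mk (-a.v.1, - sft (-a.v.1) a.v.2)⟩

theorem mul_v (a b : PG d ι) : (a * b).v = (a.v.1 + b.v.1, a.v.2 + sft a.v.1 b.v.2) := rfl
theorem one_v : (1 : PG d ι).v = (0, 0) := rfl
theorem inv_v (a : PG d ι) : (a⁻¹).v = (-a.v.1, - sft (-a.v.1) a.v.2) := rfl

instance : Group (PG d ι) :=
  Group.ofLeftAxioms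
    (fun a b c => by
      refine ext' ?_ ?_
      · simp only [mul_v, add_assoc]
      · simp only [mul_v, sft_add, sft_sft, add_assoc])
    (fun a => by
      refine ext' ?_ ?_
      · simp only [mul_v, one_v, zero_add]
      · simp only [mul_v, one_v, sft_zero_left, zero_add])
    (fun a => by
      refine ext' ?_ ?_
      · simp only [mul_v, one_v, inv_v, neg_add_cancel]
      · simp only [mul_v, one_v, inv_v, neg_add_cancel])

instance : TopologicalSpace (PG d ι) := inferInstanceAs (TopologicalSpace (ℝ × PV d ι))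

theorem continuous_v : Continuous (v : PG d ι → ℝ × PV d ι) := continuous_id

theorem continuous_mk : Continuous (mk : ℝ × PV d ι → PG d ι) := continuous_id

instance : T2Space (PG d ι) := inferInstanceAs (T2Space (ℝ × PV d ι))

end basic

section lie

variable {d : ℕ} {ι : Type} [Fintype ι]

instance : ChartedSpace (ℝ × PV d ι) (PG d ι) :=
  inferInstanceAs (ChartedSpace (ℝ × PV d ι) (ℝ × PV d ι))

instance : IsManifold 𝓘(ℝ, ℝ × PV d ι) ∞ (PG d ι) :=
  inferInstanceAs (IsManifold 𝓘(ℝ, ℝ × PV d ι) ∞ (ℝ × PV d ι))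

theorem contDiff_sft {X : Type*} [NormedAddCommGroup X] [NormedSpace ℝ X] {f : X → ℝ}
    {g : X → PV d ι} (hf : ContDiff ℝ ∞ f) (hg : ContDiff ℝ ∞ g) :
    ContDiff ℝ ∞ (fun x => sft (f x) (g x)) := by
  refine contDiff_pi.2 fun i => contDiff_pi.2 fun j => ?_
  simp only [sft]
  refine ContDiff.sum fun l _ => ?_
  have h1 : ContDiff ℝ ∞ (fun x => g x l j) := contDiff_pi.1 (contDiff_pi.1 hg l) j
  exact (contDiff_const.mul (hf.pow _)).mul h1

instance : LieGroup 𝓘(ℝ, ℝ × PV d ι) ∞ (PG d ι) where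
  contMDiff_mul := by
    have h : ContDiff ℝ ∞ (fun p : (ℝ × PV d ι) × (ℝ × PV d ι) =>
        ((p.1.1 + p.2.1, p.1.2 + sft p.1.1 p.2.2) : ℝ × PV d ι)) := by
      have h1 : ContDiff ℝ ∞ (fun p : (ℝ × PV d ι) × (ℝ × PV d ι) => sft p.1.1 p.2.2) :=
        contDiff_sft (by fun_prop) (by fun_prop)
      exact (by fun_prop : ContDiff ℝ ∞ (fun p : (ℝ × PV d ι) × (ℝ × PV d ι) =>
        p.1.1 + p.2.1)).prodMk ((by fun_prop : ContDiff ℝ ∞ (fun p : (ℝ × PV d ι) × (ℝ × PV d ι) =>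
        p.1.2)).add h1)
    have h2 := h.contMDiff
    rw [modelWithCornersSelf_prod, ← chartedSpaceSelf_prod] at h2
    exact h2
  contMDiff_inv := by
    have h : ContDiff ℝ ∞ (fun p : (ℝ × PV d ι) =>
        ((-p.1, - sft (-p.1) p.2) : ℝ × PV d ι)) := by
      have h1 : ContDiff ℝ ∞ (fun p : (ℝ × PV d ι) => sft (-p.1) p.2) :=
        contDiff_sft (by fun_prop) (by fun_prop)
      exact (by fun_prop : ContDiff ℝ ∞ (fun p : (ℝ × PV d ι) => -p.1)).prodMk h1.neg
    exact h.contMDiff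

instance : IsTopologicalGroup (PG d ι) := topologicalGroup_of_lieGroup 𝓘(ℝ, ℝ × PV d ι) ∞

end lie

end PG

end Pool.Agent.V11108.N
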