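import Mathlib

/-!
# One-sided sequence spaces with the ultrametric `2^{-first difference}`
-/

namespace Pool.Agent.V11108.Sq

open Set Topology

/-- sequences over the alphabet `A` -/
def Sq (A : Type) := ℕ → A

variable {A : Type} [TopologicalSpace A] [DiscreteTopology A]

noncomputable instance : MetricSpace (Sq A) := PiNat.metricSpace (E := fun _ => A)

lemma dist_triangle_na (x y z : Sq A) : dist x z ≤ max (dist x y) (dist y z) :=
  PiNat.dist_triangle_nonarch (E := fun _ => A) x y z

instance : IsUltrametricDist (Sq A) := ⟨dist_triangle_na⟩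

instance [Finite A] : CompactSpace (Sq A) :=
  inferInstanceAs (CompactSpace (ℕ → A))

lemma dist_le_one (x y : Sq A) : dist x y ≤ 1 := PiNat.dist_le_one (E := fun _ => A) x y

lemma dist_le_iff (x y : Sq A) (n : ℕ) : dist x y ≤ (1 / 2) ^ n ↔ ∀ i < n, x i = y i :=
  (PiNat.mem_cylinder_iff_dist_le (E := fun _ => A)).symm.trans PiNat.mem_cylinder_iff

lemma apply_eq {x y : Sq A} {n : ℕ} (h : dist x y < (1 / 2) ^ n) {i : ℕ} (hi : i ≤ n) :
    x i = y i := PiNat.apply_eq_of_dist_lt (E := fun _ => A) h hi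

lemma dist_lt_of_agree {x y : Sq A} {n : ℕ} (h : ∀ i ≤ n, x i = y i) :
    dist x y < (1 / 2) ^ n := by
  have h1 : dist x y ≤ (1 / 2) ^ (n + 1) := (dist_le_iff x y (n + 1)).2 fun i hi => h i (by omega)
  refine lt_of_le_of_lt h1 ?_
  rw [pow_succ]
  have : (0 : ℝ) < (1 / 2) ^ n := by positivity
  linarith

lemma dist_lt_iff (x y : Sq A) (n : ℕ) : dist x y < (1 / 2) ^ n ↔ ∀ i ≤ n, x i = y i :=
  ⟨fun h _ hi => apply_eq h hi, dist_lt_of_agree⟩

lemma dist_eq_one {x y : Sq A} (h : x 0 ≠ y 0) : dist x y = 1 := by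
  refine le_antisymm (dist_le_one x y) ?_
  by_contra hcon
  push Not at hcon
  have : dist x y < (1 / 2) ^ 0 := by simpa using hcon
  exact h (apply_eq this (le_refl 0))

/-- the shift -/
def sh (x : Sq A) : Sq A := fun n => x (n + 1)

lemma sh_iter (x : Sq A) (k n : ℕ) : (sh^[k] x) n = x (n + k) := by
  induction k generalizing x with
  | zero => rfl
  | succ k ih =>
    rw [Function.iterate_succ_apply, ih]
    show x (n + k + 1) = x (n + (k + 1))
    rfl

lemma sh_cont : Continuous (sh (A := A)) :=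
  continuous_pi fun n => continuous_apply (n + 1)

lemma exists_pow_lt {δ : ℝ} (hδ : 0 < δ) : ∃ n : ℕ, (1 / 2 : ℝ) ^ n < δ :=
  exists_pow_lt_of_lt_one hδ (by norm_num)

lemma sh_lip (x y : Sq A) : dist (sh x) (sh y) ≤ 2 * dist x y := by
  by_contra hcon
  push Not at hcon
  by_cases hxy : x = y
  · subst hxy; simp at hcon
  · have hpos : 0 < dist x y := dist_pos.2 hxy
    -- the scale of `dist x y`
    have hne : ∃ n, x n ≠ y n := by
      by_contra h; push Not at h; exact hxy (funext h)
    classical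
    obtain ⟨n, hn, hmin⟩ : ∃ n, x n ≠ y n ∧ ∀ k < n, x k = y k :=
      ⟨Nat.find hne, Nat.find_spec hne, fun k hk => by
        have := Nat.find_min hne hk; push Not at this; exact this⟩
    have h1 : (1 / 2 : ℝ) ^ n ≤ dist x y := by
      by_contra h
      push Not at h
      exact hn (apply_eq h (le_refl n))
    have h2 : dist (sh x) (sh y) ≤ (1 / 2) ^ (n - 1) :=
      (dist_le_iff _ _ _).2 fun i hi => hmin (i + 1) (by omega)
    rcases Nat.eq_zero_or_pos n with rfl | hn0
    · have h3 := dist_le_one (sh x) (sh y)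
      simp only [pow_zero] at h1
      linarith
    · obtain ⟨m, rfl⟩ : ∃ m, n = m + 1 := ⟨n - 1, by omega⟩
      rw [Nat.add_sub_cancel] at h2
      rw [pow_succ] at h1
      linarith

lemma continuous_coord (n : ℕ) : Continuous fun x : Sq A => x n := continuous_apply n

end Pool.Agent.V11108.Sq
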